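import Pool.Agent.Work.MP_499dc6_lc.Fib.RcC

/-!
# Row and column functions in circuits of bounded depth: the final inequality
-/

namespace Pool.Agent.Work.MP_499dc6_lc.Fib

open MvPolynomial Finset
open Pool.Agent.Work.MP_499dc6_lc.CD
open Pool.Agent.Work.MP_499dc6_lc.D3

open scoped PowerSeries

/-- The main inequality for given parameters. -/
theorem Rc_ineq (k : Type) [Field k] [CharZero k] (N s h r e : ℕ)
    (F : Fin s → MvPolynomial (Fin N × Fin N) (LaurentSeries k)) (d : Fin s → ℕ)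
    (c : Fin s → LaurentSeries k) (R : MvPolynomial (Fin N × Fin N) k⟦X⟧)
    (n kk : ℕ) (P : ℝ) (ρ : ℕ → ℝ) (t : ℕ → ℕ) (hC : CktR r e F d) (hd : ∀ i, d i ≤ h)
    (l0 U0 : MvPolynomial (Fin N × Fin N) (LaurentSeries k)) (hU0 : IsRCsum U0)
    (hsum : l0 + U0 + ∑ i, C (c i) * F i =
      MvPolynomial.map (algebraMap k⟦X⟧ (LaurentSeries k)) (gperm k⟦X⟧ N + C PowerSeries.X * R))
    (hk : 1 ≤ kk) (hn : 3 * kk ≤ n) (hN : 4 * (2 * n + kk) ≤ N)
    (hl0 : l0.totalDegree < 2 * (n + kk) + 2 * n)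
    (hPars : Pars (Real.log (3 / 2)) (Real.log (3 / 2) * (n + kk) / n) (s + 1) e
      (2 * (n + kk) + 2 * n) h P ρ t)
    (hP2 : 3 * (((2 * (n + kk) + 2 * n : ℕ) : ℝ) + 1) ^ 2 *
      (((2 * (n + kk) + 2 * n : ℕ) : ℝ) + 1) ^ (6 * r + 10) ≤ P) :
    1 ≤ s ∧ ρ h * ((2 * (n + kk) + 2 * n : ℕ) : ℝ) ≤
      Real.log (1000 * ((2 * (n + kk) + 1 : ℕ) : ℝ) ^ 8) + Real.log s + Real.log P := by
  classical
  have hal : 0 < Real.log (3 / 2 : ℝ) := Real.log_pos (by norm_num)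
  have hn1 : 3 ≤ n := by omega
  obtain ⟨m, hm⟩ : ∃ m, m = n + kk := ⟨_, rfl⟩
  have hm1 : 4 ≤ m := by omega
  obtain ⟨L, hL⟩ : ∃ L, L + 2 * m = 2 * ((2 * m) ^ 2 - 1) := by
    refine ⟨2 * ((2 * m) ^ 2 - 1) - 2 * m, Nat.sub_add_cancel ?_⟩
    have : 2 * m + 1 ≤ (2 * m) ^ 2 := by nlinarith
    omega
  obtain ⟨be, hbe⟩ : ∃ be : ℝ, be = Real.log (3 / 2) * (n + kk) / n := ⟨_, rfl⟩
  have hnR : (0 : ℝ) < n := by exact_mod_cast (by omega : 0 < n)
  have hbe0 : 0 < be := by rw [hbe]; positivity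
  obtain ⟨q, hq1, hq2⟩ := ell ((2 * n) ^ 2) be (by nlinarith) hbe0
  rw [hbe] at hq1 hq2
  obtain ⟨A, -, hlow⟩ := Ineq_set mainRankA n kk L q 0 0 (fun i => i.elim0) hn hk
    (by rw [← hm]; exact hL) (by push_cast at hq1 ⊢; exact hq1) (by norm_num)
  obtain ⟨R', hBB⟩ := Rc_upper k N s h r e F d c R n kk P ρ t hC hd l0 U0 hU0 hsum hk hn hN
    hl0 hPars hP2 A
  have hlow2 := @D3.pr_RankK D3.pr_Minor (CY n kk × CY n kk) (CZ n × CZ n) _ _ _ _ k _ _
    (PA ℤ n kk A) R' (L + 2 * (n + kk)) q L (q + 2 * n)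
  rw [(pr_PA n kk A).2.2, (pr_PA n kk A).2.2] at hlow2
  have : Nonempty (CY n kk × CY n kk) :=
    ⟨(Sum.inl (true, ⟨0, by omega⟩), Sum.inl (true, ⟨0, by omega⟩))⟩
  have : Nonempty (CZ n × CZ n) :=
    ⟨((true, ⟨0, by omega⟩), (true, ⟨0, by omega⟩))⟩
  have hcY : Fintype.card (CY n kk × CY n kk) = (2 * (n + kk)) ^ 2 := by
    rw [Fintype.card_prod, card_CY, sq]
  have hcZ : Fintype.card (CZ n × CZ n) = (2 * n) ^ 2 := by
    rw [Fintype.card_prod, card_CZ, sq]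
  obtain ⟨E, hE⟩ : ∃ E : ℝ, E = Real.exp (-(ρ h * ((2 * (n + kk) + 2 * n : ℕ) : ℝ))) := ⟨_, rfl⟩
  rw [← hE] at hBB
  have hupp := mainBBrank _ _ (LaurentSeries k) _ _ _ _ L q (2 * (n + kk)) (2 * n) (by omega)
    (by
      rw [hcY, ← hm, Real.exp_log (by norm_num)]
      have h5 : ((L : ℝ) + ((2 * m : ℕ) : ℝ)) = 2 * (((2 * m : ℕ) : ℝ) ^ 2 - 1) := by
        have h6 : ((L + 2 * m : ℕ) : ℝ) = ((2 * ((2 * m) ^ 2 - 1) : ℕ) : ℝ) := by rw [hL]
        rw [Nat.cast_add, Nat.cast_mul 2 ((2 * m) ^ 2 - 1), Nat.cast_sub (Nat.one_le_pow _ _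
          (by omega)), Nat.cast_pow] at h6
        push_cast at h6 ⊢
        exact h6
      rw [h5]
      have h7 : (8 : ℝ) ≤ ((2 * m : ℕ) : ℝ) := by exact_mod_cast (by omega : 8 ≤ 2 * m)
      have h8 : (1 : ℝ) < ((2 * m : ℕ) : ℝ) ^ 2 := by nlinarith
      rw [le_div_iff₀ (by linarith)]
      push_cast
      linarith)
    (by rw [hcZ]; exact hq2) hBB
  rw [hcY, hcZ] at hupp
  have hexp0 : Real.exp (-(((2 * (n + kk) : ℕ) : ℝ) * Real.log (3 / 2) -
      ((2 * n : ℕ) : ℝ) * (Real.log (3 / 2) * (n + kk) / n)) / 2) = 1 := by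
    rw [Real.exp_eq_one_iff]
    have hw0 : (n : ℝ) ≠ 0 := hnR.ne'
    push_cast
    field_simp
    ring
  rw [hexp0, mul_one] at hupp
  obtain ⟨W, hW⟩ : ∃ W : ℝ, W = (TT ((2 * (n + kk)) ^ 2) (L + 2 * (n + kk)) : ℝ) *
    TT ((2 * n) ^ 2) q := ⟨_, rfl⟩
  have hWpos : 0 < W := by
    rw [hW]
    apply mul_pos
    · exact_mod_cast D3.TT_pos (Nat.one_le_pow _ _ (by omega))
    · exact_mod_cast D3.TT_pos (Nat.one_le_pow _ _ (by omega))
  obtain ⟨X, hX⟩ : ∃ X : ℝ, X = 1000 * ((2 * (n + kk) + 1 : ℕ) : ℝ) ^ 8 := ⟨_, rfl⟩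
  have hXpos : 0 < X := by rw [hX]; positivity
  rw [← hW, ← hX] at hlow
  rw [← hW] at hupp
  have hEpos : 0 < E := by rw [hE]; exact Real.exp_pos _
  have hPpos : 0 < P := lt_of_lt_of_le (by positivity) hP2
  have h9 : W ≤ W * (s * P * E) * X := by
    refine hlow.trans ?_
    apply mul_le_mul_of_nonneg_right _ hXpos.le
    exact (Nat.cast_le.mpr hlow2).trans hupp
  have h10 : 1 ≤ (s * P * E) * X := by
    rw [mul_assoc] at h9
    exact le_of_mul_le_mul_left (by linarith) hWpos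
  have hS : 1 ≤ s := by
    by_contra hcon
    have : s = 0 := by omega
    rw [this] at h10
    norm_num at h10
  have hSpos : (0 : ℝ) < s := by exact_mod_cast (by omega : 0 < s)
  have h11 := Real.log_le_log one_pos h10
  rw [Real.log_one, Real.log_mul (by positivity) (by positivity), Real.log_mul (by positivity)
    (by positivity), Real.log_mul (by positivity) (by positivity), hE,
    Real.log_exp, hX] at h11
  exact ⟨hS, by linarith⟩

/-- The choice of `lam`. -/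
theorem Rc_lam (s r e N dd m : ℕ) (lam P : ℝ) (hs : 1 ≤ s) (hN : 2 ≤ N) (hdd : dd + 1 ≤ N)
    (hm : m + 1 ≤ N) (hlam : lam = 32 * (Real.log s + (r + 1) * Real.log N + e))
    (hP : P = 3 * ((dd : ℝ) + 1) ^ 2 * ((dd : ℝ) + 1) ^ (6 * r + 10)) :
    1 ≤ lam ∧ (e : ℝ) ≤ lam ∧ ((s + 1 : ℕ) : ℝ) * P ≤ Real.exp lam ∧ 2 * Real.log ((dd : ℝ) + 1) ≤ lam ∧
      Real.log (1000 * ((m + 1 : ℕ) : ℝ) ^ 8) + Real.log s + Real.log P ≤ lam := by
  have hs' : (1 : ℝ) ≤ s := by exact_mod_cast hs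
  have hs0 : (0 : ℝ) < s := by linarith
  have hN' : (2 : ℝ) ≤ N := by exact_mod_cast hN
  have hm' : ((m + 1 : ℕ) : ℝ) ≤ N := by exact_mod_cast hm
  have hm0 : (0 : ℝ) < ((m + 1 : ℕ) : ℝ) := by positivity
  have hdd' : (dd : ℝ) + 1 ≤ N := by exact_mod_cast hdd
  have hdd0 : (0 : ℝ) < (dd : ℝ) + 1 := by positivity
  have l1 := Real.log_two_gt_d9
  have l2 := Real.log_two_lt_d9
  have ls0 : 0 ≤ Real.log s := Real.log_nonneg hs'
  have lN : Real.log 2 ≤ Real.log N := Real.log_le_log (by norm_num) hN'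
  have hr0 : (0 : ℝ) ≤ r := Nat.cast_nonneg r
  have he0 : (0 : ℝ) ≤ e := Nat.cast_nonneg e
  have hrL : 0 ≤ (r : ℝ) * Real.log N := by
    apply mul_nonneg hr0
    linarith
  have hrl : (r : ℝ) * Real.log 2 ≤ (r : ℝ) * Real.log N := mul_le_mul_of_nonneg_left lN hr0
  have hlam' : lam = 32 * Real.log s + 32 * ((r : ℝ) * Real.log N) + 32 * Real.log N +
      32 * e := by
    rw [hlam]
    ring
  have ldd : Real.log ((dd : ℝ) + 1) ≤ Real.log N := Real.log_le_log hdd0 hdd'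
  have ldd0 : 0 ≤ Real.log ((dd : ℝ) + 1) := Real.log_nonneg (by
    have : (0 : ℝ) ≤ dd := Nat.cast_nonneg dd
    linarith)
  have lm : Real.log ((m + 1 : ℕ) : ℝ) ≤ Real.log N := Real.log_le_log hm0 hm'
  have hP0 : 0 < P := by
    rw [hP]
    positivity
  have l3 : Real.log 3 ≤ 1.6 * Real.log 2 := by
    have h1 : (5 : ℝ) * Real.log 3 = Real.log (3 ^ 5) := by
      rw [Real.log_pow]
      norm_num
    have h2 : (8 : ℝ) * Real.log 2 = Real.log (2 ^ 8) := by
      rw [Real.log_pow]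
      norm_num
    have h3 : Real.log (3 ^ 5) ≤ Real.log ((2 : ℝ) ^ 8) :=
      Real.log_le_log (by norm_num) (by norm_num)
    linarith
  have lP : Real.log P ≤ 6 * ((r : ℝ) * Real.log N) + 13.6 * Real.log N := by
    rw [hP, Real.log_mul (by positivity) (by positivity), Real.log_mul (by positivity)
      (by positivity), Real.log_pow, Real.log_pow]
    push_cast
    have h1 : (6 * (r : ℝ) + 10) * Real.log ((dd : ℝ) + 1) ≤
        (6 * (r : ℝ) + 10) * Real.log N := mul_le_mul_of_nonneg_left ldd (by positivity)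
    have h6 : (6 * (r : ℝ) + 10) * Real.log N = 6 * ((r : ℝ) * Real.log N) + 10 * Real.log N := by
      ring
    linarith
  refine ⟨?_, ?_, ?_, ?_, ?_⟩
  · rw [hlam']
    linarith
  · rw [hlam']
    linarith
  · have h1 : ((s + 1 : ℕ) : ℝ) * P ≤ Real.exp (Real.log s + Real.log 2 + Real.log P) := by
      rw [Real.exp_add, Real.exp_add, Real.exp_log hs0, Real.exp_log hP0,
        Real.exp_log (by norm_num)]
      refine mul_le_mul_of_nonneg_right ?_ hP0.le
      push_cast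
      linarith
    refine h1.trans ?_
    apply Real.exp_le_exp.mpr
    rw [hlam']
    linarith
  · rw [hlam']
    linarith
  · have h1 : Real.log (1000 * ((m + 1 : ℕ) : ℝ) ^ 8) ≤ 10 * Real.log 2 + 8 * Real.log N := by
      rw [Real.log_mul (by positivity) (by positivity), Real.log_pow]
      have h2 : Real.log 1000 ≤ 10 * Real.log 2 := by
        have : (10 : ℝ) * Real.log 2 = Real.log (2 ^ 10) := by
          rw [Real.log_pow]
          norm_num
        rw [this]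
        exact Real.log_le_log (by norm_num) (by norm_num)
      push_cast at lm ⊢
      linarith
    rw [hlam']
    linarith

/-- **The theorem.** `h + 2` is the depth. -/
theorem Rc_fin (k : Type) [Field k] [CharZero k] (N s h r e : ℕ)
    (F : Fin s → MvPolynomial (Fin N × Fin N) (LaurentSeries k)) (d : Fin s → ℕ)
    (c : Fin s → LaurentSeries k) (R : MvPolynomial (Fin N × Fin N) k⟦X⟧) (hN : 2 ≤ N)
    (hF : CktR r e F d) (hd : ∀ i, d i ≤ h)
    (l0 U0 : MvPolynomial (Fin N × Fin N) (LaurentSeries k)) (hl0 : l0.totalDegree ≤ e)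
    (hU0 : IsRCsum U0)
    (hsum : l0 + U0 + ∑ i, C (c i) * F i =
      MvPolynomial.map (algebraMap k⟦X⟧ (LaurentSeries k)) (gperm k⟦X⟧ N + C PowerSeries.X * R)) :
    (N : ℝ) ≤ (11000 * (Real.log s + (r + 1) * Real.log N + e)) ^ (Nat.fib (h + 3) - 1) := by
  obtain ⟨lam, hlam⟩ : ∃ lam : ℝ, lam = 32 * (Real.log s + (r + 1) * Real.log N + e) := ⟨_, rfl⟩
  have hlN : Real.log 2 ≤ Real.log N := Real.log_le_log (by norm_num) (by exact_mod_cast hN)
  have hl2 := Real.log_two_gt_d9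
  have hrN : 0 ≤ (r : ℝ) * Real.log N := mul_nonneg (Nat.cast_nonneg r) (by linarith)
  have he0 : (0 : ℝ) ≤ e := Nat.cast_nonneg e
  have hls : 0 ≤ Real.log s := by
    rcases Nat.eq_zero_or_pos s with h0 | h0
    · rw [h0]; simp
    · exact Real.log_nonneg (by exact_mod_cast h0)
  have hx : 0 ≤ Real.log s + (r + 1) * Real.log N + e := by
    have : (0 : ℝ) ≤ (r + 1) * Real.log N := by linarith
    linarith
  have h1lam : 1 ≤ lam := by
    rw [hlam]
    linarith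
  have helam : (e : ℝ) ≤ lam := by
    rw [hlam]
    linarith
  rcases Nat.eq_zero_or_pos h with hh | hh
  · -- depth two
    subst hh
    have hfib : Nat.fib (0 + 3) - 1 = 1 := by decide
    rw [hfib, pow_one]
    obtain ⟨g, hg⟩ : ∃ g, g = N / 28 := ⟨_, rfl⟩
    have hg1 : 28 * g ≤ N := by rw [hg]; exact Nat.mul_div_le N 28
    have hg2 : N < 28 * (g + 1) := by rw [hg]; omega
    have hg2R : (N : ℝ) < 28 * (g + 1) := by exact_mod_cast hg2
    have hgl : (g : ℝ) ≤ lam := by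
      rcases Nat.eq_zero_or_pos g with h0 | h0
      · rw [h0]
        push_cast
        linarith
      by_cases hle : l0.totalDegree < 2 * (3 * g + g) + 2 * (3 * g)
      swap
      · have h5 : g ≤ e := by omega
        have h6 : (g : ℝ) ≤ e := by exact_mod_cast h5
        linarith
      obtain ⟨dd, hdd⟩ : ∃ dd, dd = 2 * (3 * g + g) + 2 * (3 * g) := ⟨_, rfl⟩
      obtain ⟨P, hP⟩ : ∃ P : ℝ, P = 3 * ((dd : ℝ) + 1) ^ 2 * ((dd : ℝ) + 1) ^ (6 * r + 10) :=
        ⟨_, rfl⟩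
      have hal : 0 < Real.log (3 / 2 : ℝ) := Real.log_pos (by norm_num)
      have hpars : Pars (Real.log (3 / 2)) (Real.log (3 / 2) * (((3 * g : ℕ) : ℝ) + (g : ℕ)) /
          ((3 * g : ℕ) : ℝ)) (s + 1) e dd 0 P (fun _ => Real.log (3 / 2) / 4) (fun _ => 0) :=
        ⟨rfl, fun _ _ => by positivity, fun j hj => absurd hj (Nat.not_lt_zero _),
          fun j hj => absurd hj (Nat.not_lt_zero _), fun j hj => absurd hj (Nat.not_lt_zero _),
          fun j hj => absurd hj (Nat.not_lt_zero _), fun j hj => absurd hj (Nat.not_lt_zero _)⟩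
      have hP2 : 3 * ((dd : ℝ) + 1) ^ 2 * ((dd : ℝ) + 1) ^ (6 * r + 10) ≤ P := hP.ge
      rw [hdd] at hpars hP2
      obtain ⟨hs, hI⟩ := Rc_ineq k N s 0 r e F d c R (3 * g) g P (fun _ => Real.log (3 / 2) / 4)
        (fun _ => 0) hF hd l0 U0 hU0 hsum h0 le_rfl (by omega) hle hpars hP2
      obtain ⟨-, -, -, -, l5⟩ := Rc_lam s r e N dd (2 * (3 * g + g)) lam P hs hN (by omega)
        (by omega) hlam hP
      have h5 := hI.trans l5
      have h6 : (14 : ℝ) * g ≤ ((2 * (3 * g + g) + 2 * (3 * g) : ℕ) : ℝ) := by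
        push_cast
        linarith
      have ha := Par_log_ge
      have hg0 : (0 : ℝ) ≤ g := Nat.cast_nonneg g
      have h7 : (1 / 10 : ℝ) * (14 * g) ≤ Real.log (3 / 2) / 4 *
          ((2 * (3 * g + g) + 2 * (3 * g) : ℕ) : ℝ) :=
        mul_le_mul (by linarith) h6 (by positivity) (by positivity)
      have h8 : (1 / 10 : ℝ) * (14 * g) ≤ lam := h7.trans h5
      linarith
    have hfin : (N : ℝ) ≤ 56 * lam := by linarith
    rw [hlam] at hfin
    linarith
  · obtain ⟨Λ, hΛ⟩ : ∃ Λ : ℕ, Λ = ⌈330 * lam⌉₊ := ⟨_, rfl⟩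
    have hΛ4 : 4 ≤ Λ := by
      have h1 : (4 : ℝ) ≤ Λ := by
        rw [hΛ]
        exact le_trans (by linarith) (Nat.le_ceil (330 * lam))
      exact_mod_cast h1
    obtain ⟨q1, -, -, q4, q5, -, -⟩ := pr_Qs Λ hΛ4
    have key : ∀ g : ℕ, 1 ≤ g → 10 * g * qs Λ (h + 1) ≤ N →
        Real.log (3 / 2) / (16 * qs Λ h * qs Λ (h + 1)) * (4 * g * qs Λ (h + 1)) ≤ lam := by
      intro g hg hgN
      have hq : 1 ≤ qs Λ (h + 1) := q1 (h + 1) (by omega)
      have hqh : 1 ≤ qs Λ h := q1 h hh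
      have hqp : qs Λ (h + 1) < ps Λ (h + 1) := q4 (h + 1) (by omega)
      obtain ⟨-, h3q⟩ := q5 (h + 1) (by omega)
      obtain ⟨b, hb⟩ := Nat.exists_eq_add_of_lt hqp
      obtain ⟨Q, hQ⟩ : ∃ Q : ℕ, Q = qs Λ (h + 1) := ⟨_, rfl⟩
      rw [← hQ] at hq hqp h3q hb hgN ⊢
      have hb' : ps Λ (h + 1) - Q = b + 1 := by omega
      rw [hb'] at h3q
      obtain ⟨n, hn⟩ : ∃ n : ℕ, n = g * Q := ⟨_, rfl⟩
      obtain ⟨kk, hkk⟩ : ∃ kk : ℕ, kk = g * (b + 1) := ⟨_, rfl⟩
      have hn1 : 1 ≤ n := by rw [hn]; exact Nat.mul_pos hg hq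
      have hkk1 : 1 ≤ kk := by rw [hkk]; exact Nat.mul_pos hg (Nat.succ_pos b)
      have h3k : 3 * kk ≤ n := by
        rw [hkk, hn]
        calc 3 * (g * (b + 1)) = g * (3 * (b + 1)) := by ring
          _ ≤ g * Q := Nat.mul_le_mul_left g h3q
      have hnk : n + kk = g * ps Λ (h + 1) := by
        rw [hb, hn, hkk]
        ring
      have h10 : 10 * n ≤ N := by
        rw [hn]
        calc 10 * (g * Q) = 10 * g * Q := by ring
          _ ≤ N := hgN
      have hN4 : 4 * (2 * n + kk) ≤ N := by omega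
      have hle4 : 4 * g * Q ≤ 2 * (n + kk) + 2 * n := by
        calc 4 * g * Q = 4 * n := by rw [hn]; ring
          _ ≤ _ := by omega
      by_cases hle : l0.totalDegree < 2 * (n + kk) + 2 * n
      swap
      · -- the free input has large degree
        have h5 : 4 * g * Q ≤ e := by omega
        have h6 : (4 * g * Q : ℝ) ≤ e := by exact_mod_cast h5
        have h7 : Real.log (3 / 2) / (16 * qs Λ h * Q) ≤ 1 := by
          have hqhR : (1 : ℝ) ≤ qs Λ h := by exact_mod_cast hqh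
          have hQR : (1 : ℝ) ≤ Q := by exact_mod_cast hq
          have hl1 : Real.log (3 / 2) ≤ 1 := by
            have := Real.log_le_sub_one_of_pos (show (0 : ℝ) < 3 / 2 by norm_num)
            linarith
          rw [div_le_one (by positivity)]
          have : (1 : ℝ) ≤ qs Λ h * Q := one_le_mul_of_one_le_of_one_le hqhR hQR
          linarith
        have h8 : (0 : ℝ) ≤ 4 * g * Q := by positivity
        calc Real.log (3 / 2) / (16 * qs Λ h * Q) * (4 * g * Q) ≤ 1 * (4 * g * Q) :=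
              mul_le_mul_of_nonneg_right h7 h8
          _ ≤ lam := by linarith
      obtain ⟨dd, hdd⟩ : ∃ dd, dd = 2 * (n + kk) + 2 * n := ⟨_, rfl⟩
      have hddN : dd + 1 ≤ N := by omega
      have hm : 2 * (n + kk) + 1 ≤ N := by omega
      obtain ⟨P, hP⟩ : ∃ P : ℝ, P = 3 * ((dd : ℝ) + 1) ^ 2 * ((dd : ℝ) + 1) ^ (6 * r + 10) :=
        ⟨_, rfl⟩
      have hP2 : 3 * ((dd : ℝ) + 1) ^ 2 * ((dd : ℝ) + 1) ^ (6 * r + 10) ≤ P := hP.ge
      have hP0 : 0 ≤ P := le_trans (by positivity) hP2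
      have hs : 1 ≤ s := by
        rcases Nat.eq_zero_or_pos s with h0 | h0
        · exfalso
          have hpars0 : ∃ (ρ : ℕ → ℝ) (t : ℕ → ℕ), Pars (Real.log (3 / 2))
              (Real.log (3 / 2) * (n + kk) / n) (s + 1) e dd h P ρ t ∧
              ρ h = Real.log (3 / 2) / (16 * qs Λ h * qs Λ (h + 1)) := by
            subst h0
            obtain ⟨-, l3, l4, l5, -⟩ := Rc_lam 1 r e N dd (2 * (n + kk)) lam P le_rfl hN hddN hm
              (by rw [hlam]; simp) hP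
            refine mainPar lam P _ e dd h g n kk Λ h1lam hP0 hh hg hΛ (by rw [hn, hQ]) hnk l3
              (le_trans ?_ l4) l5
            refine mul_le_mul_of_nonneg_right ?_ hP0
            norm_num
          obtain ⟨ρ, t, hpars, -⟩ := hpars0
          rw [hdd] at hpars hP2
          have := (Rc_ineq k N s h r e F d c R n kk P ρ t hF hd l0 U0 hU0 hsum hkk1 h3k hN4 hle
            hpars hP2).1
          omega
        · exact h0
      obtain ⟨-, l3, l4, l5, l6⟩ := Rc_lam s r e N dd (2 * (n + kk)) lam P hs hN hddN hm hlam hP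
      obtain ⟨ρ, t, hpars, hρ⟩ := mainPar lam P (s + 1) e dd h g n kk Λ h1lam hP0 hh hg hΛ
        (by rw [hn, hQ]) hnk l3 l4 l5
      rw [hdd] at hpars hP2
      obtain ⟨-, hI⟩ := Rc_ineq k N s h r e F d c R n kk P ρ t hF hd l0 U0 hU0 hsum hkk1 h3k hN4
        hle hpars hP2
      have hρ0 : 0 ≤ ρ h := (hpars.pos h le_rfl).le
      rw [← hQ] at hρ
      rw [← hρ]
      have hle' : (4 * g * Q : ℝ) ≤ ((2 * (n + kk) + 2 * n : ℕ) : ℝ) := by exact_mod_cast hle4
      exact (mul_le_mul_of_nonneg_left hle' hρ0).trans (hI.trans l6)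
    have hfin := pr_Num pr_Qs lam h N Λ h1lam hh hΛ key
    refine hfin.trans (pow_le_pow_left₀ (by linarith) ?_ _)
    rw [hlam]
    nlinarith

end Pool.Agent.Work.MP_499dc6_lc.Fib
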