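import Pool.Agent.Work.MP_499dc6_lc.Fib.StmtsC

/-!
# Circuits of bounded depth, Fibonacci exponents: item CF (distance to the slope)
-/

set_option autoImplicit false

namespace Pool.Agent.Work.MP_499dc6_lc.Fib

open Finset

/-- The signed determinant with the last pair. -/
def CF_E (Λ h i : ℕ) : ℤ :=
  (-1) ^ (i + 1) * ((ps Λ (h + 1) : ℤ) * qs Λ i - (qs Λ (h + 1) : ℤ) * ps Λ i)

theorem CF_rec (Λ h i : ℕ) : CF_E Λ h (i + 1) =
    CF_E Λ h (i + 3) + Λ * qs Λ (i + 1) * CF_E Λ h (i + 2) := by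
  unfold CF_E
  have h1 : (qs Λ (i + 3) : ℤ) = Λ * qs Λ (i + 1) * qs Λ (i + 2) + qs Λ (i + 1) := by
    rw [qs]
    push_cast
    ring
  have h2 : (ps Λ (i + 3) : ℤ) = Λ * qs Λ (i + 1) * ps Λ (i + 2) + ps Λ (i + 1) := by
    rw [ps]
    push_cast
    ring
  rw [h1, h2]
  ring

theorem CF_pos (hQs : S_Qs) (Λ h : ℕ) (hΛ : 4 ≤ Λ) : ∀ k i, i + 1 + k = h →
    0 ≤ CF_E Λ h (i + 2) ∧ CF_E Λ h (i + 2) ≤ CF_E Λ h (i + 1) ∧ 1 ≤ CF_E Λ h (i + 1) := by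
  intro k
  induction k with
  | zero =>
    intro i hi
    rw [add_zero] at hi
    subst hi
    have h0 : CF_E Λ (i + 1) (i + 2) = 0 := by
      unfold CF_E
      ring
    have h1 : CF_E Λ (i + 1) (i + 1) = 1 := by
      unfold CF_E
      have h2 := (hQs Λ hΛ).2.2.2.2.2.1 (i + 1)
      have h3 : (ps Λ (i + 1 + 1) : ℤ) * qs Λ (i + 1) - (qs Λ (i + 1 + 1) : ℤ) * ps Λ (i + 1) =
          (-1) ^ (i + 1 + 1) := by
        rw [← h2]
        ring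
      rw [h3, ← mul_pow]
      norm_num
    rw [h0, h1]
    norm_num
  | succ k ih =>
    intro i hi
    obtain ⟨a1, a2, a3⟩ := ih (i + 1) (by omega)
    have b1 : CF_E Λ h (i + 1 + 1) = CF_E Λ h (i + 2) := rfl
    have b2 : CF_E Λ h (i + 1 + 2) = CF_E Λ h (i + 3) := rfl
    rw [b1, b2] at a2
    rw [b2] at a1
    rw [b1] at a3
    have h1 := CF_rec Λ h i
    have hq : (1 : ℤ) ≤ qs Λ (i + 1) := by exact_mod_cast (hQs Λ hΛ).1 (i + 1) (by omega)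
    have hΛ1 : (1 : ℤ) ≤ Λ := by
      have : 1 ≤ Λ := by omega
      exact_mod_cast this
    have hA : (1 : ℤ) ≤ Λ * qs Λ (i + 1) := by nlinarith
    have h2 : CF_E Λ h (i + 2) ≤ Λ * qs Λ (i + 1) * CF_E Λ h (i + 2) := by nlinarith
    exact ⟨by linarith, by linarith, by linarith⟩

theorem CF_key (a b Q P E p u v : ℤ) (ha1 : 1 ≤ a) (hb1 : 1 ≤ b) (hQ1 : 1 ≤ Q)
    (hDabs : |P * a - Q * p| = E) (hEb : E * b ≤ Q) (hEb2 : Q ≤ 2 * (E * b))
    (hub : 2 * (u + v) ≤ b) (hu0 : 0 ≤ u) (hv0 : 0 ≤ v) :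
    v * Q ≤ 2 * a * b * |u * Q - v * P| := by
  have h1 : a * (u * Q - v * P) = Q * (u * a - v * p) - v * (P * a - Q * p) := by ring
  have h2 : a * |u * Q - v * P| = |a * (u * Q - v * P)| := by
    rw [abs_mul, abs_of_nonneg (by linarith : (0 : ℤ) ≤ a)]
  by_cases hm : u * a - v * p = 0
  · have h3 : a * |u * Q - v * P| = v * E := by
      rw [h2, h1, hm, mul_zero, zero_sub, abs_neg, abs_mul, hDabs, abs_of_nonneg hv0]
    have h4 : 2 * a * b * |u * Q - v * P| = v * (2 * (E * b)) := by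
      calc 2 * a * b * |u * Q - v * P| = 2 * b * (a * |u * Q - v * P|) := by ring
        _ = v * (2 * (E * b)) := by
          rw [h3]
          ring
    rw [h4]
    exact mul_le_mul_of_nonneg_left hEb2 hv0
  · have h5 : 1 ≤ |u * a - v * p| := Int.one_le_abs hm
    have h6 : |Q * (u * a - v * p)| = Q * |u * a - v * p| := by
      rw [abs_mul, abs_of_nonneg (by linarith : (0 : ℤ) ≤ Q)]
    have h7 : |v * (P * a - Q * p)| = v * E := by
      rw [abs_mul, hDabs, abs_of_nonneg hv0]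
    have h3 : Q - v * E ≤ a * |u * Q - v * P| := by
      rw [h2, h1]
      have h8 := abs_sub_abs_le_abs_sub (Q * (u * a - v * p)) (v * (P * a - Q * p))
      rw [h6, h7] at h8
      have h14 : Q * 1 ≤ Q * |u * a - v * p| := mul_le_mul_of_nonneg_left h5 (by linarith)
      linarith
    have h9 : v * (E * b) ≤ v * Q := mul_le_mul_of_nonneg_left hEb hv0
    have h10 : b * (Q - v * E) ≤ b * (a * |u * Q - v * P|) :=
      mul_le_mul_of_nonneg_left h3 (by linarith)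
    have h15 : b * (Q - v * E) = b * Q - v * (E * b) := by ring
    have h16 : (2 * v) * Q ≤ b * Q := mul_le_mul_of_nonneg_right (by linarith) (by linarith)
    have h12 : 2 * a * b * |u * Q - v * P| = 2 * (b * (a * |u * Q - v * P|)) := by ring
    have h13 : 0 ≤ v * Q := mul_nonneg hv0 (by linarith)
    linarith

theorem CF_fin (a b Q P u v : ℤ) (ha1 : 1 ≤ a) (hb1 : 1 ≤ b) (hQ1 : 1 ≤ Q)
    (hPQ : P ≤ 2 * Q) (hu0 : 0 ≤ u) (hv0 : 0 ≤ v)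
    (key : v * Q ≤ 2 * a * b * |u * Q - v * P|) :
    (u + v) * Q ≤ 8 * a * b * |u * Q - v * P| := by
  rcases le_or_gt u (3 * v) with hc | hc
  · have h1 : (u + v) * Q ≤ (4 * v) * Q :=
      mul_le_mul_of_nonneg_right (by linarith) (by linarith)
    have h2 : 8 * a * b * |u * Q - v * P| = 4 * (2 * a * b * |u * Q - v * P|) := by ring
    linarith
  · have h1 : u * Q - v * P ≤ |u * Q - v * P| := le_abs_self _
    have h2 : v * P ≤ v * (2 * Q) := mul_le_mul_of_nonneg_left hPQ hv0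
    have h7 : (3 * v) * Q ≤ u * Q := mul_le_mul_of_nonneg_right hc.le (by linarith)
    have h3 : (u + v) * Q ≤ 4 * (u * Q - v * P) := by linarith
    have h4 : 1 * 1 ≤ a * b := mul_le_mul ha1 hb1 (by norm_num) (by linarith)
    have h5 : 0 ≤ |u * Q - v * P| := abs_nonneg _
    have h6 : 1 * |u * Q - v * P| ≤ a * b * |u * Q - v * P| :=
      mul_le_mul_of_nonneg_right (by linarith) h5
    have h8 : 8 * a * b * |u * Q - v * P| = 8 * (a * b * |u * Q - v * P|) := by ring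
    linarith

/-- [CF]. -/
theorem pr_CF (hQs : S_Qs) : S_CF := by
  intro Λ h j u v hΛ hj1 hjh huv hb
  obtain ⟨hpos, -, -, -, hpq, hdet, -⟩ := hQs Λ hΛ
  obtain ⟨i, rfl⟩ : ∃ i, j = i + 1 := ⟨j - 1, by omega⟩
  obtain ⟨e0, e1, e2⟩ := CF_pos hQs Λ h hΛ (h - (i + 1)) i (by omega)
  -- the numbers
  have ha1 : (1 : ℤ) ≤ qs Λ (i + 1) := by exact_mod_cast hpos (i + 1) (by omega)
  have hb1 : (1 : ℤ) ≤ qs Λ (i + 2) := by exact_mod_cast hpos (i + 2) (by omega)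
  have hQ1 : (1 : ℤ) ≤ qs Λ (h + 1) := by exact_mod_cast hpos (h + 1) (by omega)
  have hPQ : (ps Λ (h + 1) : ℤ) ≤ 2 * qs Λ (h + 1) := by
    obtain ⟨c1, c2⟩ := hpq (h + 1) (by omega)
    have : ps Λ (h + 1) ≤ 2 * qs Λ (h + 1) := by omega
    exact_mod_cast this
  have hsum : CF_E Λ h (i + 1) * qs Λ (i + 2) + CF_E Λ h (i + 2) * qs Λ (i + 1) =
      qs Λ (h + 1) := by
    have h2 : (ps Λ (i + 2) : ℤ) * qs Λ (i + 1) - ps Λ (i + 1) * qs Λ (i + 2) =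
        (-1) ^ (i + 2) := hdet (i + 1)
    have h3 : CF_E Λ h (i + 1) * qs Λ (i + 2) + CF_E Λ h (i + 2) * qs Λ (i + 1) =
        (-1) ^ (i + 2) * (qs Λ (h + 1) *
          ((ps Λ (i + 2) : ℤ) * qs Λ (i + 1) - ps Λ (i + 1) * qs Λ (i + 2))) := by
      unfold CF_E
      ring
    rw [h3, h2]
    have h4 : ((-1 : ℤ)) ^ (i + 2) * (qs Λ (h + 1) * (-1) ^ (i + 2)) =
        qs Λ (h + 1) * ((-1) ^ (i + 2) * (-1) ^ (i + 2)) := by ring
    rw [h4, ← mul_pow]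
    norm_num
  have hmon : (qs Λ (i + 1) : ℤ) ≤ qs Λ (i + 2) := by
    exact_mod_cast (hQs Λ hΛ).2.1 (i + 1)
  obtain ⟨a, ha⟩ : ∃ a : ℤ, a = qs Λ (i + 1) := ⟨_, rfl⟩
  obtain ⟨b, hbd⟩ : ∃ b : ℤ, b = qs Λ (i + 2) := ⟨_, rfl⟩
  obtain ⟨Q, hQ⟩ : ∃ Q : ℤ, Q = qs Λ (h + 1) := ⟨_, rfl⟩
  obtain ⟨P, hP⟩ : ∃ P : ℤ, P = ps Λ (h + 1) := ⟨_, rfl⟩
  obtain ⟨E, hE⟩ : ∃ E : ℤ, E = CF_E Λ h (i + 1) := ⟨_, rfl⟩
  obtain ⟨E', hE'⟩ : ∃ E' : ℤ, E' = CF_E Λ h (i + 2) := ⟨_, rfl⟩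
  have hDabs : |P * a - Q * ps Λ (i + 1)| = E := by
    have h1 : E = (-1) ^ (i + 2) * (P * a - Q * ps Λ (i + 1)) := by
      rw [hE, CF_E, hP, ha, hQ]
    have h2 : |E| = |P * a - Q * ps Λ (i + 1)| := by
      rw [h1, abs_mul, abs_pow, abs_neg, abs_one, one_pow, one_mul]
    rw [← h2, abs_of_nonneg (by rw [hE]; linarith)]
  rw [← hE] at e1 e2
  rw [← hE'] at e0 e1
  rw [← hE, ← hE', ← ha, ← hbd, ← hQ] at hsum
  rw [← ha, ← hbd] at hmon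
  rw [← ha] at ha1
  rw [← hbd] at hb1
  rw [← hQ] at hQ1
  rw [← hP, ← hQ] at hPQ
  have hEb : E * b ≤ Q := by
    have : 0 ≤ E' * a := mul_nonneg e0 (by linarith)
    linarith
  have hEb2 : Q ≤ 2 * (E * b) := by
    have : E' * a ≤ E * b := mul_le_mul e1 hmon (by linarith) (by linarith)
    linarith
  have hub : 2 * ((u : ℤ) + v) ≤ b := by
    rw [hbd]
    exact_mod_cast hb
  have hu0 : (0 : ℤ) ≤ u := Int.natCast_nonneg u
  have hv0 : (0 : ℤ) ≤ v := Int.natCast_nonneg v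
  have key := CF_key a b Q P E (ps Λ (i + 1)) u v ha1 hb1 hQ1 hDabs hEb hEb2 hub hu0 hv0
  have fin := CF_fin a b Q P u v ha1 hb1 hQ1 hPQ hu0 hv0 key
  have fin2 : (((u : ℤ) + v) * Q : ℤ) ≤ 8 * a * b * |(u : ℤ) * Q - v * P| := fin
  rw [ha, hbd, hQ, hP] at fin2
  have fin3 : ((((u : ℤ) + v) * (qs Λ (h + 1) : ℤ) : ℤ) : ℝ) ≤
      ((8 * (qs Λ (i + 1) : ℤ) * (qs Λ (i + 2) : ℤ) *
        |(u : ℤ) * (qs Λ (h + 1) : ℤ) - v * (ps Λ (h + 1) : ℤ)| : ℤ) : ℝ) := by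
    exact_mod_cast fin2
  push_cast at fin3
  push_cast
  exact fin3

end Pool.Agent.Work.MP_499dc6_lc.Fib
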