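import Pool.Agent.Work.MP_499dc6_lc.Fib.StmtsC

/-!
# Circuits of bounded depth, Fibonacci exponents, part C, item Qs: elementary properties
-/

set_option autoImplicit false

namespace Pool.Agent.Work.MP_499dc6_lc.Fib

open Finset

theorem Qs_rec (Λ j : ℕ) :
    qs Λ (j + 3) = Λ * qs Λ (j + 1) * qs Λ (j + 2) + qs Λ (j + 1) := rfl

theorem Qs_recp (Λ j : ℕ) :
    ps Λ (j + 3) = Λ * qs Λ (j + 1) * ps Λ (j + 2) + ps Λ (j + 1) := rfl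

theorem Qs_pos (Λ : ℕ) (hΛ : 4 ≤ Λ) : ∀ j, 1 ≤ qs Λ (j + 1)
  | 0 => le_rfl
  | 1 => by
    have : qs Λ (1 + 1) = Λ := rfl
    omega
  | (j + 2) => by
    have h1 := Qs_pos Λ hΛ j
    rw [show j + 2 + 1 = j + 3 from rfl, Qs_rec]
    omega

theorem Qs_mono (Λ : ℕ) (hΛ : 4 ≤ Λ) (j : ℕ) : qs Λ j ≤ qs Λ (j + 1) := by
  match j with
  | 0 => exact Nat.zero_le _
  | 1 =>
    have h1 : qs Λ 1 = 1 := rfl
    have h2 : qs Λ (1 + 1) = Λ := rfl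
    omega
  | (j + 2) =>
    rw [show j + 2 + 1 = j + 3 from rfl, Qs_rec]
    have h1 := Qs_pos Λ hΛ j
    have h2 : 1 ≤ Λ * qs Λ (j + 1) := Nat.mul_pos (by omega) h1
    have h3 : 1 * qs Λ (j + 2) ≤ Λ * qs Λ (j + 1) * qs Λ (j + 2) :=
      Nat.mul_le_mul_right _ h2
    omega

theorem Qs_four (Λ : ℕ) (hΛ : 4 ≤ Λ) (j : ℕ) : 4 * qs Λ j ≤ qs Λ (j + 2) := by
  match j with
  | 0 => exact Nat.zero_le _
  | (j + 1) =>
    rw [show j + 1 + 2 = j + 3 from rfl, Qs_rec]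
    have h1 : 1 ≤ qs Λ (j + 2) := Qs_pos Λ hΛ (j + 1)
    have h2 : 4 * qs Λ (j + 1) ≤ Λ * qs Λ (j + 1) := Nat.mul_le_mul_right _ hΛ
    have h3 : Λ * qs Λ (j + 1) * 1 ≤ Λ * qs Λ (j + 1) * qs Λ (j + 2) :=
      Nat.mul_le_mul_left _ h1
    omega

theorem Qs_le (Λ : ℕ) (hΛ : 4 ≤ Λ) : ∀ j, qs Λ (j + 1) ≤ ps Λ (j + 1)
  | 0 => le_rfl
  | 1 => by
    have h1 : qs Λ (1 + 1) = Λ := rfl
    have h2 : ps Λ (1 + 1) = Λ + 1 := rfl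
    omega
  | (j + 2) => by
    have h1 := Qs_le Λ hΛ j
    have h2 := Qs_le Λ hΛ (j + 1)
    rw [show j + 2 + 1 = j + 3 from rfl, Qs_rec, Qs_recp]
    exact Nat.add_le_add (Nat.mul_le_mul_left _ h2) h1

theorem Qs_lt (Λ : ℕ) (hΛ : 4 ≤ Λ) : ∀ j, qs Λ (j + 2) < ps Λ (j + 2)
  | 0 => by
    have h1 : qs Λ (0 + 2) = Λ := rfl
    have h2 : ps Λ (0 + 2) = Λ + 1 := rfl
    omega
  | (j + 1) => by
    have h1 := Qs_lt Λ hΛ j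
    have h2 := Qs_le Λ hΛ j
    have h3 := Qs_pos Λ hΛ j
    rw [show j + 1 + 2 = j + 3 from rfl, Qs_rec, Qs_recp]
    have h4 : Λ * qs Λ (j + 1) * qs Λ (j + 2) < Λ * qs Λ (j + 1) * ps Λ (j + 2) :=
      Nat.mul_lt_mul_of_pos_left h1 (Nat.mul_pos (by omega) h3)
    omega

theorem Qs_three (Λ : ℕ) (hΛ : 4 ≤ Λ) : ∀ j, 3 * ps Λ (j + 1) ≤ 4 * qs Λ (j + 1)
  | 0 => by
    have h1 : qs Λ (0 + 1) = 1 := rfl
    have h2 : ps Λ (0 + 1) = 1 := rfl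
    omega
  | 1 => by
    have h1 : qs Λ (1 + 1) = Λ := rfl
    have h2 : ps Λ (1 + 1) = Λ + 1 := rfl
    omega
  | (j + 2) => by
    have h1 := Qs_three Λ hΛ j
    have h2 := Qs_three Λ hΛ (j + 1)
    rw [show j + 2 + 1 = j + 3 from rfl, Qs_rec, Qs_recp]
    have h3 : Λ * qs Λ (j + 1) * (3 * ps Λ (j + 2)) ≤ Λ * qs Λ (j + 1) * (4 * qs Λ (j + 2)) :=
      Nat.mul_le_mul_left _ h2
    have h4 : Λ * qs Λ (j + 1) * (3 * ps Λ (j + 2)) =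
        3 * (Λ * qs Λ (j + 1) * ps Λ (j + 2)) := by ring
    have h5 : Λ * qs Λ (j + 1) * (4 * qs Λ (j + 2)) =
        4 * (Λ * qs Λ (j + 1) * qs Λ (j + 2)) := by ring
    omega

theorem Qs_det (Λ : ℕ) : ∀ j,
    (ps Λ (j + 1) : ℤ) * qs Λ j - ps Λ j * qs Λ (j + 1) = (-1) ^ (j + 1)
  | 0 => by
    have h1 : qs Λ (0 + 1) = 1 := rfl
    have h2 : ps Λ (0 + 1) = 1 := rfl
    have h3 : qs Λ 0 = 0 := rfl
    have h4 : ps Λ 0 = 1 := rfl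
    rw [h1, h2, h3, h4]
    norm_num
  | 1 => by
    have h1 : qs Λ (1 + 1) = Λ := rfl
    have h2 : ps Λ (1 + 1) = Λ + 1 := rfl
    have h3 : qs Λ 1 = 1 := rfl
    have h4 : ps Λ 1 = 1 := rfl
    rw [h1, h2, h3, h4]
    push_cast
    ring
  | (j + 2) => by
    have h1 := Qs_det Λ (j + 1)
    rw [show j + 1 + 1 = j + 2 from rfl] at h1
    rw [show j + 2 + 1 = j + 3 from rfl, Qs_rec, Qs_recp]
    have h2 : ((-1 : ℤ)) ^ (j + 3) = -(-1) ^ (j + 2) := by rw [pow_succ]; ring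
    rw [h2, ← h1]
    push_cast
    ring

theorem Qs_grow (Λ : ℕ) (hΛ : 4 ≤ Λ) : ∀ j,
    qs Λ (j + 1) ≤ (Λ + 1) ^ (Nat.fib (j + 2) - 1)
  | 0 => by
    have h1 : qs Λ (0 + 1) = 1 := rfl
    rw [h1]
    exact Nat.one_le_pow _ _ (by omega)
  | 1 => by
    have h1 : qs Λ (1 + 1) = Λ := rfl
    have h2 : Nat.fib (1 + 2) - 1 = 1 := by decide
    rw [h1, h2, pow_one]
    omega
  | (j + 2) => by
    have h1 := Qs_grow Λ hΛ j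
    have h2 := Qs_grow Λ hΛ (j + 1)
    rw [show j + 1 + 1 = j + 2 from rfl, show j + 1 + 2 = j + 3 from rfl] at h2
    have h3 : 1 ≤ qs Λ (j + 2) := Qs_pos Λ hΛ (j + 1)
    rw [show j + 2 + 1 = j + 3 from rfl, show j + 2 + 2 = j + 4 from rfl, Qs_rec]
    have h4 : qs Λ (j + 1) * 1 ≤ qs Λ (j + 1) * qs Λ (j + 2) := Nat.mul_le_mul_left _ h3
    have h5 : Λ * qs Λ (j + 1) * qs Λ (j + 2) + qs Λ (j + 1) ≤
        (Λ + 1) * (qs Λ (j + 1) * qs Λ (j + 2)) := by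
      have : (Λ + 1) * (qs Λ (j + 1) * qs Λ (j + 2)) =
          Λ * qs Λ (j + 1) * qs Λ (j + 2) + qs Λ (j + 1) * qs Λ (j + 2) := by ring
      omega
    have h6 : Nat.fib (j + 4) = Nat.fib (j + 2) + Nat.fib (j + 3) := Nat.fib_add_two
    have h7 : 1 ≤ Nat.fib (j + 2) := Nat.fib_pos.2 (by omega)
    have h8 : 1 ≤ Nat.fib (j + 3) := Nat.fib_pos.2 (by omega)
    have h9 : Nat.fib (j + 4) - 1 =
        1 + ((Nat.fib (j + 2) - 1) + (Nat.fib (j + 3) - 1)) := by omega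
    rw [h9, pow_add, pow_add, pow_one]
    exact h5.trans (Nat.mul_le_mul_left _ (Nat.mul_le_mul h1 h2))

/-- [Qs]. -/
theorem pr_Qs : S_Qs := by
  intro Λ hΛ
  refine ⟨?_, Qs_mono Λ hΛ, Qs_four Λ hΛ, ?_, ?_, Qs_det Λ, ?_⟩
  · intro j hj
    obtain ⟨i, rfl⟩ := Nat.exists_eq_add_of_le' hj
    exact Qs_pos Λ hΛ i
  · intro j hj
    obtain ⟨i, rfl⟩ := Nat.exists_eq_add_of_le' hj
    exact Qs_lt Λ hΛ i
  · intro j hj
    obtain ⟨i, rfl⟩ := Nat.exists_eq_add_of_le' hj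
    have h1 := Qs_le Λ hΛ i
    have h2 := Qs_three Λ hΛ i
    refine ⟨h1, ?_⟩
    omega
  · intro j hj
    obtain ⟨i, rfl⟩ := Nat.exists_eq_add_of_le' hj
    exact Qs_grow Λ hΛ i

end Pool.Agent.Work.MP_499dc6_lc.Fib
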