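import Pool.Agent.Work.MP_499dc6_lc.Bd.B04

/-!
# Circuits of bounded depth, Fibonacci exponents: definitions, part A (the hard polynomial)

Block Fib (captain helper90) of MP_499dc6_lc. The hard polynomial is the one of block D3,
restricted to a random set of variables (every variable is kept with probability `9/10`).
-/

namespace Pool.Agent.Work.MP_499dc6_lc.Fib

open MvPolynomial Equiv Finset
open Pool.Agent.Work.MP_499dc6_lc.CD
open Pool.Agent.Work.MP_499dc6_lc.D3

/-- The variables of the hard polynomial. -/
abbrev VV (n k : ℕ) : Type := (CY n k × CY n k) ⊕ (CZ n × CZ n)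

instance instDecVV (n k : ℕ) : DecidableEq (VV n k) :=
  @instDecidableEqSum (CY n k × CY n k) (CZ n × CZ n) inferInstance inferInstance

/-- The variables of the monomial of a codeword. -/
def cells {n k : ℕ} (c : Code n k) : Finset (VV n k) :=
  (univ.image fun i : CY n k => (Sum.inl (i, c.1.1 i) : VV n k)) ∪
    univ.image fun j : CZ n => (Sum.inr (j, c.1.2 j) : VV n k)

/-- The hard polynomial restricted to the variables in `A`. -/
noncomputable def PA (R : Type) [CommSemiring R] (n k : ℕ) (A : Finset (VV n k)) :
    MvPolynomial (VV n k) R :=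
  ∑ c : {c : Code n k // cells c ⊆ A}, monomial (Finsupp.sumElim (gr c.1.1.1) (gr c.1.1.2)) 1

/-- The probability of the set `A` when every variable is kept with probability `9/10`. -/
noncomputable def wt {V : Type} [Fintype V] [DecidableEq V] (A : Finset V) : ℝ :=
  (9 / 10) ^ A.card * (1 / 10) ^ Aᶜ.card

end Pool.Agent.Work.MP_499dc6_lc.Fib
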