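import Pool.Agent.Work.MP_499dc6_lc.Fib.DefsA

/-!
# Circuits of bounded depth, Fibonacci exponents: definitions, part B (upper bound)

The functional `BB` of block CD: `BB al be f c` means that `f` is a sum of products `g * h` of
bihomogeneous polynomials with `∑ exp ((exc h - exc g) / 2) ≤ c`, `exc (u, v) = u al - v be`.
-/

namespace Pool.Agent.Work.MP_499dc6_lc.Fib

open MvPolynomial Finset
open Pool.Agent.Work.MP_499dc6_lc.CD
open Pool.Agent.Work.MP_499dc6_lc.D3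

/-- A polynomial of degree at most `e` plus a linear combination of the gates in `J`, or a product
of powers of the gates in `J`. -/
def Basic {K σ : Type} [Field K] {s : ℕ} (e : ℕ) (F : Fin s → MvPolynomial σ K)
    (J : Finset (Fin s)) (B : MvPolynomial σ K) : Prop :=
  (∃ (l : MvPolynomial σ K) (c : Fin s → K), l.totalDegree ≤ e ∧ (∀ j, c j ≠ 0 → j ∈ J) ∧
    B = l + ∑ j, C (c j) * F j) ∨
  ∃ k : Fin s → ℕ, (∀ j, k j ≠ 0 → j ∈ J) ∧ B = ∏ j, F j ^ k j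

/-- The earlier gates of smaller level. -/
def Low {s : ℕ} (d : Fin s → ℕ) (i : Fin s) : Finset (Fin s) :=
  univ.filter fun j => j < i ∧ d j < d i

/-- Circuits (after the random restriction): a gate is a polynomial in `r0` affine forms, or (at a
level `≥ 1`) a polynomial in `r` basic polynomials of earlier gates of smaller level. -/
def Ckt {K σ : Type} [Field K] {s : ℕ} (r0 r e : ℕ) (F : Fin s → MvPolynomial σ K)
    (d : Fin s → ℕ) : Prop :=
  ∀ i, (∃ (l : Fin r0 → MvPolynomial σ K) (G : MvPolynomial (Fin r0) K),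
      (∀ a, (l a).totalDegree ≤ 1) ∧ F i = aeval l G) ∨
    (1 ≤ d i ∧ ∃ (B : Fin r → MvPolynomial σ K) (Q : MvPolynomial (Fin r) K),
      (∀ a, Basic e F (Low d i) (B a)) ∧ F i = aeval B Q)

section

variable {Y Z K : Type} [Fintype Y] [Fintype Z] [Field K]

/-- The components of degree between `1` and `dd` have `BB ≤ P exp(-ρ degree)`. -/
def Rt (al be : ℝ) (dd : ℕ) (P ρ : ℝ) (V : MvPolynomial (Y ⊕ Z) K) : Prop :=
  ∀ u v : ℕ, 1 ≤ u + v → u + v ≤ dd →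
    BB al be (bc u v V) (P * Real.exp (-(ρ * ((u + v : ℕ) : ℝ))))

/-- `w` is a bigraded logarithmic derivative of `V` up to degree `dd`. -/
def LD (dd : ℕ) (V : MvPolynomial (Y ⊕ Z) K) (w : ℕ → ℕ → MvPolynomial (Y ⊕ Z) K) : Prop :=
  w 0 0 = 0 ∧ (∀ u v, IsBi (w u v) u v) ∧
    ∀ u v : ℕ, u + v ≤ dd → ((u + v : ℕ) : MvPolynomial (Y ⊕ Z) K) * bc u v V =
      ∑ p ∈ HasAntidiagonal.antidiagonal u, ∑ q ∈ HasAntidiagonal.antidiagonal v,
        w p.1 q.1 * bc p.2 q.2 V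

/-- The logarithmic derivative has `BB ≤ P exp(-ρ degree)`. -/
def Lr (al be : ℝ) (dd : ℕ) (P ρ : ℝ) (V : MvPolynomial (Y ⊕ Z) K) : Prop :=
  ∃ w : ℕ → ℕ → MvPolynomial (Y ⊕ Z) K, LD dd V w ∧ ∀ u v : ℕ, 1 ≤ u + v → u + v ≤ dd →
    BB al be (w u v) (P * Real.exp (-(ρ * ((u + v : ℕ) : ℝ))))

end

/-- The numerical conditions on the rates `ρ` and the thresholds `t`. -/
structure Pars (al be : ℝ) (s e dd h : ℕ) (P : ℝ) (ρ : ℕ → ℝ) (t : ℕ → ℕ) : Prop where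
  zero : ρ 0 = al / 4
  pos : ∀ j ≤ h, 0 < ρ j
  dec : ∀ j < h, ρ (j + 1) ≤ ρ j / 4
  thr : ∀ j < h, (s : ℝ) * P ≤ Real.exp (ρ j / 2 * t (j + 1))
  et : ∀ j < h, e < t (j + 1)
  sm : ∀ j < h, ∀ u v : ℕ, 1 ≤ u + v → u + v < t (j + 1) →
    2 * ρ (j + 1) * ((u + v : ℕ) : ℝ) ≤ |(u : ℝ) * al - v * be|
  ser : ∀ j < h, ∑ n ∈ Icc (t (j + 1)) dd, ((n : ℝ) + 1) * Real.exp (-(ρ j / 4 * n)) ≤ 1

end Pool.Agent.Work.MP_499dc6_lc.Fib
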