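import Pool.Agent.Work.MP_499dc6_lc.Fib.StmtsA

/-!
# Circuits of bounded depth, Fibonacci exponents, item ASumA: the sum over the sets `AY`, `AZ`
-/

set_option autoImplicit false

namespace Pool.Agent.Work.MP_499dc6_lc.Fib

open Finset
open Pool.Agent.Work.MP_499dc6_lc.D3
open scoped Nat

/-- the weights of the columns -/
noncomputable def ASumA_g {α β : Type} [DecidableEq α] (AZ : Finset α) : α ⊕ β → ℝ :=
  Sum.elim (fun a => if a ∈ AZ then 1 else 5 / 6) fun _ => 3 / 2

theorem ASumA_g_nonneg {α β : Type} [DecidableEq α] (AZ : Finset α) (x : α ⊕ β) :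
    0 ≤ ASumA_g AZ x := by
  rcases x with a | u
  · show (0 : ℝ) ≤ if a ∈ AZ then 1 else 5 / 6
    split_ifs <;> norm_num
  · show (0 : ℝ) ≤ 3 / 2
    norm_num

/-- one side -/
noncomputable def ASumA_h {γ : Type} (g : γ → ℝ) (m : ℕ) (B : Finset γ) : ℝ :=
  (∏ x ∈ B, g x) * ((B.card ! : ℝ) * ((m - B.card)! : ℝ))

theorem ASumA_h_nonneg {γ : Type} {g : γ → ℝ} (hg : ∀ x, 0 ≤ g x) (m : ℕ) (B : Finset γ) :
    0 ≤ ASumA_h g m B :=
  mul_nonneg (prod_nonneg fun x _ => hg x) (by positivity)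

theorem ASumA_weight {α β : Type} [DecidableEq α] [DecidableEq β] (AY : Finset (α ⊕ β))
    (AZ : Finset α) : (3 / 2 : ℝ) ^ (Ur AY).card * (5 / 6) ^ (Out AY AZ).card =
      ∏ x ∈ AY, ASumA_g AZ x := by
  unfold Ur Out
  rw [← prod_const, ← prod_const, prod_filter, prod_filter, ← prod_mul_distrib]
  refine prod_congr rfl fun x _ => ?_
  rcases x with a | u
  · by_cases h : a ∈ AZ <;> simp [ASumA_g, h]
  · simp [ASumA_g]

theorem ASumA_prod {α β : Type} [Fintype α] [Fintype β] [DecidableEq α] [DecidableEq β]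
    (s : α ⊕ β → Bool) (b : Bool) (AZ : Finset α) (n k : ℕ)
    (hn : (univ.filter fun a : α => s (Sum.inl a) = b).card = n)
    (hk : (univ.filter fun u : β => s (Sum.inr u) = b).card = k) (η : ℝ) :
    ∏ x ∈ univ.filter (fun x => s x = b), (1 - η + η * ASumA_g AZ x) =
      (1 + η / 2) ^ k * (1 - η / 6) ^ (n - ns (fun a => s (Sum.inl a)) AZ b) := by
  have hcard : ((univ.filter fun a : α => s (Sum.inl a) = b).filter fun a => ¬ a ∈ AZ).card =
      n - ns (fun a => s (Sum.inl a)) AZ b := by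
    have h1 := card_filter_add_card_filter_not (s := univ.filter fun a : α => s (Sum.inl a) = b)
      (fun a => a ∈ AZ)
    have h2 : ((univ.filter fun a : α => s (Sum.inl a) = b).filter fun a => a ∈ AZ) =
        AZ.filter fun a => s (Sum.inl a) = b := by
      ext a
      simp only [mem_filter, mem_univ, true_and]
      exact and_comm
    rw [h2, hn] at h1
    show _ = n - (AZ.filter fun a => s (Sum.inl a) = b).card
    omega
  rw [prod_filter, Fintype.prod_sum_type, mul_comm]
  congr 1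
  · rw [← prod_filter, prod_congr rfl (g := fun _ => 1 + η / 2), prod_const, hk]
    intro u _
    show 1 - η + η * (3 / 2) = 1 + η / 2
    ring
  · rw [← prod_filter, ← hcard, ← prod_const, prod_filter]
    rw [prod_filter, prod_filter]
    refine prod_congr rfl fun a _ => ?_
    by_cases h1 : s (Sum.inl a) = b
    · rw [if_pos h1, if_pos h1]
      show 1 - η + η * (if a ∈ AZ then 1 else 5 / 6) = if ¬ a ∈ AZ then 1 - η / 6 else 1
      by_cases h2 : a ∈ AZ
      · rw [if_pos h2, if_neg (not_not.2 h2)]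
        ring
      · rw [if_neg h2, if_pos h2]
        ring
    · rw [if_neg h1, if_neg h1]

theorem ASumA_cardX {α β : Type} [Fintype α] [Fintype β] [DecidableEq α] [DecidableEq β]
    (s : α ⊕ β → Bool) (b : Bool) (n k : ℕ)
    (hn : (univ.filter fun a : α => s (Sum.inl a) = b).card = n)
    (hk : (univ.filter fun u : β => s (Sum.inr u) = b).card = k) :
    (univ.filter fun x => s x = b).card = n + k := by
  rw [← hn, ← hk, card_filter, card_filter, card_filter, Fintype.sum_sum_type]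

theorem ASumA_one (hEy : S_Ey) (hPt : S_Pt) {α β : Type} [Fintype α] [Fintype β] [DecidableEq α]
    [DecidableEq β] (s : α ⊕ β → Bool) (b : Bool) (AZ : Finset α) (n k : ℕ)
    (hn : (univ.filter fun a : α => s (Sum.inl a) = b).card = n)
    (hk : (univ.filter fun u : β => s (Sum.inr u) = b).card = k)
    (h3 : 3 * k ≤ n) (h1 : 1 ≤ k) :
    Real.exp (-(Real.log (3 / 2) * k / n)) ^ ns (fun a => s (Sum.inl a)) AZ b *
      ∑ B ∈ (univ.filter fun x => s x = b).powerset, ASumA_h (ASumA_g AZ) (n + k) B ≤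
      (((n + k : ℕ) : ℝ) + 1) ^ 2 * ((n + k)! : ℝ) := by
  have hXc := ASumA_cardX s b n k hn hk
  have hprod := ASumA_prod s b AZ n k hn hk
  have hz : ns (fun a => s (Sum.inl a)) AZ b ≤ n := by
    rw [← hn]
    unfold ns
    refine card_le_card fun a ha => ?_
    rw [mem_filter] at ha
    rw [mem_filter]
    exact ⟨mem_univ _, ha.2⟩
  set z := ns (fun a => s (Sum.inl a)) AZ b with hzdef
  set X := univ.filter fun x => s x = b with hX
  have hm : 0 < ((n + k : ℕ) : ℝ) := by
    have : 0 < n + k := by omega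
    exact_mod_cast this
  rw [Finset.sum_powerset, hXc, mul_sum]
  have hy : ∀ y ∈ range (n + k + 1), Real.exp (-(Real.log (3 / 2) * k / n)) ^ z *
      ∑ B ∈ powersetCard y X, ASumA_h (ASumA_g AZ) (n + k) B ≤
      (((n + k : ℕ) : ℝ) + 1) * ((n + k)! : ℝ) := by
    intro y hy
    have hym : y ≤ n + k := Nat.lt_succ_iff.1 (mem_range.1 hy)
    have hymR : (y : ℝ) ≤ ((n + k : ℕ) : ℝ) := by exact_mod_cast hym
    have e1 : ∑ B ∈ powersetCard y X, ASumA_h (ASumA_g AZ) (n + k) B =
        ((y ! : ℝ) * ((n + k - y)! : ℝ)) * ∑ B ∈ powersetCard y X, ∏ x ∈ B, ASumA_g AZ x := by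
      rw [mul_sum]
      refine sum_congr rfl fun B hB => ?_
      unfold ASumA_h
      rw [(mem_powersetCard.1 hB).2]
      ring
    have e2 := hEy _ X (ASumA_g AZ) y (ASumA_g_nonneg AZ) (by rw [hXc]; exact hym)
    rw [hXc, hprod] at e2
    have e3 := hPt n k z ((y : ℝ) / ((n + k : ℕ) : ℝ)) h3 h1 hz (by positivity)
      (by rw [div_le_one hm]; exact hymR)
    have e4 : Real.exp (-(Real.log (3 / 2) * k / n)) ^ z =
        Real.exp (-(Real.log (3 / 2) * k / n) * z) := by
      rw [← Real.exp_nat_mul]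
      congr 1
      ring
    have e5 : ((n + k).choose y : ℝ) * (y ! : ℝ) * ((n + k - y)! : ℝ) = ((n + k)! : ℝ) := by
      exact_mod_cast Nat.choose_mul_factorial_mul_factorial hym
    set W : ℝ := (1 + (y : ℝ) / ((n + k : ℕ) : ℝ) / 2) ^ k *
      (1 - (y : ℝ) / ((n + k : ℕ) : ℝ) / 6) ^ (n - z) with hW
    rw [e1, e4]
    calc Real.exp (-(Real.log (3 / 2) * k / n) * z) * (((y ! : ℝ) * ((n + k - y)! : ℝ)) *
          ∑ B ∈ powersetCard y X, ∏ x ∈ B, ASumA_g AZ x)
        ≤ Real.exp (-(Real.log (3 / 2) * k / n) * z) * (((y ! : ℝ) * ((n + k - y)! : ℝ)) *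
          ((((n + k : ℕ) : ℝ) + 1) * ((n + k).choose y : ℝ) * W)) := by
          refine mul_le_mul_of_nonneg_left ?_ (Real.exp_pos _).le
          exact mul_le_mul_of_nonneg_left e2 (by positivity)
      _ = (((n + k : ℕ) : ℝ) + 1) * (((n + k).choose y : ℝ) * (y ! : ℝ) * ((n + k - y)! : ℝ)) *
          (W * Real.exp (-(Real.log (3 / 2) * k / n) * z)) := by ring
      _ ≤ (((n + k : ℕ) : ℝ) + 1) * (((n + k).choose y : ℝ) * (y ! : ℝ) * ((n + k - y)! : ℝ)) *
          1 := mul_le_mul_of_nonneg_left e3 (by positivity)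
      _ = (((n + k : ℕ) : ℝ) + 1) * ((n + k)! : ℝ) := by rw [e5, mul_one]
  refine (sum_le_sum hy).trans (le_of_eq ?_)
  rw [sum_const, card_range, nsmul_eq_mul]
  push_cast
  ring

theorem ASumA_key (hEy : S_Ey) (hPt : S_Pt) {α β : Type} [Fintype α] [Fintype β] [DecidableEq α]
    [DecidableEq β] (s : α ⊕ β → Bool) (AZ : Finset α) (n k : ℕ)
    (hn : ∀ b, (univ.filter fun a : α => s (Sum.inl a) = b).card = n)
    (hk : ∀ b, (univ.filter fun u : β => s (Sum.inr u) = b).card = k)
    (h3 : 3 * k ≤ n) (h1 : 1 ≤ k) :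
    Real.exp (-(Real.log (3 / 2) * k / n)) ^ AZ.card *
      ∑ AY : Finset (α ⊕ β), (3 / 2 : ℝ) ^ (Ur AY).card * (5 / 6) ^ (Out AY AZ).card *
        fc s (n + k) AY ≤ (((n + k : ℕ) : ℝ) + 1) ^ 4 * ((n + k)! : ℝ) ^ 2 := by
  set X : Bool → Finset (α ⊕ β) := fun b => univ.filter fun x => s x = b with hX
  set e : ℝ := Real.exp (-(Real.log (3 / 2) * k / n)) with he
  have he0 : 0 ≤ e := (Real.exp_pos _).le
  have hg := ASumA_g_nonneg (β := β) AZ
  have hb : ∀ b, e ^ ns (fun a => s (Sum.inl a)) AZ b *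
      ∑ B ∈ (X b).powerset, ASumA_h (ASumA_g AZ) (n + k) B ≤
      (((n + k : ℕ) : ℝ) + 1) ^ 2 * ((n + k)! : ℝ) := fun b =>
    ASumA_one hEy hPt s b AZ n k (hn b) (hk b) h3 h1
  have hzz : AZ.card = ns (fun a => s (Sum.inl a)) AZ true +
      ns (fun a => s (Sum.inl a)) AZ false := by
    unfold ns
    have h2 := card_filter_add_card_filter_not (s := AZ) (fun a => s (Sum.inl a) = true)
    rw [← h2]
    congr 2
    ext a
    simp only [mem_filter, Bool.not_eq_true]
  have hterm : ∀ A : Finset (α ⊕ β), (3 / 2 : ℝ) ^ (Ur A).card * (5 / 6) ^ (Out A AZ).card *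
      fc s (n + k) A = ASumA_h (ASumA_g AZ) (n + k) (A.filter fun x => s x = true) *
        ASumA_h (ASumA_g AZ) (n + k) (A.filter fun x => s x = false) := by
    intro A
    have h2 := prod_filter_mul_prod_filter_not A (fun x => s x = true) (ASumA_g AZ)
    have h4 : (A.filter fun x => ¬ s x = true) = A.filter fun x => s x = false := by
      ext x
      simp only [mem_filter, Bool.not_eq_true]
    rw [h4] at h2
    rw [ASumA_weight, ← h2]
    unfold ASumA_h fc ns
    rw [Fintype.prod_bool]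
    ring
  have hsum : ∑ A : Finset (α ⊕ β), (3 / 2 : ℝ) ^ (Ur A).card * (5 / 6) ^ (Out A AZ).card *
      fc s (n + k) A ≤ (∑ B ∈ (X true).powerset, ASumA_h (ASumA_g AZ) (n + k) B) *
        ∑ B ∈ (X false).powerset, ASumA_h (ASumA_g AZ) (n + k) B := by
    calc ∑ A : Finset (α ⊕ β), (3 / 2 : ℝ) ^ (Ur A).card * (5 / 6) ^ (Out A AZ).card *
          fc s (n + k) A
        = ∑ A : Finset (α ⊕ β), ASumA_h (ASumA_g AZ) (n + k) (A.filter fun x => s x = true) *
            ASumA_h (ASumA_g AZ) (n + k) (A.filter fun x => s x = false) :=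
          sum_congr rfl fun A _ => hterm A
      _ = ∑ c ∈ (univ : Finset (Finset (α ⊕ β))).image
            (fun A => (A.filter fun x => s x = true, A.filter fun x => s x = false)),
            ASumA_h (ASumA_g AZ) (n + k) c.1 * ASumA_h (ASumA_g AZ) (n + k) c.2 := by
          rw [sum_image]
          intro A _ A' _ h
          simp only [Prod.mk.injEq] at h
          ext x
          have h1 := Finset.ext_iff.1 h.1 x
          have h2 := Finset.ext_iff.1 h.2 x
          simp only [mem_filter] at h1 h2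
          cases hs : s x
          · simpa [hs] using h2
          · simpa [hs] using h1
      _ ≤ ∑ c ∈ (X true).powerset ×ˢ (X false).powerset,
            ASumA_h (ASumA_g AZ) (n + k) c.1 * ASumA_h (ASumA_g AZ) (n + k) c.2 := by
          refine sum_le_sum_of_subset_of_nonneg ?_ fun c _ _ =>
            mul_nonneg (ASumA_h_nonneg hg _ _) (ASumA_h_nonneg hg _ _)
          intro c hc
          rw [mem_image] at hc
          obtain ⟨A, _, rfl⟩ := hc
          rw [mem_product, mem_powerset, mem_powerset]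
          constructor
          · intro x hx
            rw [mem_filter] at hx
            simp only [hX, mem_filter, mem_univ, true_and]; exact hx.2
          · intro x hx
            rw [mem_filter] at hx
            simp only [hX, mem_filter, mem_univ, true_and]; exact hx.2
      _ = _ := by rw [sum_mul_sum, sum_product]
  have hnn : ∀ b, 0 ≤ e ^ ns (fun a => s (Sum.inl a)) AZ b *
      ∑ B ∈ (X b).powerset, ASumA_h (ASumA_g AZ) (n + k) B := fun b =>
    mul_nonneg (pow_nonneg he0 _) (sum_nonneg fun B _ => ASumA_h_nonneg hg _ _)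
  calc e ^ AZ.card * ∑ AY : Finset (α ⊕ β), (3 / 2 : ℝ) ^ (Ur AY).card *
        (5 / 6) ^ (Out AY AZ).card * fc s (n + k) AY
      ≤ e ^ AZ.card * ((∑ B ∈ (X true).powerset, ASumA_h (ASumA_g AZ) (n + k) B) *
        ∑ B ∈ (X false).powerset, ASumA_h (ASumA_g AZ) (n + k) B) :=
        mul_le_mul_of_nonneg_left hsum (pow_nonneg he0 _)
    _ = (e ^ ns (fun a => s (Sum.inl a)) AZ true *
          ∑ B ∈ (X true).powerset, ASumA_h (ASumA_g AZ) (n + k) B) *
        (e ^ ns (fun a => s (Sum.inl a)) AZ false *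
          ∑ B ∈ (X false).powerset, ASumA_h (ASumA_g AZ) (n + k) B) := by
        rw [hzz, pow_add]
        ring
    _ ≤ ((((n + k : ℕ) : ℝ) + 1) ^ 2 * ((n + k)! : ℝ)) *
        ((((n + k : ℕ) : ℝ) + 1) ^ 2 * ((n + k)! : ℝ)) :=
        mul_le_mul (hb true) (hb false) (hnn false) (by positivity)
    _ = _ := by ring

theorem pr_ASumA (hEy : S_Ey) (hPt : S_Pt) (hMass : D3.S_Mass) : S_ASumA := by
  intro n k s q h3 h1 _ hq hn hk
  have hM := hMass (CZ n) (fun a => s (Sum.inl a)) n hn
  rw [hq]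
  set e : ℝ := Real.exp (-(Real.log (3 / 2) * k / n)) with he
  rw [sum_comm]
  have hfc : ∀ AZ : Finset (CZ n), 0 ≤ fc (fun a => s (Sum.inl a)) n AZ := by
    intro AZ
    unfold fc
    positivity
  calc (∑ AZ : Finset (CZ n), ∑ AY : Finset (CY n k),
        ((3 / 2 : ℝ) ^ (Ur AY).card * e ^ AZ.card * (5 / 6) ^ (Out AY AZ).card) *
          (fc s (n + k) AY * fc (fun a => s (Sum.inl a)) n AZ))
      = ∑ AZ : Finset (CZ n), (e ^ AZ.card * ∑ AY : Finset (CY n k),
          (3 / 2 : ℝ) ^ (Ur AY).card * (5 / 6) ^ (Out AY AZ).card * fc s (n + k) AY) *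
            fc (fun a => s (Sum.inl a)) n AZ := by
        refine sum_congr rfl fun AZ _ => ?_
        rw [mul_sum, sum_mul]
        refine sum_congr rfl fun AY _ => ?_
        ring
    _ ≤ ∑ AZ : Finset (CZ n), ((((n + k : ℕ) : ℝ) + 1) ^ 4 * ((n + k)! : ℝ) ^ 2) *
          fc (fun a => s (Sum.inl a)) n AZ :=
        sum_le_sum fun AZ _ => mul_le_mul_of_nonneg_right
          (ASumA_key hEy hPt s AZ n k hn hk h3 h1) (hfc AZ)
    _ = (((n + k : ℕ) : ℝ) + 1) ^ 4 * ((n + k)! : ℝ) ^ 2 * (((n : ℝ) + 1) * (n ! : ℝ)) ^ 2 := by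
        rw [← mul_sum, hM]

end Pool.Agent.Work.MP_499dc6_lc.Fib
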