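import Pool.Agent.Work.MP_499dc6_lc.Fib.StmtsA

/-!
# Block Fib, item Avg: averaging
-/

namespace Pool.Agent.Work.MP_499dc6_lc.Fib

open Finset

/-- Cauchy-Schwarz with a nonnegative weight. -/
theorem Avg_cs (Ω : Type) [Fintype Ω] (v X : Ω → ℝ) (hv : ∀ ω, 0 ≤ v ω) :
    (∑ ω, v ω * X ω) ^ 2 ≤ (∑ ω, v ω * X ω ^ 2) * ∑ ω, v ω :=
  Finset.sum_sq_le_sum_mul_sum_of_sq_eq_mul Finset.univ
    (fun ω _ => mul_nonneg (hv ω) (sq_nonneg _)) (fun ω _ => hv ω) fun ω _ => by ring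

theorem pr_Avg : S_Avg := by
  intro Ω _ w X Z bad _ K δ hw hw1 hX hZ hM hK hδ hKM hbad h4
  obtain ⟨M, hMdef⟩ : ∃ M, M = ∑ ω, w ω * X ω := ⟨_, rfl⟩
  obtain ⟨E, hEdef⟩ : ∃ E, E = ∑ ω, w ω * Z ω := ⟨_, rfl⟩
  obtain ⟨b, hb⟩ : ∃ b : Ω → ℝ, b = fun ω => if bad ω then w ω else 0 := ⟨_, rfl⟩
  obtain ⟨g, hg⟩ : ∃ g : Ω → ℝ, g = fun ω => if bad ω then 0 else w ω := ⟨_, rfl⟩
  have hb0 : ∀ ω, 0 ≤ b ω := by
    intro ω
    rw [hb]
    show 0 ≤ if bad ω then w ω else 0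
    split_ifs
    · exact hw ω
    · exact le_rfl
  have hg0 : ∀ ω, 0 ≤ g ω := by
    intro ω
    rw [hg]
    show 0 ≤ if bad ω then 0 else w ω
    split_ifs
    · exact le_rfl
    · exact hw ω
  have hbg : ∀ ω, b ω + g ω = w ω := by
    intro ω
    rw [hb, hg]
    show (if bad ω then w ω else 0) + (if bad ω then 0 else w ω) = w ω
    split_ifs
    · rw [add_zero]
    · rw [zero_add]
  have hbw : ∀ ω, b ω ≤ w ω := fun ω => by linarith [hbg ω, hg0 ω]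
  have hgw : ∀ ω, g ω ≤ w ω := fun ω => by linarith [hbg ω, hb0 ω]
  rw [← hMdef] at hM hKM ⊢
  rw [← hEdef]
  have hbs : ∑ ω, b ω ≤ δ := by rw [hb]; exact hbad
  have hX2 : 0 ≤ ∑ ω, w ω * X ω ^ 2 :=
    Finset.sum_nonneg fun ω _ => mul_nonneg (hw ω) (sq_nonneg _)
  have hB2 : (∑ ω, b ω * X ω) ^ 2 ≤ (M / 2) ^ 2 := by
    have h1 := Avg_cs Ω b X hb0
    have h2 : ∑ ω, b ω * X ω ^ 2 ≤ ∑ ω, w ω * X ω ^ 2 :=
      Finset.sum_le_sum fun ω _ => mul_le_mul_of_nonneg_right (hbw ω) (sq_nonneg _)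
    have h3 : 0 ≤ ∑ ω, b ω := Finset.sum_nonneg fun ω _ => hb0 ω
    have h4' : (∑ ω, b ω * X ω ^ 2) * ∑ ω, b ω ≤ (K * M ^ 2) * δ :=
      mul_le_mul (h2.trans hKM) hbs h3 (mul_nonneg hK (sq_nonneg _))
    have h5 : (K * M ^ 2) * δ ≤ (M / 2) ^ 2 := by
      have h6 : 0 ≤ M ^ 2 := sq_nonneg _
      nlinarith
    exact h1.trans (h4'.trans h5)
  have hB : ∑ ω, b ω * X ω ≤ M / 2 := by
    exact (abs_le.1 (abs_le_of_sq_le_sq hB2 (by linarith))).2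
  have hsum : ∑ ω, b ω * X ω + ∑ ω, g ω * X ω = M := by
    rw [hMdef, ← Finset.sum_add_distrib]
    exact Finset.sum_congr rfl fun ω _ => by rw [← add_mul, hbg ω]
  have hG : M / 2 ≤ ∑ ω, g ω * X ω := by linarith
  by_contra hcon
  push Not at hcon
  have hE0 : 0 ≤ E := by
    rw [hEdef]
    exact Finset.sum_nonneg fun ω _ => mul_nonneg (hw ω) (hZ ω)
  have hpt : ∀ ω, 4 * E * (g ω * X ω ^ 2) ≤ M ^ 2 * (g ω * Z ω) := by
    intro ω
    by_cases hbω : bad ω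
    · have h8 : g ω = 0 := by rw [hg]; exact if_pos hbω
      rw [h8]
      simp
    · rcases (hX ω).lt_or_eq with h9 | h9
      · have h10 := hcon ω hbω h9
        have h11 := mul_le_mul_of_nonneg_left h10.le (hg0 ω)
        linarith
      · rw [← h9]
        have h12 : 0 ≤ M ^ 2 * (g ω * Z ω) :=
          mul_nonneg (sq_nonneg _) (mul_nonneg (hg0 ω) (hZ ω))
        linarith
  obtain ⟨ω₀, hω₀⟩ : ∃ ω, 0 < g ω * X ω := by
    by_contra h13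
    push Not at h13
    have h14 : ∑ ω, g ω * X ω ≤ 0 := Finset.sum_nonpos fun ω _ => h13 ω
    linarith
  have hgω : 0 < g ω₀ := by
    rcases (hg0 ω₀).lt_or_eq with h | h
    · exact h
    · rw [← h, zero_mul] at hω₀
      exact absurd hω₀ (lt_irrefl _)
  have hXω : 0 < X ω₀ := by
    rcases (hX ω₀).lt_or_eq with h | h
    · exact h
    · rw [← h, mul_zero] at hω₀
      exact absurd hω₀ (lt_irrefl _)
  have hbω : ¬ bad ω₀ := by
    intro h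
    have h8 : g ω₀ = 0 := by rw [hg]; exact if_pos h
    rw [h8] at hgω
    exact lt_irrefl _ hgω
  have h15 := hcon ω₀ hbω hXω
  have hZω : 0 < Z ω₀ := by
    rcases (hZ ω₀).lt_or_eq with h | h
    · exact h
    · rw [← h, mul_zero] at h15
      have : 0 ≤ 4 * E * X ω₀ ^ 2 := by positivity
      linarith
  have hE : 0 < E := by
    have h16 : w ω₀ * Z ω₀ ≤ E := by
      rw [hEdef]
      exact Finset.single_le_sum (f := fun ω => w ω * Z ω)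
        (fun ω _ => mul_nonneg (hw ω) (hZ ω)) (Finset.mem_univ ω₀)
    have h17 : 0 < w ω₀ := hgω.trans_le (hgw ω₀)
    have h18 : 0 < w ω₀ * Z ω₀ := mul_pos h17 hZω
    linarith
  have hstr : 4 * E * ∑ ω, g ω * X ω ^ 2 < M ^ 2 * ∑ ω, g ω * Z ω := by
    rw [Finset.mul_sum, Finset.mul_sum]
    refine Finset.sum_lt_sum (fun ω _ => hpt ω) ⟨ω₀, Finset.mem_univ _, ?_⟩
    have h19 := mul_lt_mul_of_pos_left h15 hgω
    linarith
  have hgZ : ∑ ω, g ω * Z ω ≤ E := by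
    rw [hEdef]
    exact Finset.sum_le_sum fun ω _ => mul_le_mul_of_nonneg_right (hgw ω) (hZ ω)
  have h20 : 4 * ∑ ω, g ω * X ω ^ 2 < M ^ 2 := by
    have h21 : M ^ 2 * ∑ ω, g ω * Z ω ≤ M ^ 2 * E := mul_le_mul_of_nonneg_left hgZ (sq_nonneg _)
    have h22 : E * (4 * ∑ ω, g ω * X ω ^ 2) < E * M ^ 2 := by linarith
    exact lt_of_mul_lt_mul_left h22 hE.le
  have h23 := Avg_cs Ω g X hg0
  have hgs : ∑ ω, g ω ≤ 1 := by
    rw [← hw1]
    exact Finset.sum_le_sum fun ω _ => hgw ω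
  have h24 : 0 ≤ ∑ ω, g ω * X ω ^ 2 :=
    Finset.sum_nonneg fun ω _ => mul_nonneg (hg0 ω) (sq_nonneg _)
  have h25 : (∑ ω, g ω * X ω ^ 2) * ∑ ω, g ω ≤ ∑ ω, g ω * X ω ^ 2 :=
    mul_le_of_le_one_right h24 hgs
  have h26 : (M / 2) ^ 2 ≤ (∑ ω, g ω * X ω) ^ 2 := pow_le_pow_left₀ (by linarith) hG 2
  have h27 : (M / 2) ^ 2 = M ^ 2 / 4 := by ring
  linarith

end Pool.Agent.Work.MP_499dc6_lc.Fib
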