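import Pool.Agent.Work.MP_499dc6_lc.Fib.StmtsB

set_option autoImplicit false

/-!
# Circuits of bounded depth, Fibonacci exponents: item Bas (basic polynomials)
-/

namespace Pool.Agent.Work.MP_499dc6_lc.Fib

open MvPolynomial Finset
open Pool.Agent.Work.MP_499dc6_lc.CD
open Pool.Agent.Work.MP_499dc6_lc.D3

theorem Bas_sum {Y Z : Type} [Fintype Y] [Fintype Z] {K : Type} [Field K] (al be e : ℝ)
    {ι : Type} (s : Finset ι) (f : ι → MvPolynomial (Y ⊕ Z) K)
    (h : ∀ i ∈ s, BB al be (f i) e) : BB al be (∑ i ∈ s, f i) (s.card * e) := by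
  classical
  induction s using Finset.induction_on with
  | empty =>
    rw [Finset.sum_empty, Finset.card_empty, Nat.cast_zero, zero_mul]
    exact BB.zero
  | insert i s hi ih =>
    rw [Finset.sum_insert hi, Finset.card_insert_of_notMem hi, Nat.cast_succ, add_mul, one_mul,
      add_comm ((s.card : ℝ) * e) e]
    exact BB.add (h i (Finset.mem_insert_self i s))
      (ih fun j hj => h j (Finset.mem_insert_of_mem hj))

theorem Bas_deg {Y Z : Type} [Fintype Y] [Fintype Z] (m : Y ⊕ Z →₀ ℕ) :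
    m.sum (fun _ e => e) = dY m + dZ m := by
  rw [Finsupp.sum_fintype _ _ (fun _ => rfl), Fintype.sum_sum_type]
  rfl

theorem Bas_low {Y Z : Type} [Fintype Y] [Fintype Z] {K : Type} [Field K] (e u v : ℕ)
    (l : MvPolynomial (Y ⊕ Z) K) (hl : l.totalDegree ≤ e) (he : e < u + v) : bc u v l = 0 := by
  ext m
  rw [coeff_bc, coeff_zero]
  split_ifs with h
  · by_contra hne
    have h1 := le_totalDegree (mem_support_iff.2 hne)
    rw [Bas_deg, h.1, h.2] at h1
    omega
  · rfl

theorem Bas_C {Y Z : Type} [Fintype Y] [Fintype Z] {K : Type} [Field K] (u v : ℕ)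
    (h : 1 ≤ u + v) (a : K) : bc u v (C a : MvPolynomial (Y ⊕ Z) K) = 0 :=
  Bas_low 0 u v _ (le_of_eq (totalDegree_C a)) (by omega)

theorem Bas_zero {Y Z : Type} [Fintype Y] [Fintype Z] {K : Type} [Field K]
    (B : MvPolynomial (Y ⊕ Z) K) : bc 0 0 (B - C (constantCoeff B)) = 0 := by
  classical
  ext m
  rw [coeff_bc, coeff_zero]
  split_ifs with h
  · have hm : m = 0 := by
      have h1 : ∑ i : Y, m (Sum.inl i) = 0 := h.1
      have h2 : ∑ j : Z, m (Sum.inr j) = 0 := h.2
      ext x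
      rcases x with i | j
      · exact (Finset.sum_eq_zero_iff.1 h1) i (mem_univ i)
      · exact (Finset.sum_eq_zero_iff.1 h2) j (mem_univ j)
    rw [hm, coeff_sub, coeff_zero_C, constantCoeff_eq, sub_self]
  · rfl

theorem Bas_num (ρ P : ℝ) (s t n : ℕ) (hρ : 0 < ρ) (hs : (s : ℝ) * P ≤ Real.exp (ρ / 2 * t))
    (hn : t ≤ n) : (s : ℝ) * (P * Real.exp (-(ρ * (n : ℝ)))) ≤
      Real.exp (-(ρ / 2 * (n : ℝ))) := by
  have h1 : Real.exp (ρ / 2 * t) ≤ Real.exp (ρ / 2 * n) := by
    refine Real.exp_le_exp.2 (mul_le_mul_of_nonneg_left ?_ (by linarith))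
    exact_mod_cast hn
  calc (s : ℝ) * (P * Real.exp (-(ρ * (n : ℝ)))) = (s * P) * Real.exp (-(ρ * (n : ℝ))) := by ring
    _ ≤ Real.exp (ρ / 2 * n) * Real.exp (-(ρ * (n : ℝ))) :=
        mul_le_mul_of_nonneg_right (hs.trans h1) (Real.exp_pos _).le
    _ = Real.exp (-(ρ / 2 * (n : ℝ))) := by
        rw [← Real.exp_add]
        congr 1
        ring

theorem pr_Bas (hSm : CD.S_BBsmul) (hPW : S_ProdW) (hExp : S_ExpT) : S_Bas := by
  classical
  intro Y Z _ _ K _ _ al be P ρ s e t dd F J B hρ hP het ht hsP hJ hB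
  rcases hB with ⟨l, c, hl, hc, hBe⟩ | ⟨k, hk, hBe⟩
  · refine ⟨B - C (constantCoeff B), Polynomial.X + Polynomial.C (constantCoeff B), Bas_zero B,
      ?_, ?_⟩
    · intro u v h1 h2
      have e1 : bc u v (B - C (constantCoeff B)) = ∑ j, C (c j) * bc u v (F j) := by
        have h3 : bc u v (B - C (constantCoeff B)) + bc u v (C (constantCoeff B)) = bc u v B := by
          rw [← bc_add, sub_add_cancel]
        rw [Bas_C u v (by omega), add_zero] at h3
        rw [h3, hBe, bc_add, Bas_low e u v l hl (by omega), zero_add, bc_sum]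
        exact Finset.sum_congr rfl fun j _ => bc_C_mul u v (c j) (F j)
      rw [e1]
      have h4 := Bas_sum al be (P * Real.exp (-(ρ * ((u + v : ℕ) : ℝ)))) univ
        (fun j => C (c j) * bc u v (F j)) (fun j _ => by
          by_cases hj : c j = 0
          · rw [hj, C_0, zero_mul]
            exact BB.mono BB.zero (by positivity)
          · exact hSm Y Z K al be _ _ (c j) ((hJ j (hc j hj)).1 u v (by omega) h2))
      rw [card_univ, Fintype.card_fin] at h4
      exact BB.mono h4 (Bas_num ρ P s t (u + v) hρ hsP h1)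
    · intro u v _
      congr 1
      rw [map_add, Polynomial.aeval_X, Polynomial.aeval_C, algebraMap_eq, sub_add_cancel]
  · have hw : ∀ j, ∃ w : ℕ → ℕ → MvPolynomial (Y ⊕ Z) K, k j ≠ 0 → LD dd (F j) w ∧
        ∀ u v : ℕ, 1 ≤ u + v → u + v ≤ dd →
          BB al be (w u v) (P * Real.exp (-(ρ * ((u + v : ℕ) : ℝ)))) := by
      intro j
      by_cases hj : k j = 0
      · exact ⟨fun _ _ => 0, fun h => absurd hj h⟩
      · obtain ⟨w, hw1, hw2⟩ := (hJ j (hk j hj)).2
        exact ⟨w, fun _ => ⟨hw1, hw2⟩⟩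
    choose w hw using hw
    have hLD := hPW Y Z K dd s F k w (fun j hj => (hw j hj).1)
    rw [← hBe] at hLD
    obtain ⟨x, T, hx0, hx1, hx2⟩ := hExp Y Z K dd B _ hLD
    refine ⟨x, T, hx0, fun u v h1 h2 => ?_, hx2⟩
    rw [hx1 u v (by omega) h2]
    refine hSm Y Z K al be _ _ _ ?_
    have h4 := Bas_sum al be (P * Real.exp (-(ρ * ((u + v : ℕ) : ℝ)))) univ
      (fun j => if k j ≠ 0 then C ((k j : K)) * w j u v else 0) (fun j _ => by
        by_cases hj : k j = 0
        · rw [if_neg (not_not.2 hj)]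
          exact BB.mono BB.zero (by positivity)
        · rw [if_pos hj]
          exact hSm Y Z K al be _ _ _ ((hw j hj).2 u v (by omega) h2))
    rw [card_univ, Fintype.card_fin] at h4
    exact BB.mono h4 (Bas_num ρ P s t (u + v) hρ hsP h1)

end Pool.Agent.Work.MP_499dc6_lc.Fib
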