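import Pool.Agent.Work.MP_499dc6_lc.Fib.StmtsB

set_option autoImplicit false

namespace Pool.Agent.Work.MP_499dc6_lc.Fib

open MvPolynomial Finset
open Pool.Agent.Work.MP_499dc6_lc.CD
open Pool.Agent.Work.MP_499dc6_lc.D3

section

variable {Y Z : Type} [Fintype Y] [Fintype Z] {K : Type} [Field K]

/-- no component of degree below `n` -/
def Box_low (n : ℕ) (f : MvPolynomial (Y ⊕ Z) K) : Prop := ∀ u v, u + v < n → bc u v f = 0

theorem Box_low_zero (f : MvPolynomial (Y ⊕ Z) K) : Box_low 0 f :=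
  fun _ _ h => absurd h (Nat.not_lt_zero _)

theorem Box_low_mul (hBM : D3.S_BcMul) {n m : ℕ} {f g : MvPolynomial (Y ⊕ Z) K}
    (hf : Box_low n f) (hg : Box_low m g) : Box_low (n + m) (f * g) := by
  intro u v huv
  rw [hBM]
  refine sum_eq_zero fun p hp => sum_eq_zero fun q hq => ?_
  have hp' := mem_antidiagonal.1 hp
  have hq' := mem_antidiagonal.1 hq
  by_cases h : p.1 + q.1 < n
  · rw [hf _ _ h, zero_mul]
  · rw [hg p.2 q.2 (by omega), mul_zero]

theorem Box_low_pow (hBM : D3.S_BcMul) {f : MvPolynomial (Y ⊕ Z) K} (hf : Box_low 1 f) (k : ℕ) :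
    Box_low k (f ^ k) := by
  induction k with
  | zero => exact Box_low_zero _
  | succ k ih =>
    rw [pow_succ]
    exact Box_low_mul hBM ih hf

theorem Box_low_prod (hBM : D3.S_BcMul) {ι : Type} (S : Finset ι)
    (x : ι → MvPolynomial (Y ⊕ Z) K) (hx : ∀ a, Box_low 1 (x a)) (d : ι → ℕ) :
    Box_low (∑ a ∈ S, d a) (∏ a ∈ S, x a ^ d a) := by
  classical
  induction S using Finset.induction_on with
  | empty =>
    rw [sum_empty]
    exact Box_low_zero _
  | insert a S ha ih =>
    rw [sum_insert ha, prod_insert ha]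
    exact Box_low_mul hBM (Box_low_pow hBM (hx a) _) ih

end

theorem pr_Box (hBM : D3.S_BcMul) : S_Box := by
  intro Y Z _ _ K _ ι _ _ x Q dd u v hx huv
  classical
  have hx1 : ∀ a, Box_low 1 (x a) := by
    intro a u v h
    have h1 : u = 0 := by omega
    have h2 : v = 0 := by omega
    rw [h1, h2]
    exact hx a
  set F : (ι →₀ ℕ) → MvPolynomial (Y ⊕ Z) K := fun d =>
    C (coeff d Q) * bc u v (∏ a, x a ^ d a) with hF
  set T : Finset (ι →₀ ℕ) := (Fintype.piFinset (fun _ : ι => range (dd + 1))).map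
    Finsupp.equivFunOnFinite.symm.toEmbedding with hT
  have h1 : bc u v (aeval x Q) = ∑ d ∈ Q.support, F d := by
    rw [aeval_def, eval₂_eq', bc_sum]
    refine sum_congr rfl fun d _ => ?_
    rw [MvPolynomial.algebraMap_eq, bc_C_mul]
  have h2 : ∑ m ∈ Fintype.piFinset (fun _ : ι => range (dd + 1)),
      C (coeff (Finsupp.equivFunOnFinite.symm m) Q) * bc u v (∏ a, x a ^ m a) = ∑ d ∈ T, F d := by
    rw [hT, sum_map]
    refine sum_congr rfl fun m _ => ?_
    rfl
  rw [h1, h2]
  have h3 : ∀ d ∈ Q.support, d ∉ T → F d = 0 := by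
    intro d _ hd
    have h4 : ∃ a, dd < d a := by
      by_contra h
      push Not at h
      apply hd
      rw [hT, mem_map_equiv]
      rw [Fintype.mem_piFinset]
      intro a
      rw [mem_range]
      have := h a
      show d a < dd + 1
      omega
    obtain ⟨a, ha⟩ := h4
    have h5 : d a ≤ ∑ a, d a := single_le_sum (f := fun a => d a) (fun _ _ => Nat.zero_le _) (mem_univ a)
    rw [hF]
    show C (coeff d Q) * bc u v (∏ a, x a ^ d a) = 0
    rw [Box_low_prod hBM univ x hx1 d u v (by omega), mul_zero]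
  have h4 : ∀ d ∈ T, d ∉ Q.support → F d = 0 := by
    intro d _ hd
    rw [notMem_support_iff] at hd
    show C (coeff d Q) * bc u v (∏ a, x a ^ d a) = 0
    rw [hd, C_0, zero_mul]
  calc ∑ d ∈ Q.support, F d = ∑ d ∈ Q.support ∩ T, F d := by
        symm
        refine sum_subset inter_subset_left fun d hd hd' => ?_
        exact h3 d hd fun h => hd' (mem_inter.2 ⟨hd, h⟩)
    _ = ∑ d ∈ T, F d := by
        refine sum_subset inter_subset_right fun d hd hd' => ?_
        exact h4 d hd fun h => hd' (mem_inter.2 ⟨h, hd⟩)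

end Pool.Agent.Work.MP_499dc6_lc.Fib
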