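import Pool.Agent.Work.MP_499dc6_lc.Fib.StmtsB

/-! Item Comp of block Fib: substituting univariate polynomials. -/

namespace Pool.Agent.Work.MP_499dc6_lc.Fib

open MvPolynomial Finset
open Pool.Agent.Work.MP_499dc6_lc.CD
open Pool.Agent.Work.MP_499dc6_lc.D3

theorem Comp_aux {Y Z K : Type} [Field K] {r : ℕ} (x : Fin r → MvPolynomial (Y ⊕ Z) K)
    (T : Fin r → Polynomial K) (Q : MvPolynomial (Fin r) K) :
    aeval x (aeval (fun a => Polynomial.aeval (X a : MvPolynomial (Fin r) K) (T a)) Q) =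
      aeval (fun a => Polynomial.aeval (x a) (T a)) Q := by
  rw [← AlgHom.comp_apply, comp_aeval]
  have h : (fun a => (aeval x) (Polynomial.aeval (X a : MvPolynomial (Fin r) K) (T a))) =
      fun a => Polynomial.aeval (x a) (T a) := by
    funext a
    rw [← Polynomial.aeval_algHom_apply, aeval_X]
  rw [h]

theorem pr_Comp (hTr : S_Trunc) : S_Comp := by
  intro Y Z _ _ K _ r dd B x T Q h
  refine ⟨aeval (fun a => Polynomial.aeval (X a : MvPolynomial (Fin r) K) (T a)) Q, ?_⟩
  intro u v huv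
  rw [Comp_aux]
  exact hTr Y Z K dd (Fin r) B (fun a => Polynomial.aeval (x a) (T a)) Q h u v huv

end Pool.Agent.Work.MP_499dc6_lc.Fib
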