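import Pool.Agent.Work.MP_499dc6_lc.Fib.StmtsB

/-!
# Block Fib, part B: item Cone
-/

set_option autoImplicit false

namespace Pool.Agent.Work.MP_499dc6_lc.Fib

open MvPolynomial Finset
open Pool.Agent.Work.MP_499dc6_lc.CD
open Pool.Agent.Work.MP_499dc6_lc.D3

theorem Cone_mul (hBM : D3.S_BcMul) {Y Z : Type} [Fintype Y] [Fintype Z] {K : Type} [Field K]
    {Cn : ℕ → ℕ → Prop} (hC : ∀ u v u' v', Cn u v → Cn u' v' → Cn (u + u') (v + v'))
    {f g : MvPolynomial (Y ⊕ Z) K} (hf : ∀ u v, bc u v f ≠ 0 → Cn u v)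
    (hg : ∀ u v, bc u v g ≠ 0 → Cn u v) (u v : ℕ) (h : bc u v (f * g) ≠ 0) : Cn u v := by
  rw [hBM] at h
  obtain ⟨p, hp, h1⟩ := Finset.exists_ne_zero_of_sum_ne_zero h
  obtain ⟨q, hq, h2⟩ := Finset.exists_ne_zero_of_sum_ne_zero h1
  have h3 := hC _ _ _ _ (hf _ _ (left_ne_zero_of_mul h2)) (hg _ _ (right_ne_zero_of_mul h2))
  rw [Finset.HasAntidiagonal.mem_antidiagonal] at hp hq
  rw [hp, hq] at h3
  exact h3

theorem Cone_one {Y Z : Type} [Fintype Y] [Fintype Z] {K : Type} [Field K]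
    {Cn : ℕ → ℕ → Prop} (h0 : Cn 0 0) (u v : ℕ)
    (h : bc u v (1 : MvPolynomial (Y ⊕ Z) K) ≠ 0) : Cn u v := by
  rw [bc_of_isBi D3.isBi_one] at h
  split_ifs at h with h1
  · rw [h1.1, h1.2]
    exact h0
  · exact absurd rfl h

theorem pr_Cone (hBM : D3.S_BcMul) : S_Cone := by
  intro Y Z _ _ K _ ι _ x m Cn h0 hC hx
  refine Finset.prod_induction (fun a => x a ^ m a)
    (fun f : MvPolynomial (Y ⊕ Z) K => ∀ u v, bc u v f ≠ 0 → Cn u v)
    (fun f g hf hg => Cone_mul hBM hC hf hg) (Cone_one h0) fun a _ => ?_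
  induction m a with
  | zero =>
    rw [pow_zero]
    exact Cone_one h0
  | succ n ih =>
    rw [pow_succ]
    exact Cone_mul hBM hC ih (hx a)

end Pool.Agent.Work.MP_499dc6_lc.Fib
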