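import Pool.Agent.Work.MP_499dc6_lc.Fib.StmtsA

/-!
# Item EZ (helper39): the expected number of rectangles
-/

namespace Pool.Agent.Work.MP_499dc6_lc.Fib

open MvPolynomial Equiv Finset
open Pool.Agent.Work.MP_499dc6_lc.CD
open Pool.Agent.Work.MP_499dc6_lc.D3

open scoped Nat

section

variable {α : Type} [Fintype α] [DecidableEq α]

theorem EZ_gr (σ : Perm α) (p : α × α) : gr σ p = if σ p.1 = p.2 then 1 else 0 := rfl

theorem EZ_a {c₁ c₂ d₁ d₂ : Perm α} (h : gr c₁ + gr d₂ = gr c₂ + gr d₁) (i : α) :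
    c₂ i = c₁ i ∨ d₁ i = c₁ i := by
  have h1 := DFunLike.congr_fun h (i, c₁ i)
  rw [Finsupp.add_apply, Finsupp.add_apply, EZ_gr, EZ_gr, EZ_gr, EZ_gr] at h1
  simp only [if_true] at h1
  by_contra h2
  rw [not_or] at h2
  rw [if_neg h2.1, if_neg h2.2] at h1
  split_ifs at h1 <;> omega

theorem EZ_c (c₁ c₂ : Perm α) : (∑ i, (gr c₂ i - gr c₁ i)) =
    (univ.filter fun i => c₂ i ≠ c₁ i).card := by
  rw [Fintype.sum_prod_type, Finset.card_filter]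
  refine Finset.sum_congr rfl fun i _ => ?_
  rw [Finset.sum_eq_single (c₂ i)]
  · rw [EZ_gr, EZ_gr]
    simp only [if_true]
    by_cases h : c₁ i = c₂ i
    · rw [if_pos h, if_neg (by simpa using h.symm)]
    · rw [if_neg h, if_pos (fun h' => h h'.symm)]
  · intro j _ hj
    rw [EZ_gr, EZ_gr]
    simp only
    rw [if_neg (fun h => hj h.symm), Nat.zero_sub]
  · intro h
    exact absurd (mem_univ _) h

end

theorem EZ_sub {ι : Type} [Fintype ι] (p : ι → Prop) [DecidablePred p] [Fintype {x // p x}]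
    (f : ι → ℝ) : ∑ x : {x // p x}, f x.1 = ∑ x, if p x then f x else 0 := by
  rw [← Finset.sum_filter]
  exact (Finset.sum_subtype _ (by simp) f).symm

/-- the summand -/
noncomputable def EZ_G {n k : ℕ} (q : ℝ) (c₁ c₂ d₁ d₂ : Code n k) : ℝ :=
  if gr c₁.1.1 + gr d₂.1.1 = gr c₂.1.1 + gr d₁.1.1 ∧
      gr c₁.1.2 + gr d₂.1.2 = gr c₂.1.2 + gr d₁.1.2 then
    (2 / 3 : ℝ) ^ (∑ i, (gr c₂.1.1 i - gr c₁.1.1 i)) *
      q ^ (∑ j, (gr d₁.1.2 j - gr c₁.1.2 j)) else 0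

theorem EZ_G_nonneg {n k : ℕ} (q : ℝ) (hq : 0 < q) (c₁ c₂ d₁ d₂ : Code n k) :
    0 ≤ EZ_G q c₁ c₂ d₁ d₂ := by
  unfold EZ_G
  split_ifs
  · positivity
  · exact le_rfl

/-- the sum for one set `A` -/
theorem EZ_one {n k : ℕ} (q : ℝ) (hq : 0 < q) (A : Finset (VV n k)) :
    (∑ c₁ : {c : Code n k // cells c ⊆ A}, ∑ c₂ : {c : Code n k // cells c ⊆ A},
      ∑ d₁ : {c : Code n k // cells c ⊆ A}, ∑ d₂ : {c : Code n k // cells c ⊆ A},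
        EZ_G q c₁.1 c₂.1 d₁.1 d₂.1) ≤
    ∑ c₁ : Code n k, ∑ c₂ : Code n k, ∑ d₁ : Code n k,
      if cells c₁ ∪ cells c₂ ∪ cells d₁ ⊆ A then ∑ d₂ : Code n k, EZ_G q c₁ c₂ d₁ d₂ else 0 := by
  have h1 : ∀ c₁ c₂ d₁ : Code n k, (∑ d₂ : {c : Code n k // cells c ⊆ A},
      EZ_G q c₁ c₂ d₁ d₂.1) ≤ ∑ d₂ : Code n k, EZ_G q c₁ c₂ d₁ d₂ := by
    intro c₁ c₂ d₁
    rw [EZ_sub (fun c : Code n k => cells c ⊆ A) (fun d₂ => EZ_G q c₁ c₂ d₁ d₂)]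
    refine Finset.sum_le_sum fun d₂ _ => ?_
    split_ifs
    · exact le_rfl
    · exact EZ_G_nonneg q hq _ _ _ _
  have h2 : (∑ c₁ : {c : Code n k // cells c ⊆ A}, ∑ c₂ : {c : Code n k // cells c ⊆ A},
      ∑ d₁ : {c : Code n k // cells c ⊆ A}, ∑ d₂ : {c : Code n k // cells c ⊆ A},
        EZ_G q c₁.1 c₂.1 d₁.1 d₂.1) ≤
      ∑ c₁ : {c : Code n k // cells c ⊆ A}, ∑ c₂ : {c : Code n k // cells c ⊆ A},
      ∑ d₁ : {c : Code n k // cells c ⊆ A}, ∑ d₂ : Code n k, EZ_G q c₁.1 c₂.1 d₁.1 d₂ :=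
    Finset.sum_le_sum fun c₁ _ => Finset.sum_le_sum fun c₂ _ => Finset.sum_le_sum fun d₁ _ =>
      h1 _ _ _
  refine h2.trans (le_of_eq ?_)
  rw [EZ_sub (fun c : Code n k => cells c ⊆ A) (fun c₁ => ∑ c₂ : {c : Code n k // cells c ⊆ A},
      ∑ d₁ : {c : Code n k // cells c ⊆ A}, ∑ d₂ : Code n k, EZ_G q c₁ c₂.1 d₁.1 d₂)]
  refine Finset.sum_congr rfl fun c₁ _ => ?_
  by_cases p1 : cells c₁ ⊆ A
  · rw [if_pos p1, EZ_sub (fun c : Code n k => cells c ⊆ A) (fun c₂ =>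
      ∑ d₁ : {c : Code n k // cells c ⊆ A}, ∑ d₂ : Code n k, EZ_G q c₁ c₂ d₁.1 d₂)]
    refine Finset.sum_congr rfl fun c₂ _ => ?_
    by_cases p2 : cells c₂ ⊆ A
    · rw [if_pos p2, EZ_sub (fun c : Code n k => cells c ⊆ A) (fun d₁ =>
        ∑ d₂ : Code n k, EZ_G q c₁ c₂ d₁ d₂)]
      refine Finset.sum_congr rfl fun d₁ _ => ?_
      by_cases p3 : cells d₁ ⊆ A
      · rw [if_pos p3, if_pos (union_subset (union_subset p1 p2) p3)]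
      · rw [if_neg p3, if_neg (fun h => p3 (subset_union_right.trans h))]
    · rw [if_neg p2]
      refine (Finset.sum_eq_zero fun d₁ _ => ?_).symm
      rw [if_neg (fun h => p2 (subset_union_right.trans (subset_union_left.trans h)))]
  · rw [if_neg p1]
    refine (Finset.sum_eq_zero fun c₂ _ => Finset.sum_eq_zero fun d₁ _ => ?_).symm
    rw [if_neg (fun h => p1 (subset_union_left.trans (subset_union_left.trans h)))]

/-- exchange of the sums -/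
theorem EZ_swap (hWt : S_Wt) {n k : ℕ} (q : ℝ) :
    (∑ A : Finset (VV n k), wt A * ∑ c₁ : Code n k, ∑ c₂ : Code n k, ∑ d₁ : Code n k,
      if cells c₁ ∪ cells c₂ ∪ cells d₁ ⊆ A then ∑ d₂ : Code n k, EZ_G q c₁ c₂ d₁ d₂ else 0) =
    ∑ c₁ : Code n k, ∑ c₂ : Code n k, ∑ d₁ : Code n k, ∑ d₂ : Code n k,
      (9 / 10 : ℝ) ^ (cells c₁ ∪ cells c₂ ∪ cells d₁).card * EZ_G q c₁ c₂ d₁ d₂ := by
  have h1 : ∀ A : Finset (VV n k), (wt A * ∑ c₁ : Code n k, ∑ c₂ : Code n k, ∑ d₁ : Code n k,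
      if cells c₁ ∪ cells c₂ ∪ cells d₁ ⊆ A then ∑ d₂ : Code n k, EZ_G q c₁ c₂ d₁ d₂ else 0) =
      ∑ c₁ : Code n k, ∑ c₂ : Code n k, ∑ d₁ : Code n k,
        (if cells c₁ ∪ cells c₂ ∪ cells d₁ ⊆ A then wt A else 0) *
          ∑ d₂ : Code n k, EZ_G q c₁ c₂ d₁ d₂ := by
    intro A
    rw [Finset.mul_sum]
    refine Finset.sum_congr rfl fun c₁ _ => ?_
    rw [Finset.mul_sum]
    refine Finset.sum_congr rfl fun c₂ _ => ?_
    rw [Finset.mul_sum]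
    refine Finset.sum_congr rfl fun d₁ _ => ?_
    split_ifs
    · rfl
    · rw [mul_zero, zero_mul]
  simp only [h1]
  rw [Finset.sum_comm]
  refine Finset.sum_congr rfl fun c₁ _ => ?_
  rw [Finset.sum_comm]
  refine Finset.sum_congr rfl fun c₂ _ => ?_
  rw [Finset.sum_comm]
  refine Finset.sum_congr rfl fun d₁ _ => ?_
  rw [← Finset.sum_mul, (hWt (VV n k)).2, Finset.mul_sum]

/-- one summand -/
theorem EZ_term (hU : S_Uni) {n k : ℕ} (q : ℝ) (c₁ c₂ d₁ d₂ : Code n k) :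
    (9 / 10 : ℝ) ^ (cells c₁ ∪ cells c₂ ∪ cells d₁).card * EZ_G q c₁ c₂ d₁ d₂ =
    (9 / 10 : ℝ) ^ (2 * (n + k) + 2 * n) *
      (if gr c₁.1.1 + gr d₂.1.1 = gr c₂.1.1 + gr d₁.1.1 ∧
          gr c₁.1.2 + gr d₂.1.2 = gr c₂.1.2 + gr d₁.1.2 then
        (3 / 5 : ℝ) ^ (univ.filter fun i => c₂.1.1 i ≠ c₁.1.1 i).card *
          (9 / 10) ^ (univ.filter fun j => c₂.1.2 j ≠ c₁.1.2 j).card *
          (9 / 10) ^ (univ.filter fun i => d₁.1.1 i ≠ c₁.1.1 i).card *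
          (9 / 10 * q) ^ (univ.filter fun j => d₁.1.2 j ≠ c₁.1.2 j).card
      else 0) := by
  unfold EZ_G
  by_cases hc : gr c₁.1.1 + gr d₂.1.1 = gr c₂.1.1 + gr d₁.1.1 ∧
          gr c₁.1.2 + gr d₂.1.2 = gr c₂.1.2 + gr d₁.1.2
  · rw [if_pos hc, if_pos hc, EZ_c, EZ_c,
      (hU n k c₁ c₂ d₁).2.1 (fun i => EZ_a hc.1 i) (fun j => EZ_a hc.2 j)]
    generalize (univ.filter fun i => c₂.1.1 i ≠ c₁.1.1 i).card = a
    generalize (univ.filter fun j => c₂.1.2 j ≠ c₁.1.2 j).card = b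
    generalize (univ.filter fun i => d₁.1.1 i ≠ c₁.1.1 i).card = c
    generalize (univ.filter fun j => d₁.1.2 j ≠ c₁.1.2 j).card = d
    rw [show (3 / 5 : ℝ) = 9 / 10 * (2 / 3) by norm_num, mul_pow, mul_pow, pow_add, pow_add,
      pow_add, pow_add]
    ring
  · rw [if_neg hc, if_neg hc, mul_zero, mul_zero]

/-- the sum for one `c₁` -/
theorem EZ_inner (hSt : S_StructA) (hSh : S_ShiftA) (hPat : D3.S_Pattern) (hG : S_GSumA)
    {n k : ℕ} (q : ℝ) (hkn : 3 * k ≤ n) (hk : 1 ≤ k) (hq : 0 < q)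
    (hqe : q * (3 / 2) = Real.exp (-(Real.log (3 / 2) * k / n))) (c₁ : Code n k) :
    (∑ c₂ : Code n k, ∑ d₁ : Code n k, ∑ d₂ : Code n k,
      if gr c₁.1.1 + gr d₂.1.1 = gr c₂.1.1 + gr d₁.1.1 ∧
          gr c₁.1.2 + gr d₂.1.2 = gr c₂.1.2 + gr d₁.1.2 then
        (3 / 5 : ℝ) ^ (univ.filter fun i => c₂.1.1 i ≠ c₁.1.1 i).card *
          (9 / 10) ^ (univ.filter fun j => c₂.1.2 j ≠ c₁.1.2 j).card *
          (9 / 10) ^ (univ.filter fun i => d₁.1.1 i ≠ c₁.1.1 i).card *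
          (9 / 10 * q) ^ (univ.filter fun j => d₁.1.2 j ≠ c₁.1.2 j).card
      else 0) ≤
    (9 / 10) ^ (2 * (n + k) + 2 * n) * (4 / 3) ^ (2 * (n + k)) *
      (64 * ((((n + k : ℕ) : ℝ) + 1) ^ 4 * ((n + k)! : ℝ) ^ 2 *
        (((n : ℝ) + 1) * (n ! : ℝ)) ^ 2)) := by
  refine (hSt n k c₁ (3 / 5) (9 / 10) (9 / 10) (9 / 10 * q) (by norm_num) (by norm_num)
    (by norm_num) (by positivity)).trans ?_
  rw [hSh n k c₁ (3 / 5) (9 / 10) (9 / 10) (9 / 10 * q) (fun x => sd (c₁.1.1.symm x))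
    (fun x => rfl)]
  have h := hG n k (fun x => sd (c₁.1.1.symm x)) q hkn hk hq hqe (fun b => (hPat n k c₁ b).1)
    (fun b => (hPat n k c₁ b).2)
  have h32 : (0 : ℝ) < (3 / 2) ^ (2 * (n + k)) := by positivity
  rw [← le_div_iff₀' h32] at h
  refine h.trans (le_of_eq ?_)
  have h43 : (4 / 3 : ℝ) ^ (2 * (n + k)) = 2 ^ (2 * (n + k)) / (3 / 2) ^ (2 * (n + k)) := by
    rw [← div_pow]; norm_num
  rw [h43]
  generalize ((((n + k : ℕ) : ℝ) + 1) ^ 4 * ((n + k)! : ℝ) ^ 2 *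
    (((n : ℝ) + 1) * (n ! : ℝ)) ^ 2) = W
  generalize (9 / 10 : ℝ) ^ (2 * (n + k) + 2 * n) = V
  generalize (2 : ℝ) ^ (2 * (n + k)) = T
  generalize (3 / 2 : ℝ) ^ (2 * (n + k)) = U
  ring

theorem pr_EZ (hWt : S_Wt) (hSt : S_StructA) (hSh : S_ShiftA) (hPat : D3.S_Pattern)
    (hG : S_GSumA) (hU : S_Uni) : S_EZ := by
  intro n k q hkn hk hq hqe
  have h1 : (∑ A : Finset (VV n k), wt A * ∑ c₁ : {c : Code n k // cells c ⊆ A},
      ∑ c₂ : {c : Code n k // cells c ⊆ A}, ∑ d₁ : {c : Code n k // cells c ⊆ A},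
      ∑ d₂ : {c : Code n k // cells c ⊆ A}, EZ_G q c₁.1 c₂.1 d₁.1 d₂.1) ≤
      ∑ A : Finset (VV n k), wt A * ∑ c₁ : Code n k, ∑ c₂ : Code n k, ∑ d₁ : Code n k,
      if cells c₁ ∪ cells c₂ ∪ cells d₁ ⊆ A then ∑ d₂ : Code n k, EZ_G q c₁ c₂ d₁ d₂ else 0 :=
    Finset.sum_le_sum fun A _ => mul_le_mul_of_nonneg_left (EZ_one q hq A)
      ((hWt (VV n k)).1 A).le
  refine h1.trans ?_
  rw [EZ_swap hWt q]
  have h2 : (∑ c₁ : Code n k, ∑ c₂ : Code n k, ∑ d₁ : Code n k, ∑ d₂ : Code n k,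
      (9 / 10 : ℝ) ^ (cells c₁ ∪ cells c₂ ∪ cells d₁).card * EZ_G q c₁ c₂ d₁ d₂) ≤
      ∑ _c₁ : Code n k, (9 / 10 : ℝ) ^ (2 * (n + k) + 2 * n) *
        ((9 / 10) ^ (2 * (n + k) + 2 * n) * (4 / 3) ^ (2 * (n + k)) *
      (64 * ((((n + k : ℕ) : ℝ) + 1) ^ 4 * ((n + k)! : ℝ) ^ 2 *
        (((n : ℝ) + 1) * (n ! : ℝ)) ^ 2))) := by
    refine Finset.sum_le_sum fun c₁ _ => ?_
    simp only [EZ_term hU, ← Finset.mul_sum]
    exact mul_le_mul_of_nonneg_left (EZ_inner hSt hSh hPat hG q hkn hk hq hqe c₁) (by positivity)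
  refine h2.trans (le_of_eq ?_)
  have hV : (9 / 10 : ℝ) ^ (2 * (2 * (n + k) + 2 * n)) =
      ((9 / 10 : ℝ) ^ (2 * (n + k) + 2 * n)) ^ 2 := by
    rw [← pow_mul, mul_comm]
  rw [Finset.sum_const, Finset.card_univ, nsmul_eq_mul, hV]
  generalize (64 * ((((n + k : ℕ) : ℝ) + 1) ^ 4 * ((n + k)! : ℝ) ^ 2 *
    (((n : ℝ) + 1) * (n ! : ℝ)) ^ 2)) = W
  generalize (9 / 10 : ℝ) ^ (2 * (n + k) + 2 * n) = V
  ring

end Pool.Agent.Work.MP_499dc6_lc.Fib
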