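import Pool.Agent.Work.MP_499dc6_lc.Fib.StmtsB

/-!
# Item ExpT: a polynomial with a logarithmic derivative is a polynomial in one element
-/

namespace Pool.Agent.Work.MP_499dc6_lc.Fib

open MvPolynomial Finset
open Pool.Agent.Work.MP_499dc6_lc.CD
open Pool.Agent.Work.MP_499dc6_lc.D3

/-- The Euler operator. -/
noncomputable def ExpT_D (σ K : Type) [Field K] :
    Derivation K (MvPolynomial σ K) (MvPolynomial σ K) := mkDerivation K X

theorem ExpT_D_monomial {σ K : Type} [Field K] (s : σ →₀ ℕ) (r : K) :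
    ExpT_D σ K (monomial s r) = monomial s ((s.degree : K) * r) := by
  unfold ExpT_D
  rw [mkDerivation_monomial]
  have h1 : ∀ i ∈ s.support, monomial (s - Finsupp.single i 1) ((s i : ℕ) : K) •
      (X i : MvPolynomial σ K) = monomial s ((s i : ℕ) : K) := by
    intro i hi
    rw [smul_eq_mul, X, monomial_mul, mul_one, tsub_add_cancel_of_le]
    rw [Finsupp.single_le_iff]
    exact Nat.one_le_iff_ne_zero.2 (Finsupp.mem_support_iff.1 hi)
  have hd : s.degree = ∑ i ∈ s.support, s i := rfl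
  rw [Finsupp.sum, Finset.sum_congr rfl h1, ← map_sum, smul_monomial, hd]
  congr 1
  push_cast
  rw [smul_eq_mul, mul_comm]

theorem ExpT_coeff_D {σ K : Type} [Field K] (f : MvPolynomial σ K) (m : σ →₀ ℕ) :
    coeff m (ExpT_D σ K f) = (m.degree : K) * coeff m f := by
  classical
  induction f using MvPolynomial.induction_on' with
  | monomial s r =>
    rw [ExpT_D_monomial, coeff_monomial, coeff_monomial]
    split_ifs with h
    · rw [h]
    · rw [mul_zero]
  | add p q hp hq => rw [map_add, coeff_add, coeff_add, hp, hq, mul_add]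

section

variable {Y Z K : Type} [Fintype Y] [Fintype Z] [Field K]

theorem ExpT_bc_D (f : MvPolynomial (Y ⊕ Z) K) (u v : ℕ) :
    bc u v (ExpT_D (Y ⊕ Z) K f) = ((u + v : ℕ) : MvPolynomial (Y ⊕ Z) K) * bc u v f := by
  have hc : ((u + v : ℕ) : MvPolynomial (Y ⊕ Z) K) = C ((u + v : ℕ) : K) := by simp
  rw [hc]
  ext m
  rw [coeff_C_mul, coeff_bc, coeff_bc, ExpT_coeff_D]
  by_cases h : dY m = u ∧ dZ m = v
  · rw [if_pos h, if_pos h, deg_eq, h.1, h.2]
  · rw [if_neg h, if_neg h, mul_zero]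

/-- Powers of a polynomial without constant component have no small components. -/
theorem ExpT_low (hBM : D3.S_BcMul) (x : MvPolynomial (Y ⊕ Z) K) (h0 : bc 0 0 x = 0) :
    ∀ n u v : ℕ, u + v < n → bc u v (x ^ n) = 0 := by
  intro n
  induction n with
  | zero => intro u v h; omega
  | succ n ih =>
    intro u v h
    rw [pow_succ, hBM]
    refine Finset.sum_eq_zero fun p hp => Finset.sum_eq_zero fun q hq => ?_
    rw [Finset.HasAntidiagonal.mem_antidiagonal] at hp hq
    by_cases hlt : p.1 + q.1 < n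
    · rw [ih _ _ hlt, zero_mul]
    · have h1 : p.2 = 0 := by omega
      have h2 : q.2 = 0 := by omega
      rw [h1, h2, h0, mul_zero]

/-- The product of a power with a polynomial without constant component. -/
theorem ExpT_low' (hBM : D3.S_BcMul) (x y : MvPolynomial (Y ⊕ Z) K) (h0 : bc 0 0 x = 0)
    (hy : bc 0 0 y = 0) (n u v : ℕ) (h : u + v ≤ n) : bc u v (x ^ n * y) = 0 := by
  rw [hBM]
  refine Finset.sum_eq_zero fun p hp => Finset.sum_eq_zero fun q hq => ?_
  rw [Finset.HasAntidiagonal.mem_antidiagonal] at hp hq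
  by_cases hlt : p.1 + q.1 < n
  · rw [ExpT_low hBM x h0 _ _ _ hlt, zero_mul]
  · have h1 : p.2 = 0 := by omega
    have h2 : q.2 = 0 := by omega
    rw [h1, h2, hy, mul_zero]

/-- The truncated exponential. -/
noncomputable def ExpT_E (V₀ : K) (x : MvPolynomial (Y ⊕ Z) K) (dd : ℕ) :
    MvPolynomial (Y ⊕ Z) K :=
  ∑ n ∈ range (dd + 1), C (V₀ / (n.factorial : K)) * x ^ n

theorem ExpT_D_E [CharZero K] (V₀ : K) (x : MvPolynomial (Y ⊕ Z) K) (dd : ℕ) :
    ExpT_D (Y ⊕ Z) K (ExpT_E V₀ x dd) + C (V₀ / (dd.factorial : K)) *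
      (x ^ dd * ExpT_D (Y ⊕ Z) K x) = ExpT_D (Y ⊕ Z) K x * ExpT_E V₀ x dd := by
  induction dd with
  | zero =>
    unfold ExpT_E
    rw [Finset.sum_range_one, pow_zero, mul_one, one_mul]
    have : ExpT_D (Y ⊕ Z) K (C (V₀ / ((0 : ℕ).factorial : K))) = 0 := derivation_C _ _
    rw [this, zero_add, mul_comm]
  | succ dd ih =>
    have hE : ExpT_E V₀ x (dd + 1) = ExpT_E V₀ x dd +
        C (V₀ / ((dd + 1).factorial : K)) * x ^ (dd + 1) := by
      unfold ExpT_E
      rw [Finset.sum_range_succ]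
    have hC : ∀ c : K, ExpT_D (Y ⊕ Z) K (C c) = 0 := fun c => derivation_C _ _
    rw [hE, map_add, Derivation.leibniz, hC, smul_zero, add_zero, Derivation.leibniz_pow]
    have h2 : (C (V₀ / ((dd + 1).factorial : K)) : MvPolynomial (Y ⊕ Z) K) •
        ((dd + 1) • x ^ (dd + 1 - 1) • ExpT_D (Y ⊕ Z) K x) =
        C (V₀ / (dd.factorial : K)) * (x ^ dd * ExpT_D (Y ⊕ Z) K x) := by
      rw [Nat.add_sub_cancel, smul_eq_mul, smul_eq_mul, nsmul_eq_mul, ← mul_assoc]
      congr 1
      have h3 : ((dd + 1 : ℕ) : MvPolynomial (Y ⊕ Z) K) = C ((dd + 1 : ℕ) : K) := by simp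
      rw [h3, ← C_mul]
      congr 1
      rw [Nat.factorial_succ]
      push_cast
      have h4 : (dd.factorial : K) ≠ 0 := by exact_mod_cast Nat.factorial_ne_zero dd
      have h5 : ((dd : K) + 1) ≠ 0 := by exact_mod_cast Nat.succ_ne_zero dd
      field_simp
    rw [h2]
    linear_combination ih

end

theorem pr_ExpT (hBM : D3.S_BcMul) : S_ExpT := by
  classical
  intro Y Z _ _ K _ _ dd V w hLD
  obtain ⟨hw0, hwb, hrec⟩ := hLD
  set g : ℕ × ℕ → MvPolynomial (Y ⊕ Z) K := fun p =>
    if 1 ≤ p.1 + p.2 ∧ p.1 + p.2 ≤ dd then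
      C ((((p.1 + p.2 : ℕ) : K))⁻¹) * w p.1 p.2 else 0 with hg
  set x : MvPolynomial (Y ⊕ Z) K := ∑ p ∈ range (dd + 1) ×ˢ range (dd + 1), g p with hx
  have hgb : ∀ p : ℕ × ℕ, IsBi (g p) p.1 p.2 := by
    intro p
    rw [hg]
    simp only
    split_ifs
    · exact isBi_C_mul _ (hwb _ _)
    · exact isBi_zero _ _
  have hbx : ∀ u v : ℕ, bc u v x = g (u, v) := by
    intro u v
    rw [hx, bc_sum]
    by_cases hm : (u, v) ∈ range (dd + 1) ×ˢ range (dd + 1)
    · rw [Finset.sum_eq_single (u, v)]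
      · exact bc_self (hgb (u, v))
      · intro p _ hp
        rw [bc_of_isBi (hgb p), if_neg]
        rintro ⟨h1, h2⟩
        exact hp (Prod.ext h1.symm h2.symm)
      · intro h
        exact absurd hm h
    · have h1 : g (u, v) = 0 := by
        rw [hg]
        simp only
        rw [if_neg]
        rintro ⟨-, h2⟩
        apply hm
        rw [Finset.mem_product, Finset.mem_range, Finset.mem_range]
        constructor <;> simp only <;> omega
      rw [h1]
      refine Finset.sum_eq_zero fun p hp => ?_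
      rw [bc_of_isBi (hgb p), if_neg]
      rintro ⟨h3, h4⟩
      apply hm
      rw [h3, h4]
      exact hp
  have hx0 : bc 0 0 x = 0 := by
    rw [hbx, hg]
    simp only
    rw [if_neg]
    rintro ⟨h, -⟩
    omega
  have hx1 : ∀ u v : ℕ, 1 ≤ u + v → u + v ≤ dd →
      bc u v x = C ((((u + v : ℕ) : K))⁻¹) * w u v := by
    intro u v h1 h2
    rw [hbx, hg]
    simp only
    rw [if_pos ⟨h1, h2⟩]
  set V₀ : K := constantCoeff V with hV₀
  refine ⟨x, ∑ n ∈ range (dd + 1), Polynomial.C (V₀ / (n.factorial : K)) * Polynomial.X ^ n,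
    hx0, hx1, ?_⟩
  have hE : Polynomial.aeval x (∑ n ∈ range (dd + 1),
      Polynomial.C (V₀ / (n.factorial : K)) * Polynomial.X ^ n) = ExpT_E V₀ x dd := by
    unfold ExpT_E
    rw [map_sum]
    refine Finset.sum_congr rfl fun n _ => ?_
    rw [map_mul, Polynomial.aeval_C, map_pow, Polynomial.aeval_X]
    rfl
  rw [hE]
  -- the Euler operator on x
  have hDx : ∀ u v : ℕ, u + v ≤ dd → bc u v (ExpT_D (Y ⊕ Z) K x) = w u v := by
    intro u v h
    rw [ExpT_bc_D]
    by_cases h1 : 1 ≤ u + v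
    · rw [hx1 u v h1 h]
      have hc : ((u + v : ℕ) : MvPolynomial (Y ⊕ Z) K) = C ((u + v : ℕ) : K) := by simp
      have hne : ((u + v : ℕ) : K) ≠ 0 := by
        rw [Nat.cast_ne_zero]
        omega
      rw [hc, ← mul_assoc, ← C_mul, mul_inv_cancel₀ hne, C_1, one_mul]
    · have h2 : u = 0 := by omega
      have h3 : v = 0 := by omega
      rw [h2, h3, hx0, hw0, mul_zero]
  have hDx0 : bc 0 0 (ExpT_D (Y ⊕ Z) K x) = 0 := by
    rw [hDx 0 0 (Nat.zero_le _), hw0]
  -- the recursion for E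
  have hrecE : ∀ u v : ℕ, u + v ≤ dd →
      ((u + v : ℕ) : MvPolynomial (Y ⊕ Z) K) * bc u v (ExpT_E V₀ x dd) =
      ∑ p ∈ HasAntidiagonal.antidiagonal u, ∑ q ∈ HasAntidiagonal.antidiagonal v,
        w p.1 q.1 * bc p.2 q.2 (ExpT_E V₀ x dd) := by
    intro u v h
    have h1 := congrArg (bc u v) (ExpT_D_E V₀ x dd)
    rw [bc_add, bc_C_mul, ExpT_low' hBM x _ hx0 hDx0 dd u v h, mul_zero, add_zero, hBM,
      ExpT_bc_D] at h1
    rw [h1]
    refine Finset.sum_congr rfl fun p hp => Finset.sum_congr rfl fun q hq => ?_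
    rw [Finset.HasAntidiagonal.mem_antidiagonal] at hp hq
    rw [hDx _ _ (by omega)]
  -- the components of degree 0
  have h00 : bc 0 0 V = bc 0 0 (ExpT_E V₀ x dd) := by
    have e1 : ∀ f : MvPolynomial (Y ⊕ Z) K, bc 0 0 f = C (constantCoeff f) := by
      intro f
      ext m
      rw [coeff_bc, coeff_C]
      by_cases hm : m = 0
      · subst hm
        rw [if_pos rfl]
        have : dY (0 : Y ⊕ Z →₀ ℕ) = 0 ∧ dZ (0 : Y ⊕ Z →₀ ℕ) = 0 := by simp [dY, dZ]
        rw [if_pos this]
        rfl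
      · have h4 : ¬ (0 = m) := fun h => hm h.symm
        have h5 : ¬ (dY m = 0 ∧ dZ m = 0) := by
          rintro ⟨h1, h2⟩
          apply hm
          have h3 := deg_eq m
          rw [h1, h2] at h3
          exact (Finsupp.degree_eq_zero_iff m).1 h3
        rw [if_neg h5, if_neg h4]
    have e2 : bc 0 0 (ExpT_E V₀ x dd) = C V₀ := by
      unfold ExpT_E
      rw [bc_sum, Finset.sum_eq_single 0]
      · rw [pow_zero, bc_C_mul, bc_self isBi_one, mul_one]
        simp
      · intro n _ hn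
        rw [bc_C_mul, ExpT_low hBM x hx0 n 0 0 (by omega), mul_zero]
      · intro h
        exact absurd (Finset.mem_range.2 (Nat.succ_pos dd)) h
    rw [e1 V, e2]
  -- strong induction
  have key : ∀ N u v : ℕ, u + v = N → u + v ≤ dd → bc u v V = bc u v (ExpT_E V₀ x dd) := by
    intro N
    induction N using Nat.strong_induction_on with
    | _ N ih =>
      intro u v hN h
      by_cases h1 : u + v = 0
      · have h2 : u = 0 := by omega
        have h3 : v = 0 := by omega
        rw [h2, h3]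
        exact h00
      · have e1 := hrec u v h
        have e2 := hrecE u v h
        have e3 : ∑ p ∈ HasAntidiagonal.antidiagonal u, ∑ q ∈ HasAntidiagonal.antidiagonal v,
            w p.1 q.1 * bc p.2 q.2 V =
            ∑ p ∈ HasAntidiagonal.antidiagonal u, ∑ q ∈ HasAntidiagonal.antidiagonal v,
            w p.1 q.1 * bc p.2 q.2 (ExpT_E V₀ x dd) := by
          refine Finset.sum_congr rfl fun p hp => Finset.sum_congr rfl fun q hq => ?_
          rw [Finset.HasAntidiagonal.mem_antidiagonal] at hp hq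
          by_cases h4 : p.1 + q.1 = 0
          · have h5 : p.1 = 0 := by omega
            have h6 : q.1 = 0 := by omega
            rw [h5, h6, hw0, zero_mul, zero_mul]
          · rw [ih (p.2 + q.2) (by omega) p.2 q.2 rfl (by omega)]
        rw [e3, ← e2] at e1
        have hc : ((u + v : ℕ) : MvPolynomial (Y ⊕ Z) K) = C ((u + v : ℕ) : K) := by simp
        have hne : ((u + v : ℕ) : MvPolynomial (Y ⊕ Z) K) ≠ 0 := by
          rw [hc, Ne, C_eq_zero, Nat.cast_eq_zero]
          exact h1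
        exact mul_left_cancel₀ hne e1
  exact fun u v h => key (u + v) u v rfl h

end Pool.Agent.Work.MP_499dc6_lc.Fib
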