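import Pool.Agent.Work.MP_499dc6_lc.Fib.StmtsA

/-!
# Item Ey of block Fib: elementary symmetric polynomials
-/

namespace Pool.Agent.Work.MP_499dc6_lc.Fib

open Finset

theorem Ey_id (m y j : ℕ) (hj : j < m) :
    (j + 1) * (m - y) * (m.choose (j + 1) * y ^ (j + 1) * (m - y) ^ (m - (j + 1))) =
      (m - j) * y * (m.choose j * y ^ j * (m - y) ^ (m - j)) := by
  have h1 := Nat.choose_succ_right_eq m j
  have h2 : m - (j + 1) + 1 = m - j := by omega
  calc (j + 1) * (m - y) * (m.choose (j + 1) * y ^ (j + 1) * (m - y) ^ (m - (j + 1)))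
      = (m.choose (j + 1) * (j + 1)) * (y ^ (j + 1) * ((m - y) ^ (m - (j + 1)) * (m - y))) := by
        ring
    _ = (m.choose j * (m - j)) * (y ^ (j + 1) * (m - y) ^ (m - j)) := by
        rw [h1, ← pow_succ, h2]
    _ = (m - j) * y * (m.choose j * y ^ j * (m - y) ^ (m - j)) := by ring

theorem Ey_up (m y j : ℕ) (hy : y < m) (hj : j + 1 ≤ y) :
    m.choose j * y ^ j * (m - y) ^ (m - j) ≤
      m.choose (j + 1) * y ^ (j + 1) * (m - y) ^ (m - (j + 1)) := by
  have h := Ey_id m y j (by omega)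
  have h1 : (j + 1) * (m - y) ≤ (m - j) * y := by
    obtain ⟨a, rfl⟩ := Nat.exists_eq_add_of_le hj
    obtain ⟨b, rfl⟩ := Nat.exists_eq_add_of_lt hy
    have e1 : j + 1 + a + b + 1 - (j + 1 + a) = b + 1 := by omega
    have e2 : j + 1 + a + b + 1 - j = a + b + 2 := by omega
    rw [e1, e2]
    nlinarith [Nat.zero_le (a * b), Nat.zero_le (a * j), Nat.zero_le (a * a)]
  have h0 : 0 < (j + 1) * (m - y) := Nat.mul_pos (Nat.succ_pos j) (by omega)
  refine Nat.le_of_mul_le_mul_left ?_ h0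
  rw [h]
  exact Nat.mul_le_mul_right _ h1

theorem Ey_down (m y j : ℕ) (hj : y ≤ j) (hjm : j + 1 ≤ m) :
    m.choose (j + 1) * y ^ (j + 1) * (m - y) ^ (m - (j + 1)) ≤
      m.choose j * y ^ j * (m - y) ^ (m - j) := by
  have h := Ey_id m y j (by omega)
  have h1 : (m - j) * y ≤ (j + 1) * (m - y) := by
    obtain ⟨a, rfl⟩ := Nat.exists_eq_add_of_le hj
    obtain ⟨b, rfl⟩ := Nat.exists_eq_add_of_le hjm
    have e1 : y + a + 1 + b - (y + a) = b + 1 := by omega
    have e2 : y + a + 1 + b - y = a + b + 1 := by omega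
    rw [e1, e2]
    nlinarith [Nat.zero_le (a * b), Nat.zero_le (a * y), Nat.zero_le (a * a)]
  have h0 : 0 < (j + 1) * (m - y) := Nat.mul_pos (Nat.succ_pos j) (by omega)
  refine Nat.le_of_mul_le_mul_left ?_ h0
  rw [h]
  exact Nat.mul_le_mul_right _ h1

theorem Ey_max (m y j : ℕ) (hy : y ≤ m) (hj : j ≤ m) :
    m.choose j * y ^ j * (m - y) ^ (m - j) ≤ m.choose y * y ^ y * (m - y) ^ (m - y) := by
  rcases le_total y j with h | h
  · obtain ⟨d, rfl⟩ := Nat.exists_eq_add_of_le h
    clear h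
    induction d with
    | zero => exact le_rfl
    | succ d ih =>
      exact (Ey_down m y (y + d) (Nat.le_add_right y d) (by omega)).trans (ih (by omega))
  · rcases hy.eq_or_lt with rfl | hlt
    · rcases h.eq_or_lt with rfl | hlt
      · exact le_rfl
      · rw [Nat.sub_self, zero_pow (by omega), mul_zero]
        exact Nat.zero_le _
    · have key : ∀ d, d ≤ y → m.choose (y - d) * y ^ (y - d) * (m - y) ^ (m - (y - d)) ≤
          m.choose y * y ^ y * (m - y) ^ (m - y) := by
        intro d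
        induction d with
        | zero => intro _; exact le_rfl
        | succ d ih =>
          intro hd
          have h1 := Ey_up m y (y - (d + 1)) hlt (by omega)
          have e : y - (d + 1) + 1 = y - d := by omega
          rw [e] at h1
          exact h1.trans (ih (by omega))
      have := key (y - j) (Nat.sub_le y j)
      rwa [Nat.sub_sub_self h] at this

theorem Ey_nat (m y : ℕ) (hy : y ≤ m) :
    m ^ m ≤ (m + 1) * (m.choose y * y ^ y * (m - y) ^ (m - y)) := by
  have h1 : m ^ m = ∑ j ∈ range (m + 1), y ^ j * (m - y) ^ (m - j) * m.choose j := by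
    have h0 := add_pow y (m - y) m
    rw [Nat.add_sub_cancel' hy] at h0
    simpa using h0
  rw [h1]
  calc ∑ j ∈ range (m + 1), y ^ j * (m - y) ^ (m - j) * m.choose j
      ≤ ∑ _j ∈ range (m + 1), m.choose y * y ^ y * (m - y) ^ (m - y) := by
        refine Finset.sum_le_sum fun j hj => ?_
        have h2 := Ey_max m y j hy (Nat.lt_succ_iff.1 (mem_range.1 hj))
        calc y ^ j * (m - y) ^ (m - j) * m.choose j
            = m.choose j * y ^ j * (m - y) ^ (m - j) := by ring
          _ ≤ _ := h2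
    _ = (m + 1) * (m.choose y * y ^ y * (m - y) ^ (m - y)) := by
        rw [sum_const, card_range, smul_eq_mul]

theorem Ey_real (m y : ℕ) (hm : 1 ≤ m) (hy : y ≤ m) :
    1 ≤ ((m : ℝ) + 1) * (m.choose y) * (((y : ℝ) / m) ^ y * (1 - (y : ℝ) / m) ^ (m - y)) := by
  have hm0 : (0 : ℝ) < m := by exact_mod_cast hm
  have h1 : ((m : ℝ)) ^ m ≤ ((m : ℝ) + 1) * (m.choose y * (y : ℝ) ^ y * ((m : ℝ) - y) ^ (m - y)) := by
    have h2 := Ey_nat m y hy
    have h3 : ((m ^ m : ℕ) : ℝ) ≤ (((m + 1) * (m.choose y * y ^ y * (m - y) ^ (m - y)) : ℕ) : ℝ) := by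
      exact_mod_cast h2
    rw [Nat.cast_pow, Nat.cast_mul, Nat.cast_mul, Nat.cast_mul, Nat.cast_pow, Nat.cast_pow,
      Nat.cast_sub hy, Nat.cast_add, Nat.cast_one] at h3
    exact h3
  have h4 : ((y : ℝ) / m) ^ y * (1 - (y : ℝ) / m) ^ (m - y) =
      (y : ℝ) ^ y * ((m : ℝ) - y) ^ (m - y) / (m : ℝ) ^ m := by
    have h5 : (1 - (y : ℝ) / m) = ((m : ℝ) - y) / m := by
      field_simp
    have h6 : (m : ℝ) ^ m = (m : ℝ) ^ y * (m : ℝ) ^ (m - y) := by
      rw [← pow_add, Nat.add_sub_cancel' hy]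
    rw [h5, div_pow, div_pow, h6, div_mul_div_comm]
  rw [h4, ← mul_div_assoc, le_div_iff₀ (pow_pos hm0 m), one_mul]
  calc (m : ℝ) ^ m ≤ _ := h1
    _ = _ := by ring

theorem pr_Ey : S_Ey := by
  intro γ _ X g y hg hy
  rcases Nat.eq_zero_or_pos X.card with h0 | hpos
  · have hX : X = ∅ := Finset.card_eq_zero.1 h0
    subst hX
    have hy0 : y = 0 := by simpa using hy
    subst hy0
    simp
  · have hm0 : (0 : ℝ) < X.card := by exact_mod_cast hpos
    have hη0 : 0 ≤ (y : ℝ) / X.card := by positivity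
    have hη1 : (y : ℝ) / X.card ≤ 1 := by
      rw [div_le_one hm0]
      exact_mod_cast hy
    set η : ℝ := (y : ℝ) / X.card with hη
    have h1η : 0 ≤ 1 - η := by linarith
    have hS0 : 0 ≤ ∑ A ∈ X.powersetCard y, ∏ x ∈ A, g x :=
      Finset.sum_nonneg fun A _ => Finset.prod_nonneg fun x _ => hg x
    have h1 : η ^ y * (1 - η) ^ (X.card - y) * (∑ A ∈ X.powersetCard y, ∏ x ∈ A, g x) ≤
        ∏ x ∈ X, (1 - η + η * g x) := by
      have h2 : ∏ x ∈ X, (1 - η + η * g x) =
          ∑ A ∈ X.powerset, (∏ x ∈ A, (η * g x)) * ∏ x ∈ X \ A, (1 - η) := by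
        rw [← Finset.prod_add]
        exact Finset.prod_congr rfl fun x _ => add_comm _ _
      rw [h2, Finset.mul_sum]
      have h3 : X.powersetCard y ⊆ X.powerset := by
        intro A hA
        exact mem_powerset.2 (mem_powersetCard.1 hA).1
      refine le_trans ?_ (Finset.sum_le_sum_of_subset_of_nonneg h3 fun A _ _ => ?_)
      · refine le_of_eq (Finset.sum_congr rfl fun A hA => ?_)
        obtain ⟨hAX, hAy⟩ := mem_powersetCard.1 hA
        rw [Finset.prod_mul_distrib, prod_const, prod_const, card_sdiff_of_subset hAX, hAy]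
        ring
      · exact mul_nonneg (Finset.prod_nonneg fun x _ => mul_nonneg hη0 (hg x))
          (Finset.prod_nonneg fun x _ => h1η)
    have h4 := Ey_real X.card y hpos hy
    rw [← hη] at h4
    calc (∑ A ∈ X.powersetCard y, ∏ x ∈ A, g x)
        ≤ (((X.card : ℝ) + 1) * (X.card.choose y) * (η ^ y * (1 - η) ^ (X.card - y))) *
          (∑ A ∈ X.powersetCard y, ∏ x ∈ A, g x) := le_mul_of_one_le_left hS0 h4
      _ = ((X.card : ℝ) + 1) * (X.card.choose y) *
          (η ^ y * (1 - η) ^ (X.card - y) * (∑ A ∈ X.powersetCard y, ∏ x ∈ A, g x)) := by ring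
      _ ≤ ((X.card : ℝ) + 1) * (X.card.choose y) * ∏ x ∈ X, (1 - η + η * g x) :=
          mul_le_mul_of_nonneg_left h1 (by positivity)

end Pool.Agent.Work.MP_499dc6_lc.Fib
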