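import Pool.Agent.Work.MP_499dc6_lc.Fib.StmtsD

/-!
# Item Fin of block Fib: the final inequality
-/

namespace Pool.Agent.Work.MP_499dc6_lc.Fib

open MvPolynomial Finset
open Pool.Agent.Work.MP_499dc6_lc.CD
open Pool.Agent.Work.MP_499dc6_lc.D3

open scoped PowerSeries

/-- a ring homomorphism maps the generic permanent to the generic permanent, and this is not zero -/
theorem Fin_ne (k : Type) [Field k] (N : ℕ) (R : MvPolynomial (Fin N × Fin N) k⟦X⟧)
    (h : gperm k⟦X⟧ N + C PowerSeries.X * R = 0) : False := by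
  classical
  set ψ : MvPolynomial (Fin N × Fin N) k⟦X⟧ →+* k :=
    (eval₂Hom (PowerSeries.constantCoeff (R := k))
      (fun p : Fin N × Fin N => if p.1 = p.2 then (1 : k) else 0)) with hψ
  have h1 : ψ (gperm k⟦X⟧ N + C PowerSeries.X * R) = 0 := by rw [h, map_zero]
  have h2 : ψ (C PowerSeries.X) = 0 := by
    rw [hψ, coe_eval₂Hom, eval₂_C]
    simp
  have h3 : ψ (gperm k⟦X⟧ N) = (1 : Matrix (Fin N) (Fin N) k).permanent := by
    unfold gperm Matrix.permanent
    rw [map_sum]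
    refine Finset.sum_congr rfl fun σ _ => ?_
    rw [map_prod]
    refine Finset.prod_congr rfl fun i _ => ?_
    rw [Matrix.of_apply, hψ, coe_eval₂Hom, eval₂_X, Matrix.one_apply]
  rw [map_add, map_mul, h2, zero_mul, add_zero, h3, Matrix.permanent_one] at h1
  exact one_ne_zero h1

theorem pr_Fin (hIneq : S_Ineq) (hQs : S_Qs) (hPar : S_Par) (hNum : S_Num) (hLam : S_Lam) :
    S_Fin := by
  intro k _ _ N s h r e F d c R hN hh hF hd hsum
  -- there is a gate
  have hs : 1 ≤ s := by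
    rcases Nat.eq_zero_or_pos s with h0 | h0
    · exfalso
      subst h0
      rw [Finset.univ_eq_empty, Finset.sum_empty] at hsum
      have hinj : Function.Injective (MvPolynomial.map (σ := Fin N × Fin N)
          (algebraMap k⟦X⟧ (LaurentSeries k))) :=
        map_injective _ (IsFractionRing.injective k⟦X⟧ (LaurentSeries k))
      refine Fin_ne k N R (hinj ?_)
      rw [map_zero, ← hsum]
    · exact h0
  obtain ⟨r1, hr1, hL⟩ := hLam s r e N hs hN
  set lam : ℝ := 600 * (Real.log s + (r + 1) * Real.log N + e) with hlam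
  have h1lam : 1 ≤ lam :=
    (hL 0 0 lam _ (by omega) (by omega) hlam rfl).2.1
  set Λ : ℕ := ⌈330 * lam⌉₊ with hΛ
  have hΛ4 : 4 ≤ Λ := by
    have h1 : (4 : ℝ) ≤ Λ := le_trans (by linarith) (Nat.le_ceil (330 * lam))
    exact_mod_cast h1
  obtain ⟨q1, -, -, q4, q5, -, -⟩ := hQs Λ hΛ4
  have key : ∀ g : ℕ, 1 ≤ g → 10 * g * qs Λ (h + 1) ≤ N →
      Real.log (3 / 2) / (16 * qs Λ h * qs Λ (h + 1)) * (4 * g * qs Λ (h + 1)) ≤ lam := by
    intro g hg hgN
    have hq : 1 ≤ qs Λ (h + 1) := q1 (h + 1) (by omega)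
    have hqp : qs Λ (h + 1) < ps Λ (h + 1) := q4 (h + 1) (by omega)
    obtain ⟨-, h3q⟩ := q5 (h + 1) (by omega)
    obtain ⟨b, hb⟩ := Nat.exists_eq_add_of_lt hqp
    set Q : ℕ := qs Λ (h + 1) with hQ
    have hb' : ps Λ (h + 1) - Q = b + 1 := by omega
    rw [hb'] at h3q
    set n : ℕ := g * Q with hn
    set kk : ℕ := g * (b + 1) with hkk
    have hn1 : 1 ≤ n := Nat.mul_pos hg hq
    have hkk1 : 1 ≤ kk := Nat.mul_pos hg (Nat.succ_pos b)
    have h3k : 3 * kk ≤ n := by
      rw [hkk, hn]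
      calc 3 * (g * (b + 1)) = g * (3 * (b + 1)) := by ring
        _ ≤ g * Q := Nat.mul_le_mul_left g h3q
    have hnk : n + kk = g * ps Λ (h + 1) := by
      rw [hb, hn, hkk]
      ring
    have h10 : 10 * n ≤ N := by
      rw [hn]
      calc 10 * (g * Q) = 10 * g * Q := by ring
        _ ≤ N := hgN
    have hN4 : 4 * (2 * n + kk) ≤ N := by omega
    have hdd : 2 * (n + kk) + 2 * n + 1 ≤ N := by omega
    have hm : 2 * (n + kk) + 1 ≤ N := by omega
    set P : ℝ := (((2 * (n + kk) + 2 * n : ℕ) : ℝ) + 1) ^ (6 * r + 10) * 121 ^ (r + r1) with hP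
    obtain ⟨l1, -, l3, l4, l5, l6⟩ := hL (2 * (n + kk) + 2 * n) (2 * (n + kk)) lam P hdd hm hlam hP
    have hA1 : (1 : ℝ) ≤ (((2 * (n + kk) + 2 * n : ℕ) : ℝ) + 1) ^ (6 * r + 10) :=
      one_le_pow₀ (by linarith [Nat.cast_nonneg (α := ℝ) (2 * (n + kk) + 2 * n)])
    have hA2 : (1 : ℝ) ≤ 121 ^ (r + r1) := one_le_pow₀ (by norm_num)
    have hP0 : 0 ≤ P := by positivity
    obtain ⟨ρ, t, hpars, hρ⟩ := hPar lam P s e (2 * (n + kk) + 2 * n) h g n kk Λ h1lam hP0 hh hg hΛ
      hn hnk l3 l4 l5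
    have hI := hIneq k N s h r e F d c R n kk r1 P ρ t hF hd hsum hr1 hkk1 h3k hN4 l1 hpars
      (by
        rw [hP]
        exact le_mul_of_one_le_left (by positivity) hA1)
      (by
        rw [hP]
        exact le_mul_of_one_le_right (by positivity) hA2)
    have hρ0 : 0 ≤ ρ h := (hpars.pos h le_rfl).le
    rw [← hρ]
    have hle : (4 * g * Q : ℝ) ≤ ((2 * (n + kk) + 2 * n : ℕ) : ℝ) := by
      have h1 : 4 * g * Q ≤ 2 * (n + kk) + 2 * n := by
        calc 4 * g * Q = 4 * n := by rw [hn]; ring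
          _ ≤ _ := by omega
      exact_mod_cast h1
    exact (mul_le_mul_of_nonneg_left hle hρ0).trans (hI.trans l6)
  have hfin := hNum lam h N Λ h1lam hh hΛ key
  refine hfin.trans (pow_le_pow_left₀ (by linarith) ?_ _)
  have hx : 0 ≤ Real.log s + (r + 1) * Real.log N + e := by
    by_contra hcon
    rw [not_le] at hcon
    have : lam < 0 := by rw [hlam]; linarith
    linarith
  rw [hlam]
  nlinarith

end Pool.Agent.Work.MP_499dc6_lc.Fib
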