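import Pool.Agent.Work.MP_499dc6_lc.Fib.StmtsA

/-!
# Circuits of bounded depth, Fibonacci exponents: sum over the good pairs (item GSumA)
-/

namespace Pool.Agent.Work.MP_499dc6_lc.Fib

open MvPolynomial Equiv Finset
open Pool.Agent.Work.MP_499dc6_lc.CD
open Pool.Agent.Work.MP_499dc6_lc.D3

open scoped Nat

theorem GSumA_main (hC : D3.S_Cnt) (hI : S_IntA) (hB : D3.S_BSum) (n k m : ℕ) (hm : m = n + k)
    (s : CY n k → Bool) (q : ℝ) (hq : 0 < q)
    (hs1 : ∀ b, (univ.filter fun a : CZ n => s (Sum.inl a) = b).card = n)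
    (hs2 : ∀ b, (univ.filter fun u : Bool × Fin k => s (Sum.inr u) = b).card = k) (X : ℝ)
    (hA : (∑ AY : Finset (CY n k), ∑ AZ : Finset (CZ n),
      ((3 / 2 : ℝ) ^ (Ur AY).card * (q * (3 / 2)) ^ AZ.card * (5 / 6) ^ (Out AY AZ).card) *
        (fc s m AY * fc (fun a => s (Sum.inl a)) n AZ)) ≤ X) :
    (3 / 2 : ℝ) ^ (2 * m) * (∑ g : Good s, ∑ h : Good s,
      if Disjoint g.1.1.support h.1.1.support ∧ Disjoint g.1.2.support h.1.2.support then
        (3 / 5 : ℝ) ^ g.1.1.support.card * (9 / 10) ^ g.1.2.support.card *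
          (9 / 10) ^ h.1.1.support.card * (9 / 10 * q) ^ h.1.2.support.card
      else 0) ≤ 2 ^ (2 * m) * (9 / 10) ^ (2 * m + 2 * n) * 64 * X := by
  set s' : CZ n → Bool := fun a => s (Sum.inl a) with hs'
  -- cardinalities of the sides
  have hsm : ∀ b, (univ.filter fun x : CY n k => s x = b).card = m := by
    intro b
    have h1 : (univ.filter fun x : CY n k => s x = b).card =
        (univ.filter fun a : CZ n => s (Sum.inl a) = b).card +
        (univ.filter fun u : Bool × Fin k => s (Sum.inr u) = b).card := by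
      rw [Finset.card_filter, Finset.card_filter, Finset.card_filter, Fintype.sum_sum_type]
    rw [h1, hs1, hs2, hm]
  have hcard : Fintype.card (CZ n) + Fintype.card (Bool × Fin k) = 2 * m := by
    simp only [Fintype.card_prod, Fintype.card_bool, Fintype.card_fin]
    omega
  have hcardZ : Fintype.card (CZ n) = 2 * n := by
    simp only [Fintype.card_prod, Fintype.card_bool, Fintype.card_fin]
  -- abbreviations
  set W : ℝ := (9 / 10) ^ (2 * m + 2 * n) with hW
  have hW0 : 0 < W := by rw [hW]; positivity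
  set PY : Finset (CY n k) → ℝ := fun A => ∏ b : Bool, ((ns s A b)! : ℝ) with hPY
  set PZ : Finset (CZ n) → ℝ := fun A => ∏ b : Bool, ((ns s' A b)! : ℝ) with hPZ
  have hPY0 : ∀ A, 0 ≤ PY A := fun A => Finset.prod_nonneg fun _ _ => Nat.cast_nonneg _
  have hPZ0 : ∀ A, 0 ≤ PZ A := fun A => Finset.prod_nonneg fun _ _ => Nat.cast_nonneg _
  set Fu : Finset (CY n k) → Finset (CZ n) → ℝ := fun AY AZ =>
    (3 / 2 : ℝ) ^ (Ur AY).card * (q * (3 / 2)) ^ AZ.card * (5 / 6) ^ (Out AY AZ).card with hFu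
  have hFu0 : ∀ A B, 0 ≤ Fu A B := fun A B => by
    rw [hFu]; positivity
  -- step 1
  have step1 : (∑ g : Good s, ∑ h : Good s,
      if Disjoint g.1.1.support h.1.1.support ∧ Disjoint g.1.2.support h.1.2.support then
        (3 / 5 : ℝ) ^ g.1.1.support.card * (9 / 10) ^ g.1.2.support.card *
          (9 / 10) ^ h.1.1.support.card * (9 / 10 * q) ^ h.1.2.support.card else 0) ≤
      ∑ BY : Finset (CY n k), ∑ BZ : Finset (CZ n), (2 ^ (In BY BZ).card * PY BY * PZ BZ) *
        ∑ AY : Finset (CY n k), ∑ AZ : Finset (CZ n), (2 ^ (In AY AZ).card * PY AY * PZ AZ) *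
          (if Disjoint BY AY ∧ Disjoint BZ AZ then
            (3 / 5 : ℝ) ^ BY.card * (9 / 10) ^ BZ.card * (9 / 10) ^ AY.card *
              (9 / 10 * q) ^ AZ.card else 0) := by
    refine (GSum_le hC s (fun BY BZ => ∑ h : Good s,
      if Disjoint BY h.1.1.support ∧ Disjoint BZ h.1.2.support then
        (3 / 5 : ℝ) ^ BY.card * (9 / 10) ^ BZ.card * (9 / 10) ^ h.1.1.support.card *
          (9 / 10 * q) ^ h.1.2.support.card else 0) ?_).trans ?_
    · intro A B
      refine Finset.sum_nonneg fun h _ => ?_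
      split_ifs
      · positivity
      · exact le_rfl
    · refine Finset.sum_le_sum fun BY _ => Finset.sum_le_sum fun BZ _ => ?_
      refine mul_le_mul_of_nonneg_left ?_
        (mul_nonneg (mul_nonneg (by positivity) (hPY0 BY)) (hPZ0 BZ))
      refine GSum_le hC s (fun AY AZ =>
        if Disjoint BY AY ∧ Disjoint BZ AZ then
          (3 / 5 : ℝ) ^ BY.card * (9 / 10) ^ BZ.card * (9 / 10) ^ AY.card *
            (9 / 10 * q) ^ AZ.card else 0) ?_
      intro A B
      split_ifs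
      · positivity
      · exact le_rfl
  -- step 2
  have step2 : ∀ (BY AY : Finset (CY n k)) (BZ AZ : Finset (CZ n)),
      (3 / 2 : ℝ) ^ (2 * m) * ((2 ^ (In BY BZ).card * PY BY * PZ BZ) *
        ((2 ^ (In AY AZ).card * PY AY * PZ AZ) *
          (if Disjoint BY AY ∧ Disjoint BZ AZ then
            (3 / 5 : ℝ) ^ BY.card * (9 / 10) ^ BZ.card * (9 / 10) ^ AY.card *
              (9 / 10 * q) ^ AZ.card else 0))) ≤
      2 ^ (2 * m) * W * (Fu AY AZ * (PY AY * PZ AZ) *
        ((if Disjoint AY BY then PY BY else 0) * (if Disjoint AZ BZ then PZ BZ else 0))) := by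
    intro BY AY BZ AZ
    by_cases hd : Disjoint BY AY ∧ Disjoint BZ AZ
    · rw [if_pos hd, if_pos hd.1.symm, if_pos hd.2.symm]
      have h1 := hI (CZ n) (Bool × Fin k) AY BY AZ BZ q hq hd.1.symm hd.2.symm
      rw [hcard, hcardZ, ← hW] at h1
      have h2 : (0 : ℝ) ≤ PY BY * PZ BZ * (PY AY * PZ AZ) :=
        mul_nonneg (mul_nonneg (hPY0 _) (hPZ0 _)) (mul_nonneg (hPY0 _) (hPZ0 _))
      have h3 := mul_le_mul_of_nonneg_right h1 h2
      calc _ = (2 : ℝ) ^ (In BY BZ).card * 2 ^ (In AY AZ).card * (3 / 2) ^ (2 * m) *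
            (3 / 5) ^ BY.card * (9 / 10) ^ BZ.card * (9 / 10) ^ AY.card *
            (9 / 10 * q) ^ AZ.card * (PY BY * PZ BZ * (PY AY * PZ AZ)) := by
            generalize (9 / 10 * q) ^ AZ.card = t1
            generalize (9 / 10 : ℝ) ^ AY.card = t2
            generalize (9 / 10 : ℝ) ^ BZ.card = t3
            generalize (3 / 5 : ℝ) ^ BY.card = t4
            generalize (3 / 2 : ℝ) ^ (2 * m) = t5
            generalize (2 : ℝ) ^ (In BY BZ).card = t6
            generalize (2 : ℝ) ^ (In AY AZ).card = t7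
            ring
        _ ≤ _ := h3
        _ = _ := by
            have hFe : (3 / 2 : ℝ) ^ (Ur AY).card * (q * (3 / 2)) ^ AZ.card *
              (5 / 6) ^ (Out AY AZ).card = Fu AY AZ := rfl
            rw [hFe]
            generalize Fu AY AZ = t1
            generalize (2 : ℝ) ^ (2 * m) = t2
            ring
    · rw [if_neg hd, mul_zero, mul_zero, mul_zero]
      refine mul_nonneg (by positivity) (mul_nonneg (mul_nonneg (hFu0 _ _)
        (mul_nonneg (hPY0 _) (hPZ0 _))) (mul_nonneg ?_ ?_))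
      · split_ifs
        · exact hPY0 _
        · exact le_rfl
      · split_ifs
        · exact hPZ0 _
        · exact le_rfl
  -- step 3: the sums over `BY` and `BZ`
  have hBY : ∀ AY : Finset (CY n k), (∑ BY : Finset (CY n k), if Disjoint AY BY then PY BY else 0) ≤
      8 * ∏ b : Bool, ((m - ns s AY b)! : ℝ) := by
    intro AY
    rw [← Finset.sum_filter]
    exact hB (CY n k) s m hsm AY
  have hBZ : ∀ AZ : Finset (CZ n), (∑ BZ : Finset (CZ n), if Disjoint AZ BZ then PZ BZ else 0) ≤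
      8 * ∏ b : Bool, ((n - ns s' AZ b)! : ℝ) := by
    intro AZ
    rw [← Finset.sum_filter]
    exact hB (CZ n) s' n hs1 AZ
  have hfcY : ∀ AY, PY AY * ∏ b : Bool, ((m - ns s AY b)! : ℝ) = fc s m AY := by
    intro AY
    rw [hPY, fc, Finset.prod_mul_distrib]
  have hfcZ : ∀ AZ, PZ AZ * ∏ b : Bool, ((n - ns s' AZ b)! : ℝ) = fc s' n AZ := by
    intro AZ
    rw [hPZ, fc, Finset.prod_mul_distrib]
  calc (3 / 2 : ℝ) ^ (2 * m) * (∑ g : Good s, ∑ h : Good s,
      if Disjoint g.1.1.support h.1.1.support ∧ Disjoint g.1.2.support h.1.2.support then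
        (3 / 5 : ℝ) ^ g.1.1.support.card * (9 / 10) ^ g.1.2.support.card *
          (9 / 10) ^ h.1.1.support.card * (9 / 10 * q) ^ h.1.2.support.card else 0)
      ≤ (3 / 2 : ℝ) ^ (2 * m) *
      ∑ BY : Finset (CY n k), ∑ BZ : Finset (CZ n), (2 ^ (In BY BZ).card * PY BY * PZ BZ) *
        ∑ AY : Finset (CY n k), ∑ AZ : Finset (CZ n), (2 ^ (In AY AZ).card * PY AY * PZ AZ) *
          (if Disjoint BY AY ∧ Disjoint BZ AZ then
            (3 / 5 : ℝ) ^ BY.card * (9 / 10) ^ BZ.card * (9 / 10) ^ AY.card *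
              (9 / 10 * q) ^ AZ.card else 0) :=
        mul_le_mul_of_nonneg_left step1 (by positivity)
    _ = ∑ BY : Finset (CY n k), ∑ BZ : Finset (CZ n), ∑ AY : Finset (CY n k),
        ∑ AZ : Finset (CZ n), (3 / 2 : ℝ) ^ (2 * m) * ((2 ^ (In BY BZ).card * PY BY * PZ BZ) *
        ((2 ^ (In AY AZ).card * PY AY * PZ AZ) *
          (if Disjoint BY AY ∧ Disjoint BZ AZ then
            (3 / 5 : ℝ) ^ BY.card * (9 / 10) ^ BZ.card * (9 / 10) ^ AY.card *
              (9 / 10 * q) ^ AZ.card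
            else 0))) := by
        simp only [Finset.mul_sum]
    _ ≤ ∑ BY : Finset (CY n k), ∑ BZ : Finset (CZ n), ∑ AY : Finset (CY n k),
        ∑ AZ : Finset (CZ n), 2 ^ (2 * m) * W * (Fu AY AZ * (PY AY * PZ AZ) *
        ((if Disjoint AY BY then PY BY else 0) * (if Disjoint AZ BZ then PZ BZ else 0))) :=
        Finset.sum_le_sum fun BY _ => Finset.sum_le_sum fun BZ _ => Finset.sum_le_sum fun AY _ =>
          Finset.sum_le_sum fun AZ _ => step2 BY AY BZ AZ
    _ = 2 ^ (2 * m) * W * ∑ AY : Finset (CY n k), ∑ AZ : Finset (CZ n),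
        Fu AY AZ * (PY AY * PZ AZ) *
        ((∑ BY : Finset (CY n k), if Disjoint AY BY then PY BY else 0) *
          (∑ BZ : Finset (CZ n), if Disjoint AZ BZ then PZ BZ else 0)) := by
        have e1 : ∀ (AY : Finset (CY n k)) (AZ : Finset (CZ n)), Fu AY AZ * (PY AY * PZ AZ) *
            ((∑ BY : Finset (CY n k), if Disjoint AY BY then PY BY else 0) *
            (∑ BZ : Finset (CZ n), if Disjoint AZ BZ then PZ BZ else 0)) =
            ∑ BY : Finset (CY n k), ∑ BZ : Finset (CZ n), Fu AY AZ * (PY AY * PZ AZ) *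
            ((if Disjoint AY BY then PY BY else 0) * (if Disjoint AZ BZ then PZ BZ else 0)) := by
          intro AY AZ
          rw [Finset.sum_mul_sum]
          simp only [Finset.mul_sum]
        simp only [e1]
        simp only [Finset.mul_sum]
        have e2 : ∀ f : Finset (CY n k) → Finset (CZ n) → Finset (CY n k) → Finset (CZ n) → ℝ,
            ∑ BY, ∑ BZ, ∑ AY, ∑ AZ, f BY BZ AY AZ = ∑ AY, ∑ AZ, ∑ BY, ∑ BZ, f BY BZ AY AZ := by
          intro f
          calc ∑ BY, ∑ BZ, ∑ AY, ∑ AZ, f BY BZ AY AZ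
              = ∑ BY, ∑ AY, ∑ BZ, ∑ AZ, f BY BZ AY AZ :=
                Finset.sum_congr rfl fun _ _ => Finset.sum_comm
            _ = ∑ AY, ∑ BY, ∑ BZ, ∑ AZ, f BY BZ AY AZ := Finset.sum_comm
            _ = ∑ AY, ∑ BY, ∑ AZ, ∑ BZ, f BY BZ AY AZ :=
                Finset.sum_congr rfl fun _ _ => Finset.sum_congr rfl fun _ _ => Finset.sum_comm
            _ = ∑ AY, ∑ AZ, ∑ BY, ∑ BZ, f BY BZ AY AZ :=
                Finset.sum_congr rfl fun _ _ => Finset.sum_comm
        exact e2 _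
    _ ≤ 2 ^ (2 * m) * W * ∑ AY : Finset (CY n k), ∑ AZ : Finset (CZ n),
        Fu AY AZ * (PY AY * PZ AZ) *
        ((8 * ∏ b : Bool, ((m - ns s AY b)! : ℝ)) * (8 * ∏ b : Bool, ((n - ns s' AZ b)! : ℝ))) := by
        refine mul_le_mul_of_nonneg_left ?_ (by positivity)
        refine Finset.sum_le_sum fun AY _ => Finset.sum_le_sum fun AZ _ => ?_
        refine mul_le_mul_of_nonneg_left ?_ (mul_nonneg (hFu0 _ _)
          (mul_nonneg (hPY0 _) (hPZ0 _)))
        refine mul_le_mul (hBY AY) (hBZ AZ) ?_ ?_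
        · refine Finset.sum_nonneg fun B _ => ?_
          split_ifs
          · exact hPZ0 _
          · exact le_rfl
        · exact mul_nonneg (by norm_num) (Finset.prod_nonneg fun _ _ => Nat.cast_nonneg _)
    _ = 2 ^ (2 * m) * W * 64 * ∑ AY : Finset (CY n k), ∑ AZ : Finset (CZ n), Fu AY AZ *
        (fc s m AY * fc s' n AZ) := by
        have e3 : ∀ (AY : Finset (CY n k)) (AZ : Finset (CZ n)), Fu AY AZ * (PY AY * PZ AZ) *
            ((8 * ∏ b : Bool, ((m - ns s AY b)! : ℝ)) *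
              (8 * ∏ b : Bool, ((n - ns s' AZ b)! : ℝ))) =
            64 * (Fu AY AZ * (fc s m AY * fc s' n AZ)) := by
          intro AY AZ
          rw [← hfcY, ← hfcZ]
          ring
        simp only [e3, ← Finset.mul_sum]
        ring
    _ ≤ 2 ^ (2 * m) * W * 64 * X := mul_le_mul_of_nonneg_left hA (by positivity)

theorem pr_GSumA (hCnt : D3.S_Cnt) (hInt : S_IntA) (hB : D3.S_BSum) (hA : S_ASumA) :
    S_GSumA := by
  intro n k s q hnk hk hq hq1 hs1 hs2
  exact GSumA_main hCnt hInt hB n k (n + k) rfl s q hq hs1 hs2 _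
    (hA n k s q hnk hk hq hq1 hs1 hs2)

end Pool.Agent.Work.MP_499dc6_lc.Fib
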