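import Pool.Agent.Work.MP_499dc6_lc.Fib.StmtsB

/-!
# Block Fib, item Gat: one gate

Powers of a polynomial without component of degree zero, the truncated inverse by a geometric sum,
and the bounds for the components of a gate and of its logarithmic derivative.
-/

namespace Pool.Agent.Work.MP_499dc6_lc.Fib

open MvPolynomial Finset
open Pool.Agent.Work.MP_499dc6_lc.CD
open Pool.Agent.Work.MP_499dc6_lc.D3

section

variable {Y Z K : Type} [Fintype Y] [Fintype Z] [Field K]

theorem Gat_BBsum {al be : ℝ} {ι : Type} (s : Finset ι) (f : ι → MvPolynomial (Y ⊕ Z) K)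
    (c : ι → ℝ) (h : ∀ i ∈ s, BB al be (f i) (c i)) :
    BB al be (∑ i ∈ s, f i) (∑ i ∈ s, c i) := by
  classical
  induction s using Finset.induction_on with
  | empty =>
    rw [Finset.sum_empty, Finset.sum_empty]
    exact BB.zero
  | insert i s hi ih =>
    rw [Finset.sum_insert hi, Finset.sum_insert hi]
    exact BB.add (h i (Finset.mem_insert_self i s))
      (ih fun j hj => h j (Finset.mem_insert_of_mem hj))

theorem Gat_zero_iff (m : Y ⊕ Z →₀ ℕ) : (dY m = 0 ∧ dZ m = 0) ↔ 0 = m := by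
  constructor
  · rintro ⟨h1, h2⟩
    ext i
    rw [Finsupp.coe_zero, Pi.zero_apply]
    rcases i with i | j
    · exact ((Finset.sum_eq_zero_iff.mp h1) i (Finset.mem_univ i)).symm
    · exact ((Finset.sum_eq_zero_iff.mp h2) j (Finset.mem_univ j)).symm
  · rintro rfl
    exact ⟨Finset.sum_eq_zero fun i _ => rfl, Finset.sum_eq_zero fun i _ => rfl⟩

theorem Gat_bc00 (f : MvPolynomial (Y ⊕ Z) K) : bc 0 0 f = C (constantCoeff f) := by
  classical
  ext m
  rw [coeff_bc, coeff_C]
  by_cases h : 0 = m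
  · rw [if_pos ((Gat_zero_iff m).mpr h), if_pos h, ← h, constantCoeff_eq]
  · rw [if_neg (fun h' => h ((Gat_zero_iff m).mp h')), if_neg h]

theorem Gat_pow (hBM : D3.S_BcMul) (E : MvPolynomial (Y ⊕ Z) K) (hE : bc 0 0 E = 0) (n : ℕ) :
    ∀ u v, u + v < n → bc u v (E ^ n) = 0 := by
  induction n with
  | zero => intro u v h; omega
  | succ n ih =>
    intro u v h
    rw [pow_succ, hBM Y Z K (E ^ n) E u v]
    refine Finset.sum_eq_zero fun p hp => Finset.sum_eq_zero fun q hq => ?_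
    rw [HasAntidiagonal.mem_antidiagonal] at hp hq
    by_cases h0 : p.2 = 0 ∧ q.2 = 0
    · rw [h0.1, h0.2, hE, mul_zero]
    · rw [ih p.1 q.1 (by omega), zero_mul]

theorem Gat_congr (hBM : D3.S_BcMul) (f f' g g' : MvPolynomial (Y ⊕ Z) K) (dd : ℕ)
    (hf : ∀ u v, u + v ≤ dd → bc u v f = bc u v f')
    (hg : ∀ u v, u + v ≤ dd → bc u v g = bc u v g') (u v : ℕ) (h : u + v ≤ dd) :
    bc u v (f * g) = bc u v (f' * g') := by
  rw [hBM Y Z K f g u v, hBM Y Z K f' g' u v]
  refine Finset.sum_congr rfl fun p hp => Finset.sum_congr rfl fun q hq => ?_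
  rw [HasAntidiagonal.mem_antidiagonal] at hp hq
  rw [hf p.1 q.1 (by omega), hg p.2 q.2 (by omega)]

theorem Gat_inv (hBM : D3.S_BcMul) (V V' : MvPolynomial (Y ⊕ Z) K) (dd : ℕ)
    (hV : ∀ u v, u + v ≤ dd → bc u v V = bc u v V') (hc : constantCoeff V ≠ 0) :
    ∀ u v, u + v ≤ dd → bc u v (V * (C (constantCoeff V)⁻¹ *
      ∑ n ∈ range (dd + 1), (1 - C (constantCoeff V)⁻¹ * V') ^ n)) =
      bc u v (1 : MvPolynomial (Y ⊕ Z) K) := by
  intro u v h
  set c := constantCoeff V with hcdef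
  have hcV' : constantCoeff V' = c := by
    have h1 := hV 0 0 (Nat.zero_le _)
    rw [Gat_bc00, Gat_bc00] at h1
    exact (C_injective _ _ h1).symm
  have hE : bc 0 0 (1 - C c⁻¹ * V') = 0 := by
    rw [Gat_bc00, map_sub, map_one, map_mul, constantCoeff_C, hcV', inv_mul_cancel₀ hc, sub_self,
      map_zero]
  rw [Gat_congr hBM V V' _ _ dd hV (fun _ _ _ => rfl) u v h]
  have h2 : V' * (C c⁻¹ * ∑ n ∈ range (dd + 1), (1 - C c⁻¹ * V') ^ n) =
      1 - (1 - C c⁻¹ * V') ^ (dd + 1) := by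
    rw [← mul_neg_geom_sum (1 - C c⁻¹ * V') (dd + 1)]
    ring
  rw [h2]
  have h3 := bc_add u v (1 - (1 - C c⁻¹ * V') ^ (dd + 1)) ((1 - C c⁻¹ * V') ^ (dd + 1))
  rw [sub_add_cancel, Gat_pow hBM _ hE (dd + 1) u v (by omega), add_zero] at h3
  exact h3.symm

/-- The truncated Euler operator. -/
noncomputable def Gat_eul (dd : ℕ) (V : MvPolynomial (Y ⊕ Z) K) : MvPolynomial (Y ⊕ Z) K :=
  ∑ a ∈ range (dd + 1), ∑ b ∈ range (dd + 1), C ((a + b : ℕ) : K) * bc a b V

theorem Gat_bc_eul (dd : ℕ) (V : MvPolynomial (Y ⊕ Z) K) (u v : ℕ) (h : u + v ≤ dd) :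
    bc u v (Gat_eul dd V) = C ((u + v : ℕ) : K) * bc u v V := by
  have h1 : ∀ a b : ℕ, bc u v (C ((a + b : ℕ) : K) * bc a b V) =
      if a = u then (if b = v then C ((u + v : ℕ) : K) * bc u v V else 0) else 0 := by
    intro a b
    rw [bc_C_mul]
    by_cases ha : a = u
    · by_cases hb : b = v
      · rw [if_pos ha, if_pos hb, ha, hb, bc_self (isBi_bc u v V)]
      · rw [if_pos ha, if_neg hb, bc_of_isBi (isBi_bc a b V),
          if_neg (fun h' => hb (by omega)), mul_zero]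
    · rw [if_neg ha, bc_of_isBi (isBi_bc a b V), if_neg (fun h' => ha (by omega)), mul_zero]
  rw [Gat_eul, bc_sum]
  rw [Finset.sum_eq_single u, bc_sum, Finset.sum_eq_single v, h1 u v, if_pos rfl, if_pos rfl]
  · intro b _ hb
    rw [h1 u b, if_pos rfl, if_neg hb]
  · intro hv
    exact absurd (Finset.mem_range.mpr (by omega)) hv
  · intro a _ ha
    rw [bc_sum]
    exact Finset.sum_eq_zero fun b _ => by rw [h1 a b, if_neg ha]
  · intro hu
    exact absurd (Finset.mem_range.mpr (by omega)) hu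

end

theorem pr_Gat (hBM : D3.S_BcMul) (hMul : CD.S_BBmul) (hSm : CD.S_BBsmul) (hLoc : S_Loc) :
    S_Gat := by
  intro Y Z _ _ K _ _ al be κ μ r t dd x Q V hκ hκμ hx hsm hBB hser hV hV0
  have hD1 : (1 : ℝ) ≤ (dd : ℝ) + 1 := by
    have : (0 : ℝ) ≤ (dd : ℝ) := Nat.cast_nonneg dd
    linarith
  have hD0 : (0 : ℝ) ≤ (dd : ℝ) + 1 := by linarith
  have hloc : ∀ (Q' : MvPolynomial (Fin r) K) (u v : ℕ), u + v ≤ dd → BB al be (bc u v (aeval x Q'))
      (((dd : ℝ) + 1) ^ (3 * r + 4) * Real.exp (-(κ * ((u + v : ℕ) : ℝ)))) := fun Q' =>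
    hLoc Y Z K al be κ μ r t dd x Q' hκ hκμ hx hsm hBB hser
  refine ⟨?_, ?_⟩
  · intro u v _ h
    rw [hV u v h]
    refine BB.mono (hloc Q u v h) ?_
    exact mul_le_mul_of_nonneg_right (pow_le_pow_right₀ hD1 (by omega)) (Real.exp_nonneg _)
  · rcases hV0 with h0 | hc
    · refine ⟨fun _ _ => 0, ⟨rfl, fun u v => isBi_zero u v, fun u v _ => ?_⟩, fun u v _ _ => ?_⟩
      · rw [h0, bc_zero, mul_zero]
        exact (Finset.sum_eq_zero fun p _ => Finset.sum_eq_zero fun q _ => zero_mul _).symm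
      · refine BB.mono BB.zero ?_
        exact mul_nonneg (pow_nonneg hD0 _) (Real.exp_nonneg _)
    · set c := constantCoeff V with hcdef
      set Q₂ : MvPolynomial (Fin r) K := C c⁻¹ * ∑ n ∈ range (dd + 1), (1 - C c⁻¹ * Q) ^ n with hQ₂
      have hU : aeval x Q₂ = C c⁻¹ * ∑ n ∈ range (dd + 1), (1 - C c⁻¹ * aeval x Q) ^ n := by
        rw [hQ₂, map_mul, aeval_C, map_sum, algebraMap_eq]
        congr 1
        refine Finset.sum_congr rfl fun n _ => ?_
        rw [map_pow, map_sub, map_one, map_mul, aeval_C, algebraMap_eq]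
      have hinv : ∀ u v, u + v ≤ dd → bc u v (V * aeval x Q₂) =
          bc u v (1 : MvPolynomial (Y ⊕ Z) K) := by
        rw [hU]
        exact Gat_inv hBM V (aeval x Q) dd hV hc
      have heul := fun u v h => Gat_bc_eul dd V u v h
      refine ⟨fun u v => bc u v (Gat_eul dd V * aeval x Q₂), ⟨?_, fun u v => isBi_bc u v _, ?_⟩, ?_⟩
      · change bc 0 0 (Gat_eul dd V * aeval x Q₂) = 0
        rw [hBM Y Z K _ _ 0 0]
        refine Finset.sum_eq_zero fun p hp => Finset.sum_eq_zero fun q hq => ?_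
        rw [HasAntidiagonal.mem_antidiagonal] at hp hq
        have hp1 : p.1 = 0 := by omega
        have hq1 : q.1 = 0 := by omega
        rw [hp1, hq1, heul 0 0 (Nat.zero_le _), Nat.add_zero, Nat.cast_zero, map_zero, zero_mul,
          zero_mul]
      · intro u v h
        have h1 := hBM Y Z K (Gat_eul dd V * aeval x Q₂) V u v
        have h2 : Gat_eul dd V * aeval x Q₂ * V = Gat_eul dd V * (V * aeval x Q₂) := by ring
        rw [h2, Gat_congr hBM (Gat_eul dd V) (Gat_eul dd V) _ _ dd (fun _ _ _ => rfl) hinv u v h,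
          mul_one, heul u v h, map_natCast] at h1
        exact h1
      · intro u v _ h
        change BB al be (bc u v (Gat_eul dd V * aeval x Q₂)) _
        rw [hBM Y Z K _ _ u v]
        set D : ℝ := (dd : ℝ) + 1 with hD
        have hterm : ∀ p ∈ HasAntidiagonal.antidiagonal u, ∀ q ∈ HasAntidiagonal.antidiagonal v,
            BB al be (bc p.1 q.1 (Gat_eul dd V) * bc p.2 q.2 (aeval x Q₂))
              (D ^ (6 * r + 8) * Real.exp (-(κ * ((u + v : ℕ) : ℝ)))) := by
          intro p hp q hq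
          rw [HasAntidiagonal.mem_antidiagonal] at hp hq
          have h1 : BB al be (bc p.1 q.1 (Gat_eul dd V))
              (D ^ (3 * r + 4) * Real.exp (-(κ * ((p.1 + q.1 : ℕ) : ℝ)))) := by
            rw [heul p.1 q.1 (by omega)]
            refine hSm Y Z K al be _ _ _ ?_
            rw [hV p.1 q.1 (by omega)]
            exact hloc Q p.1 q.1 (by omega)
          have h2 := hloc Q₂ p.2 q.2 (by omega)
          refine BB.mono (hMul Y Z K al be _ _ _ _ h1 h2) (le_of_eq ?_)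
          have h3 : (-(κ * ((u + v : ℕ) : ℝ))) =
              -(κ * ((p.1 + q.1 : ℕ) : ℝ)) + -(κ * ((p.2 + q.2 : ℕ) : ℝ)) := by
            have h4 : u + v = (p.1 + q.1) + (p.2 + q.2) := by omega
            rw [h4, Nat.cast_add]
            ring
          rw [h3, Real.exp_add]
          ring
        have hsum := Gat_BBsum (HasAntidiagonal.antidiagonal u) _ _ fun p hp =>
          Gat_BBsum (HasAntidiagonal.antidiagonal v) _ _ (hterm p hp)
        refine BB.mono hsum ?_
        rw [Finset.sum_const, Finset.sum_const, Finset.Nat.card_antidiagonal,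
          Finset.Nat.card_antidiagonal, nsmul_eq_mul, nsmul_eq_mul]
        have hu1 : ((u + 1 : ℕ) : ℝ) ≤ D := by
          rw [hD, Nat.cast_add, Nat.cast_one]
          have : (u : ℝ) ≤ (dd : ℝ) := Nat.cast_le.mpr (by omega)
          linarith
        have hv1 : ((v + 1 : ℕ) : ℝ) ≤ D := by
          rw [hD, Nat.cast_add, Nat.cast_one]
          have : (v : ℝ) ≤ (dd : ℝ) := Nat.cast_le.mpr (by omega)
          linarith
        have hX : (0 : ℝ) ≤ D ^ (6 * r + 8) * Real.exp (-(κ * ((u + v : ℕ) : ℝ))) :=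
          mul_nonneg (pow_nonneg hD0 _) (Real.exp_nonneg _)
        calc ((u + 1 : ℕ) : ℝ) * (((v + 1 : ℕ) : ℝ) *
              (D ^ (6 * r + 8) * Real.exp (-(κ * ((u + v : ℕ) : ℝ)))))
            ≤ D * (D * (D ^ (6 * r + 8) * Real.exp (-(κ * ((u + v : ℕ) : ℝ))))) :=
              mul_le_mul hu1 (mul_le_mul_of_nonneg_right hv1 hX)
                (mul_nonneg (Nat.cast_nonneg _) hX) hD0
          _ = D ^ (6 * r + 10) * Real.exp (-(κ * ((u + v : ℕ) : ℝ))) := by ring

end Pool.Agent.Work.MP_499dc6_lc.Fib
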