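import Pool.Agent.Work.MP_499dc6_lc.Fib.StmtsB

/-!
# Block Fib, item Ind: all gates have small rates
-/

namespace Pool.Agent.Work.MP_499dc6_lc.Fib

open MvPolynomial Finset
open Pool.Agent.Work.MP_499dc6_lc.CD
open Pool.Agent.Work.MP_499dc6_lc.D3

theorem Ind_num {P P' ρ ρ' n : ℝ} (hP : 0 ≤ P) (h1 : P ≤ P') (h2 : ρ' ≤ ρ) (hn : 0 ≤ n) :
    P * Real.exp (-(ρ * n)) ≤ P' * Real.exp (-(ρ' * n)) := by
  refine mul_le_mul h1 (Real.exp_le_exp.2 (neg_le_neg (mul_le_mul_of_nonneg_right h2 hn)))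
    (Real.exp_pos _).le (hP.trans h1)

theorem Ind_Rt {Y Z K : Type} [Fintype Y] [Fintype Z] [Field K] {al be : ℝ} {dd : ℕ}
    {P P' ρ ρ' : ℝ} {V : MvPolynomial (Y ⊕ Z) K} (hP : 0 ≤ P) (h1 : P ≤ P') (h2 : ρ' ≤ ρ)
    (h : Rt al be dd P ρ V) : Rt al be dd P' ρ' V :=
  fun u v huv hdd => BB.mono (h u v huv hdd) (Ind_num hP h1 h2 (Nat.cast_nonneg _))

theorem Ind_Lr {Y Z K : Type} [Fintype Y] [Fintype Z] [Field K] {al be : ℝ} {dd : ℕ}
    {P P' ρ ρ' : ℝ} {V : MvPolynomial (Y ⊕ Z) K} (hP : 0 ≤ P) (h1 : P ≤ P') (h2 : ρ' ≤ ρ)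
    (h : Lr al be dd P ρ V) : Lr al be dd P' ρ' V := by
  obtain ⟨w, hw, hb⟩ := h
  exact ⟨w, hw, fun u v huv hdd =>
    BB.mono (hb u v huv hdd) (Ind_num hP h1 h2 (Nat.cast_nonneg _))⟩

theorem Ind_rho {al be : ℝ} {s e dd h : ℕ} {P : ℝ} {ρ : ℕ → ℝ} {t : ℕ → ℕ}
    (hp : Pars al be s e dd h P ρ t) : ∀ j j', j ≤ j' → j' ≤ h → ρ j' ≤ ρ j := by
  intro j j' hjj
  induction j', hjj using Nat.le_induction with
  | base => intro _; exact le_rfl
  | succ m hm ih =>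
    intro hmh
    have h1 := ih (by omega)
    have h2 := hp.dec m (by omega)
    have h3 := hp.pos m (by omega)
    linarith

theorem pr_Ind (hL0 : S_Lev0) (hGat : S_Gat) (hBas : S_Bas) (hComp : S_Comp) : S_Ind := by
  intro Y Z _ _ K _ _ be P s r0 r e h dd ρ t F d hbe hp hP0 hP1 hC hd hF
  have h121 : (1 : ℝ) ≤ (121 : ℝ) ^ r0 := one_le_pow₀ (by norm_num)
  have hP : 0 ≤ P := by linarith
  have key : ∀ n : ℕ, ∀ i : Fin s, (i : ℕ) < n →
      Rt (Real.log (3 / 2)) be dd P (ρ (d i)) (F i) ∧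
      Lr (Real.log (3 / 2)) be dd P (ρ (d i)) (F i) := by
    intro n
    induction n with
    | zero => intro i hi; exact absurd hi (Nat.not_lt_zero _)
    | succ n ih =>
      intro i hi
      rcases hC i with ⟨l, G, hl, hFi⟩ | ⟨hdi, B, Q, hB, hFi⟩
      · obtain ⟨h1, h2⟩ := hL0 Y Z K be r0 dd l G (F i) hbe hl hFi (hF i)
        have h3 : ρ (d i) ≤ Real.log (3 / 2) / 4 := by
          rw [← hp.zero]
          exact Ind_rho hp 0 (d i) (Nat.zero_le _) (hd i)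
        exact ⟨Ind_Rt (by linarith) hP0 h3 h1, Ind_Lr (by linarith) hP0 h3 h2⟩
      · obtain ⟨j, hj⟩ : ∃ j, d i = j + 1 := ⟨d i - 1, by omega⟩
        have hjh : j < h := by have := hd i; omega
        have hlow : ∀ j' ∈ Low d i, Rt (Real.log (3 / 2)) be dd P (ρ j) (F j') ∧
            Lr (Real.log (3 / 2)) be dd P (ρ j) (F j') := by
          intro j' hj'
          obtain ⟨h1, h2⟩ := (Finset.mem_filter.1 hj').2
          have h3 : (j' : ℕ) < n := by
            have : (j' : ℕ) < (i : ℕ) := h1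
            omega
          obtain ⟨h4, h5⟩ := ih j' h3
          have h6 : ρ j ≤ ρ (d j') := Ind_rho hp (d j') j (by omega) (by omega)
          exact ⟨Ind_Rt hP le_rfl h6 h4, Ind_Lr hP le_rfl h6 h5⟩
        have het := hp.et j hjh
        have hb := fun a => hBas Y Z K (Real.log (3 / 2)) be P (ρ j) s e (t (j + 1)) dd F (Low d i)
          (B a) (hp.pos j (by omega)) hP het (by omega) (hp.thr j hjh) hlow (hB a)
        choose x T hx0 hxB hxT using hb
        obtain ⟨Q', hQ'⟩ := hComp Y Z K r dd B x T Q hxT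
        obtain ⟨h1, h2⟩ := hGat Y Z K (Real.log (3 / 2)) be (ρ (j + 1)) (ρ j / 4) r (t (j + 1)) dd
          x Q' (F i) (hp.pos (j + 1) (by omega)) (hp.dec j hjh) hx0 (hp.sm j hjh)
          (fun a u v h3 h4 => by
            have h5 := hxB a u v h3 h4
            have h6 : 2 * (ρ j / 4) = ρ j / 2 := by ring
            rw [h6]
            exact h5)
          (hp.ser j hjh) (fun u v huv => by rw [hFi]; exact hQ' u v huv) (hF i)
        rw [hj]
        have h7 : (0 : ℝ) ≤ ((dd : ℝ) + 1) ^ (6 * r + 10) := by positivity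
        exact ⟨Ind_Rt h7 hP1 le_rfl h1, Ind_Lr h7 hP1 le_rfl h2⟩
  exact fun i => key (i + 1) i (Nat.lt_succ_self _)

end Pool.Agent.Work.MP_499dc6_lc.Fib
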