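import Pool.Agent.Work.MP_499dc6_lc.Fib.StmtsA
import Pool.Agent.Work.MP_499dc6_lc.Bd.B09

/-!
# Block Fib, item IntA: the integrand, column by column
-/

namespace Pool.Agent.Work.MP_499dc6_lc.Fib

open Finset
open Pool.Agent.Work.MP_499dc6_lc.D3

theorem pr_IntA : S_IntA := by
  intro α β _ _ _ _ AY BY AZ BZ q hq hY hZ
  have hL : (2 : ℝ) ^ (In BY BZ).card * 2 ^ (In AY AZ).card *
      (3 / 2) ^ (Fintype.card α + Fintype.card β) *
      (3 / 5) ^ BY.card * (9 / 10) ^ BZ.card * (9 / 10) ^ AY.card * (9 / 10 * q) ^ AZ.card =
      ∏ x : α ⊕ β, ((if x ∈ In BY BZ then (2 : ℝ) else 1) * (if x ∈ In AY AZ then (2 : ℝ) else 1) *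
        (3 / 2) * (if x ∈ BY then (3 / 5 : ℝ) else 1) *
        Sum.elim (fun a => if a ∈ BZ then (9 / 10 : ℝ) else 1) (fun _ => (1 : ℝ)) x *
        (if x ∈ AY then (9 / 10 : ℝ) else 1) *
        Sum.elim (fun a => if a ∈ AZ then 9 / 10 * q else 1) (fun _ => (1 : ℝ)) x) := by
    rw [Finset.prod_mul_distrib, Finset.prod_mul_distrib, Finset.prod_mul_distrib,
      Finset.prod_mul_distrib, Finset.prod_mul_distrib, Finset.prod_mul_distrib,
      Int_prod, Int_prod, Int_prod, Int_prod, Int_sum, Int_sum, Int_prod, Int_prod,
      Finset.prod_const, Finset.card_univ, Fintype.card_sum]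
  have hR : (2 : ℝ) ^ (Fintype.card α + Fintype.card β) *
      (9 / 10) ^ (Fintype.card α + Fintype.card β + Fintype.card α) *
      ((3 / 2) ^ (Ur AY).card * (q * (3 / 2)) ^ AZ.card * (5 / 6) ^ (Out AY AZ).card) =
      ∏ x : α ⊕ β, ((2 : ℝ) * ((9 / 10) *
        Sum.elim (fun _ => (9 / 10 : ℝ)) (fun _ => (1 : ℝ)) x) *
        ((if x ∈ Ur AY then (3 / 2 : ℝ) else 1) *
        Sum.elim (fun a => if a ∈ AZ then q * (3 / 2) else 1) (fun _ => (1 : ℝ)) x *
        (if x ∈ Out AY AZ then (5 / 6 : ℝ) else 1))) := by
    rw [Finset.prod_mul_distrib, Finset.prod_mul_distrib, Finset.prod_mul_distrib,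
      Finset.prod_mul_distrib, Finset.prod_mul_distrib,
      Int_prod, Int_prod, Int_sum, Int_sum, Int_prod, Finset.prod_const, Finset.prod_const,
      Finset.prod_const, Finset.card_univ, Finset.card_univ, Fintype.card_sum,
      pow_add (9 / 10 : ℝ) (Fintype.card α + Fintype.card β) (Fintype.card α)]
  rw [hL, hR]
  apply Finset.prod_le_prod
  · intro x _
    have h1 : 0 ≤ Sum.elim (fun a => if a ∈ AZ then 9 / 10 * q else 1) (fun _ : β => (1 : ℝ)) x := by
      rcases x with a | u
      · simp only [Sum.elim_inl]
        split_ifs
        · positivity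
        · exact zero_le_one
      · simp only [Sum.elim_inr]
        exact zero_le_one
    have h2 : 0 ≤ Sum.elim (fun a => if a ∈ BZ then (9 / 10 : ℝ) else 1)
        (fun _ : β => (1 : ℝ)) x := by
      rcases x with a | u
      · simp only [Sum.elim_inl]
        split_ifs <;> norm_num
      · simp only [Sum.elim_inr]
        exact zero_le_one
    have h3 : ∀ (P : Prop) [Decidable P] (c : ℝ), 0 ≤ c → 0 ≤ (if P then c else 1) := by
      intro P _ c hc
      split_ifs
      · exact hc
      · exact zero_le_one
    exact mul_nonneg (mul_nonneg (mul_nonneg (mul_nonneg (mul_nonneg (mul_nonneg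
      (h3 _ _ (by norm_num)) (h3 _ _ (by norm_num))) (by norm_num)) (h3 _ _ (by norm_num))) h2)
      (h3 _ _ (by norm_num))) h1
  · intro x _
    rcases x with a | u
    · simp only [Int_memIn, Int_memOut, Int_memUr, Sum.elim_inl, if_false]
      have hd1 : Sum.inl a ∈ AY → Sum.inl a ∉ BY := fun h h' => Finset.disjoint_left.1 hY h h'
      have hd2 : a ∈ AZ → a ∉ BZ := fun h h' => Finset.disjoint_left.1 hZ h h'
      by_cases hA : Sum.inl a ∈ AY
      · have hB := hd1 hA
        by_cases hz : a ∈ AZ
        · have hz' := hd2 hz
          simp only [hA, hB, hz, hz', not_true, and_true, and_false, false_and, if_true, if_false]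
          linarith
        · by_cases hz' : a ∈ BZ
          · simp only [hA, hB, hz, hz', not_false_eq_true, and_true, and_false, false_and,
              if_true, if_false]
            norm_num
          · simp only [hA, hB, hz, hz', not_false_eq_true, and_true, and_false, false_and,
              if_true, if_false]
            norm_num
      · by_cases hB : Sum.inl a ∈ BY
        · by_cases hz : a ∈ AZ
          · have hz' := hd2 hz
            simp only [hA, hB, hz, hz', not_true, and_true, and_false, false_and, if_true,
              if_false]
            linarith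
          · by_cases hz' : a ∈ BZ
            · simp only [hA, hB, hz, hz', not_false_eq_true, and_true, and_false, false_and,
                if_true, if_false]
              norm_num
            · simp only [hA, hB, hz, hz', not_false_eq_true, and_true, and_false, false_and,
                if_true, if_false]
              norm_num
        · by_cases hz : a ∈ AZ
          · have hz' := hd2 hz
            simp only [hA, hB, hz, hz', not_true, and_true, and_false, false_and, if_true,
              if_false]
            linarith
          · by_cases hz' : a ∈ BZ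
            · simp only [hA, hB, hz, hz', not_false_eq_true, and_true, and_false, false_and,
                if_true, if_false]
              norm_num
            · simp only [hA, hB, hz, hz', not_false_eq_true, and_true, and_false, false_and,
                if_true, if_false]
              norm_num
    · simp only [Int_memIn', Int_memOut', Int_memUr', Sum.elim_inr, if_false]
      have hd1 : Sum.inr u ∈ AY → Sum.inr u ∉ BY := fun h h' => Finset.disjoint_left.1 hY h h'
      by_cases hA : Sum.inr u ∈ AY
      · have hB := hd1 hA
        simp only [hA, hB, if_true, if_false]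
        norm_num
      · by_cases hB : Sum.inr u ∈ BY
        · simp only [hA, hB, if_true, if_false]
          norm_num
        · simp only [hA, hB, if_false]
          norm_num

end Pool.Agent.Work.MP_499dc6_lc.Fib
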