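import Pool.Agent.Work.MP_499dc6_lc.Fib.StmtsC

/-!
# Block FIB, item Lam: the choice of the parameter `lam`
-/

namespace Pool.Agent.Work.MP_499dc6_lc.Fib

open Finset

theorem Lam_r1 (s N : ℕ) (hs : 1 ≤ s) (hN : 2 ≤ N) :
    ((⌈10 * Real.log (256 * (s : ℝ) * (N : ℝ) ^ 2)⌉₊ + 1 : ℕ) : ℝ) ≤
      10 * Real.log s + 103 * Real.log N := by
  have hs' : (1 : ℝ) ≤ s := by exact_mod_cast hs
  have hN' : (2 : ℝ) ≤ N := by exact_mod_cast hN
  have h1 : Real.log (256 * (s : ℝ) * (N : ℝ) ^ 2) =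
      8 * Real.log 2 + Real.log s + 2 * Real.log N := by
    rw [Real.log_mul (by positivity) (by positivity), Real.log_mul (by positivity) (by positivity),
      show (256 : ℝ) = 2 ^ 8 by norm_num, Real.log_pow, Real.log_pow]
    push_cast
    ring
  have h2 := Real.log_two_gt_d9
  have h3 : 0 ≤ Real.log s := Real.log_nonneg hs'
  have h4 : Real.log 2 ≤ Real.log N := Real.log_le_log (by norm_num) hN'
  have h5 : 0 ≤ 10 * Real.log (256 * (s : ℝ) * (N : ℝ) ^ 2) := by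
    rw [h1]
    linarith
  have h6 := Nat.ceil_lt_add_one h5
  push_cast
  rw [h1] at h6 ⊢
  linarith

theorem Lam_num (s N r1 : ℕ) (hs : 1 ≤ s) (hN : 2 ≤ N)
    (h : 10 * Real.log (256 * (s : ℝ) * (N : ℝ) ^ 2) ≤ r1) :
    (9 / 10 : ℝ) ^ r1 ≤ 1 / (256 * (s : ℝ) * (N : ℝ) ^ 2) := by
  have hs' : (1 : ℝ) ≤ s := by exact_mod_cast hs
  have hN' : (2 : ℝ) ≤ N := by exact_mod_cast hN
  have hpos : (0 : ℝ) < 256 * (s : ℝ) * (N : ℝ) ^ 2 := by positivity
  have h1 : (9 / 10 : ℝ) ≤ Real.exp (-(1 / 10)) := by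
    have := Real.add_one_le_exp (-(1 / 10) : ℝ)
    linarith
  calc (9 / 10 : ℝ) ^ r1 ≤ (Real.exp (-(1 / 10))) ^ r1 := pow_le_pow_left₀ (by norm_num) h1 _
    _ = Real.exp (-((r1 : ℝ) / 10)) := by
        rw [← Real.exp_nat_mul]
        congr 1
        ring
    _ ≤ Real.exp (-(Real.log (256 * (s : ℝ) * (N : ℝ) ^ 2))) := by
        apply Real.exp_le_exp.mpr
        linarith
    _ = 1 / (256 * (s : ℝ) * (N : ℝ) ^ 2) := by
        rw [Real.exp_neg, Real.exp_log hpos, one_div]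

/-- **Lam.** -/
theorem pr_Lam : S_Lam := by
  intro s r e N hs hN
  refine ⟨⌈10 * Real.log (256 * (s : ℝ) * (N : ℝ) ^ 2)⌉₊ + 1, by omega, ?_⟩
  intro dd m lam P hdd hm hlam hP
  have hs' : (1 : ℝ) ≤ s := by exact_mod_cast hs
  have hs0 : (0 : ℝ) < s := by linarith
  have hN' : (2 : ℝ) ≤ N := by exact_mod_cast hN
  have hm' : ((m + 1 : ℕ) : ℝ) ≤ N := by exact_mod_cast hm
  have hm0 : (0 : ℝ) < ((m + 1 : ℕ) : ℝ) := by positivity
  have hdd' : (dd : ℝ) + 1 ≤ N := by exact_mod_cast hdd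
  have hdd0 : (0 : ℝ) < (dd : ℝ) + 1 := by positivity
  have hr1 := Lam_r1 s N hs hN
  have hr1' : 10 * Real.log (256 * (s : ℝ) * (N : ℝ) ^ 2) ≤
      ((⌈10 * Real.log (256 * (s : ℝ) * (N : ℝ) ^ 2)⌉₊ + 1 : ℕ) : ℝ) := by
    push_cast
    have := Nat.le_ceil (10 * Real.log (256 * (s : ℝ) * (N : ℝ) ^ 2))
    linarith
  set r1 : ℕ := ⌈10 * Real.log (256 * (s : ℝ) * (N : ℝ) ^ 2)⌉₊ + 1 with hr1def
  have hnum := Lam_num s N r1 hs hN hr1'
  have l1 := Real.log_two_gt_d9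
  have l2 := Real.log_two_lt_d9
  have ls0 : 0 ≤ Real.log s := Real.log_nonneg hs'
  have lN : Real.log 2 ≤ Real.log N := Real.log_le_log (by norm_num) hN'
  have hr0 : (0 : ℝ) ≤ r := Nat.cast_nonneg r
  have he0 : (0 : ℝ) ≤ e := Nat.cast_nonneg e
  have hr10 : (0 : ℝ) ≤ r1 := Nat.cast_nonneg r1
  have hrL : 0 ≤ (r : ℝ) * Real.log N := by
    apply mul_nonneg hr0
    linarith
  have hrl : (r : ℝ) * Real.log 2 ≤ (r : ℝ) * Real.log N := mul_le_mul_of_nonneg_left lN hr0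
  have hlam' : lam = 600 * Real.log s + 600 * ((r : ℝ) * Real.log N) + 600 * Real.log N +
      600 * e := by
    rw [hlam]
    ring
  have ldd : Real.log ((dd : ℝ) + 1) ≤ Real.log N := Real.log_le_log hdd0 hdd'
  have ldd0 : 0 ≤ Real.log ((dd : ℝ) + 1) := Real.log_nonneg (by
    have : (0 : ℝ) ≤ dd := Nat.cast_nonneg dd
    linarith)
  have lm : Real.log ((m + 1 : ℕ) : ℝ) ≤ Real.log N := Real.log_le_log hm0 hm'
  have hP0 : 0 < P := by
    rw [hP]
    positivity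
  have l121 : Real.log 121 ≤ 7 * Real.log 2 := by
    have : (7 : ℝ) * Real.log 2 = Real.log (2 ^ 7) := by
      rw [Real.log_pow]
      norm_num
    rw [this]
    exact Real.log_le_log (by norm_num) (by norm_num)
  have l121' : 0 ≤ Real.log 121 := Real.log_nonneg (by norm_num)
  have lP : Real.log P ≤ 49 * Real.log s + 13 * ((r : ℝ) * Real.log N) + 511 * Real.log N := by
    rw [hP, Real.log_mul (by positivity) (by positivity), Real.log_pow, Real.log_pow]
    push_cast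
    have h1 : (6 * (r : ℝ) + 10) * Real.log ((dd : ℝ) + 1) ≤
        (6 * (r : ℝ) + 10) * Real.log N := mul_le_mul_of_nonneg_left ldd (by positivity)
    have h2 : ((r : ℝ) + r1) * Real.log 121 ≤ ((r : ℝ) + r1) * (7 * Real.log 2) :=
      mul_le_mul_of_nonneg_left l121 (by positivity)
    have h3 : (r1 : ℝ) * Real.log 2 ≤ (10 * Real.log s + 103 * Real.log N) * Real.log 2 :=
      mul_le_mul_of_nonneg_right hr1 (by linarith)
    have h4 : (10 * Real.log s + 103 * Real.log N) * Real.log 2 ≤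
        (10 * Real.log s + 103 * Real.log N) * 0.6931471808 :=
      mul_le_mul_of_nonneg_left l2.le (by linarith)
    have h5 : ((r : ℝ) + r1) * (7 * Real.log 2) = 7 * ((r : ℝ) * Real.log 2) +
        7 * ((r1 : ℝ) * Real.log 2) := by ring
    have h6 : (6 * (r : ℝ) + 10) * Real.log N = 6 * ((r : ℝ) * Real.log N) + 10 * Real.log N := by
      ring
    linarith
  refine ⟨?_, ?_, ?_, ?_, ?_, ?_⟩
  · have h1 : 256 * (s : ℝ) * ((m + 1 : ℕ) : ℝ) ^ 2 ≤ 256 * (s : ℝ) * (N : ℝ) ^ 2 :=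
      mul_le_mul_of_nonneg_left (pow_le_pow_left₀ hm0.le hm' 2) (by positivity)
    calc 256 * (s : ℝ) * ((m + 1 : ℕ) : ℝ) ^ 2 * (9 / 10) ^ r1
        ≤ 256 * (s : ℝ) * (N : ℝ) ^ 2 * (1 / (256 * (s : ℝ) * (N : ℝ) ^ 2)) :=
          mul_le_mul h1 hnum (by positivity) (by positivity)
      _ = 1 := by
          have : (0 : ℝ) < N := by linarith
          field_simp
  · rw [hlam']
    linarith
  · rw [hlam']
    linarith
  · have h1 : (s : ℝ) * P = Real.exp (Real.log s + Real.log P) := by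
      rw [Real.exp_add, Real.exp_log hs0, Real.exp_log hP0]
    rw [h1]
    apply Real.exp_le_exp.mpr
    rw [hlam']
    linarith
  · rw [hlam']
    linarith
  · have h1 : Real.log (1000 * ((m + 1 : ℕ) : ℝ) ^ 8) ≤ 10 * Real.log 2 + 8 * Real.log N := by
      rw [Real.log_mul (by positivity) (by positivity), Real.log_pow]
      have h2 : Real.log 1000 ≤ 10 * Real.log 2 := by
        have : (10 : ℝ) * Real.log 2 = Real.log (2 ^ 10) := by
          rw [Real.log_pow]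
          norm_num
        rw [this]
        exact Real.log_le_log (by norm_num) (by norm_num)
      push_cast at lm ⊢
      linarith
    rw [hlam']
    linarith

end Pool.Agent.Work.MP_499dc6_lc.Fib
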