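import Pool.Agent.Work.MP_499dc6_lc.Fib.StmtsB

/-!
# Circuits of bounded depth, Fibonacci exponents: gates of level zero
-/

namespace Pool.Agent.Work.MP_499dc6_lc.Fib

open MvPolynomial Finset
open Pool.Agent.Work.MP_499dc6_lc.CD
open Pool.Agent.Work.MP_499dc6_lc.D3

theorem Lev0_ccIsBi {Y Z : Type} [Fintype Y] [Fintype Z] {R : Type} [CommSemiring R]
    {f : MvPolynomial (Y ⊕ Z) R} {u v : ℕ} (h : IsBi f u v) (h0 : u + v ≠ 0) :
    constantCoeff f = 0 := by
  by_contra h1
  have h2 := h 0 h1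
  have h3 : dY (0 : Y ⊕ Z →₀ ℕ) = 0 := by simp [dY]
  have h4 : dZ (0 : Y ⊕ Z →₀ ℕ) = 0 := by simp [dZ]
  omega

/-- The constant coefficient of a polynomial in forms without constant term. -/
theorem Lev0_ccAeval {σ τ : Type} {R : Type} [CommRing R] (g : σ → MvPolynomial τ R)
    (hg : ∀ i, constantCoeff (g i) = 0) (f : MvPolynomial σ R) :
    constantCoeff (aeval g f) = constantCoeff f := by
  induction f using MvPolynomial.induction_on with
  | C a => simp
  | add p q hp hq => simp only [map_add, hp, hq]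
  | mul_X p i hp =>
    rw [map_mul, map_mul, aeval_X, hg, mul_zero, map_mul, constantCoeff_X, mul_zero]

/-- The numerical bound. -/
theorem Lev0_num (hTT : S_TTb) (be : ℝ) (hbe : Real.log (3 / 2) ≤ be) (r u v : ℕ) :
    (TT r u : ℝ) * TT r v * Real.exp (-((u : ℝ) * Real.log (3 / 2) + v * be) / 2) ≤
      121 ^ r * Real.exp (-(Real.log (3 / 2) / 4 * ((u + v : ℕ) : ℝ))) := by
  have h1 := hTT r u
  have h2 := hTT r v
  have h3 : (TT r u : ℝ) * TT r v ≤ (11 ^ r * Real.exp (Real.log (3 / 2) / 4 * u)) *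
      (11 ^ r * Real.exp (Real.log (3 / 2) / 4 * v)) :=
    mul_le_mul h1 h2 (Nat.cast_nonneg _) (by positivity)
  have h4 : Real.exp (-((u : ℝ) * Real.log (3 / 2) + v * be) / 2) ≤
      Real.exp (-((u : ℝ) * Real.log (3 / 2) + v * Real.log (3 / 2)) / 2) := by
    apply Real.exp_le_exp.mpr
    have h5 : (v : ℝ) * Real.log (3 / 2) ≤ v * be :=
      mul_le_mul_of_nonneg_left hbe (Nat.cast_nonneg _)
    linarith
  refine (mul_le_mul h3 h4 (Real.exp_pos _).le (by positivity)).trans (le_of_eq ?_)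
  have h6 : (121 : ℝ) ^ r = 11 ^ r * 11 ^ r := by
    rw [← mul_pow]
    norm_num
  have h7 : Real.exp (-(Real.log (3 / 2) / 4 * ((u + v : ℕ) : ℝ))) =
      Real.exp (Real.log (3 / 2) / 4 * u) * Real.exp (Real.log (3 / 2) / 4 * v) *
        Real.exp (-((u : ℝ) * Real.log (3 / 2) + v * Real.log (3 / 2)) / 2) := by
    rw [← Real.exp_add, ← Real.exp_add]
    congr 1
    push_cast
    ring
  rw [h6, h7]
  ring

theorem pr_Lev0 (hTT : S_TTb) (hAf : D3.S_Affine) (hBA : D3.S_BcAeval) (hFB : D3.S_FacBB)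
    (hLB : D3.S_LogBi) : S_Lev0 := by
  intro Y Z _ _ K _ be r0 dd l G V hbe hl hV hV0
  choose c y z hy hz hlc using fun a => hAf Y Z K (l a) (hl a)
  obtain ⟨G', hG'⟩ : ∃ G' : MvPolynomial (Fin r0 ⊕ Fin r0) K,
      G' = aeval (fun a => C (c a) + (X (Sum.inl a) + X (Sum.inr a))) G := ⟨_, rfl⟩
  have hG : V = aeval (Sum.elim y z) G' := by
    rw [hV, hG', ← AlgHom.comp_apply, comp_aeval]
    congr 2
    funext a
    rw [map_add, map_add, aeval_X, aeval_X, hlc a]
    congr 1
    rw [aeval_C]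
    rfl
  have hbc : ∀ u v, bc u v V = aeval (Sum.elim y z) (bc u v G') := by
    intro u v
    rw [hG]
    exact hBA Y Z (Fin r0) (Fin r0) K y z G' u v hy hz
  have hcc : constantCoeff V = constantCoeff G' := by
    rw [hG]
    refine Lev0_ccAeval _ ?_ _
    rintro (a | a)
    · exact Lev0_ccIsBi (hy a) (by norm_num)
    · exact Lev0_ccIsBi (hz a) (by norm_num)
  have hfac : ∀ (u v : ℕ) (g : MvPolynomial (Fin r0 ⊕ Fin r0) K), IsBi g u v →
      BB (Real.log (3 / 2)) be (aeval (Sum.elim y z) g)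
        (121 ^ r0 * Real.exp (-(Real.log (3 / 2) / 4 * ((u + v : ℕ) : ℝ)))) := by
    intro u v g hg
    exact (hFB Y Z K (Real.log (3 / 2)) be r0 u v g y z hg hy hz).mono
      (Lev0_num hTT be hbe r0 u v)
  refine ⟨?_, ?_⟩
  · intro u v _ _
    rw [hbc]
    exact hfac u v _ (isBi_bc u v G')
  · rcases hV0 with hV0 | hV0
    · refine ⟨fun _ _ => 0, ⟨rfl, fun u v => isBi_zero u v, ?_⟩, ?_⟩
      · intro u v _
        rw [hV0, bc_zero, mul_zero]
        symm
        refine Finset.sum_eq_zero fun p _ => Finset.sum_eq_zero fun q _ => ?_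
        rw [zero_mul]
      · intro u v _ _
        exact BB.zero.mono (by positivity)
    · obtain ⟨c0, hc0⟩ : ∃ c0 : K, c0 = constantCoeff V := ⟨_, rfl⟩
      rw [← hc0] at hV0 hcc
      obtain ⟨g, hg0, hgB, hgr⟩ := hLB Y Z K 1 r0 (fun _ => C c0⁻¹ * G') (fun _ => y)
        (fun _ => z) (C c0⁻¹ * V) (fun _ => by
          rw [map_mul, constantCoeff_C, ← hcc, inv_mul_cancel₀ hV0]) (fun _ => hy)
        (fun _ => hz) (by
          rw [Fin.prod_univ_one, map_mul, ← hG]
          congr 1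
          rw [aeval_C]
          rfl)
      refine ⟨fun u v => aeval (Sum.elim y z) (g 0 u v), ⟨?_, ?_, ?_⟩, ?_⟩
      · change aeval (Sum.elim y z) (g 0 0 0) = 0
        rw [hg0, map_zero]
      · intro u v
        have h1 := hBA Y Z (Fin r0) (Fin r0) K y z (g 0 u v) u v hy hz
        rw [bc_self (hgB 0 u v)] at h1
        change IsBi (aeval (Sum.elim y z) (g 0 u v)) u v
        rw [← h1]
        exact isBi_bc u v _
      · intro u v _
        have h1 := hgr u v
        simp only [Fin.sum_univ_one, bc_C_mul] at h1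
        have h2 : (C c0 : MvPolynomial (Y ⊕ Z) K) * C c0⁻¹ = 1 := by
          rw [← C_mul, mul_inv_cancel₀ hV0, C_1]
        have h3 : ∀ f : MvPolynomial (Y ⊕ Z) K, C c0 * (C c0⁻¹ * f) = f := by
          intro f
          rw [← mul_assoc, h2, one_mul]
        have h4 := congrArg (fun f => C c0 * f) h1
        simp only [Finset.mul_sum] at h4
        rw [← h3 (((u + v : ℕ) : MvPolynomial (Y ⊕ Z) K) * bc u v V)]
        rw [show (C c0⁻¹ : MvPolynomial (Y ⊕ Z) K) *
          (((u + v : ℕ) : MvPolynomial (Y ⊕ Z) K) * bc u v V) =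
          ((u + v : ℕ) : MvPolynomial (Y ⊕ Z) K) * (C c0⁻¹ * bc u v V) by ring]
        rw [h4]
        refine Finset.sum_congr rfl fun p _ => Finset.sum_congr rfl fun q _ => ?_
        rw [show (C c0 : MvPolynomial (Y ⊕ Z) K) *
          (aeval (Sum.elim y z) (g 0 p.1 q.1) * (C c0⁻¹ * bc p.2 q.2 V)) =
          aeval (Sum.elim y z) (g 0 p.1 q.1) * (C c0 * (C c0⁻¹ * bc p.2 q.2 V)) by ring, h3]
      · intro u v _ _
        exact hfac u v _ (hgB 0 u v)

end Pool.Agent.Work.MP_499dc6_lc.Fib
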