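import Pool.Agent.Work.MP_499dc6_lc.Fib.StmtsB

set_option autoImplicit false

/-!
# Block FIB, item Loc: a polynomial in few series without small excess
-/

namespace Pool.Agent.Work.MP_499dc6_lc.Fib

open MvPolynomial Finset
open Pool.Agent.Work.MP_499dc6_lc.CD
open Pool.Agent.Work.MP_499dc6_lc.D3

section

variable {Y Z K : Type} [Fintype Y] [Fintype Z] [Field K]

theorem Loc_sum {al be : ℝ} {ι : Type*} (s : Finset ι) (f : ι → MvPolynomial (Y ⊕ Z) K) (c : ℝ)
    (h : ∀ i ∈ s, BB al be (f i) c) : BB al be (∑ i ∈ s, f i) ((s.card : ℝ) * c) := by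
  classical
  induction s using Finset.induction_on with
  | empty =>
    rw [sum_empty, card_empty]
    simpa using (BB.zero : BB al be (0 : MvPolynomial (Y ⊕ Z) K) 0)
  | insert a s ha ih =>
    rw [sum_insert ha, card_insert_of_notMem ha]
    have h1 := BB.add (h a (mem_insert_self _ _)) (ih fun i hi => h i (mem_insert_of_mem hi))
    refine BB.mono h1 (le_of_eq ?_)
    push_cast
    ring

open Classical in
/-- The part of `f` of the bidegrees in `P`. -/
noncomputable def Loc_part (dd : ℕ) (P : ℕ → ℕ → Prop) (f : MvPolynomial (Y ⊕ Z) K) :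
    MvPolynomial (Y ⊕ Z) K :=
  ∑ p ∈ ((range (dd + 1)) ×ˢ (range (dd + 1))).filter (fun p => P p.1 p.2), bc p.1 p.2 f

open Classical in
theorem Loc_bc_part (dd : ℕ) (P : ℕ → ℕ → Prop) (f : MvPolynomial (Y ⊕ Z) K) (u v : ℕ)
    (huv : u + v ≤ dd) : bc u v (Loc_part dd P f) = if P u v then bc u v f else 0 := by
  unfold Loc_part
  rw [bc_sum]
  have h1 : ∀ p ∈ ((range (dd + 1)) ×ˢ (range (dd + 1))).filter (fun p : ℕ × ℕ => P p.1 p.2),
      bc u v (bc p.1 p.2 f) = if p = (u, v) then bc u v f else 0 := by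
    rintro ⟨a, b⟩ _
    rw [bc_of_isBi (isBi_bc a b f)]
    by_cases h : u = a ∧ v = b
    · obtain ⟨rfl, rfl⟩ := h
      simp
    · rw [if_neg h, if_neg]
      intro h'
      rw [Prod.mk.injEq] at h'
      exact h ⟨h'.1.symm, h'.2.symm⟩
  rw [sum_congr rfl h1, sum_ite_eq']
  by_cases hP : P u v
  · rw [if_pos hP, if_pos]
    rw [mem_filter, mem_product, mem_range, mem_range]
    exact ⟨⟨by omega, by omega⟩, hP⟩
  · rw [if_neg hP, if_neg]
    intro h
    exact hP (mem_filter.1 h).2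

theorem Loc_pos (dd : ℕ) (P : ℕ → ℕ → Prop) (f : MvPolynomial (Y ⊕ Z) K) (u v : ℕ)
    (huv : u + v ≤ dd) (h : P u v) : bc u v (Loc_part dd P f) = bc u v f := by
  rw [Loc_bc_part dd P f u v huv, if_pos h]

theorem Loc_neg (dd : ℕ) (P : ℕ → ℕ → Prop) (f : MvPolynomial (Y ⊕ Z) K) (u v : ℕ)
    (huv : u + v ≤ dd) (h : ¬ P u v) : bc u v (Loc_part dd P f) = 0 := by
  rw [Loc_bc_part dd P f u v huv, if_neg h]

open Classical in
theorem Loc_part_out (dd : ℕ) (P : ℕ → ℕ → Prop) (f : MvPolynomial (Y ⊕ Z) K) (u v : ℕ)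
    (h : bc u v (Loc_part dd P f) ≠ 0) : P u v := by
  unfold Loc_part at h
  rw [bc_sum] at h
  obtain ⟨⟨a, b⟩, hp, h0⟩ := exists_ne_zero_of_sum_ne_zero h
  rw [bc_of_isBi (isBi_bc a b f)] at h0
  by_cases h' : u = a ∧ v = b
  · rw [h'.1, h'.2]
    exact (mem_filter.1 hp).2
  · rw [if_neg h'] at h0
    exact absurd rfl h0

theorem Loc_card (u v dd : ℕ) (h : u + v ≤ dd) :
    (((HasAntidiagonal.antidiagonal u) ×ˢ (HasAntidiagonal.antidiagonal v)).card : ℝ) ≤
      ((dd : ℝ) + 1) ^ 2 := by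
  rw [card_product, Nat.card_antidiagonal, Nat.card_antidiagonal]
  push_cast
  have h1 : (u : ℝ) + v ≤ dd := by exact_mod_cast h
  have h2 : (0 : ℝ) ≤ u := Nat.cast_nonneg u
  have h3 : (0 : ℝ) ≤ v := Nat.cast_nonneg v
  rw [sq]
  exact mul_le_mul (by linarith) (by linarith) (by linarith) (by linarith)

/-- Sums over products of two components. -/
theorem Loc_mul (hBM : D3.S_BcMul) {al be : ℝ} (f g : MvPolynomial (Y ⊕ Z) K) (u v dd : ℕ)
    (h : u + v ≤ dd) (c : ℝ) (hc : 0 ≤ c)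
    (hb : ∀ a b a' b' : ℕ, a + a' = u → b + b' = v → BB al be (bc a b f * bc a' b' g) c) :
    BB al be (bc u v (f * g)) (((dd : ℝ) + 1) ^ 2 * c) := by
  rw [hBM Y Z K f g u v, ← sum_product']
  refine BB.mono (Loc_sum _ _ c fun p hp => ?_) (mul_le_mul_of_nonneg_right (Loc_card u v dd h) hc)
  rw [mem_product] at hp
  exact hb _ _ _ _ (mem_antidiagonal.1 hp.1) (mem_antidiagonal.1 hp.2)

end

theorem pr_Loc (hBM : D3.S_BcMul) (hMul : CD.S_BBmul) (hSm : CD.S_BBsmul) (hTr : S_Trunc)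
    (hBox : S_Box) (hCone : S_Cone) (hLrg : S_Lrg) : S_Loc := by
  classical
  intro Y Z _ _ K _ al be κ μ r t dd x Q hκ hκμ hx0 hcone hlarge hser u v huv
  set t' : ℕ := max t 1 with ht'
  have htt' : t ≤ t' := le_max_left _ _
  have h1t' : 1 ≤ t' := le_max_right _ _
  -- the three parts
  set Pp : ℕ → ℕ → Prop := fun u v => 1 ≤ u + v ∧ u + v < t' ∧ 0 ≤ (u : ℝ) * al - v * be with hPp
  set Pn : ℕ → ℕ → Prop := fun u v => 1 ≤ u + v ∧ u + v < t' ∧ (u : ℝ) * al - v * be < 0 with hPn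
  set Pl : ℕ → ℕ → Prop := fun u v => t' ≤ u + v ∧ u + v ≤ dd with hPl
  set P3 : Fin 3 → ℕ → ℕ → Prop := ![Pp, Pn, Pl] with hP3
  set X3 : Fin 3 × Fin r → MvPolynomial (Y ⊕ Z) K := fun q => Loc_part dd (P3 q.1) (x q.2) with hX3
  have hnn : ∀ (c : Fin 3) (u v : ℕ), P3 c u v → 1 ≤ u + v := by
    intro c u v h
    fin_cases c
    · exact h.1
    · exact h.1
    · exact h1t'.trans h.1
  have hX0 : ∀ q, bc 0 0 (X3 q) = 0 := by
    intro q
    by_contra h
    have := hnn _ _ _ (Loc_part_out dd _ _ 0 0 h)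
    omega
  have hsmall : ∀ u v : ℕ, 1 ≤ u + v → u + v < t' →
      2 * κ * ((u + v : ℕ) : ℝ) ≤ |(u : ℝ) * al - v * be| := by
    intro u v h1 h2
    refine hcone u v h1 ?_
    rcases le_total t 1 with h | h
    · rw [ht', max_eq_right h] at h2
      omega
    · rwa [ht', max_eq_left h] at h2
  -- truncation
  have e1 : ∀ a u v, u + v ≤ dd →
      bc u v (x a) = bc u v (X3 (0, a) + X3 (1, a) + X3 (2, a)) := by
    intro a u v h
    rw [bc_add, bc_add]
    have q0 : Pp u v → bc u v (X3 (0, a)) = bc u v (x a) := Loc_pos dd Pp (x a) u v h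
    have q0' : ¬ Pp u v → bc u v (X3 (0, a)) = 0 := Loc_neg dd Pp (x a) u v h
    have q1 : Pn u v → bc u v (X3 (1, a)) = bc u v (x a) := Loc_pos dd Pn (x a) u v h
    have q1' : ¬ Pn u v → bc u v (X3 (1, a)) = 0 := Loc_neg dd Pn (x a) u v h
    have q2 : Pl u v → bc u v (X3 (2, a)) = bc u v (x a) := Loc_pos dd Pl (x a) u v h
    have q2' : ¬ Pl u v → bc u v (X3 (2, a)) = 0 := Loc_neg dd Pl (x a) u v h
    by_cases h0 : u + v = 0
    · have hu : u = 0 := by omega
      have hv : v = 0 := by omega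
      subst hu hv
      rw [hx0 a, hX0, hX0, hX0, add_zero, add_zero]
    · by_cases h1 : u + v < t'
      · have n2 : ¬ Pl u v := fun hc => by have := hc.1; omega
        by_cases h2 : 0 ≤ (u : ℝ) * al - v * be
        · have n1 : ¬ Pn u v := fun hc => absurd hc.2.2 (not_lt.2 h2)
          rw [q0 ⟨by omega, h1, h2⟩, q1' n1, q2' n2, add_zero, add_zero]
        · have n0 : ¬ Pp u v := fun hc => h2 hc.2.2
          rw [q0' n0, q1 ⟨by omega, h1, not_le.1 h2⟩, q2' n2, add_zero, zero_add]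
      · have n0 : ¬ Pp u v := fun hc => h1 hc.2.1
        have n1 : ¬ Pn u v := fun hc => h1 hc.2.1
        rw [q0' n0, q1' n1, q2 ⟨not_lt.1 h1, h⟩, add_zero, zero_add]
  set Q3 : MvPolynomial (Fin 3 × Fin r) K := aeval (fun a : Fin r =>
    (X (0, a) + X (1, a) + X (2, a) : MvPolynomial (Fin 3 × Fin r) K)) Q with hQ3
  have e2 : aeval X3 Q3 = aeval (fun a => X3 (0, a) + X3 (1, a) + X3 (2, a)) Q := by
    rw [hQ3, ← AlgHom.comp_apply]
    congr 1
    refine MvPolynomial.algHom_ext fun a => ?_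
    simp
  have e3 : bc u v (aeval x Q) = bc u v (aeval X3 Q3) := by
    rw [e2]
    exact hTr Y Z K dd (Fin r) x _ Q e1 u v huv
  rw [e3, hBox Y Z K (Fin 3 × Fin r) X3 Q3 dd u v hX0 huv]
  -- the bound of one term
  set E : ℝ := Real.exp (-(κ * ((u + v : ℕ) : ℝ))) with hE
  have hE0 : 0 ≤ E := (Real.exp_pos _).le
  have hserl : (∑ n ∈ Icc t' dd, ((n : ℝ) + 1) * Real.exp (-(μ * n))) ≤ 1 := by
    refine le_trans (sum_le_sum_of_subset_of_nonneg ?_ fun n _ _ => ?_) hser
    · exact Icc_subset_Icc htt' le_rfl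
    · positivity
  have hterm : ∀ m : Fin 3 × Fin r → ℕ,
      BB al be (bc u v (∏ q, X3 q ^ m q)) (((dd : ℝ) + 1) ^ 4 * E) := by
    intro m
    have hprod : ∏ q, X3 q ^ m q = (∏ a, X3 (0, a) ^ m (0, a)) *
        ((∏ a, X3 (1, a) ^ m (1, a)) * ∏ a, X3 (2, a) ^ m (2, a)) := by
      rw [Fintype.prod_prod_type, Fin.prod_univ_three, mul_assoc]
    rw [hprod]
    set G := ∏ a, X3 (0, a) ^ m (0, a) with hG
    set H := ∏ a, X3 (1, a) ^ m (1, a) with hH
    set F := ∏ a, X3 (2, a) ^ m (2, a) with hF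
    have cG : ∀ a b : ℕ, bc a b G ≠ 0 → 2 * κ * ((a + b : ℕ) : ℝ) ≤ (a : ℝ) * al - b * be := by
      refine hCone Y Z K (Fin r) (fun a => X3 (0, a)) (fun a => m (0, a))
        (fun a b => 2 * κ * ((a + b : ℕ) : ℝ) ≤ (a : ℝ) * al - b * be) ?_ ?_ ?_
      · simp
      · intro a b a' b' h1 h2
        push_cast at h1 h2 ⊢
        linarith
      · intro i a b h
        have hP : Pp a b := Loc_part_out dd Pp (x i) a b h
        have h2 := hsmall a b hP.1 hP.2.1
        rwa [abs_of_nonneg hP.2.2] at h2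
    have cH : ∀ a b : ℕ, bc a b H ≠ 0 → 2 * κ * ((a + b : ℕ) : ℝ) ≤ -((a : ℝ) * al - b * be) := by
      refine hCone Y Z K (Fin r) (fun a => X3 (1, a)) (fun a => m (1, a))
        (fun a b => 2 * κ * ((a + b : ℕ) : ℝ) ≤ -((a : ℝ) * al - b * be)) ?_ ?_ ?_
      · simp
      · intro a b a' b' h1 h2
        push_cast at h1 h2 ⊢
        linarith
      · intro i a b h
        have hP : Pn a b := Loc_part_out dd Pn (x i) a b h
        have h2 := hsmall a b hP.1 hP.2.1
        rwa [abs_of_neg hP.2.2] at h2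
    have bF : ∀ a b : ℕ, a + b ≤ dd →
        BB al be (bc a b F) (Real.exp (-(κ * ((a + b : ℕ) : ℝ)))) := by
      intro a b hab
      refine BB.mono (hLrg Y Z K al be μ t' dd (Fin r) (fun a => X3 (2, a)) (fun a => m (2, a))
        ?_ ?_ hserl a b hab) ?_
      · intro i a b h
        by_contra h0
        have hP : Pl a b := Loc_part_out dd Pl (x i) a b h0
        have := hP.1
        omega
      · intro i a b h1 h2
        have q2 : bc a b (X3 (2, i)) = bc a b (x i) := Loc_pos dd Pl (x i) a b h2 ⟨h1, h2⟩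
        show BB al be (bc a b (X3 (2, i))) _
        rw [q2]
        exact hlarge i a b (htt'.trans h1) h2
      · rw [Real.exp_le_exp]
        have h0 : (0 : ℝ) ≤ ((a + b : ℕ) : ℝ) := Nat.cast_nonneg _
        have := mul_le_mul_of_nonneg_right hκμ h0
        linarith
    have bGH : ∀ a b a' b' : ℕ, BB al be (bc a b G * bc a' b' H)
        (Real.exp (-(κ * ((a + b + (a' + b') : ℕ) : ℝ)))) := by
      intro a b a' b'
      by_cases hg : bc a b G = 0
      · rw [hg, zero_mul]
        exact BB.mono BB.zero (Real.exp_pos _).le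
      · by_cases hh : bc a' b' H = 0
        · rw [hh, mul_zero]
          exact BB.mono BB.zero (Real.exp_pos _).le
        · refine BB.mono (BB.term (isBi_bc a b G) (isBi_bc a' b' H)) ?_
          rw [Real.exp_le_exp]
          have h1 := cG a b hg
          have h2 := cH a' b' hh
          push_cast at h1 h2 ⊢
          linarith
    have key := Loc_mul hBM (al := al) (be := be) G (H * F) u v dd huv (((dd : ℝ) + 1) ^ 2 * E)
      (by positivity) (fun a b a' b' ha hb => by
        rw [hBM Y Z K H F a' b', ← sum_product', mul_sum]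
        refine BB.mono (Loc_sum _ _ E fun p hp => ?_)
          (mul_le_mul_of_nonneg_right (Loc_card a' b' dd (by omega)) hE0)
        rw [mem_product] at hp
        have h1 := mem_antidiagonal.1 hp.1
        have h2 := mem_antidiagonal.1 hp.2
        rw [← mul_assoc]
        refine BB.mono (hMul Y Z K al be _ _ _ _ (bGH a b p.1.1 p.2.1)
          (bF p.1.2 p.2.2 (by omega))) (le_of_eq ?_)
        rw [hE, ← Real.exp_add]
        congr 1
        have h3 : ((u + v : ℕ) : ℝ) = ((a + b + (p.1.1 + p.2.1) : ℕ) : ℝ) +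
            ((p.1.2 + p.2.2 : ℕ) : ℝ) := by
          rw [← Nat.cast_add]
          congr 1
          omega
        rw [h3]
        ring)
    refine BB.mono key (le_of_eq ?_)
    ring
  have hfin := Loc_sum (al := al) (be := be)
    (Fintype.piFinset (fun _ : Fin 3 × Fin r => range (dd + 1)))
    (fun m => C (coeff (Finsupp.equivFunOnFinite.symm m) Q3) * bc u v (∏ q, X3 q ^ m q))
    (((dd : ℝ) + 1) ^ 4 * E) (fun m _ => hSm Y Z K al be _ _ _ (hterm m))
  refine BB.mono hfin (le_of_eq ?_)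
  rw [Fintype.card_piFinset]
  simp only [card_range, prod_const, card_univ, Fintype.card_prod, Fintype.card_fin]
  push_cast
  ring

end Pool.Agent.Work.MP_499dc6_lc.Fib
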