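import Pool.Agent.Work.MP_499dc6_lc.Fib.StmtsB

/-!
# Fibonacci exponents, item Lrg: products of polynomials with large components
-/

namespace Pool.Agent.Work.MP_499dc6_lc.Fib

open MvPolynomial Finset
open Pool.Agent.Work.MP_499dc6_lc.CD
open Pool.Agent.Work.MP_499dc6_lc.D3

section

variable {Y Z K : Type} [Fintype Y] [Fintype Z] [Field K] {al be : ℝ}

lemma Lrg_sum {κ : Type} (s : Finset κ) (f : κ → MvPolynomial (Y ⊕ Z) K) (c : κ → ℝ)
    (h : ∀ i ∈ s, BB al be (f i) (c i)) : BB al be (∑ i ∈ s, f i) (∑ i ∈ s, c i) := by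
  classical
  induction s using Finset.induction_on with
  | empty =>
    rw [Finset.sum_empty, Finset.sum_empty]
    exact BB.zero
  | insert a s ha ih =>
    rw [Finset.sum_insert ha, Finset.sum_insert ha]
    exact BB.add (h a (Finset.mem_insert_self _ _))
      (ih fun i hi => h i (Finset.mem_insert_of_mem hi))

lemma Lrg_isOne : IsBi (1 : MvPolynomial (Y ⊕ Z) K) 0 0 := by
  classical
  intro m hm
  rw [coeff_one] at hm
  have h0 : 0 = m := by
    by_contra h
    rw [if_neg h] at hm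
    exact hm rfl
  subst h0
  simp [dY, dZ]

lemma Lrg_one : BB al be (1 : MvPolynomial (Y ⊕ Z) K) 1 := by
  have h2 := BB.term (al := al) (be := be) (Lrg_isOne (Y := Y) (Z := Z) (K := K))
    (Lrg_isOne (Y := Y) (Z := Z) (K := K))
  rw [mul_one] at h2
  refine h2.mono ?_
  simp

/-- the number of pairs -/
lemma Lrg_count (μ : ℝ) (t dd u v : ℕ) (huv : u + v ≤ dd) :
    ∑ p ∈ HasAntidiagonal.antidiagonal u, ∑ q ∈ HasAntidiagonal.antidiagonal v,
      (if t ≤ p.1 + q.1 then Real.exp (-(μ * ((p.1 + q.1 : ℕ) : ℝ))) else 0) ≤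
    ∑ n ∈ Icc t dd, ((n : ℝ) + 1) * Real.exp (-(μ * n)) := by
  classical
  rw [Finset.Nat.sum_antidiagonal_eq_sum_range_succ_mk]
  simp only [Finset.Nat.sum_antidiagonal_eq_sum_range_succ_mk]
  rw [← Finset.sum_product' (range u.succ) (range v.succ)
    (fun a b => if t ≤ a + b then Real.exp (-(μ * ((a + b : ℕ) : ℝ))) else 0)]
  rw [← Finset.sum_filter]
  obtain ⟨S, hS⟩ : ∃ S, S = (range u.succ ×ˢ range v.succ).filter fun z => t ≤ z.1 + z.2 :=
    ⟨_, rfl⟩
  rw [← hS]
  have hmap : ∀ z ∈ S, z.1 + z.2 ∈ Icc t dd := by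
    intro z hz
    rw [hS, Finset.mem_filter, Finset.mem_product, Finset.mem_range, Finset.mem_range] at hz
    rw [Finset.mem_Icc]
    omega
  rw [← Finset.sum_fiberwise_of_maps_to hmap]
  refine Finset.sum_le_sum fun n _ => ?_
  have h1 : ∑ z ∈ S.filter (fun z => z.1 + z.2 = n),
      Real.exp (-(μ * ((z.1 + z.2 : ℕ) : ℝ))) =
      ∑ z ∈ S.filter (fun z => z.1 + z.2 = n), Real.exp (-(μ * n)) := by
    refine Finset.sum_congr rfl fun z hz => ?_
    rw [(Finset.mem_filter.1 hz).2]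
  rw [h1, Finset.sum_const, nsmul_eq_mul]
  refine mul_le_mul_of_nonneg_right ?_ (Real.exp_pos _).le
  have h2 : S.filter (fun z => z.1 + z.2 = n) ⊆ HasAntidiagonal.antidiagonal n := by
    intro z hz
    rw [HasAntidiagonal.mem_antidiagonal]
    exact (Finset.mem_filter.1 hz).2
  have h3 := Finset.card_le_card h2
  rw [Finset.Nat.card_antidiagonal] at h3
  exact_mod_cast h3

/-- one factor -/
lemma Lrg_step (hBM : D3.S_BcMul) (hMul : CD.S_BBmul) {μ : ℝ} {t dd : ℕ}
    {x G : MvPolynomial (Y ⊕ Z) K} (h0 : ∀ u v, u + v < t → bc u v x = 0)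
    (h1 : ∀ u v, t ≤ u + v → u + v ≤ dd →
      BB al be (bc u v x) (Real.exp (-(2 * μ * ((u + v : ℕ) : ℝ)))))
    (h2 : (∑ n ∈ Icc t dd, ((n : ℝ) + 1) * Real.exp (-(μ * n))) ≤ 1)
    (hG : ∀ u v, u + v ≤ dd → BB al be (bc u v G) (Real.exp (-(μ * ((u + v : ℕ) : ℝ)))))
    (u v : ℕ) (huv : u + v ≤ dd) :
    BB al be (bc u v (x * G)) (Real.exp (-(μ * ((u + v : ℕ) : ℝ)))) := by
  rw [hBM Y Z K x G u v]
  have h3 : BB al be (∑ p ∈ HasAntidiagonal.antidiagonal u, ∑ q ∈ HasAntidiagonal.antidiagonal v,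
      bc p.1 q.1 x * bc p.2 q.2 G)
      (∑ p ∈ HasAntidiagonal.antidiagonal u, ∑ q ∈ HasAntidiagonal.antidiagonal v,
        Real.exp (-(μ * ((u + v : ℕ) : ℝ))) *
        (if t ≤ p.1 + q.1 then Real.exp (-(μ * ((p.1 + q.1 : ℕ) : ℝ))) else 0)) := by
    refine Lrg_sum _ _ _ fun p hp => Lrg_sum _ _ _ fun q hq => ?_
    rw [HasAntidiagonal.mem_antidiagonal] at hp hq
    split_ifs with ht
    · have h4 := hMul Y Z K al be _ _ _ _ (h1 p.1 q.1 ht (by omega)) (hG p.2 q.2 (by omega))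
      refine h4.mono (le_of_eq ?_)
      rw [← Real.exp_add, ← Real.exp_add]
      congr 1
      rw [← hp, ← hq]
      push_cast
      ring
    · rw [h0 p.1 q.1 (by omega), zero_mul, mul_zero]
      exact BB.zero
  refine h3.mono ?_
  simp only [← Finset.mul_sum]
  have h4 := (Lrg_count μ t dd u v huv).trans h2
  calc _ ≤ Real.exp (-(μ * ((u + v : ℕ) : ℝ))) * 1 :=
        mul_le_mul_of_nonneg_left h4 (Real.exp_pos _).le
    _ = _ := mul_one _

end

theorem pr_Lrg (hBM : D3.S_BcMul) (hMul : CD.S_BBmul) : S_Lrg := by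
  classical
  intro Y Z _ _ K _ al be μ t dd ι _ x m h0 h1 h2
  have key : ∀ s : Finset ι, ∀ u v, u + v ≤ dd →
      BB al be (bc u v (∏ a ∈ s, x a ^ m a)) (Real.exp (-(μ * ((u + v : ℕ) : ℝ)))) := by
    intro s
    induction s using Finset.induction_on with
    | empty =>
      intro u v _
      rw [Finset.prod_empty, bc_of_isBi Lrg_isOne]
      split_ifs with h
      · obtain ⟨rfl, rfl⟩ := h
        refine Lrg_one.mono (le_of_eq ?_)
        simp
      · exact BB.zero.mono (Real.exp_pos _).le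
    | insert a s ha ih =>
      rw [Finset.prod_insert ha]
      generalize m a = k
      induction k with
      | zero =>
        rw [pow_zero, one_mul]
        exact ih
      | succ k ihk =>
        rw [pow_succ', mul_assoc]
        exact Lrg_step hBM hMul (h0 a) (h1 a) h2 ihk
  exact key univ

end Pool.Agent.Work.MP_499dc6_lc.Fib
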