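import Pool.Agent.Work.MP_499dc6_lc.Fib.StmtsA
import Pool.Agent.Work.MP_499dc6_lc.Bd.B10

/-!
# Item PA of block Fib (helper32): the restricted polynomial
-/

namespace Pool.Agent.Work.MP_499dc6_lc.Fib

open MvPolynomial Equiv Finset
open Pool.Agent.Work.MP_499dc6_lc.CD
open Pool.Agent.Work.MP_499dc6_lc.D3

theorem PA_eval (R : Type) [CommRing R] (n k : ℕ) (A : Finset (VV n k)) (c : Code n k) :
    aeval (fun v => if v ∈ A then (X v : MvPolynomial (VV n k) R) else 0)
      (monomial (Finsupp.sumElim (gr c.1.1) (gr c.1.2)) (1 : R)) =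
    if cells c ⊆ A then monomial (Finsupp.sumElim (gr c.1.1) (gr c.1.2)) (1 : R) else 0 := by
  rw [PC_monomial, map_mul, map_prod, map_prod]
  simp only [aeval_X]
  split_ifs with h
  · congr 1
    · refine Finset.prod_congr rfl fun i _ => if_pos (h ?_)
      exact Finset.mem_union_left _ (Finset.mem_image_of_mem _ (Finset.mem_univ i))
    · refine Finset.prod_congr rfl fun i _ => if_pos (h ?_)
      exact Finset.mem_union_right _ (Finset.mem_image_of_mem _ (Finset.mem_univ i))
  · rw [Finset.not_subset] at h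
    obtain ⟨v, hv, hvA⟩ := h
    rcases Finset.mem_union.1 hv with hv | hv
    · obtain ⟨i, -, rfl⟩ := Finset.mem_image.1 hv
      rw [Finset.prod_eq_zero (Finset.mem_univ i) (if_neg hvA), zero_mul]
    · obtain ⟨i, -, rfl⟩ := Finset.mem_image.1 hv
      rw [Finset.prod_eq_zero (s := (univ : Finset (CZ n))) (Finset.mem_univ i) (if_neg hvA),
        mul_zero]

theorem PA_sub (R : Type) [CommRing R] (n k : ℕ) (A : Finset (VV n k)) :
    aeval (fun v => if v ∈ A then (X v : MvPolynomial (VV n k) R) else 0) (PC R n k) =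
      PA R n k A := by
  unfold PC PA
  rw [map_sum]
  simp only [PA_eval]
  rw [← Finset.sum_filter]
  exact Finset.sum_subtype (univ.filter fun c : Code n k => cells c ⊆ A)
    (p := fun c : Code n k => cells c ⊆ A) (fun c => by simp) _

theorem PA_isBi (R : Type) [CommRing R] (n k : ℕ) (A : Finset (VV n k)) :
    IsBi (PA R n k A) (2 * (n + k)) (2 * n) := by
  unfold PA
  refine isBi_sum _ _ fun c _ => ?_
  have h := isBi_monomial (Finsupp.sumElim (gr c.1.1.1) (gr c.1.1.2)) (1 : R)
  have h1 : dY (Finsupp.sumElim (gr c.1.1.1) (gr c.1.1.2)) = 2 * (n + k) := by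
    rw [← card_CY n k, ← gr_sum c.1.1.1]
    rfl
  have h2 : dZ (Finsupp.sumElim (gr c.1.1.1) (gr c.1.1.2)) = 2 * n := by
    rw [← card_CZ n, ← gr_sum c.1.1.2]
    rfl
  rw [h1, h2] at h
  exact h

theorem PA_map {R S : Type} [CommRing R] [CommRing S] (f : R →+* S) (n k : ℕ)
    (A : Finset (VV n k)) : MvPolynomial.map f (PA R n k A) = PA S n k A := by
  unfold PA
  rw [map_sum]
  refine Finset.sum_congr rfl fun c _ => ?_
  rw [map_monomial, map_one]

/-- the restricted polynomial: substitution, bidegree, coefficients -/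
theorem pr_PA : S_PA := fun n k A =>
  ⟨fun R _ => PA_sub R n k A, fun R _ => PA_isBi R n k A, fun _ _ _ _ f => PA_map f n k A⟩

end Pool.Agent.Work.MP_499dc6_lc.Fib
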