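import Pool.Agent.Work.MP_499dc6_lc.Fib.StmtsB
import Pool.Agent.Work.MP_499dc6_lc.Bd.B10

/-!
# Item ProdW: the truncated bigraded logarithmic derivative of a product
-/

namespace Pool.Agent.Work.MP_499dc6_lc.Fib

open MvPolynomial Finset
open Pool.Agent.Work.MP_499dc6_lc.CD
open Pool.Agent.Work.MP_499dc6_lc.D3

section ProdWser

variable {A : Type} [CommRing A]

/-- The double series vanishes up to degree `dd`. -/
def ProdW_V (dd : ℕ) (F : PowerSeries (PowerSeries A)) : Prop :=
  ∀ u v : ℕ, u + v ≤ dd → PowerSeries.coeff v (PowerSeries.coeff u F) = 0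

theorem ProdW_V_mul {dd : ℕ} {F : PowerSeries (PowerSeries A)} (hF : ProdW_V dd F)
    (G : PowerSeries (PowerSeries A)) : ProdW_V dd (F * G) := by
  intro u v h
  rw [LogBi_coeff_mul]
  refine Finset.sum_eq_zero fun p hp => Finset.sum_eq_zero fun q hq => ?_
  rw [Finset.HasAntidiagonal.mem_antidiagonal] at hp hq
  rw [hF p.1 q.1 (by omega), zero_mul]

theorem ProdW_V_add {dd : ℕ} {F G : PowerSeries (PowerSeries A)} (hF : ProdW_V dd F)
    (hG : ProdW_V dd G) : ProdW_V dd (F + G) := by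
  intro u v h
  rw [map_add, map_add, hF u v h, hG u v h, add_zero]

/-- `W` is a logarithmic derivative of `V` up to degree `dd`. -/
def ProdW_R (dd : ℕ) (V W : PowerSeries (PowerSeries A)) : Prop :=
  ProdW_V dd (LogBi_E V - W * V)

theorem ProdW_R_one (dd : ℕ) : ProdW_R dd (1 : PowerSeries (PowerSeries A)) 0 := by
  unfold ProdW_R
  rw [LogBi_E_one, zero_mul, sub_zero]
  intro u v _
  rw [map_zero, map_zero]

theorem ProdW_R_mul {dd : ℕ} {V W V' W' : PowerSeries (PowerSeries A)} (h : ProdW_R dd V W)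
    (h' : ProdW_R dd V' W') : ProdW_R dd (V * V') (W + W') := by
  have e : LogBi_E (V * V') - (W + W') * (V * V') =
      (LogBi_E V - W * V) * V' + (LogBi_E V' - W' * V') * V := by
    rw [LogBi_E_mul]
    ring
  unfold ProdW_R
  rw [e]
  exact ProdW_V_add (ProdW_V_mul h _) (ProdW_V_mul h' _)

theorem ProdW_R_pow {dd : ℕ} {V W : PowerSeries (PowerSeries A)} (h : ProdW_R dd V W) (k : ℕ) :
    ProdW_R dd (V ^ k) (k • W) := by
  induction k with
  | zero => rw [pow_zero, zero_smul]; exact ProdW_R_one dd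
  | succ k ih => rw [pow_succ, succ_nsmul]; exact ProdW_R_mul ih h

theorem ProdW_R_prod {dd : ℕ} {J : Type} (s : Finset J) (V W : J → PowerSeries (PowerSeries A))
    (h : ∀ j, ProdW_R dd (V j) (W j)) : ProdW_R dd (∏ j ∈ s, V j) (∑ j ∈ s, W j) := by
  classical
  induction s using Finset.induction_on with
  | empty => rw [Finset.prod_empty, Finset.sum_empty]; exact ProdW_R_one dd
  | insert a s ha ih =>
    rw [Finset.prod_insert ha, Finset.sum_insert ha]
    exact ProdW_R_mul (h a) ih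

end ProdWser

section ProdWmain

variable {Y Z : Type} [Fintype Y] [Fintype Z] {K : Type} [Field K]

theorem ProdW_rel_iff (dd : ℕ) (V : MvPolynomial (Y ⊕ Z) K) (w : ℕ → ℕ → MvPolynomial (Y ⊕ Z) K) :
    ProdW_R dd (LogBi_B V) (LogBi_S w) ↔
      ∀ u v : ℕ, u + v ≤ dd → ((u + v : ℕ) : MvPolynomial (Y ⊕ Z) K) * bc u v V =
        ∑ p ∈ HasAntidiagonal.antidiagonal u, ∑ q ∈ HasAntidiagonal.antidiagonal v,
          w p.1 q.1 * bc p.2 q.2 V := by
  have e : ∀ u v : ℕ, PowerSeries.coeff v (PowerSeries.coeff u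
      (LogBi_E (LogBi_B V) - LogBi_S w * LogBi_B V)) =
      ((u + v : ℕ) : MvPolynomial (Y ⊕ Z) K) * bc u v V -
        ∑ p ∈ HasAntidiagonal.antidiagonal u, ∑ q ∈ HasAntidiagonal.antidiagonal v,
          w p.1 q.1 * bc p.2 q.2 V := by
    intro u v
    rw [map_sub, map_sub, LogBi_coeff_E, LogBi_coeff_B, LogBi_coeff_mul]
    congr 1
    refine Finset.sum_congr rfl fun p _ => Finset.sum_congr rfl fun q _ => ?_
    rw [LogBi_coeff_S, LogBi_coeff_B]
  unfold ProdW_R ProdW_V
  constructor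
  · intro h u v huv
    have h1 := h u v huv
    rw [e] at h1
    exact sub_eq_zero.mp h1
  · intro h u v huv
    rw [e]
    exact sub_eq_zero.mpr (h u v huv)

theorem ProdW_B_pow (hBM : D3.S_BcMul) (f : MvPolynomial (Y ⊕ Z) K) (k : ℕ) :
    LogBi_B (f ^ k) = LogBi_B f ^ k := by
  induction k with
  | zero => rw [pow_zero, pow_zero, LogBi_B_one]
  | succ k ih => rw [pow_succ, pow_succ, LogBi_B_mul hBM, ih]

end ProdWmain

theorem pr_ProdW (hBM : D3.S_BcMul) : S_ProdW := by
  intro Y Z _ _ K _ dd s F k w hw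
  refine ⟨?_, ?_, ?_⟩
  · refine Finset.sum_eq_zero fun j _ => ?_
    by_cases hj : k j ≠ 0
    · rw [if_pos hj, (hw j hj).1, mul_zero]
    · rw [if_neg hj]
  · intro u v
    refine D3.isBi_sum _ _ fun j _ => ?_
    by_cases hj : k j ≠ 0
    · rw [if_pos hj]
      exact D3.isBi_C_mul _ ((hw j hj).2.1 u v)
    · rw [if_neg hj]
      exact D3.isBi_zero u v
  · refine (ProdW_rel_iff dd (∏ j, F j ^ k j)
      (fun u v => ∑ j, if k j ≠ 0 then C ((k j : K)) * w j u v else 0)).mp ?_
    rw [LogBi_B_prod hBM]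
    have e : (LogBi_S (fun u v => ∑ j, if k j ≠ 0 then C ((k j : K)) * w j u v else 0) :
        PowerSeries (PowerSeries (MvPolynomial (Y ⊕ Z) K))) =
        ∑ j, LogBi_S (fun u v => if k j ≠ 0 then C ((k j : K)) * w j u v else 0) := by
      apply LogBi_ext
      intro u v
      rw [LogBi_coeff_S, map_sum, map_sum]
      refine Finset.sum_congr rfl fun j _ => ?_
      rw [LogBi_coeff_S]
    rw [e]
    apply ProdW_R_prod
    intro j
    rw [ProdW_B_pow hBM]
    by_cases hj : k j ≠ 0
    · have h1 := ProdW_R_pow ((ProdW_rel_iff dd (F j) (w j)).mpr (hw j hj).2.2) (k j)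
      have e2 : (LogBi_S (fun u v => if k j ≠ 0 then C ((k j : K)) * w j u v else 0) :
          PowerSeries (PowerSeries (MvPolynomial (Y ⊕ Z) K))) = k j • LogBi_S (w j) := by
        apply LogBi_ext
        intro u v
        rw [LogBi_coeff_S, if_pos hj, map_nsmul, map_nsmul, LogBi_coeff_S, nsmul_eq_mul,
          map_natCast]
      rw [e2]
      exact h1
    · have hj0 : k j = 0 := not_not.mp hj
      have e2 : (LogBi_S (fun u v => if k j ≠ 0 then C ((k j : K)) * w j u v else 0) :
          PowerSeries (PowerSeries (MvPolynomial (Y ⊕ Z) K))) = 0 := by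
        apply LogBi_ext
        intro u v
        rw [LogBi_coeff_S, if_neg hj, map_zero, map_zero]
      rw [e2, hj0, pow_zero]
      exact ProdW_R_one dd

end Pool.Agent.Work.MP_499dc6_lc.Fib
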