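import Pool.Agent.Work.MP_499dc6_lc.Fib.StmtsA

/-!
# Block Fib, item Pt: a pointwise inequality
-/

namespace Pool.Agent.Work.MP_499dc6_lc.Fib

theorem Pt_log (n k z : ℕ) (η : ℝ) (h3 : 3 * k ≤ n) (hk : 1 ≤ k) (hz : z ≤ n) (h0 : 0 ≤ η)
    (h1 : η ≤ 1) :
    (k : ℝ) * Real.log (1 + η / 2) - ((n : ℝ) - z) * (η / 6) -
      (Real.log (3 / 2) * k / n) * z ≤ 0 := by
  have hn : (0 : ℝ) < n := by
    have : 0 < n := by omega
    exact_mod_cast this
  have hk' : (0 : ℝ) ≤ k := Nat.cast_nonneg k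
  have hz' : (0 : ℝ) ≤ z := Nat.cast_nonneg z
  have hzn : (z : ℝ) ≤ n := by exact_mod_cast hz
  have h3' : 3 * (k : ℝ) ≤ n := by exact_mod_cast h3
  have hl1 : Real.log (1 + η / 2) ≤ η / 2 := by
    have := Real.log_le_sub_one_of_pos (show 0 < 1 + η / 2 by positivity)
    linarith
  have hl2 : Real.log (1 + η / 2) ≤ Real.log (3 / 2) :=
    Real.log_le_log (by positivity) (by linarith)
  have hb1 : (k : ℝ) * Real.log (1 + η / 2) - n * (η / 6) ≤ 0 := by
    have e1 : (k : ℝ) * Real.log (1 + η / 2) ≤ k * (η / 2) := mul_le_mul_of_nonneg_left hl1 hk'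
    nlinarith [mul_nonneg (sub_nonneg.2 h3') h0]
  have hb2 : (k : ℝ) * (Real.log (1 + η / 2) - Real.log (3 / 2)) ≤ 0 :=
    mul_nonpos_of_nonneg_of_nonpos hk' (by linarith)
  have key : (k : ℝ) * Real.log (1 + η / 2) - ((n : ℝ) - z) * (η / 6) -
      (Real.log (3 / 2) * k / n) * z =
      ((n : ℝ) - z) / n * ((k : ℝ) * Real.log (1 + η / 2) - n * (η / 6)) +
        (z : ℝ) / n * ((k : ℝ) * (Real.log (1 + η / 2) - Real.log (3 / 2))) := by
    field_simp
    ring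
  rw [key]
  have e1 : ((n : ℝ) - z) / n * ((k : ℝ) * Real.log (1 + η / 2) - n * (η / 6)) ≤ 0 :=
    mul_nonpos_of_nonneg_of_nonpos (div_nonneg (by linarith) hn.le) hb1
  have e2 : (z : ℝ) / n * ((k : ℝ) * (Real.log (1 + η / 2) - Real.log (3 / 2))) ≤ 0 :=
    mul_nonpos_of_nonneg_of_nonpos (div_nonneg hz' hn.le) hb2
  linarith

theorem pr_Pt : S_Pt := by
  intro n k z η h3 hk hz h0 h1
  have hpos : (0 : ℝ) < 1 + η / 2 := by positivity
  have a1 : (1 + η / 2) ^ k = Real.exp ((k : ℝ) * Real.log (1 + η / 2)) := by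
    rw [Real.exp_nat_mul, Real.exp_log hpos]
  have a2 : (1 - η / 6) ^ (n - z) ≤ Real.exp (-(((n : ℝ) - z) * (η / 6))) := by
    have b1 : 1 - η / 6 ≤ Real.exp (-(η / 6)) := by
      have := Real.add_one_le_exp (-(η / 6))
      linarith
    have b2 : (1 - η / 6) ^ (n - z) ≤ Real.exp (-(η / 6)) ^ (n - z) :=
      pow_le_pow_left₀ (by linarith) b1 _
    refine b2.trans (le_of_eq ?_)
    rw [← Real.exp_nat_mul, Nat.cast_sub hz]
    congr 1
    ring
  have hlog := Pt_log n k z η h3 hk hz h0 h1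
  calc (1 + η / 2) ^ k * (1 - η / 6) ^ (n - z) * Real.exp (-(Real.log (3 / 2) * k / n) * z)
      ≤ Real.exp ((k : ℝ) * Real.log (1 + η / 2)) * Real.exp (-(((n : ℝ) - z) * (η / 6))) *
        Real.exp (-(Real.log (3 / 2) * k / n) * z) := by
        rw [a1]
        gcongr
    _ = Real.exp ((k : ℝ) * Real.log (1 + η / 2) - ((n : ℝ) - z) * (η / 6) -
          (Real.log (3 / 2) * k / n) * z) := by
        rw [← Real.exp_add, ← Real.exp_add]
        congr 1
        ring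
    _ ≤ 1 := Real.exp_le_one_iff.2 hlog

end Pool.Agent.Work.MP_499dc6_lc.Fib
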