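import Pool.Agent.Work.MP_499dc6_lc.Fib.StmtsA

/-!
# Lower bound for the rank of the hard polynomial restricted to a random set of variables
-/

namespace Pool.Agent.Work.MP_499dc6_lc.Fib

open MvPolynomial Equiv Finset
open Pool.Agent.Work.MP_499dc6_lc.CD
open Pool.Agent.Work.MP_499dc6_lc.D3

open scoped Nat

theorem RankA_gr {α : Type} [Fintype α] [DecidableEq α] (σ : Perm α) :
    ∑ i, gr σ i = Fintype.card α := by
  have h : ∀ i : α × α, gr σ i = if σ i.1 = i.2 then 1 else 0 := fun i => rfl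
  simp only [h]
  rw [Fintype.sum_prod_type]
  have h2 : ∀ x : α, (∑ y : α, if σ x = y then 1 else 0) = 1 := by
    intro x
    rw [Finset.sum_ite_eq]
    simp
  simp only [h2, Finset.sum_const, Finset.card_univ, smul_eq_mul, mul_one]

theorem RankA_cardY (n k : ℕ) : Fintype.card (CY n k) = 2 * (n + k) := by
  simp only [Fintype.card_sum, Fintype.card_prod, Fintype.card_bool, Fintype.card_fin]
  ring

theorem RankA_cardZ (n : ℕ) : Fintype.card (CZ n) = 2 * n := by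
  simp only [Fintype.card_prod, Fintype.card_bool, Fintype.card_fin]

theorem RankA_cardYY (n k : ℕ) : Fintype.card (CY n k × CY n k) = (2 * (n + k)) ^ 2 := by
  rw [Fintype.card_prod, RankA_cardY]
  ring

theorem RankA_cardZZ (n : ℕ) : Fintype.card (CZ n × CZ n) = (2 * n) ^ 2 := by
  rw [Fintype.card_prod, RankA_cardZ]
  ring

theorem RankA_TTpos (N p : ℕ) (hN : 1 ≤ N) : 0 < TT N p :=
  Nat.choose_pos (by omega)

/-- Algebra of the trace bound. -/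
theorem RankA_alg (X T E tr rk Z : ℝ) (hX : 0 ≤ X) (hT : 0 < T) (hrk : 0 ≤ rk)
    (hE : X * T ≤ E) (hTr : E ^ 2 ≤ rk * tr) (htr : tr ≤ T * Z) : X ^ 2 * T ≤ rk * Z := by
  have h1 : (X * T) ^ 2 ≤ E ^ 2 := pow_le_pow_left₀ (by positivity) hE 2
  have h2 : (X ^ 2 * T) * T ≤ (rk * Z) * T := by
    calc (X ^ 2 * T) * T = (X * T) ^ 2 := by ring
      _ ≤ rk * tr := h1.trans hTr
      _ ≤ rk * (T * Z) := mul_le_mul_of_nonneg_left htr hrk
      _ = _ := by ring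
  exact le_of_mul_le_mul_right h2 hT

theorem RankA_rk (hTr : D3.S_Trace) (hRE : D3.S_RectE) (hRe : D3.S_Rect) (n k L l : ℕ)
    (hn : 1 ≤ n) (q : ℝ)
    (hp : (L : ℝ) / (((2 * (n + k)) ^ 2 : ℕ) + L - 1) ≤ 2 / 3)
    (hq' : (l : ℝ) / (((2 * n) ^ 2 : ℕ) + l - 1) ≤ q) (A : Finset (VV n k)) :
    (Fintype.card {c : Code n k // cells c ⊆ A} : ℝ) ^ 2 *
        (TT ((2 * (n + k)) ^ 2) L * TT ((2 * n) ^ 2) l) ≤
      ((mat (PA ℝ n k A) (L + 2 * (n + k)) l L (l + 2 * n)).rank : ℝ) *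
        ∑ c₁ : {c : Code n k // cells c ⊆ A},
          ∑ c₂ : {c : Code n k // cells c ⊆ A}, ∑ d₁ : {c : Code n k // cells c ⊆ A},
          ∑ d₂ : {c : Code n k // cells c ⊆ A},
            if gr c₁.1.1.1 + gr d₂.1.1.1 = gr c₂.1.1.1 + gr d₁.1.1.1 ∧
                gr c₁.1.1.2 + gr d₂.1.1.2 = gr c₂.1.1.2 + gr d₁.1.1.2 then
              (2 / 3 : ℝ) ^ (∑ i, (gr c₂.1.1.1 i - gr c₁.1.1.1 i)) *
                q ^ (∑ j, (gr d₁.1.1.2 j - gr c₁.1.1.2 j)) else 0 := by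
  have : Nonempty (CZ n × CZ n) := ⟨((true, ⟨0, hn⟩), (true, ⟨0, hn⟩))⟩
  have : Nonempty (CY n k × CY n k) := ⟨(Sum.inl (true, ⟨0, hn⟩), Sum.inl (true, ⟨0, hn⟩))⟩
  have ha : ∀ c : {c : Code n k // cells c ⊆ A}, ∑ i, gr c.1.1.1 i = 2 * (n + k) := fun c => by
    rw [RankA_gr, RankA_cardY]
  have hb : ∀ c : {c : Code n k // cells c ⊆ A}, ∑ i, gr c.1.1.2 i = 2 * n := fun c => by
    rw [RankA_gr, RankA_cardZ]
  have hE' := hRE (CY n k × CY n k) (CZ n × CZ n) {c : Code n k // cells c ⊆ A}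
    (fun c => gr c.1.1.1) (fun c => gr c.1.1.2) (2 * (n + k)) (2 * n) L l ha hb
  have hR' := hRe (CY n k × CY n k) (CZ n × CZ n) {c : Code n k // cells c ⊆ A}
    (fun c => gr c.1.1.1) (fun c => gr c.1.1.2) (2 * (n + k)) (2 * n) L l _ ha hb rfl
  have hT' : (∑ i, ∑ j, mat (PA ℝ n k A) (L + 2 * (n + k)) l L (l + 2 * n) i j ^ 2) ^ 2 ≤
      ((mat (PA ℝ n k A) (L + 2 * (n + k)) l L (l + 2 * n)).rank : ℝ) *
        ∑ i, ∑ i', (∑ j, mat (PA ℝ n k A) (L + 2 * (n + k)) l L (l + 2 * n) i j *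
          mat (PA ℝ n k A) (L + 2 * (n + k)) l L (l + 2 * n) i' j) ^ 2 := by
    classical
    exact hTr _ _ (mat (PA ℝ n k A) (L + 2 * (n + k)) l L (l + 2 * n))
  rw [RankA_cardYY, RankA_cardZZ] at hE' hR'
  have hN1 : 1 ≤ (2 * (n + k)) ^ 2 := Nat.one_le_pow _ _ (by omega)
  have hN2 : 1 ≤ (2 * n) ^ 2 := Nat.one_le_pow _ _ (by omega)
  have hT1 : (0 : ℝ) < TT ((2 * (n + k)) ^ 2) L := by exact_mod_cast RankA_TTpos _ _ hN1
  have hT2 : (0 : ℝ) < TT ((2 * n) ^ 2) l := by exact_mod_cast RankA_TTpos _ _ hN2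
  have hp0 : (0 : ℝ) ≤ (L : ℝ) / (((2 * (n + k)) ^ 2 : ℕ) + L - 1) := by
    apply div_nonneg (Nat.cast_nonneg _)
    have : (1 : ℝ) ≤ ((2 * (n + k)) ^ 2 : ℕ) := by exact_mod_cast hN1
    have h2 : (0 : ℝ) ≤ L := Nat.cast_nonneg _
    linarith
  have hq0 : (0 : ℝ) ≤ (l : ℝ) / (((2 * n) ^ 2 : ℕ) + l - 1) := by
    apply div_nonneg (Nat.cast_nonneg _)
    have : (1 : ℝ) ≤ ((2 * n) ^ 2 : ℕ) := by exact_mod_cast hN2
    have h2 : (0 : ℝ) ≤ l := Nat.cast_nonneg _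
    linarith
  refine RankA_alg _ _ _ _ _ _ (Nat.cast_nonneg _) (mul_pos hT1 hT2) (Nat.cast_nonneg _) ?_ hT' ?_
  · rw [← mul_assoc]
    exact hE'
  · refine hR'.trans ?_
    simp only [Finset.mul_sum]
    refine Finset.sum_le_sum fun c₁ _ => Finset.sum_le_sum fun c₂ _ =>
      Finset.sum_le_sum fun d₁ _ => Finset.sum_le_sum fun d₂ _ => ?_
    split_ifs
    · have e1 := pow_le_pow_left₀ hp0 hp (∑ i, (gr c₂.1.1.1 i - gr c₁.1.1.1 i))
      have e2 := pow_le_pow_left₀ hq0 hq' (∑ j, (gr d₁.1.1.2 j - gr c₁.1.1.2 j))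
      calc _ ≤ (TT ((2 * (n + k)) ^ 2) L * (2 / 3 : ℝ) ^
            (∑ i, (gr c₂.1.1.1 i - gr c₁.1.1.1 i))) *
          (TT ((2 * n) ^ 2) l * q ^ (∑ j, (gr d₁.1.1.2 j - gr c₁.1.1.2 j))) := by
            refine mul_le_mul (mul_le_mul_of_nonneg_left e1 hT1.le)
              (mul_le_mul_of_nonneg_left e2 hT2.le)
              (mul_nonneg hT2.le (pow_nonneg hq0 _)) ?_
            exact mul_nonneg hT1.le (by positivity)
        _ = _ := by ring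
    · simp

/-- The probability that one of the sets `T i` is kept. -/
theorem RankA_bad (hWt : S_Wt) (V : Type) [Fintype V] [DecidableEq V] (S r : ℕ)
    (T : Fin S → Finset V) (hr : ∀ i, r ≤ (T i).card)
    [DecidablePred fun A : Finset V => ∃ i, T i ⊆ A] :
    (∑ A : Finset V, if ∃ i, T i ⊆ A then wt A else 0) ≤ (S : ℝ) * (9 / 10) ^ r := by
  have hpos := (hWt V).1
  have h1 : (∑ A : Finset V, if ∃ i, T i ⊆ A then wt A else 0) ≤
      ∑ A : Finset V, ∑ i, if T i ⊆ A then wt A else 0 := by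
    refine Finset.sum_le_sum fun A _ => ?_
    have hnn : ∀ i, 0 ≤ (if T i ⊆ A then wt A else 0) := by
      intro i
      split_ifs
      · exact (hpos A).le
      · exact le_rfl
    split_ifs with h
    · obtain ⟨i, hi⟩ := h
      have h2 := Finset.single_le_sum (f := fun i => if T i ⊆ A then wt A else 0)
        (fun j _ => hnn j) (Finset.mem_univ i)
      simp only [if_pos hi] at h2
      exact h2
    · exact Finset.sum_nonneg fun i _ => hnn i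
  refine h1.trans ?_
  rw [Finset.sum_comm]
  have h3 : ∀ i : Fin S, (∑ A : Finset V, if T i ⊆ A then wt A else 0) ≤ (9 / 10 : ℝ) ^ r := by
    intro i
    rw [(hWt V).2 (T i)]
    exact pow_le_pow_of_le_one (by norm_num) (by norm_num) (hr i)
  calc (∑ i : Fin S, ∑ A : Finset V, if T i ⊆ A then wt A else 0)
      ≤ ∑ _i : Fin S, (9 / 10 : ℝ) ^ r := Finset.sum_le_sum fun i _ => h3 i
    _ = _ := by
      rw [Finset.sum_const, Finset.card_univ, Fintype.card_fin, nsmul_eq_mul]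

/-- Algebra at the end. `X` codewords in the set, `M = C u` their expected number, `E` the expected
number of rectangles. -/
theorem RankA_fin (X Z E C u T rk a G : ℝ) (hX : 0 < X) (hC : 0 < C) (hu : 0 < u) (hrk : 0 ≤ rk)
    (h1 : X ^ 2 * T ≤ rk * Z) (h2 : (C * u) ^ 2 * Z ≤ 4 * E * X ^ 2)
    (h3 : E ≤ C * u ^ 2 * a * (64 * G)) : C * T ≤ 256 * (rk * (a * G)) := by
  have h4 : (C * T) * (C * u ^ 2 * X ^ 2) ≤ (256 * (rk * (a * G))) * (C * u ^ 2 * X ^ 2) := by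
    calc (C * T) * (C * u ^ 2 * X ^ 2) = (C * u) ^ 2 * (X ^ 2 * T) := by ring
      _ ≤ (C * u) ^ 2 * (rk * Z) := mul_le_mul_of_nonneg_left h1 (by positivity)
      _ = rk * ((C * u) ^ 2 * Z) := by ring
      _ ≤ rk * (4 * E * X ^ 2) := mul_le_mul_of_nonneg_left h2 hrk
      _ = (rk * (4 * X ^ 2)) * E := by ring
      _ ≤ (rk * (4 * X ^ 2)) * (C * u ^ 2 * a * (64 * G)) :=
        mul_le_mul_of_nonneg_left h3 (by positivity)
      _ = _ := by ring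
  exact le_of_mul_le_mul_right h4 (by positivity)

theorem RankA_fin2 (m : ℕ) (C T rk f g P Q : ℝ) (hT : 0 < T) (hf : 0 < f) (hg : 0 < g)
    (hQ : 0 ≤ Q) (h1 : C * T ≤ 256 * (rk * ((4 / 3) ^ (2 * m) * (P * f * g))))
    (h2 : 4 ^ m * f * g ≤ C * Q) : (3 / 2) ^ (2 * m) * T ≤ 256 * (rk * (P * Q)) := by
  have e1 : (3 / 2 : ℝ) ^ (2 * m) * (4 / 3) ^ (2 * m) = 4 ^ m := by
    rw [← mul_pow, pow_mul]
    norm_num
  have h3 : ((3 / 2) ^ (2 * m) * T) * ((4 / 3) ^ (2 * m) * (f * g)) ≤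
      (256 * (rk * (P * Q))) * ((4 / 3) ^ (2 * m) * (f * g)) := by
    calc ((3 / 2) ^ (2 * m) * T) * ((4 / 3) ^ (2 * m) * (f * g))
        = ((3 / 2 : ℝ) ^ (2 * m) * (4 / 3) ^ (2 * m)) * f * g * T := by ring
      _ = (4 ^ m * f * g) * T := by rw [e1]
      _ ≤ (C * Q) * T := mul_le_mul_of_nonneg_right h2 hT.le
      _ = Q * (C * T) := by ring
      _ ≤ Q * (256 * (rk * ((4 / 3) ^ (2 * m) * (P * f * g)))) :=
        mul_le_mul_of_nonneg_left h1 hQ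
      _ = _ := by ring
  exact le_of_mul_le_mul_right h3 (by positivity)

theorem RankA_num (n k : ℕ) :
    (2 * (n : ℝ) + 1) * (2 * k + 1) ≤ (2 * ((n : ℝ) + k) + 1) ^ 2 := by
  have h1 : (0 : ℝ) ≤ n := Nat.cast_nonneg _
  have h2 : (0 : ℝ) ≤ k := Nat.cast_nonneg _
  nlinarith [mul_nonneg h1 h2]

theorem RankA_pow (a b c d M : ℝ) (ha : 0 ≤ a) (hb : 0 ≤ b) (hc : 0 ≤ c) (hd : 0 ≤ d)
    (haM : a ≤ M) (hbM : b ≤ M) (hcM : c ≤ M) (hdM : d ≤ M) :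
    768 * (a ^ 4 * b ^ 2 * c * d) ≤ 1000 * M ^ 8 := by
  have hM0 : 0 ≤ M := ha.trans haM
  have h1 : a ^ 4 * b ^ 2 * c * d ≤ M ^ 4 * M ^ 2 * M * M := by gcongr
  nlinarith [pow_nonneg hM0 8]

theorem pr_RankA (hWt : S_Wt) (hAvg : S_Avg) (hSec : S_Sec) (hEZ : S_EZ) (hTr : D3.S_Trace)
    (hRE : D3.S_RectE) (hRe : D3.S_Rect) (hCC : D3.S_CodeCard) (hGr : D3.S_Grow3) :
    S_RankA := by
  intro n k L l S r T h3 hk hL hl hr hS
  have hn : 1 ≤ n := by omega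
  have hn0 : (n : ℝ) ≠ 0 := by
    have : 0 < n := by omega
    positivity
  set q : ℝ := Real.exp (-(Real.log (3 / 2) * (n + k) / n)) with hqdef
  have hq : 0 < q := Real.exp_pos _
  have hq32 : q * (3 / 2) = Real.exp (-(Real.log (3 / 2) * k / n)) := by
    have e1 : -(Real.log (3 / 2) * ((n : ℝ) + k) / n) =
        -(Real.log (3 / 2) * k / n) - Real.log (3 / 2) := by
      field_simp
      ring
    rw [hqdef, e1, Real.exp_sub, Real.exp_log (by norm_num : (0 : ℝ) < 3 / 2)]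
    ring
  have hN1 : 1 ≤ (2 * (n + k)) ^ 2 := Nat.one_le_pow _ _ (by omega)
  have hN2 : 1 ≤ (2 * n) ^ 2 := Nat.one_le_pow _ _ (by omega)
  have hp : (L : ℝ) / (((2 * (n + k)) ^ 2 : ℕ) + L - 1) ≤ 2 / 3 := by
    have h1 : (1 : ℝ) ≤ ((2 * (n + k)) ^ 2 : ℕ) := by exact_mod_cast hN1
    have h2 : (0 : ℝ) ≤ L := Nat.cast_nonneg _
    have h3 : L + 2 ≤ 2 * (2 * (n + k)) ^ 2 := by omega
    have h4 : (L : ℝ) + 2 ≤ 2 * ((2 * (n + k)) ^ 2 : ℕ) := by exact_mod_cast h3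
    by_cases h5 : (0 : ℝ) < (((2 * (n + k)) ^ 2 : ℕ) : ℝ) + L - 1
    · rw [div_le_iff₀ h5]
      linarith
    · have h6 : (((2 * (n + k)) ^ 2 : ℕ) : ℝ) + L - 1 = 0 := by linarith
      rw [h6]
      norm_num
  have hq' : (l : ℝ) / (((2 * n) ^ 2 : ℕ) + l - 1) ≤ q := by
    have e : (((2 * n) ^ 2 : ℕ) : ℝ) = ((2 * n : ℕ) : ℝ) ^ 2 := by push_cast; ring
    rw [e]
    exact hl
  have hT1 : (0 : ℝ) < TT ((2 * (n + k)) ^ 2) L := by exact_mod_cast RankA_TTpos _ _ hN1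
  have hT2 : (0 : ℝ) < TT ((2 * n) ^ 2) l := by exact_mod_cast RankA_TTpos _ _ hN2
  have hCn := hCC n k hn hk
  have hCR : (4 : ℝ) ^ (n + k) * ((n + k)! : ℝ) ^ 2 * (n ! : ℝ) ^ 2 ≤
      (Fintype.card (Code n k) : ℝ) * ((2 * n + 1) * (2 * k + 1)) := by exact_mod_cast hCn
  have hCpos : (0 : ℝ) < Fintype.card (Code n k) := by
    have h1 : 0 < 4 ^ (n + k) * ((n + k)!) ^ 2 * (n !) ^ 2 := by positivity
    have h2 : 0 < Fintype.card (Code n k) * ((2 * n + 1) * (2 * k + 1)) := h1.trans_le hCn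
    exact_mod_cast Nat.pos_of_mul_pos_right h2
  obtain ⟨hM1, hM2⟩ := hSec n k hn hk
  have hEZ' := hEZ n k q h3 hk hq hq32
  have hw1 : (∑ A : Finset (VV n k), wt A) = 1 := by
    have h := (hWt (VV n k)).2 ∅
    simp only [Finset.empty_subset, if_true, Finset.card_empty, pow_zero] at h
    exact h
  have hMpos : 0 < (Fintype.card (Code n k) : ℝ) * (9 / 10 : ℝ) ^ (2 * (n + k) + 2 * n) := by
    positivity
  have hkR : (1 : ℝ) ≤ k := by exact_mod_cast hk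
  have hnR : (1 : ℝ) ≤ n := by exact_mod_cast hn
  classical
  have hA := hAvg (Finset (VV n k)) wt
    (fun A => (Fintype.card {c : Code n k // cells c ⊆ A} : ℝ))
    (fun A => ∑ c₁ : {c : Code n k // cells c ⊆ A},
      ∑ c₂ : {c : Code n k // cells c ⊆ A}, ∑ d₁ : {c : Code n k // cells c ⊆ A},
      ∑ d₂ : {c : Code n k // cells c ⊆ A},
        if gr c₁.1.1.1 + gr d₂.1.1.1 = gr c₂.1.1.1 + gr d₁.1.1.1 ∧
            gr c₁.1.1.2 + gr d₂.1.1.2 = gr c₂.1.1.2 + gr d₁.1.1.2 then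
          (2 / 3 : ℝ) ^ (∑ i, (gr c₂.1.1.1 i - gr c₁.1.1.1 i)) *
            q ^ (∑ j, (gr d₁.1.1.2 j - gr c₁.1.1.2 j)) else 0)
    (fun A => ∃ i, T i ⊆ A) (64 * ((2 * n + 1) * (2 * k + 1))) ((S : ℝ) * (9 / 10) ^ r)
    (fun A => ((hWt (VV n k)).1 A).le) hw1 (fun A => Nat.cast_nonneg _)
    (fun A => by
      refine Finset.sum_nonneg fun c₁ _ => Finset.sum_nonneg fun c₂ _ =>
        Finset.sum_nonneg fun d₁ _ => Finset.sum_nonneg fun d₂ _ => ?_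
      split_ifs
      · positivity
      · exact le_rfl)
    (by rw [hM1]; exact hMpos) (by positivity) (by positivity)
    (by rw [hM1]; exact hM2)
    (RankA_bad hWt (VV n k) S r T hr)
    (by
      have e1 : ((2 * (n + k) + 1 : ℕ) : ℝ) = 2 * (n + k) + 1 := by push_cast; ring
      rw [e1] at hS
      have e2 := RankA_num n k
      have e3 : (0 : ℝ) ≤ (S : ℝ) * (9 / 10) ^ r := by positivity
      calc 4 * (64 * ((2 * (n : ℝ) + 1) * (2 * k + 1))) * ((S : ℝ) * (9 / 10) ^ r)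
          = (256 * ((S : ℝ) * (9 / 10) ^ r)) * ((2 * (n : ℝ) + 1) * (2 * k + 1)) := by ring
        _ ≤ (256 * ((S : ℝ) * (9 / 10) ^ r)) * (2 * ((n : ℝ) + k) + 1) ^ 2 :=
          mul_le_mul_of_nonneg_left e2 (by positivity)
        _ = 256 * (S : ℝ) * (2 * ((n : ℝ) + k) + 1) ^ 2 * (9 / 10) ^ r := by ring
        _ ≤ 1 := hS)
  obtain ⟨A, hAbad, hAX, hAZ⟩ := hA
  refine ⟨A, fun i hi => hAbad ⟨i, hi⟩, ?_⟩
  rw [hM1] at hAZ
  have hrk0 : (0 : ℝ) ≤ ((mat (PA ℝ n k A) (L + 2 * (n + k)) l L (l + 2 * n)).rank : ℝ) :=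
    Nat.cast_nonneg _
  have h4 := RankA_rk hTr hRE hRe n k L l hn q hp hq' A
  have e5 : (9 / 10 : ℝ) ^ (2 * (2 * (n + k) + 2 * n)) =
      ((9 / 10 : ℝ) ^ (2 * (n + k) + 2 * n)) ^ 2 := by
    rw [← pow_mul, mul_comm 2]
  rw [e5] at hEZ'
  have h5 := RankA_fin _ _ _ _ _ _ _ _ _ hAX hCpos (by positivity) hrk0 h4 hAZ hEZ'
  have h6 := RankA_fin2 (n + k) _ _ _ ((n + k)! ^ 2 : ℝ) ((n ! : ℝ) ^ 2)
    ((((n + k : ℕ) : ℝ) + 1) ^ 4 * ((n : ℝ) + 1) ^ 2) ((2 * n + 1) * (2 * k + 1))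
    (mul_pos hT1 hT2) (by positivity) (by positivity) (by positivity)
    (h5.trans (le_of_eq (by ring))) hCR
  have hgrow := hGr (2 * (n + k)) L (by omega) hL
  calc (TT ((2 * (n + k)) ^ 2) (L + 2 * (n + k)) : ℝ) * TT ((2 * n) ^ 2) l
      ≤ (3 * (3 / 2) ^ (2 * (n + k)) * TT ((2 * (n + k)) ^ 2) L) *
        TT ((2 * n) ^ 2) l := mul_le_mul_of_nonneg_right hgrow hT2.le
    _ = 3 * ((3 / 2 : ℝ) ^ (2 * (n + k)) *
        (TT ((2 * (n + k)) ^ 2) L * TT ((2 * n) ^ 2) l)) := by ring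
    _ ≤ 3 * (256 * (((mat (PA ℝ n k A) (L + 2 * (n + k)) l L (l + 2 * n)).rank : ℝ) *
        ((((n + k : ℕ) : ℝ) + 1) ^ 4 * ((n : ℝ) + 1) ^ 2 * ((2 * n + 1) * (2 * k + 1))))) :=
        mul_le_mul_of_nonneg_left h6 (by norm_num)
    _ = ((mat (PA ℝ n k A) (L + 2 * (n + k)) l L (l + 2 * n)).rank : ℝ) *
        (768 * ((((n + k : ℕ) : ℝ) + 1) ^ 4 * ((n : ℝ) + 1) ^ 2 *
          (2 * (n : ℝ) + 1) * (2 * k + 1))) := by ring
    _ ≤ _ := by
        refine mul_le_mul_of_nonneg_left ?_ hrk0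
        have c3 : ((n + k : ℕ) : ℝ) = n + k := by push_cast; ring
        have c4 : ((2 * (n + k) + 1 : ℕ) : ℝ) = 2 * ((n : ℝ) + k) + 1 := by
          push_cast; ring
        rw [c3, c4]
        exact RankA_pow _ _ _ _ _ (by linarith) (by linarith) (by linarith) (by linarith)
          (by linarith) (by linarith) (by linarith) (by linarith)

end Pool.Agent.Work.MP_499dc6_lc.Fib
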