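import Pool.Agent.Work.MP_499dc6_lc.Fib.StmtsD
import Pool.Agent.Work.MP_499dc6_lc.Bd.B10

/-!
# Block Fib, item Scal: the hard polynomial is a projection of the permanent
-/

namespace Pool.Agent.Work.MP_499dc6_lc.Fib

open MvPolynomial Finset
open Pool.Agent.Work.MP_499dc6_lc.CD
open Pool.Agent.Work.MP_499dc6_lc.D3

open scoped PowerSeries

theorem pr_Scal (hProj : D3.S_Proj) : S_Scal := by
  intro k _ _ N n kk hN
  obtain ⟨A, hA, hperm⟩ := hProj (MvPolynomial (VV n kk) k⟦X⟧) n kk N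
    (fun i j => X (Sum.inl (i, j))) (fun i j => X (Sum.inr (i, j))) hN
  rw [PC_prod] at hperm
  refine ⟨fun p => A p.1 p.2, ?_, (-1) ^ n * 4 ^ n, ?_, ?_⟩
  · intro v
    rcases hA v.1 v.2 with h | h | h | ⟨a, b, h⟩ | ⟨a, b, h⟩
    · exact Or.inl h
    · exact Or.inr (Or.inl h)
    · exact Or.inr (Or.inr (Or.inl h))
    · exact Or.inr (Or.inr (Or.inr ⟨_, h⟩))
    · exact Or.inr (Or.inr (Or.inr ⟨_, h⟩))
  · exact mul_ne_zero (pow_ne_zero _ (by norm_num)) (pow_ne_zero _ (by norm_num))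
  · have h2 : aeval (fun p : Fin N × Fin N => A p.1 p.2) (gperm k⟦X⟧ N) = A.permanent := by
      unfold gperm
      have := map_permanent' (aeval (fun p : Fin N × Fin N => A p.1 p.2) :
        MvPolynomial (Fin N × Fin N) k⟦X⟧ →ₐ[k⟦X⟧] MvPolynomial _ k⟦X⟧).toRingHom
        (Matrix.of fun i j => (X (i, j) : MvPolynomial (Fin N × Fin N) k⟦X⟧))
      simp only [AlgHom.toRingHom_eq_coe, RingHom.coe_coe, Matrix.of_apply, aeval_X] at this
      rw [this]
      rfl
    rw [h2, hperm]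
    congr 1
    simp only [map_mul, map_pow, map_neg, map_one]
    congr 2

end Pool.Agent.Work.MP_499dc6_lc.Fib
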