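import Pool.Agent.Work.MP_499dc6_lc.Fib.StmtsA
import Pool.Agent.Work.MP_499dc6_lc.Bd.B09

/-!
# First and second moment of the number of codewords in a random set
-/

namespace Pool.Agent.Work.MP_499dc6_lc.Fib

open MvPolynomial Equiv Finset
open Pool.Agent.Work.MP_499dc6_lc.CD
open Pool.Agent.Work.MP_499dc6_lc.D3

open scoped Nat

theorem Sec_card (n k : ℕ) (A : Finset (VV n k)) :
    (Fintype.card {c : Code n k // cells c ⊆ A} : ℝ) =
      ∑ c : Code n k, if cells c ⊆ A then (1 : ℝ) else 0 := by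
  rw [Fintype.card_subtype, Finset.card_filter]
  push_cast
  rfl

theorem Sec_pow {α β : Type} [Fintype α] [Fintype β] [DecidableEq α] [DecidableEq β] (c : ℝ)
    (T : Finset (α ⊕ β)) : c ^ T.card =
      (∏ a : α, if Sum.inl a ∈ T then c else 1) * ∏ u : β, if Sum.inr u ∈ T then c else 1 := by
  rw [← Fintype.prod_sum_type (fun x : α ⊕ β => if x ∈ T then c else 1),
    Finset.prod_ite_mem, Finset.univ_inter, Finset.prod_const]

theorem Sec_pow' {α : Type} [Fintype α] [DecidableEq α] (c : ℝ)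
    (T : Finset α) : c ^ T.card = ∏ a : α, if a ∈ T then c else 1 := by
  rw [Finset.prod_ite_mem, Finset.univ_inter, Finset.prod_const]

/-- column by column -/
theorem Sec_col {α β : Type} [Fintype α] [Fintype β] [DecidableEq α] [DecidableEq β]
    (A : Finset (α ⊕ β)) (B : Finset α) :
    (2 : ℝ) ^ (In A B).card * ((9 / 10) ^ A.card * (9 / 10) ^ B.card) ≤
      2 ^ (Fintype.card α + Fintype.card β) *
        (9 / 10) ^ (Fintype.card α + Fintype.card β + Fintype.card α) := by
  rw [Sec_pow 2 (In A B), Sec_pow (9 / 10) A, Sec_pow' (9 / 10) B]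
  have hl : ∀ a : α, (Sum.inl a ∈ In A B ↔ Sum.inl a ∈ A ∧ a ∈ B) := by
    intro a
    simp [In]
  have hr : ∀ u : β, (Sum.inr u ∈ In A B ↔ Sum.inr u ∈ A) := by
    intro u
    simp [In]
  have h1 : (∏ a : α, if Sum.inl a ∈ In A B then (2 : ℝ) else 1) *
      ((∏ a : α, if Sum.inl a ∈ A then (9 / 10 : ℝ) else 1) *
        ∏ a : α, if a ∈ B then (9 / 10 : ℝ) else 1) ≤ ∏ _a : α, (2 * (9 / 10) ^ 2 : ℝ) := by
    rw [← Finset.prod_mul_distrib, ← Finset.prod_mul_distrib]
    refine Finset.prod_le_prod (fun a _ => ?_) fun a _ => ?_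
    · split_ifs <;> norm_num
    · rw [if_congr (hl a) rfl rfl]
      by_cases ha : Sum.inl a ∈ A <;> by_cases hb : a ∈ B <;> simp only [ha, hb, and_self,
        and_true, and_false, if_true, if_false] <;> norm_num
  have h2 : (∏ u : β, if Sum.inr u ∈ In A B then (2 : ℝ) else 1) *
      (∏ u : β, if Sum.inr u ∈ A then (9 / 10 : ℝ) else 1) ≤ ∏ _u : β, (2 * (9 / 10) : ℝ) := by
    rw [← Finset.prod_mul_distrib]
    refine Finset.prod_le_prod (fun a _ => ?_) fun a _ => ?_
    · split_ifs <;> norm_num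
    · rw [if_congr (hr a) rfl rfl]
      by_cases ha : Sum.inr a ∈ A <;> simp only [ha, if_true, if_false] <;> norm_num
  have h3 := mul_le_mul h1 h2 (mul_nonneg
    (Finset.prod_nonneg fun u _ => by split_ifs <;> norm_num)
    (Finset.prod_nonneg fun u _ => by split_ifs <;> norm_num))
    (Finset.prod_nonneg fun u _ => by norm_num)
  rw [Finset.prod_const, Finset.prod_const, Finset.card_univ, Finset.card_univ] at h3
  calc _ = _ := by ring
    _ ≤ _ := h3
    _ = _ := by
      rw [mul_pow, mul_pow, pow_add, pow_add, pow_add, ← pow_mul, mul_comm 2 (Fintype.card α),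
        pow_mul]
      ring

/-- the sum over the second codeword -/
theorem Sec_inner (hCnt : D3.S_Cnt) (hB : D3.S_BSum) (hPat : D3.S_Pattern) (n k : ℕ)
    (c₁ : Code n k) :
    (∑ c₂ : Code n k, (9 / 10 : ℝ) ^ (univ.filter fun i => c₂.1.1 i ≠ c₁.1.1 i).card *
      (9 / 10) ^ (univ.filter fun j => c₂.1.2 j ≠ c₁.1.2 j).card) ≤
    64 * ((4 : ℝ) ^ (n + k) * ((n + k)! : ℝ) ^ 2 * (n ! : ℝ) ^ 2) *
      (9 / 10) ^ (2 * (n + k) + 2 * n) := by
  set s : CY n k → Bool := fun x => sd (c₁.1.1.symm x) with hs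
  have hs1 : ∀ b, (univ.filter fun a : CZ n => s (Sum.inl a) = b).card = n := fun b =>
    (hPat n k c₁ b).1
  have hs2 : ∀ b, (univ.filter fun u : Bool × Fin k => s (Sum.inr u) = b).card = k := fun b =>
    (hPat n k c₁ b).2
  have hsm : ∀ b, (univ.filter fun x : CY n k => s x = b).card = n + k := by
    intro b
    have h1 : (univ.filter fun x : CY n k => s x = b).card =
        (univ.filter fun a : CZ n => s (Sum.inl a) = b).card +
        (univ.filter fun u : Bool × Fin k => s (Sum.inr u) = b).card := by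
      rw [Finset.card_filter, Finset.card_filter, Finset.card_filter, Fintype.sum_sum_type]
    rw [h1, hs1, hs2]
  have e1 : (∑ c₂ : Code n k, (9 / 10 : ℝ) ^ (univ.filter fun i => c₂.1.1 i ≠ c₁.1.1 i).card *
      (9 / 10) ^ (univ.filter fun j => c₂.1.2 j ≠ c₁.1.2 j).card) =
      ∑ g : Good s, (9 / 10 : ℝ) ^ g.1.1.support.card * (9 / 10) ^ g.1.2.support.card := by
    refine Fintype.sum_equiv (Shift_E c₁ s (fun _ => rfl)) _ _ (fun c₂ => ?_)
    have e3 : ((Shift_E c₁ s (fun _ => rfl)) c₂).1.1.support.card =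
        (univ.filter fun i => c₂.1.1 i ≠ c₁.1.1 i).card := Shift_card _ _
    have e4 : ((Shift_E c₁ s (fun _ => rfl)) c₂).1.2.support.card =
        (univ.filter fun j => c₂.1.2 j ≠ c₁.1.2 j).card := Shift_card _ _
    rw [e3, e4]
  rw [e1]
  have e2 := GSum_le hCnt s (fun A B => (9 / 10 : ℝ) ^ A.card * (9 / 10) ^ B.card)
    (fun A B => by positivity)
  refine e2.trans ?_
  have hcard : Fintype.card (CZ n) + Fintype.card (Bool × Fin k) = 2 * (n + k) := by
    simp only [Fintype.card_prod, Fintype.card_bool, Fintype.card_fin]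
    omega
  have hcard2 : Fintype.card (CZ n) = 2 * n := by
    simp only [Fintype.card_prod, Fintype.card_bool, Fintype.card_fin]
  have hY : (∑ A : Finset (CY n k), ∏ b : Bool, ((ns s A b)! : ℝ)) ≤ 8 * ((n + k)! : ℝ) ^ 2 := by
    have h := hB (CY n k) s (n + k) hsm ∅
    have h0 : (univ.filter fun B : Finset (CY n k) => Disjoint ∅ B) = univ :=
      Finset.filter_true_of_mem fun B _ => Finset.disjoint_empty_left B
    rw [h0] at h
    refine h.trans (le_of_eq ?_)
    simp [ns, sq]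
  have hZ : (∑ B : Finset (CZ n), ∏ b : Bool, ((ns (fun a => s (Sum.inl a)) B b)! : ℝ)) ≤
      8 * (n ! : ℝ) ^ 2 := by
    have h := hB (CZ n) (fun a => s (Sum.inl a)) n hs1 ∅
    have h0 : (univ.filter fun B : Finset (CZ n) => Disjoint ∅ B) = univ :=
      Finset.filter_true_of_mem fun B _ => Finset.disjoint_empty_left B
    rw [h0] at h
    refine h.trans (le_of_eq ?_)
    simp [ns, sq]
  have hPY0 : ∀ A : Finset (CY n k), 0 ≤ ∏ b : Bool, ((ns s A b)! : ℝ) := fun A =>
    Finset.prod_nonneg fun _ _ => Nat.cast_nonneg _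
  have hPZ0 : ∀ B : Finset (CZ n), 0 ≤ ∏ b : Bool, ((ns (fun a => s (Sum.inl a)) B b)! : ℝ) :=
    fun B => Finset.prod_nonneg fun _ _ => Nat.cast_nonneg _
  calc ∑ A : Finset (CY n k), ∑ B : Finset (CZ n),
        (2 ^ (In A B).card * (∏ b : Bool, ((ns s A b)! : ℝ)) *
          ∏ b : Bool, ((ns (fun a => s (Sum.inl a)) B b)! : ℝ)) *
          ((9 / 10 : ℝ) ^ A.card * (9 / 10) ^ B.card)
      ≤ ∑ A : Finset (CY n k), ∑ B : Finset (CZ n),
        (2 ^ (2 * (n + k)) * (9 / 10 : ℝ) ^ (2 * (n + k) + 2 * n)) *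
          ((∏ b : Bool, ((ns s A b)! : ℝ)) *
          ∏ b : Bool, ((ns (fun a => s (Sum.inl a)) B b)! : ℝ)) := by
        refine Finset.sum_le_sum fun A _ => Finset.sum_le_sum fun B _ => ?_
        have h := Sec_col (α := CZ n) (β := Bool × Fin k) A B
        rw [hcard, hcard2] at h
        have h' := mul_le_mul_of_nonneg_right h (mul_nonneg (hPY0 A) (hPZ0 B))
        calc _ = (2 : ℝ) ^ (In A B).card * ((9 / 10) ^ A.card * (9 / 10) ^ B.card) *
            ((∏ b : Bool, ((ns s A b)! : ℝ)) *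
            ∏ b : Bool, ((ns (fun a => s (Sum.inl a)) B b)! : ℝ)) := by ring
          _ ≤ _ := h'
    _ = (2 ^ (2 * (n + k)) * (9 / 10 : ℝ) ^ (2 * (n + k) + 2 * n)) *
        ((∑ A : Finset (CY n k), ∏ b : Bool, ((ns s A b)! : ℝ)) *
          ∑ B : Finset (CZ n), ∏ b : Bool, ((ns (fun a => s (Sum.inl a)) B b)! : ℝ)) := by
        rw [Finset.sum_mul_sum, Finset.mul_sum]
        refine Finset.sum_congr rfl fun A _ => ?_
        rw [Finset.mul_sum]
    _ ≤ (2 ^ (2 * (n + k)) * (9 / 10 : ℝ) ^ (2 * (n + k) + 2 * n)) *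
        ((8 * ((n + k)! : ℝ) ^ 2) * (8 * (n ! : ℝ) ^ 2)) := by
        refine mul_le_mul_of_nonneg_left ?_ (by positivity)
        exact mul_le_mul hY hZ (Finset.sum_nonneg fun B _ => hPZ0 B) (by positivity)
    _ = _ := by
        rw [pow_mul]
        norm_num
        ring

theorem pr_Sec (hWt : S_Wt) (hU : S_Uni) (hCnt : D3.S_Cnt) (hB : D3.S_BSum)
    (hPat : D3.S_Pattern) (hCC : D3.S_CodeCard) : S_Sec := by
  intro n k hn hk
  have hW := (hWt (VV n k)).2
  constructor
  · calc (∑ A : Finset (VV n k), wt A * (Fintype.card {c : Code n k // cells c ⊆ A} : ℝ))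
        = ∑ A : Finset (VV n k), ∑ c : Code n k, if cells c ⊆ A then wt A else 0 := by
          refine Finset.sum_congr rfl fun A _ => ?_
          rw [Sec_card, Finset.mul_sum]
          refine Finset.sum_congr rfl fun c _ => ?_
          rw [mul_ite, mul_one, mul_zero]
      _ = ∑ c : Code n k, ∑ A : Finset (VV n k), if cells c ⊆ A then wt A else 0 :=
          Finset.sum_comm
      _ = ∑ c : Code n k, (9 / 10 : ℝ) ^ (2 * (n + k) + 2 * n) := by
          refine Finset.sum_congr rfl fun c _ => ?_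
          rw [hW (cells c), (hU n k c c c).1]
      _ = _ := by
          rw [Finset.sum_const, Finset.card_univ, nsmul_eq_mul]
  · have h1 : (∑ A : Finset (VV n k),
        wt A * (Fintype.card {c : Code n k // cells c ⊆ A} : ℝ) ^ 2) =
        ∑ c₁ : Code n k, ∑ c₂ : Code n k, (9 / 10 : ℝ) ^ (cells c₁ ∪ cells c₂).card := by
      calc (∑ A : Finset (VV n k), wt A * (Fintype.card {c : Code n k // cells c ⊆ A} : ℝ) ^ 2)
          = ∑ A : Finset (VV n k), ∑ c₁ : Code n k, ∑ c₂ : Code n k,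
            if cells c₁ ∪ cells c₂ ⊆ A then wt A else 0 := by
            refine Finset.sum_congr rfl fun A _ => ?_
            rw [Sec_card, sq, Finset.sum_mul_sum, Finset.mul_sum]
            refine Finset.sum_congr rfl fun c₁ _ => ?_
            rw [Finset.mul_sum]
            refine Finset.sum_congr rfl fun c₂ _ => ?_
            by_cases i1 : cells c₁ ⊆ A
            · by_cases i2 : cells c₂ ⊆ A
              · rw [if_pos i1, if_pos i2, if_pos (Finset.union_subset i1 i2)]
                ring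
              · rw [if_neg i2, if_neg fun h => i2 (Finset.union_subset_right h)]
                ring
            · rw [if_neg i1, if_neg fun h => i1 (Finset.union_subset_left h)]
              ring
        _ = ∑ c₁ : Code n k, ∑ A : Finset (VV n k), ∑ c₂ : Code n k,
            (if cells c₁ ∪ cells c₂ ⊆ A then wt A else 0) := Finset.sum_comm
        _ = ∑ c₁ : Code n k, ∑ c₂ : Code n k, ∑ A : Finset (VV n k),
            (if cells c₁ ∪ cells c₂ ⊆ A then wt A else 0) :=
            Finset.sum_congr rfl fun c₁ _ => Finset.sum_comm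
        _ = _ := Finset.sum_congr rfl fun c₁ _ => Finset.sum_congr rfl fun c₂ _ => hW _
    rw [h1]
    have h2 : ∀ c₁ : Code n k, (∑ c₂ : Code n k, (9 / 10 : ℝ) ^ (cells c₁ ∪ cells c₂).card) ≤
        (9 / 10) ^ (2 * (n + k) + 2 * n) *
        (64 * ((4 : ℝ) ^ (n + k) * ((n + k)! : ℝ) ^ 2 * (n ! : ℝ) ^ 2) *
          (9 / 10) ^ (2 * (n + k) + 2 * n)) := by
      intro c₁
      have e : (∑ c₂ : Code n k, (9 / 10 : ℝ) ^ (cells c₁ ∪ cells c₂).card) =
          (9 / 10) ^ (2 * (n + k) + 2 * n) * ∑ c₂ : Code n k,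
            (9 / 10 : ℝ) ^ (univ.filter fun i => c₂.1.1 i ≠ c₁.1.1 i).card *
            (9 / 10) ^ (univ.filter fun j => c₂.1.2 j ≠ c₁.1.2 j).card := by
        rw [Finset.mul_sum]
        refine Finset.sum_congr rfl fun c₂ _ => ?_
        rw [(hU n k c₁ c₂ c₁).2.2, pow_add, pow_add]
        ring
      rw [e]
      exact mul_le_mul_of_nonneg_left (Sec_inner hCnt hB hPat n k c₁) (by positivity)
    have h3 : (4 : ℝ) ^ (n + k) * ((n + k)! : ℝ) ^ 2 * (n ! : ℝ) ^ 2 ≤
        Fintype.card (Code n k) * ((2 * n + 1) * (2 * k + 1)) := by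
      exact_mod_cast hCC n k hn hk
    calc ∑ c₁ : Code n k, ∑ c₂ : Code n k, (9 / 10 : ℝ) ^ (cells c₁ ∪ cells c₂).card
        ≤ ∑ _c₁ : Code n k, (9 / 10) ^ (2 * (n + k) + 2 * n) *
          (64 * ((4 : ℝ) ^ (n + k) * ((n + k)! : ℝ) ^ 2 * (n ! : ℝ) ^ 2) *
            (9 / 10) ^ (2 * (n + k) + 2 * n)) := Finset.sum_le_sum fun c₁ _ => h2 c₁
      _ = Fintype.card (Code n k) * ((9 / 10) ^ (2 * (n + k) + 2 * n) *
          (64 * ((4 : ℝ) ^ (n + k) * ((n + k)! : ℝ) ^ 2 * (n ! : ℝ) ^ 2) *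
            (9 / 10) ^ (2 * (n + k) + 2 * n))) := by
          rw [Finset.sum_const, Finset.card_univ, nsmul_eq_mul]
      _ ≤ Fintype.card (Code n k) * ((9 / 10) ^ (2 * (n + k) + 2 * n) *
          (64 * (Fintype.card (Code n k) * ((2 * n + 1) * (2 * k + 1))) *
            (9 / 10) ^ (2 * (n + k) + 2 * n))) := by
          refine mul_le_mul_of_nonneg_left (mul_le_mul_of_nonneg_left ?_ (by positivity))
            (Nat.cast_nonneg _)
          exact mul_le_mul_of_nonneg_right (mul_le_mul_of_nonneg_left h3 (by norm_num))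
            (by positivity)
      _ = _ := by ring

end Pool.Agent.Work.MP_499dc6_lc.Fib
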