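import Pool.Agent.Work.MP_499dc6_lc.Fib.StmtsA

/-!
# ShiftA: from codewords to pairs of permutations of the columns, four weights
-/

namespace Pool.Agent.Work.MP_499dc6_lc.Fib

open MvPolynomial Equiv Finset
open Pool.Agent.Work.MP_499dc6_lc.CD
open Pool.Agent.Work.MP_499dc6_lc.D3

theorem ShiftA_card {γ : Type} [Fintype γ] [DecidableEq γ] (c d : Perm γ) :
    (Perm.support (c.symm.trans d)).card = (univ.filter fun i => d i ≠ c i).card := by
  refine (Finset.card_bij (fun i _ => c i) ?_ ?_ ?_).symm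
  · intro i hi
    rw [Finset.mem_filter] at hi
    rw [Perm.mem_support]
    simpa using hi.2
  · intro i _ j _ h
    exact c.injective h
  · intro x hx
    rw [Perm.mem_support] at hx
    refine ⟨c.symm x, ?_, by simp⟩
    rw [Finset.mem_filter]
    refine ⟨mem_univ _, ?_⟩
    simpa using hx

theorem ShiftA_disj {γ : Type} [Fintype γ] [DecidableEq γ] (c d e : Perm γ) :
    _root_.Disjoint (Perm.support (c.symm.trans d)) (Perm.support (c.symm.trans e)) ↔
      ∀ i, d i = c i ∨ e i = c i := by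
  rw [Finset.disjoint_left]
  constructor
  · intro h i
    by_contra hi
    push Not at hi
    have h1 : c i ∈ (Perm.support (c.symm.trans d)) := by
      rw [Perm.mem_support]; simpa using hi.1
    have h2 : c i ∈ (Perm.support (c.symm.trans e)) := by
      rw [Perm.mem_support]; simpa using hi.2
    exact h h1 h2
  · intro h x hx hx2
    rw [Perm.mem_support] at hx hx2
    have hx' : d (c.symm x) ≠ x := by simpa using hx
    have hx2' : e (c.symm x) ≠ x := by simpa using hx2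
    rcases h (c.symm x) with h | h
    · exact hx' (by rw [h]; simp)
    · exact hx2' (by rw [h]; simp)

/-- the bijection -/
def ShiftA_E {n k : ℕ} (c₁ : Code n k) (s : CY n k → Bool)
    (hs : ∀ x, s x = sd (c₁.1.1.symm x)) : Code n k ≃ Good s where
  toFun c := ⟨(c₁.1.1.symm.trans c.1.1, c₁.1.2.symm.trans c.1.2), by
    intro a
    have h1 := c₁.2 (c₁.1.2 (c.1.2.symm a))
    rw [hs, hs]
    simp only [Equiv.symm_trans_apply, Equiv.symm_symm, Equiv.symm_apply_apply]
    rw [h1, c.2 a, Equiv.symm_apply_apply]⟩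
  invFun g := ⟨(c₁.1.1.trans g.1.1, c₁.1.2.trans g.1.2), by
    intro a
    have h1 := c₁.2 (g.1.2.symm a)
    have h2 := g.2 a
    rw [hs, hs, h1] at h2
    simpa only [Equiv.symm_trans_apply] using h2⟩
  left_inv c := by
    apply Subtype.ext
    refine Prod.ext ?_ ?_
    · ext x; simp
    · ext x <;> simp
  right_inv g := by
    apply Subtype.ext
    refine Prod.ext ?_ ?_
    · ext x; simp
    · ext x <;> simp

theorem pr_ShiftA : S_ShiftA := by
  intro n k c₁ p1 p2 p3 p4 s hs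
  refine Fintype.sum_equiv (ShiftA_E c₁ s hs) _ _ (fun c₂ => ?_)
  refine Fintype.sum_equiv (ShiftA_E c₁ s hs) _ _ (fun d₁ => ?_)
  have e1 : (∀ i, c₂.1.1 i = c₁.1.1 i ∨ d₁.1.1 i = c₁.1.1 i) ↔
      _root_.Disjoint ((ShiftA_E c₁ s hs) c₂).1.1.support ((ShiftA_E c₁ s hs) d₁).1.1.support :=
    (ShiftA_disj _ _ _).symm
  have e2 : (∀ i, c₂.1.2 i = c₁.1.2 i ∨ d₁.1.2 i = c₁.1.2 i) ↔
      _root_.Disjoint ((ShiftA_E c₁ s hs) c₂).1.2.support ((ShiftA_E c₁ s hs) d₁).1.2.support :=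
    (ShiftA_disj _ _ _).symm
  have e3 : ((ShiftA_E c₁ s hs) c₂).1.1.support.card =
      (univ.filter fun i => c₂.1.1 i ≠ c₁.1.1 i).card := ShiftA_card _ _
  have e4 : ((ShiftA_E c₁ s hs) c₂).1.2.support.card =
      (univ.filter fun i => c₂.1.2 i ≠ c₁.1.2 i).card := ShiftA_card _ _
  have e5 : ((ShiftA_E c₁ s hs) d₁).1.1.support.card =
      (univ.filter fun j => d₁.1.1 j ≠ c₁.1.1 j).card := ShiftA_card _ _
  have e6 : ((ShiftA_E c₁ s hs) d₁).1.2.support.card =
      (univ.filter fun j => d₁.1.2 j ≠ c₁.1.2 j).card := ShiftA_card _ _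
  rw [e3, e4, e5, e6]
  by_cases h : (∀ i, c₂.1.1 i = c₁.1.1 i ∨ d₁.1.1 i = c₁.1.1 i) ∧
      (∀ j, c₂.1.2 j = c₁.1.2 j ∨ d₁.1.2 j = c₁.1.2 j)
  · rw [if_pos h, if_pos ⟨e1.mp h.1, e2.mp h.2⟩]
  · rw [if_neg h, if_neg (fun h' => h ⟨e1.mpr h'.1, e2.mpr h'.2⟩)]

end Pool.Agent.Work.MP_499dc6_lc.Fib
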