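import Pool.Agent.Work.MP_499dc6_lc.Fib.StmtsA
import Pool.Agent.Work.MP_499dc6_lc.Bd.B09

/-!
# Item StructA: rectangles of the code, four weights
-/

namespace Pool.Agent.Work.MP_499dc6_lc.Fib

open MvPolynomial Equiv Finset
open Pool.Agent.Work.MP_499dc6_lc.CD
open Pool.Agent.Work.MP_499dc6_lc.D3

theorem pr_StructA : S_StructA := by
  intro n k c₁ p1 p2 p3 p4 h1 h2 h3 h4
  refine Finset.sum_le_sum fun c₂ _ => Finset.sum_le_sum fun d₁ _ => ?_
  exact Struct_sum _ _ _ _ fun F hF => Struct_key n k c₁ c₂ d₁ _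
    (mul_nonneg (mul_nonneg (mul_nonneg (pow_nonneg h1 _) (pow_nonneg h2 _))
      (pow_nonneg h3 _)) (pow_nonneg h4 _)) F hF

end Pool.Agent.Work.MP_499dc6_lc.Fib
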