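import Pool.Agent.Work.MP_499dc6_lc.Fib.StmtsD

namespace Pool.Agent.Work.MP_499dc6_lc.Fib

open MvPolynomial Finset

theorem Sub_deg {σ τ K : Type} [Field K] (e : ℕ) (θ : σ → MvPolynomial τ K)
    (hθ : ∀ i, (θ i).totalDegree ≤ 1) (l : MvPolynomial σ K) (hl : l.totalDegree ≤ e) :
    (aeval θ l).totalDegree ≤ e := by
  rw [aeval_def, eval₂_eq]
  refine totalDegree_finsetSum_le fun m hm => ?_
  refine (totalDegree_mul _ _).trans ?_
  have h1 : (algebraMap K (MvPolynomial τ K) (coeff m l)).totalDegree = 0 := totalDegree_C _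
  rw [h1, zero_add]
  refine (totalDegree_finsetProd _ _).trans ?_
  have h2 : ∀ i ∈ m.support, (θ i ^ m i).totalDegree ≤ m i * 1 := fun i _ =>
    (totalDegree_pow _ _).trans (Nat.mul_le_mul_left _ (hθ i))
  refine (Finset.sum_le_sum h2).trans ?_
  rw [← Finset.sum_mul, mul_one]
  exact (le_totalDegree hm).trans hl

/-- Substituting affine forms into a basic polynomial. -/
theorem Sub_basic {σ τ K : Type} [Field K] {s e : ℕ} (F : Fin s → MvPolynomial σ K)
    (J : Finset (Fin s)) (B : MvPolynomial σ K) (η : σ → MvPolynomial τ K)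
    (hη : ∀ i, (η i).totalDegree ≤ 1) (hB : Basic e F J B) :
    Basic e (fun i => aeval η (F i)) J (aeval η B) := by
  rcases hB with ⟨l, c, hl, hc, rfl⟩ | ⟨k, hk, rfl⟩
  · refine Or.inl ⟨aeval η l, c, Sub_deg e η hη l hl, hc, ?_⟩
    rw [map_add, map_sum]
    congr 1
    refine Finset.sum_congr rfl fun j _ => ?_
    rw [map_mul, aeval_C]
    rfl
  · refine Or.inr ⟨k, hk, ?_⟩
    rw [map_prod]
    exact Finset.prod_congr rfl fun j _ => map_pow _ _ _

/-- Products of elements each of which is a value of a family are values of the family. -/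
theorem Sub_range {τ K : Type} [Field K] {r1 : ℕ} (L : Fin r1 → MvPolynomial τ K) {σ : Type}
    (η : σ → MvPolynomial τ K) (m : σ →₀ ℕ)
    (h : ∀ v ∈ m.support, η v ∈ (aeval L : MvPolynomial (Fin r1) K →ₐ[K] MvPolynomial τ K).range) :
    ∃ G : MvPolynomial (Fin r1) K, aeval L G = ∏ v ∈ m.support, η v ^ m v := by
  have : (∏ v ∈ m.support, η v ^ m v) ∈
      (aeval L : MvPolynomial (Fin r1) K →ₐ[K] MvPolynomial τ K).range :=
    Subalgebra.prod_mem _ fun v hv => Subalgebra.pow_mem _ (h v hv) _
  exact this

theorem pr_Sub : S_Sub := by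
  classical
  intro σ τ _ _ K _ s r e r1 F d θ hr1 hF hθ
  have key : ∀ i, ∃ Ti : Finset τ, ∀ (A : Finset τ) (x : τ → K), (r1 ≤ Ti.card → ¬ Ti ⊆ A) →
      ((∃ (l : Fin (r + r1) → MvPolynomial τ K) (G : MvPolynomial (Fin (r + r1)) K),
        (∀ a, (l a).totalDegree ≤ 1) ∧
        aeval (fun w => if w ∈ A then X w + C (x w) else (0 : MvPolynomial τ K))
          (aeval θ (F i)) = aeval l G) ∨
      (1 ≤ d i ∧ ∃ (B : Fin r → MvPolynomial τ K) (Q : MvPolynomial (Fin r) K),
        (∀ a, Basic e (fun j => aeval (fun w => if w ∈ A then X w + C (x w) else (0 : MvPolynomial τ K))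
          (aeval θ (F j))) (Low d i) (B a)) ∧
        aeval (fun w => if w ∈ A then X w + C (x w) else (0 : MvPolynomial τ K))
          (aeval θ (F i)) = aeval B Q)) := by
    intro i
    have hcomp : ∀ (A : Finset τ) (x : τ → K) (P : MvPolynomial σ K),
        aeval (fun w => if w ∈ A then X w + C (x w) else (0 : MvPolynomial τ K)) (aeval θ P) =
          aeval (fun v => aeval (fun w => if w ∈ A then X w + C (x w) else (0 : MvPolynomial τ K))
            (θ v)) P := by
      intro A x P
      rw [← AlgHom.comp_apply, comp_aeval]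
    have hψ : ∀ (A : Finset τ) (x : τ → K) (w : τ),
        (if w ∈ A then X w + C (x w) else (0 : MvPolynomial τ K)).totalDegree ≤ 1 := by
      intro A x w
      split_ifs with h
      · refine (totalDegree_add _ _).trans (max_le ?_ ?_)
        · rw [totalDegree_X]
        · rw [totalDegree_C]; exact Nat.zero_le _
      · rw [totalDegree_zero]; exact Nat.zero_le _
    have hη : ∀ (A : Finset τ) (x : τ → K) (v : σ),
        (aeval (fun w => if w ∈ A then X w + C (x w) else (0 : MvPolynomial τ K))
          (θ v)).totalDegree ≤ 1 := by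
      intro A x v
      rcases hθ v with h | h | h | ⟨w, h⟩
      · rw [h, map_zero, totalDegree_zero]; exact Nat.zero_le _
      · rw [h, map_one, totalDegree_one]; exact Nat.zero_le _
      · rw [h, map_neg, map_one, totalDegree_neg, totalDegree_one]; exact Nat.zero_le _
      · rw [h, aeval_X]; exact hψ A x w
    rcases hF i with ⟨m, l, G, hl, hFi⟩ | ⟨hdi, B, Q, hB, hFi⟩
    · refine ⟨m.support.biUnion (fun v => univ.filter (fun w => θ v = X w)), ?_⟩
      intro A x hA
      left
      have hval : aeval (fun w => if w ∈ A then X w + C (x w) else (0 : MvPolynomial τ K))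
          (aeval θ (F i)) =
          (∏ v ∈ m.support, (aeval (fun w => if w ∈ A then X w + C (x w) else (0 : MvPolynomial τ K))
            (θ v)) ^ m v) *
          aeval (fun a => aeval (fun v => aeval (fun w => if w ∈ A then X w + C (x w) else
            (0 : MvPolynomial τ K)) (θ v)) (l a)) G := by
        rw [hcomp, hFi, map_mul, aeval_monomial, map_one, one_mul]
        congr 1
        rw [← AlgHom.comp_apply, comp_aeval]
      rw [hval]
      by_cases hsub : m.support.biUnion (fun v => univ.filter (fun w => θ v = X w)) ⊆ A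
      · have hcard : (m.support.biUnion (fun v => univ.filter (fun w => θ v = X w))).card < r1 := by
          by_contra hc
          exact hA (not_lt.mp hc) hsub
        obtain ⟨T, hT⟩ : ∃ T : Finset τ,
            T = m.support.biUnion (fun v => univ.filter (fun w => θ v = X w)) := ⟨_, rfl⟩
        rw [← hT] at hcard hsub
        obtain ⟨L₂, hL₂⟩ : ∃ L₂ : Fin r1 → MvPolynomial τ K, ∀ a, L₂ a =
            if h : a.1 < T.card then (if (T.equivFin.symm ⟨a.1, h⟩).1 ∈ A then
              X (T.equivFin.symm ⟨a.1, h⟩).1 + C (x (T.equivFin.symm ⟨a.1, h⟩).1)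
              else (0 : MvPolynomial τ K)) else 0 := ⟨fun a => _, fun a => rfl⟩
        have hL₂d : ∀ a, (L₂ a).totalDegree ≤ 1 := by
          intro a
          rw [hL₂]
          split_ifs with h h'
          · have := hψ A x (T.equivFin.symm ⟨a.1, h⟩).1
            rwa [if_pos h'] at this
          · rw [totalDegree_zero]; exact Nat.zero_le _
          · rw [totalDegree_zero]; exact Nat.zero_le _
        have hmem : ∀ v ∈ m.support,
            (aeval (fun w => if w ∈ A then X w + C (x w) else (0 : MvPolynomial τ K)) (θ v)) ∈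
            (aeval L₂ : MvPolynomial (Fin r1) K →ₐ[K] MvPolynomial τ K).range := by
          intro v hv
          rcases hθ v with h | h | h | ⟨w, h⟩
          · rw [h, map_zero]; exact Subalgebra.zero_mem _
          · rw [h, map_one]; exact Subalgebra.one_mem _
          · rw [h, map_neg, map_one]; exact Subalgebra.neg_mem _ (Subalgebra.one_mem _)
          · have hwT : w ∈ T := by
              rw [hT, Finset.mem_biUnion]
              exact ⟨v, hv, by simpa using h⟩
            rw [h, aeval_X]
            refine ⟨X ⟨(T.equivFin ⟨w, hwT⟩).1, (T.equivFin ⟨w, hwT⟩).2.trans hcard⟩, ?_⟩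
            change aeval L₂ (X _) = _
            rw [aeval_X, hL₂, dif_pos (T.equivFin ⟨w, hwT⟩).2]
            have he : T.equivFin.symm ⟨(T.equivFin ⟨w, hwT⟩).1, (T.equivFin ⟨w, hwT⟩).2⟩ =
                ⟨w, hwT⟩ := by
              rw [Fin.eta, Equiv.symm_apply_apply]
            rw [he]
        obtain ⟨G₂, hG₂⟩ := Sub_range L₂ _ m hmem
        refine ⟨Fin.append (fun a => aeval (fun v => aeval (fun w => if w ∈ A then X w + C (x w) else
            (0 : MvPolynomial τ K)) (θ v)) (l a)) L₂,
          rename (Fin.natAdd r) G₂ * rename (Fin.castAdd r1) G, ?_, ?_⟩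
        · intro a
          refine Fin.addCases (fun j => ?_) (fun j => ?_) a
          · rw [Fin.append_left]; exact Sub_deg 1 _ (hη A x) _ (hl j)
          · rw [Fin.append_right]; exact hL₂d j
        · rw [map_mul, aeval_rename, aeval_rename]
          have e1 : (Fin.append (fun a => aeval (fun v => aeval (fun w => if w ∈ A then
              X w + C (x w) else (0 : MvPolynomial τ K)) (θ v)) (l a)) L₂) ∘ Fin.natAdd r = L₂ := by
            funext j; simp
          have e2 : (Fin.append (fun a => aeval (fun v => aeval (fun w => if w ∈ A then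
              X w + C (x w) else (0 : MvPolynomial τ K)) (θ v)) (l a)) L₂) ∘ Fin.castAdd r1 =
              (fun a => aeval (fun v => aeval (fun w => if w ∈ A then
              X w + C (x w) else (0 : MvPolynomial τ K)) (θ v)) (l a)) := by
            funext j; simp
          rw [e1, e2, hG₂]
      · obtain ⟨w, hwT, hwA⟩ := Finset.not_subset.mp hsub
        obtain ⟨v, hv, hvw⟩ := Finset.mem_biUnion.mp hwT
        have hvw' : θ v = X w := by simpa using hvw
        refine ⟨fun _ => 0, 0, fun _ => by rw [totalDegree_zero]; exact Nat.zero_le _, ?_⟩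
        rw [map_zero, Finset.prod_eq_zero hv, zero_mul]
        rw [hvw', aeval_X, if_neg hwA]
        exact zero_pow (Finsupp.mem_support_iff.mp hv)
    · refine ⟨∅, ?_⟩
      intro A x _
      right
      refine ⟨hdi, fun a => aeval (fun v => aeval (fun w => if w ∈ A then X w + C (x w) else
        (0 : MvPolynomial τ K)) (θ v)) (B a), Q, ?_, ?_⟩
      · intro a
        have := Sub_basic F (Low d i) (B a) (fun v => aeval (fun w => if w ∈ A then X w + C (x w) else
          (0 : MvPolynomial τ K)) (θ v)) (hη A x) (hB a)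
        simpa only [hcomp] using this
      · rw [hcomp, hFi, ← AlgHom.comp_apply, comp_aeval]
  choose T hT using key
  exact ⟨T, fun A x h i => hT i A x (h i)⟩

end Pool.Agent.Work.MP_499dc6_lc.Fib
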