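import Pool.Agent.Work.MP_499dc6_lc.Fib.StmtsB

/-!
# Block Fib, item TTb: bound for the binomials
-/

namespace Pool.Agent.Work.MP_499dc6_lc.Fib

open MvPolynomial Finset
open Pool.Agent.Work.MP_499dc6_lc.CD
open Pool.Agent.Work.MP_499dc6_lc.D3

theorem TTb_ge : (11 / 10 : ℝ) ≤ Real.exp (Real.log (3 / 2) / 4) := by
  have h4 : Real.exp (Real.log (3 / 2) / 4) ^ 4 = 3 / 2 := by
    rw [← Real.exp_nat_mul]
    have : ((4 : ℕ) : ℝ) * (Real.log (3 / 2) / 4) = Real.log (3 / 2) := by
      push_cast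
      ring
    rw [this]
    exact Real.exp_log (by norm_num)
  by_contra hlt
  rw [not_le] at hlt
  have h5 : Real.exp (Real.log (3 / 2) / 4) ^ 4 < (11 / 10 : ℝ) ^ 4 :=
    pow_lt_pow_left₀ hlt (Real.exp_pos _).le (by norm_num)
  rw [h4] at h5
  norm_num at h5

theorem TTb_aux (y : ℝ) (hy : 11 / 10 ≤ y) : ∀ r u : ℕ, (TT r u : ℝ) ≤ 11 ^ r * y ^ u := by
  have hy1 : (1 : ℝ) ≤ y := by linarith
  intro r
  induction r with
  | zero =>
    intro u
    have h1 : TT 0 u ≤ 1 := by
      unfold TT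
      rcases u with _ | u
      · simp
      · simp
    have h2 : (1 : ℝ) ≤ y ^ u := one_le_pow₀ hy1
    have h3 : (TT 0 u : ℝ) ≤ 1 := by exact_mod_cast h1
    simpa using h3.trans h2
  | succ r ihr =>
    intro u
    induction u with
    | zero =>
      have h1 : TT (r + 1) 0 = 1 := by
        unfold TT
        simp
      rw [h1]
      have : (1 : ℝ) ≤ 11 ^ (r + 1) := one_le_pow₀ (by norm_num)
      simpa using this
    | succ u ihu =>
      have h1 : TT (r + 1) (u + 1) = TT (r + 1) u + TT r (u + 1) := by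
        unfold TT
        have e1 : r + 1 + (u + 1) - 1 = (r + u) + 1 := by omega
        have e2 : r + 1 + u - 1 = r + u := by omega
        have e3 : r + (u + 1) - 1 = r + u := by omega
        rw [e1, e2, e3, Nat.choose_succ_succ]
      rw [h1]
      push_cast
      have h2 := ihr (u + 1)
      have h3 : (0 : ℝ) < 11 ^ r * y ^ u := by positivity
      calc (TT (r + 1) u : ℝ) + (TT r (u + 1) : ℝ) ≤ 11 ^ (r + 1) * y ^ u + 11 ^ r * y ^ (u + 1) :=
            add_le_add ihu h2
        _ = (11 ^ r * y ^ u) * (11 + y) := by ring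
        _ ≤ (11 ^ r * y ^ u) * (11 * y) := by
            apply mul_le_mul_of_nonneg_left _ h3.le
            linarith
        _ = 11 ^ (r + 1) * y ^ (u + 1) := by ring

theorem pr_TTb : S_TTb := by
  intro r u
  have h := TTb_aux _ TTb_ge r u
  have h2 : Real.exp (Real.log (3 / 2) / 4) ^ u = Real.exp (Real.log (3 / 2) / 4 * u) := by
    rw [← Real.exp_nat_mul, mul_comm]
  rwa [h2] at h

end Pool.Agent.Work.MP_499dc6_lc.Fib
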