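import Pool.Agent.Work.MP_499dc6_lc.Fib.StmtsB

/-!
# Polynomials of truncated series (item `Trunc`)
-/

open MvPolynomial Finset

namespace Pool.Agent.Work.MP_499dc6_lc.Fib

open Pool.Agent.Work.MP_499dc6_lc.CD
open Pool.Agent.Work.MP_499dc6_lc.D3

theorem pr_Trunc (hBM : D3.S_BcMul) : S_Trunc := by
  intro Y Z _ _ K _ dd ι x x' Q hx
  induction Q using MvPolynomial.induction_on with
  | C a =>
    intro u v _
    rw [← algebraMap_eq, AlgHom.commutes, AlgHom.commutes]
  | add p q hp hq =>
    intro u v huv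
    rw [map_add, map_add, bc_add, bc_add, hp u v huv, hq u v huv]
  | mul_X p a hp =>
    intro u v huv
    rw [map_mul, map_mul, aeval_X, aeval_X, hBM, hBM]
    refine Finset.sum_congr rfl fun s hs => Finset.sum_congr rfl fun t ht => ?_
    rw [HasAntidiagonal.mem_antidiagonal] at hs ht
    rw [hp s.1 t.1 (by omega), hx a s.2 t.2 (by omega)]

end Pool.Agent.Work.MP_499dc6_lc.Fib
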