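import Pool.Agent.Work.MP_499dc6_lc.Fib.StmtsA

/-!
# Block Fib, item Uni: the number of variables of a union of codewords
-/

namespace Pool.Agent.Work.MP_499dc6_lc.Fib

open MvPolynomial Equiv Finset
open Pool.Agent.Work.MP_499dc6_lc.CD
open Pool.Agent.Work.MP_499dc6_lc.D3

/-- Three maps with a common left inverse such that everywhere the second or the third agrees with
the first. -/
theorem Uni_gen {I V : Type} [Fintype I] [DecidableEq I] [DecidableEq V] (r : V → I)
    (F G H : I → V) (hF : ∀ x, r (F x) = x) (hG : ∀ x, r (G x) = x) (hH : ∀ x, r (H x) = x)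
    (hor : ∀ x, G x = F x ∨ H x = F x) :
    (univ.image F ∪ univ.image G ∪ univ.image H).card = Fintype.card I +
      (univ.filter fun x => G x ≠ F x).card + (univ.filter fun x => H x ≠ F x).card := by
  have hset : univ.image F ∪ univ.image G ∪ univ.image H =
      (univ.image F ∪ (univ.filter fun x => G x ≠ F x).image G) ∪
        (univ.filter fun x => H x ≠ F x).image H := by
    ext v
    simp only [mem_union, mem_image, mem_univ, true_and, mem_filter]
    constructor
    · rintro ((⟨x, rfl⟩ | ⟨x, rfl⟩) | ⟨x, rfl⟩)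
      · exact Or.inl (Or.inl ⟨x, rfl⟩)
      · by_cases hx : G x = F x
        · exact Or.inl (Or.inl ⟨x, hx.symm⟩)
        · exact Or.inl (Or.inr ⟨x, hx, rfl⟩)
      · by_cases hx : H x = F x
        · exact Or.inl (Or.inl ⟨x, hx.symm⟩)
        · exact Or.inr ⟨x, hx, rfl⟩
    · rintro ((⟨x, rfl⟩ | ⟨x, _, rfl⟩) | ⟨x, _, rfl⟩)
      · exact Or.inl (Or.inl ⟨x, rfl⟩)
      · exact Or.inl (Or.inr ⟨x, rfl⟩)
      · exact Or.inr ⟨x, rfl⟩
  have hinj : ∀ K : I → V, (∀ x, r (K x) = x) → Function.Injective K := by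
    intro K hK x y hxy
    rw [← hK x, ← hK y, hxy]
  have hd1 : Disjoint (univ.image F) ((univ.filter fun x => G x ≠ F x).image G) := by
    rw [Finset.disjoint_left]
    intro v hv hv'
    simp only [mem_image, mem_univ, true_and, mem_filter] at hv hv'
    obtain ⟨x, rfl⟩ := hv
    obtain ⟨y, hy, hyx⟩ := hv'
    have hxy : y = x := by rw [← hG y, ← hF x, hyx]
    subst hxy
    exact hy hyx
  have hd2 : Disjoint (univ.image F ∪ (univ.filter fun x => G x ≠ F x).image G)
      ((univ.filter fun x => H x ≠ F x).image H) := by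
    rw [Finset.disjoint_left]
    intro v hv hv'
    simp only [mem_image, mem_univ, true_and, mem_filter, mem_union] at hv hv'
    obtain ⟨y, hy, rfl⟩ := hv'
    rcases hv with ⟨x, hx⟩ | ⟨x, hx, hxy⟩
    · have hxy : x = y := by rw [← hF x, ← hH y, hx]
      subst hxy
      exact hy hx.symm
    · have hxy' : x = y := by rw [← hG x, ← hH y, hxy]
      subst hxy'
      rcases hor x with h | h
      · exact hx h
      · exact hy h
  rw [hset, Finset.card_union_of_disjoint hd2, Finset.card_union_of_disjoint hd1,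
    Finset.card_image_of_injective _ (hinj F hF), Finset.card_image_of_injective _ (hinj G hG),
    Finset.card_image_of_injective _ (hinj H hH), Finset.card_univ]

/-- The variable of a row. -/
def Uni_F {n k : ℕ} (c : Code n k) : CY n k ⊕ CZ n → VV n k :=
  Sum.elim (fun i => Sum.inl (i, c.1.1 i)) (fun j => Sum.inr (j, c.1.2 j))

/-- The row of a variable. -/
def Uni_r {n k : ℕ} : VV n k → CY n k ⊕ CZ n :=
  Sum.elim (fun p => Sum.inl p.1) (fun p => Sum.inr p.1)

theorem Uni_rF {n k : ℕ} (c : Code n k) (x : CY n k ⊕ CZ n) : Uni_r (Uni_F c x) = x := by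
  rcases x with x | x <;> rfl

theorem Uni_cells {n k : ℕ} (c : Code n k) : cells c = univ.image (Uni_F c) := by
  ext v
  simp only [cells, mem_union, mem_image, mem_univ, true_and]
  constructor
  · rintro (⟨i, rfl⟩ | ⟨j, rfl⟩)
    · exact ⟨Sum.inl i, rfl⟩
    · exact ⟨Sum.inr j, rfl⟩
  · rintro ⟨x | x, rfl⟩
    · exact Or.inl ⟨x, rfl⟩
    · exact Or.inr ⟨x, rfl⟩

theorem Uni_card (n k : ℕ) : Fintype.card (CY n k ⊕ CZ n) = 2 * (n + k) + 2 * n := by
  simp only [Fintype.card_sum, Fintype.card_prod, Fintype.card_bool, Fintype.card_fin]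
  ring

theorem Uni_filter {n k : ℕ} (c d : Code n k) :
    (univ.filter fun x => Uni_F d x ≠ Uni_F c x).card =
      (univ.filter fun i => d.1.1 i ≠ c.1.1 i).card +
        (univ.filter fun j => d.1.2 j ≠ c.1.2 j).card := by
  rw [Finset.card_filter, Finset.card_filter, Finset.card_filter, Fintype.sum_sum_type]
  congr 1
  · refine Finset.sum_congr rfl fun i _ => ?_
    simp [Uni_F]
  · refine Finset.sum_congr rfl fun i _ => ?_
    simp [Uni_F]

theorem Uni_main {n k : ℕ} (c₁ c₂ d₁ : Code n k)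
    (h1 : ∀ i, c₂.1.1 i = c₁.1.1 i ∨ d₁.1.1 i = c₁.1.1 i)
    (h2 : ∀ j, c₂.1.2 j = c₁.1.2 j ∨ d₁.1.2 j = c₁.1.2 j) :
    (cells c₁ ∪ cells c₂ ∪ cells d₁).card = 2 * (n + k) + 2 * n +
        (univ.filter fun i => c₂.1.1 i ≠ c₁.1.1 i).card +
        (univ.filter fun j => c₂.1.2 j ≠ c₁.1.2 j).card +
        (univ.filter fun i => d₁.1.1 i ≠ c₁.1.1 i).card +
        (univ.filter fun j => d₁.1.2 j ≠ c₁.1.2 j).card := by
  rw [Uni_cells, Uni_cells, Uni_cells,
    Uni_gen Uni_r (Uni_F c₁) (Uni_F c₂) (Uni_F d₁) (Uni_rF c₁) (Uni_rF c₂) (Uni_rF d₁), Uni_card,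
    Uni_filter, Uni_filter]
  · ring
  · intro x
    rcases x with i | j
    · rcases h1 i with h | h
      · exact Or.inl (by simp only [Uni_F, Sum.elim_inl, h])
      · exact Or.inr (by simp only [Uni_F, Sum.elim_inl, h])
    · rcases h2 j with h | h
      · exact Or.inl (by simp only [Uni_F, Sum.elim_inr, h])
      · exact Or.inr (by simp only [Uni_F, Sum.elim_inr, h])

theorem pr_Uni : S_Uni := by
  intro n k c₁ c₂ d₁
  refine ⟨?_, Uni_main c₁ c₂ d₁, ?_⟩
  · have h := Uni_main c₁ c₁ c₁ (fun _ => Or.inl rfl) (fun _ => Or.inl rfl)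
    simpa using h
  · have h := Uni_main c₁ c₂ c₁ (fun _ => Or.inr rfl) (fun _ => Or.inr rfl)
    have hu : cells c₁ ∪ cells c₂ ∪ cells c₁ = cells c₁ ∪ cells c₂ := by
      ext v
      simp only [mem_union]
      tauto
    rw [hu] at h
    simpa using h

end Pool.Agent.Work.MP_499dc6_lc.Fib
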