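import Pool.Agent.Work.MP_499dc6_lc.Fib.StmtsD
import Pool.Agent.Work.MP_499dc6_lc.Bd.B10

set_option autoImplicit false

namespace Pool.Agent.Work.MP_499dc6_lc.Fib

open MvPolynomial Finset
open Pool.Agent.Work.MP_499dc6_lc.CD
open Pool.Agent.Work.MP_499dc6_lc.D3

open scoped PowerSeries

/-- The rates are decreasing. -/
theorem Up_rho {al be : ℝ} {s e dd h : ℕ} {P : ℝ} {ρ : ℕ → ℝ} {t : ℕ → ℕ}
    (hp : Pars al be s e dd h P ρ t) : ∀ j, j ≤ h → ρ h ≤ ρ j := by
  intro j hj
  induction h, hj using Nat.le_induction with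
  | base => exact le_rfl
  | succ m hm ih =>
    have hp' : Pars al be s e dd m P ρ t :=
      ⟨hp.zero, fun j hj => hp.pos j (by omega), fun j hj => hp.dec j (by omega),
        fun j hj => hp.thr j (by omega), fun j hj => hp.et j (by omega),
        fun j hj => hp.sm j (by omega), fun j hj => hp.ser j (by omega)⟩
    have h1 := ih hp'
    have h2 := hp.dec m (by omega)
    have h3 := hp.pos m (by omega)
    linarith

/-- Restriction followed by translation. -/
theorem Up_comp {V R : Type} [DecidableEq V] [CommRing R] (A : Finset V) (x : V → R)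
    (p : MvPolynomial V R) :
    aeval (fun j => (X j + C (x j) : MvPolynomial V R))
        (aeval (fun w => if w ∈ A then (X w : MvPolynomial V R) else 0) p) =
      aeval (fun w => if w ∈ A then X w + C (x w) else (0 : MvPolynomial V R)) p := by
  rw [comp_aeval_apply]
  congr 2
  funext w
  split_ifs
  · rw [aeval_X]
  · rw [map_zero]

theorem Up_aeval_C {σ τ R : Type} [CommRing R] (g : σ → MvPolynomial τ R) (a : R) :
    aeval g (C a : MvPolynomial σ R) = C a := by
  rw [aeval_C]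
  rfl

theorem pr_Up (hSub : S_Sub) (hScal : S_Scal) (hInd : S_Ind) (hPA : S_PA) (hTr : CD.S_Transl)
    (hTT : CD.S_TransTop) (hBH : CD.S_BiHom) (hSm : CD.S_BBsmul) : S_Up := by
  intro k _ _ N s h r e F d c R n kk r1 P ρ t hC hd hsum hr1 hkk h3 h4 hPars hP1 hP2
  have := charZero_laurent k
  obtain ⟨θ, hθ, c₀, hc₀, hperm⟩ := hScal k N n kk h4
  obtain ⟨φ, hφ⟩ : ∃ φ : k⟦X⟧ →+* LaurentSeries k, φ = algebraMap k⟦X⟧ (LaurentSeries k) :=
    ⟨_, rfl⟩
  rw [← hφ] at hsum
  let θK : Fin N × Fin N → MvPolynomial (VV n kk) (LaurentSeries k) :=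
    fun v => MvPolynomial.map φ (θ v)
  have hθK : ∀ v, θK v = 0 ∨ θK v = 1 ∨ θK v = -1 ∨ ∃ w, θK v = X w := by
    intro v
    rcases hθ v with h | h | h | ⟨w, h⟩
    · left; simp [θK, h]
    · right; left; simp [θK, h]
    · right; right; left; simp [θK, h]
    · right; right; right; exact ⟨w, by simp [θK, h]⟩
  obtain ⟨T, hT⟩ := hSub (Fin N × Fin N) (VV n kk) (LaurentSeries k) s r e r1 F d θK hr1 hC hθK
  refine ⟨T, fun A hA => ?_⟩
  obtain ⟨a, ha⟩ : ∃ a, a = 2 * (n + kk) := ⟨_, rfl⟩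
  obtain ⟨b, hb⟩ : ∃ b, b = 2 * n := ⟨_, rfl⟩
  have hn0 : 0 < n := by omega
  obtain ⟨be, hbe⟩ : ∃ be : ℝ, be = Real.log (3 / 2) * (n + kk) / n := ⟨_, rfl⟩
  rw [← ha, ← hb, ← hbe] at hPars
  rw [← ha, ← hb] at hP2
  rw [← hφ, ← ha, ← hb, ← hbe]
  have hbe1 : Real.log (3 / 2) ≤ be := by
    have hn : (0 : ℝ) < n := by exact_mod_cast hn0
    have hl : 0 ≤ Real.log (3 / 2 : ℝ) := Real.log_nonneg (by norm_num)
    rw [hbe, le_div_iff₀ hn]
    have : (0 : ℝ) ≤ kk := Nat.cast_nonneg _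
    nlinarith
  let G : Fin s → MvPolynomial (VV n kk) (LaurentSeries k) := fun i =>
    aeval (fun w => if w ∈ A then (X w : MvPolynomial (VV n kk) (LaurentSeries k)) else 0)
      (aeval θK (F i))
  obtain ⟨x, hx⟩ := hTr (VV n kk) k s G
  rw [← hφ] at hx
  let F' : Fin s → MvPolynomial (VV n kk) (LaurentSeries k) := fun i =>
    aeval (fun w => if w ∈ A then X w + C (φ (PowerSeries.C (x w))) else
      (0 : MvPolynomial (VV n kk) (LaurentSeries k))) (aeval θK (F i))
  have hF' : ∀ i, F' i = aeval (fun j => (X j + C (φ (PowerSeries.C (x j))) :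
      MvPolynomial (VV n kk) (LaurentSeries k))) (G i) := fun i =>
    (Up_comp A (fun w => φ (PowerSeries.C (x w))) (aeval θK (F i))).symm
  have hnz : ∀ i, F' i = 0 ∨ constantCoeff (F' i) ≠ 0 := by
    intro i
    by_cases hG : G i = 0
    · left
      rw [hF', hG, map_zero]
    · right
      rw [hF']
      exact hx i hG
  have hCkt : Ckt (r + r1) r e F' d := hT A (fun w => φ (PowerSeries.C (x w))) hA
  have hInd' := hInd (CY n kk × CY n kk) (CZ n × CZ n) (LaurentSeries k) be P s (r + r1) r e h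
    (a + b) ρ t F' d hbe1 hPars hP1 hP2 hCkt hd hnz
  have hP0 : 0 ≤ P := le_trans (by positivity) hP1
  have hBB : ∀ i, BB (Real.log (3 / 2)) be (bc a b (F' i))
      (P * Real.exp (-(ρ h * ((a + b : ℕ) : ℝ)))) := by
    intro i
    refine BB.mono ((hInd' i).1 a b (by omega) le_rfl) ?_
    have h5 := Up_rho hPars (d i) (hd i)
    gcongr
  -- the sum of the gates
  let ρP : VV n kk → MvPolynomial (VV n kk) k⟦X⟧ := fun w =>
    if w ∈ A then (X w : MvPolynomial (VV n kk) k⟦X⟧) else 0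
  let trP : VV n kk → MvPolynomial (VV n kk) k⟦X⟧ := fun j => X j + C (PowerSeries.C (x j))
  let R2 : MvPolynomial (VV n kk) k⟦X⟧ := aeval ρP (aeval θ R)
  have hρ : (fun w => if w ∈ A then (X w : MvPolynomial (VV n kk) (LaurentSeries k)) else 0) =
      fun w => MvPolynomial.map φ (ρP w) := by
    funext w
    simp only [ρP]
    split_ifs
    · rw [map_X]
    · rw [map_zero]
  have htr : (fun j => (X j + C (φ (PowerSeries.C (x j))) :
      MvPolynomial (VV n kk) (LaurentSeries k))) = fun j => MvPolynomial.map φ (trP j) := by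
    funext j
    simp [trP]
  have hsumF : ∑ i, C (c i) * F' i = MvPolynomial.map φ (aeval trP
      (C (PowerSeries.C c₀) * PA k⟦X⟧ n kk A + C PowerSeries.X * R2)) := by
    have e1 : ∑ i, C (c i) * F' i = aeval (fun j => MvPolynomial.map φ (trP j))
        (aeval (fun w => MvPolynomial.map φ (ρP w)) (aeval (fun v => MvPolynomial.map φ (θ v))
          (∑ i, C (c i) * F i))) := by
      rw [map_sum, map_sum, map_sum]
      refine Finset.sum_congr rfl fun i _ => ?_
      rw [hF', htr]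
      simp only [G]
      rw [hρ, map_mul, map_mul, map_mul, Up_aeval_C, Up_aeval_C, Up_aeval_C]
    have e2 : aeval ρP (aeval θ (gperm k⟦X⟧ N + C PowerSeries.X * R)) =
        C (PowerSeries.C c₀) * PA k⟦X⟧ n kk A + C PowerSeries.X * R2 := by
      rw [aeval_lin, hperm, aeval_lin, map_mul, Up_aeval_C, (hPA n kk A).1]
    rw [e1, hsum, aeval_map_map, aeval_map_map, aeval_map_map, e2]
  refine ⟨bc a b (aeval trP (C (PowerSeries.C c₀⁻¹) * R2)), ?_⟩
  have hkey : MvPolynomial.map φ (PA k⟦X⟧ n kk A + C PowerSeries.X *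
      bc a b (aeval trP (C (PowerSeries.C c₀⁻¹) * R2))) =
      ∑ i, C (φ (PowerSeries.C c₀⁻¹)) * (C (c i) * bc a b (F' i)) := by
    have h5 := bc_gen hTT hBH (fun j => (PowerSeries.C (x j) : k⟦X⟧))
      (PA k⟦X⟧ n kk A) (C (PowerSeries.C c₀⁻¹) * R2) PowerSeries.X a b
      (by rw [ha, hb]; exact (hPA n kk A).2.1 _)
    have h6 : PA k⟦X⟧ n kk A + C PowerSeries.X * (C (PowerSeries.C c₀⁻¹) * R2) =
        C (PowerSeries.C c₀⁻¹) * (C (PowerSeries.C c₀) * PA k⟦X⟧ n kk A +
          C PowerSeries.X * R2) := by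
      have h10 : (C (PowerSeries.C c₀⁻¹) : MvPolynomial (VV n kk) k⟦X⟧) *
          C (PowerSeries.C c₀) = 1 := by
        rw [← C_mul, ← map_mul, inv_mul_cancel₀ hc₀, map_one, C_1]
      linear_combination (-(PA k⟦X⟧ n kk A)) * h10
    have h7 : aeval trP (C (PowerSeries.C c₀⁻¹) * (C (PowerSeries.C c₀) * PA k⟦X⟧ n kk A +
          C PowerSeries.X * R2)) = C (PowerSeries.C c₀⁻¹) * aeval trP
          (C (PowerSeries.C c₀) * PA k⟦X⟧ n kk A + C PowerSeries.X * R2) := by
      rw [map_mul, Up_aeval_C]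
    have h8 : (fun j => (X j + C ((PowerSeries.C (x j) : k⟦X⟧)) :
        MvPolynomial (VV n kk) k⟦X⟧)) = trP := rfl
    rw [h8] at h5
    rw [← h5, h6, h7, ← bc_map, map_mul, map_C, ← hsumF, bc_C_mul, bc_sum, Finset.mul_sum]
    refine Finset.sum_congr rfl fun i _ => ?_
    rw [bc_C_mul]
  rw [hkey]
  have h9 := BB_fin_sum (fun i => C (φ (PowerSeries.C c₀⁻¹)) * (C (c i) * bc a b (F' i)))
    fun i => hSm _ _ _ _ _ _ _ (φ (PowerSeries.C c₀⁻¹)) (hSm _ _ _ _ _ _ _ (c i) (hBB i))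
  refine BB.mono h9 (le_of_eq ?_)
  ring

end Pool.Agent.Work.MP_499dc6_lc.Fib
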