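import Pool.Agent.Work.MP_499dc6_lc.Fib.StmtsA

/-!
# Circuits of bounded depth, Fibonacci exponents: item Wt (random sets)
-/

namespace Pool.Agent.Work.MP_499dc6_lc.Fib

open Finset

theorem Wt_term {V : Type} [Fintype V] [DecidableEq V] (T A : Finset V) :
    (if T ⊆ A then wt A else 0) =
      (∏ _v ∈ A, (9 / 10 : ℝ)) * ∏ v ∈ univ \ A, (if v ∈ T then (0 : ℝ) else 1 / 10) := by
  rw [Finset.prod_const, ← Finset.compl_eq_univ_sdiff]
  by_cases h : T ⊆ A
  · rw [if_pos h, wt]
    congr 1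
    rw [← Finset.prod_const]
    refine Finset.prod_congr rfl fun v hv => ?_
    rw [if_neg fun hT => (Finset.mem_compl.1 hv) (h hT)]
  · rw [if_neg h]
    obtain ⟨v, hvT, hvA⟩ := Finset.not_subset.1 h
    have h0 : (∏ v ∈ Aᶜ, (if v ∈ T then (0 : ℝ) else 1 / 10)) = 0 :=
      Finset.prod_eq_zero (Finset.mem_compl.2 hvA) (if_pos hvT)
    rw [h0, mul_zero]

theorem pr_Wt : S_Wt := by
  intro V _ _
  refine ⟨fun A => ?_, fun T => ?_⟩
  · unfold wt
    positivity
  · rw [Finset.sum_congr rfl fun A _ => Wt_term T A, ← Finset.powerset_univ, ← Finset.prod_add]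
    have h : ∀ v ∈ (univ : Finset V), ((9 / 10 : ℝ) + if v ∈ T then (0 : ℝ) else 1 / 10) =
        if v ∈ T then (9 / 10 : ℝ) else 1 := by
      intro v _
      by_cases hv : v ∈ T
      · rw [if_pos hv, if_pos hv, add_zero]
      · rw [if_neg hv, if_neg hv]
        norm_num
    rw [Finset.prod_congr rfl h, Finset.prod_ite_mem, Finset.univ_inter, Finset.prod_const]

end Pool.Agent.Work.MP_499dc6_lc.Fib
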