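import Pool.Agent.Work.MP_499dc6_lc.Bd.B03
import Pool.Agent.Work.MP_499dc6_lc.Bd.B04
import Pool.Agent.Work.MP_499dc6_lc.Bd.B09
import Pool.Agent.Work.MP_499dc6_lc.Bd.B10
import Pool.Agent.Work.MP_499dc6_lc.Fib.I_Wt
import Pool.Agent.Work.MP_499dc6_lc.Fib.I_Ey
import Pool.Agent.Work.MP_499dc6_lc.Fib.I_Pt
import Pool.Agent.Work.MP_499dc6_lc.Fib.I_IntA
import Pool.Agent.Work.MP_499dc6_lc.Fib.I_ASumA
import Pool.Agent.Work.MP_499dc6_lc.Fib.I_GSumA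
import Pool.Agent.Work.MP_499dc6_lc.Fib.I_StructA
import Pool.Agent.Work.MP_499dc6_lc.Fib.I_ShiftA
import Pool.Agent.Work.MP_499dc6_lc.Fib.I_Uni
import Pool.Agent.Work.MP_499dc6_lc.Fib.I_EZ
import Pool.Agent.Work.MP_499dc6_lc.Fib.I_Sec
import Pool.Agent.Work.MP_499dc6_lc.Fib.I_Avg
import Pool.Agent.Work.MP_499dc6_lc.Fib.I_RankA
import Pool.Agent.Work.MP_499dc6_lc.Fib.I_PA
import Pool.Agent.Work.MP_499dc6_lc.Fib.I_Trunc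
import Pool.Agent.Work.MP_499dc6_lc.Fib.I_Box
import Pool.Agent.Work.MP_499dc6_lc.Fib.I_Cone
import Pool.Agent.Work.MP_499dc6_lc.Fib.I_Lrg
import Pool.Agent.Work.MP_499dc6_lc.Fib.I_Loc
import Pool.Agent.Work.MP_499dc6_lc.Fib.I_Gat
import Pool.Agent.Work.MP_499dc6_lc.Fib.I_ProdW
import Pool.Agent.Work.MP_499dc6_lc.Fib.I_ExpT
import Pool.Agent.Work.MP_499dc6_lc.Fib.I_Bas
import Pool.Agent.Work.MP_499dc6_lc.Fib.I_Comp
import Pool.Agent.Work.MP_499dc6_lc.Fib.I_TTb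
import Pool.Agent.Work.MP_499dc6_lc.Fib.I_Lev0
import Pool.Agent.Work.MP_499dc6_lc.Fib.I_Ind
import Pool.Agent.Work.MP_499dc6_lc.Fib.I_Qs
import Pool.Agent.Work.MP_499dc6_lc.Fib.I_CF
import Pool.Agent.Work.MP_499dc6_lc.Fib.I_Par
import Pool.Agent.Work.MP_499dc6_lc.Fib.I_Num
import Pool.Agent.Work.MP_499dc6_lc.Fib.I_Lam
import Pool.Agent.Work.MP_499dc6_lc.Fib.I_Sub
import Pool.Agent.Work.MP_499dc6_lc.Fib.I_Scal
import Pool.Agent.Work.MP_499dc6_lc.Fib.I_Up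
import Pool.Agent.Work.MP_499dc6_lc.Fib.I_Ineq
import Pool.Agent.Work.MP_499dc6_lc.Fib.I_Fin

/-!
# Circuits of bounded depth, Fibonacci exponents: assembly
-/

namespace Pool.Agent.Work.MP_499dc6_lc.Fib

open Pool.Agent.Work.MP_499dc6_lc

theorem mainUni : S_Uni := pr_Uni

theorem mainEZ : S_EZ :=
  pr_EZ pr_Wt pr_StructA pr_ShiftA D3.pr_Pattern
    (pr_GSumA D3.pr_Cnt pr_IntA D3.pr_BSum (pr_ASumA pr_Ey pr_Pt D3.pr_Mass)) pr_Uni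

theorem mainSec : S_Sec :=
  pr_Sec pr_Wt pr_Uni D3.pr_Cnt D3.pr_BSum D3.pr_Pattern D3.pr_CodeCard

theorem mainRankA : S_RankA :=
  pr_RankA pr_Wt pr_Avg mainSec mainEZ D3.pr_Trace D3.pr_RectE (D3.pr_Rect CD.pr_Grow1)
    D3.pr_CodeCard D3.pr_Grow3

theorem mainBBmul : CD.S_BBmul := CD.pr_BBmul CD.pr_BiMul

theorem mainTrunc : S_Trunc := pr_Trunc D3.pr_BcMul

theorem mainLoc : S_Loc :=
  pr_Loc D3.pr_BcMul mainBBmul CD.pr_BBsmul mainTrunc (pr_Box D3.pr_BcMul)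
    (pr_Cone D3.pr_BcMul) (pr_Lrg D3.pr_BcMul mainBBmul)

theorem mainGat : S_Gat := pr_Gat D3.pr_BcMul mainBBmul CD.pr_BBsmul mainLoc

theorem mainBas : S_Bas := pr_Bas CD.pr_BBsmul (pr_ProdW D3.pr_BcMul) (pr_ExpT D3.pr_BcMul)

theorem mainLev0 : S_Lev0 :=
  pr_Lev0 pr_TTb D3.pr_Affine D3.pr_BcAeval D3.pr_FacBB (D3.pr_LogBi D3.pr_BcMul D3.pr_BcAeval)

theorem mainInd : S_Ind := pr_Ind mainLev0 mainGat mainBas (pr_Comp mainTrunc)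

theorem mainBBrank : CD.S_BBrank :=
  CD.pr_BBrank CD.pr_MatMul CD.pr_MatZero CD.pr_Grow1 CD.pr_Grow2 CD.pr_BiMul

theorem mainPar : S_Par := pr_Par pr_Qs (pr_CF pr_Qs)

theorem mainUp : S_Up :=
  pr_Up pr_Sub (pr_Scal (D3.pr_Proj D3.pr_GadCancel D3.pr_GadBij)) mainInd pr_PA CD.pr_Transl
    CD.pr_TransTop CD.pr_BiHom CD.pr_BBsmul

theorem mainFin : S_Fin :=
  pr_Fin (pr_Ineq mainUp mainRankA pr_PA (D3.pr_RankK D3.pr_Minor) mainBBrank) pr_Qs mainPar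
    (pr_Num pr_Qs) pr_Lam

end Pool.Agent.Work.MP_499dc6_lc.Fib
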