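import Pool.Agent.Work.MP_499dc6_lc.Fib.Main

/-!
# Row and column functions as gates of level zero: rates

After a translation a product of a polynomial in `Y` and a polynomial in `Z` has a component of
bidegree `(u, v)` which is a product of components of bidegrees `(u, 0)` and `(0, v)`.
-/

namespace Pool.Agent.Work.MP_499dc6_lc.Fib

open MvPolynomial Finset
open Pool.Agent.Work.MP_499dc6_lc.CD
open Pool.Agent.Work.MP_499dc6_lc.D3

section

variable {Y Z K : Type} [Fintype Y] [Fintype Z] [Field K]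

theorem Rc_inl (f : MvPolynomial Y K) (u v : ℕ) (hv : v ≠ 0) :
    bc u v (rename Sum.inl f : MvPolynomial (Y ⊕ Z) K) = 0 := by
  ext m
  rw [coeff_bc, coeff_zero]
  split_ifs with h
  · refine coeff_rename_eq_zero _ _ _ fun a ha => ?_
    exfalso
    apply hv
    rw [← h.2, ← ha]
    unfold dZ
    refine Finset.sum_eq_zero fun j _ => ?_
    exact Finsupp.mapDomain_of_notMem_range _ _ (by simp)
  · rfl

theorem Rc_inr (f : MvPolynomial Z K) (u v : ℕ) (hu : u ≠ 0) :
    bc u v (rename Sum.inr f : MvPolynomial (Y ⊕ Z) K) = 0 := by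
  ext m
  rw [coeff_bc, coeff_zero]
  split_ifs with h
  · refine coeff_rename_eq_zero _ _ _ fun a ha => ?_
    exfalso
    apply hu
    rw [← h.1, ← ha]
    unfold dY
    refine Finset.sum_eq_zero fun j _ => ?_
    exact Finsupp.mapDomain_of_notMem_range _ _ (by simp)
  · rfl

/-- Components of a product of a polynomial in `Y` and one in `Z`. -/
theorem Rc_prod (hBM : D3.S_BcMul) (f : MvPolynomial Y K) (g : MvPolynomial Z K) (u v : ℕ) :
    bc u v (rename Sum.inl f * rename Sum.inr g : MvPolynomial (Y ⊕ Z) K) =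
      bc u 0 (rename Sum.inl f) * bc 0 v (rename Sum.inr g) := by
  rw [hBM, Finset.sum_eq_single (u, 0), Finset.sum_eq_single (0, v)]
  · rintro ⟨a, b⟩ hb hne
    have h1 := mem_antidiagonal.1 hb
    have : a ≠ 0 := by
      rintro rfl
      apply hne
      simpa using h1
    rw [Rc_inl f _ _ this, zero_mul]
  · intro h
    exact absurd (mem_antidiagonal.2 (zero_add v)) h
  · rintro ⟨a, b⟩ hb hne
    have h1 := mem_antidiagonal.1 hb
    have : b ≠ 0 := by
      rintro rfl
      apply hne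
      simpa using h1
    refine Finset.sum_eq_zero fun q _ => ?_
    rw [Rc_inr g _ _ this, mul_zero]
  · intro h
    exact absurd (mem_antidiagonal.2 (add_zero u)) h

theorem Rc_BBY {al be : ℝ} {g : MvPolynomial (Y ⊕ Z) K} {u : ℕ} (hg : IsBi g u 0) :
    BB al be g (Real.exp (-(u * al / 2))) := by
  have h := BB.term (al := al) (be := be) hg (isBi_one (Y := Y) (Z := Z) (R := K))
  rw [mul_one] at h
  refine BB.mono h (le_of_eq ?_)
  congr 1
  push_cast
  ring

theorem Rc_BBZ {al be : ℝ} {g : MvPolynomial (Y ⊕ Z) K} {v : ℕ} (hg : IsBi g 0 v) :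
    BB al be g (Real.exp (-(v * be / 2))) := by
  have h := BB.term (al := al) (be := be) (isBi_one (Y := Y) (Z := Z) (R := K)) hg
  rw [one_mul] at h
  refine BB.mono h (le_of_eq ?_)
  congr 1
  push_cast
  ring

theorem Rc_BB00 {al be : ℝ} {g : MvPolynomial (Y ⊕ Z) K} (hg : IsBi g 0 0) : BB al be g 1 := by
  refine BB.mono (Rc_BBY hg) (le_of_eq ?_)
  simp

end

section

variable {Y Z K : Type} [Fintype Y] [Fintype Z] [Field K]

/-- Logarithmic derivative of a polynomial in `Y`. -/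
theorem Rc_LrY {be : ℝ} (hbe : Real.log (3 / 2) ≤ be) (dd : ℕ) (f : MvPolynomial Y K)
    (h0 : constantCoeff (rename Sum.inl f : MvPolynomial (Y ⊕ Z) K) ≠ 0) :
    ∃ w : ℕ → ℕ → MvPolynomial (Y ⊕ Z) K, LD dd (rename Sum.inl f) w ∧ ∀ u v : ℕ,
      BB (Real.log (3 / 2)) be (w u v)
        (Real.exp (-(Real.log (3 / 2) / 4 * ((u + v : ℕ) : ℝ)))) := by
  have hal : 0 < Real.log (3 / 2 : ℝ) := Real.log_pos (by norm_num)
  obtain ⟨-, w, ⟨hw0, hwB, hwr⟩, -⟩ := mainLev0 Y Z K be (Fintype.card Y) dd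
    (fun a => X (Sum.inl ((Fintype.equivFin Y).symm a))) (rename (Fintype.equivFin Y) f)
    (rename Sum.inl f) hbe (fun a => by rw [totalDegree_X]) (by
      rw [aeval_rename]
      have : (fun a => (X (Sum.inl ((Fintype.equivFin Y).symm a)) : MvPolynomial (Y ⊕ Z) K)) ∘
          (Fintype.equivFin Y) = X ∘ Sum.inl := by
        funext a
        simp
      rw [this, rename_eq_aeval]) (Or.inr h0)
  refine ⟨fun u v => if v = 0 then w u v else 0, ⟨?_, ?_, ?_⟩, ?_⟩
  · show (if (0 : ℕ) = 0 then w 0 0 else 0) = 0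
    rw [if_pos rfl, hw0]
  · intro u v
    show IsBi (if v = 0 then w u v else 0) u v
    split_ifs
    · exact hwB u v
    · exact isBi_zero u v
  · intro u v huv
    by_cases hv : v = 0
    · subst hv
      rw [hwr u 0 huv]
      refine Finset.sum_congr rfl fun p _ => Finset.sum_congr rfl fun q hq => ?_
      have h1 := mem_antidiagonal.1 hq
      have h2 : q.1 = 0 := by omega
      show _ = (if q.1 = 0 then w p.1 q.1 else 0) * _
      rw [if_pos h2]
    · rw [Rc_inl f u v hv, mul_zero]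
      symm
      refine Finset.sum_eq_zero fun p _ => Finset.sum_eq_zero fun q hq => ?_
      have h1 := mem_antidiagonal.1 hq
      by_cases h2 : q.1 = 0
      · have h3 : q.2 ≠ 0 := by omega
        rw [Rc_inl f _ _ h3, mul_zero]
      · show (if q.1 = 0 then w p.1 q.1 else 0) * _ = 0
        rw [if_neg h2, zero_mul]
  · intro u v
    show BB _ _ (if v = 0 then w u v else 0) _
    split_ifs with hv
    · subst hv
      refine BB.mono (Rc_BBY (hwB u 0)) ?_
      rw [Real.exp_le_exp]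
      push_cast
      have : (0 : ℝ) ≤ u := Nat.cast_nonneg u
      nlinarith
    · exact BB.mono BB.zero (Real.exp_pos _).le

/-- Logarithmic derivative of a polynomial in `Z`. -/
theorem Rc_LrZ {be : ℝ} (hbe : Real.log (3 / 2) ≤ be) (dd : ℕ) (f : MvPolynomial Z K)
    (h0 : constantCoeff (rename Sum.inr f : MvPolynomial (Y ⊕ Z) K) ≠ 0) :
    ∃ w : ℕ → ℕ → MvPolynomial (Y ⊕ Z) K, LD dd (rename Sum.inr f) w ∧ ∀ u v : ℕ,
      BB (Real.log (3 / 2)) be (w u v)
        (Real.exp (-(Real.log (3 / 2) / 4 * ((u + v : ℕ) : ℝ)))) := by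
  have hal : 0 < Real.log (3 / 2 : ℝ) := Real.log_pos (by norm_num)
  obtain ⟨-, w, ⟨hw0, hwB, hwr⟩, -⟩ := mainLev0 Y Z K be (Fintype.card Z) dd
    (fun a => X (Sum.inr ((Fintype.equivFin Z).symm a))) (rename (Fintype.equivFin Z) f)
    (rename Sum.inr f) hbe (fun a => by rw [totalDegree_X]) (by
      rw [aeval_rename]
      have : (fun a => (X (Sum.inr ((Fintype.equivFin Z).symm a)) : MvPolynomial (Y ⊕ Z) K)) ∘
          (Fintype.equivFin Z) = X ∘ Sum.inr := by
        funext a
        simp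
      rw [this, rename_eq_aeval]) (Or.inr h0)
  refine ⟨fun u v => if u = 0 then w u v else 0, ⟨?_, ?_, ?_⟩, ?_⟩
  · show (if (0 : ℕ) = 0 then w 0 0 else 0) = 0
    rw [if_pos rfl, hw0]
  · intro u v
    show IsBi (if u = 0 then w u v else 0) u v
    split_ifs
    · exact hwB u v
    · exact isBi_zero u v
  · intro u v huv
    by_cases hu : u = 0
    · subst hu
      rw [hwr 0 v huv]
      refine Finset.sum_congr rfl fun p hp => Finset.sum_congr rfl fun q _ => ?_
      have h1 := mem_antidiagonal.1 hp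
      have h2 : p.1 = 0 := by omega
      show _ = (if p.1 = 0 then w p.1 q.1 else 0) * _
      rw [if_pos h2]
    · rw [Rc_inr f u v hu, mul_zero]
      symm
      refine Finset.sum_eq_zero fun p hp => Finset.sum_eq_zero fun q _ => ?_
      have h1 := mem_antidiagonal.1 hp
      by_cases h2 : p.1 = 0
      · have h3 : p.2 ≠ 0 := by omega
        rw [Rc_inr f _ _ h3, mul_zero]
      · show (if p.1 = 0 then w p.1 q.1 else 0) * _ = 0
        rw [if_neg h2, zero_mul]
  · intro u v
    show BB _ _ (if u = 0 then w u v else 0) _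
    split_ifs with hu
    · subst hu
      refine BB.mono (Rc_BBZ (hwB 0 v)) ?_
      rw [Real.exp_le_exp]
      push_cast
      have : (0 : ℝ) ≤ v := Nat.cast_nonneg v
      nlinarith
    · exact BB.mono BB.zero (Real.exp_pos _).le

/-- Rates of a polynomial in `Y` times a polynomial in `Z` times a polynomial with known rates. -/
theorem Rc_mul (Y Z : Type) [Fintype Y] [Fintype Z] (K : Type) [Field K] [CharZero K]
    (be P0 ρ0 : ℝ) (dd : ℕ) (f : MvPolynomial Y K) (g : MvPolynomial Z K)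
    (W V : MvPolynomial (Y ⊕ Z) K) (hbe : Real.log (3 / 2) ≤ be) (hP0 : 1 ≤ P0)
    (hρ : ρ0 ≤ Real.log (3 / 2) / 4)
    (hW : constantCoeff W ≠ 0 → Rt (Real.log (3 / 2)) be dd P0 ρ0 W ∧
      Lr (Real.log (3 / 2)) be dd P0 ρ0 W)
    (hV : V = rename Sum.inl f * rename Sum.inr g * W)
    (hV0 : V = 0 ∨ constantCoeff V ≠ 0) :
    Rt (Real.log (3 / 2)) be dd (3 * ((dd : ℝ) + 1) ^ 2 * P0) ρ0 V ∧
      Lr (Real.log (3 / 2)) be dd (3 * ((dd : ℝ) + 1) ^ 2 * P0) ρ0 V := by
  have hal : 0 < Real.log (3 / 2 : ℝ) := Real.log_pos (by norm_num)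
  have hP00 : 0 ≤ P0 := by linarith
  have hD1 : (1 : ℝ) ≤ ((dd : ℝ) + 1) ^ 2 := by
    have : (0 : ℝ) ≤ dd := Nat.cast_nonneg dd
    nlinarith
  rcases hV0 with hV0 | hV0
  · refine ⟨?_, fun _ _ => 0, ⟨rfl, fun u v => isBi_zero u v, ?_⟩, ?_⟩
    · intro u v _ _
      rw [hV0, bc_zero]
      exact BB.mono BB.zero (by positivity)
    · intro u v _
      rw [hV0, bc_zero, mul_zero]
      symm
      refine Finset.sum_eq_zero fun p _ => Finset.sum_eq_zero fun q _ => ?_
      rw [zero_mul]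
    · intro u v _ _
      exact BB.zero.mono (by positivity)
  · have hne : constantCoeff (rename Sum.inl f : MvPolynomial (Y ⊕ Z) K) ≠ 0 ∧
        constantCoeff (rename Sum.inr g : MvPolynomial (Y ⊕ Z) K) ≠ 0 ∧
        constantCoeff W ≠ 0 := by
      rw [hV, map_mul, map_mul] at hV0
      refine ⟨fun h => hV0 ?_, fun h => hV0 ?_, fun h => hV0 ?_⟩
      · rw [h, zero_mul, zero_mul]
      · rw [h, mul_zero, zero_mul]
      · rw [h, mul_zero]
    obtain ⟨hf0, hg0, hW0⟩ := hne
    obtain ⟨hWR, w3, hw3, hb3⟩ := hW hW0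
    obtain ⟨w1, hw1, hb1⟩ := Rc_LrY (Z := Z) hbe dd f hf0
    obtain ⟨w2, hw2, hb2⟩ := Rc_LrZ (Y := Y) hbe dd g hg0
    have hexp : ∀ m : ℕ, Real.exp (-(Real.log (3 / 2) / 4 * (m : ℝ))) ≤
        Real.exp (-(ρ0 * (m : ℝ))) := by
      intro m
      rw [Real.exp_le_exp]
      have : (0 : ℝ) ≤ m := Nat.cast_nonneg m
      nlinarith
    refine ⟨?_, ?_⟩
    · intro u v _ huv
      have hWb : ∀ a b : ℕ, a + b ≤ dd → BB (Real.log (3 / 2)) be (bc a b W)
          (P0 * Real.exp (-(ρ0 * ((a + b : ℕ) : ℝ)))) := by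
        intro a b hab
        rcases Nat.eq_zero_or_pos (a + b) with h | h
        · have ha : a = 0 := by omega
          have hb : b = 0 := by omega
          subst ha hb
          refine BB.mono (Rc_BB00 (isBi_bc 0 0 W)) ?_
          simpa using hP0
        · exact hWR a b h hab
      rw [hV]
      refine BB.mono (Loc_mul D3.pr_BcMul (al := Real.log (3 / 2)) (be := be) _ W u v dd huv
        (P0 * Real.exp (-(ρ0 * ((u + v : ℕ) : ℝ)))) (by positivity) ?_) ?_
      · intro a b a' b' ha hb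
        rw [Rc_prod D3.pr_BcMul]
        refine BB.mono (mainBBmul Y Z K _ _ _ _ _ _
          (BB.term (isBi_bc a 0 (rename Sum.inl f)) (isBi_bc 0 b (rename Sum.inr g)))
          (hWb a' b' (by omega))) ?_
        have e1 : Real.exp ((((0 : ℕ) : ℝ) * Real.log (3 / 2) - (b : ℝ) * be -
            ((a : ℝ) * Real.log (3 / 2) - ((0 : ℕ) : ℝ) * be)) / 2) ≤
            Real.exp (-(ρ0 * ((a + b : ℕ) : ℝ))) := by
          rw [Real.exp_le_exp]
          push_cast
          have h1 : (0 : ℝ) ≤ a := Nat.cast_nonneg a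
          have h2 : (0 : ℝ) ≤ b := Nat.cast_nonneg b
          nlinarith
        refine le_trans (mul_le_mul_of_nonneg_right e1 (by positivity)) (le_of_eq ?_)
        rw [mul_left_comm, ← Real.exp_add]
        congr 2
        have h3 : ((u + v : ℕ) : ℝ) = ((a + b : ℕ) : ℝ) + ((a' + b' : ℕ) : ℝ) := by
          rw [← Nat.cast_add]
          congr 1
          omega
        rw [h3]
        ring
      · have h4 : 0 ≤ Real.exp (-(ρ0 * ((u + v : ℕ) : ℝ))) := (Real.exp_pos _).le
        have h5 : (0 : ℝ) ≤ ((dd : ℝ) + 1) ^ 2 * (P0 *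
          Real.exp (-(ρ0 * ((u + v : ℕ) : ℝ)))) := by positivity
        nlinarith
    · have hPW := pr_ProdW D3.pr_BcMul Y Z K dd 3
        ![rename Sum.inl f, rename Sum.inr g, W] (fun _ => 1) ![w1, w2, w3] (by
          intro j _
          fin_cases j
          · exact hw1
          · exact hw2
          · exact hw3)
      have e1 : ∏ j : Fin 3, (![rename Sum.inl f, rename Sum.inr g, W] :
          Fin 3 → MvPolynomial (Y ⊕ Z) K) j ^ 1 = V := by
        rw [Fin.prod_univ_three, hV]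
        simp
      rw [e1] at hPW
      refine ⟨_, hPW, ?_⟩
      intro u v h1 huv
      have e2 : (∑ j : Fin 3, if (1 : ℕ) ≠ 0 then C (((1 : ℕ) : K)) *
          (![w1, w2, w3] : Fin 3 → ℕ → ℕ → MvPolynomial (Y ⊕ Z) K) j u v else 0) =
          w1 u v + (w2 u v + w3 u v) := by
        rw [Fin.sum_univ_three]
        simp [add_assoc]
      have h6 := BB.add ((hb1 u v).mono (hexp (u + v)))
        (BB.add ((hb2 u v).mono (hexp (u + v))) (hb3 u v h1 huv))
      show BB _ _ (∑ j : Fin 3, if (1 : ℕ) ≠ 0 then C (((1 : ℕ) : K)) *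
          (![w1, w2, w3] : Fin 3 → ℕ → ℕ → MvPolynomial (Y ⊕ Z) K) j u v else 0) _
      rw [e2]
      refine BB.mono h6 ?_
      obtain ⟨E, hE⟩ : ∃ E, E = Real.exp (-(ρ0 * ((u + v : ℕ) : ℝ))) := ⟨_, rfl⟩
      rw [← hE]
      have hE0 : 0 < E := by rw [hE]; exact Real.exp_pos _
      have h7 : E ≤ P0 * E := by nlinarith
      have h8 : (0 : ℝ) ≤ P0 * E := by positivity
      have h9 : (3 : ℝ) * (P0 * E) ≤ 3 * ((dd : ℝ) + 1) ^ 2 * P0 * E := by nlinarith
      linarith

end

end Pool.Agent.Work.MP_499dc6_lc.Fib
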