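import Pool.Agent.Work.MP_499dc6_lc.Fib.RcA

/-!
# Row and column functions as free inputs: gates of level zero, all gates, the projection
-/

namespace Pool.Agent.Work.MP_499dc6_lc.Fib

open MvPolynomial Finset
open Pool.Agent.Work.MP_499dc6_lc.CD
open Pool.Agent.Work.MP_499dc6_lc.D3

open scoped PowerSeries

section

variable {Y Z K : Type} [Fintype Y] [Fintype Z] [Field K]

/-- Rates of a polynomial in given polynomials from a bound for all polynomials in them. -/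
theorem Rc_gat {al be κ M : ℝ} {ι : Type} (dd : ℕ)
    (x : ι → MvPolynomial (Y ⊕ Z) K)
    (hloc : ∀ (Q' : MvPolynomial ι K) (u v : ℕ), u + v ≤ dd →
      BB al be (bc u v (aeval x Q')) (M * Real.exp (-(κ * ((u + v : ℕ) : ℝ)))))
    (Q : MvPolynomial ι K) (V : MvPolynomial (Y ⊕ Z) K) (hV : V = aeval x Q)
    (hV0 : V = 0 ∨ constantCoeff V ≠ 0) :
    Rt al be dd M κ V ∧ Lr al be dd (M ^ 2 * ((dd : ℝ) + 1) ^ 2) κ V := by
  have hD1 : (1 : ℝ) ≤ (dd : ℝ) + 1 := by
    have : (0 : ℝ) ≤ (dd : ℝ) := Nat.cast_nonneg dd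
    linarith
  have hD0 : (0 : ℝ) ≤ (dd : ℝ) + 1 := by linarith
  refine ⟨?_, ?_⟩
  · intro u v _ h
    rw [hV]
    exact hloc Q u v h
  · rcases hV0 with h0 | hc
    · refine ⟨fun _ _ => 0, ⟨rfl, fun u v => isBi_zero u v, fun u v _ => ?_⟩, fun u v _ _ => ?_⟩
      · rw [h0, bc_zero, mul_zero]
        exact (Finset.sum_eq_zero fun p _ => Finset.sum_eq_zero fun q _ => zero_mul _).symm
      · refine BB.mono BB.zero ?_
        positivity
    · obtain ⟨c, hcdef⟩ : ∃ c, c = constantCoeff V := ⟨_, rfl⟩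
      obtain ⟨Q₂, hQ₂⟩ : ∃ Q₂ : MvPolynomial ι K,
        Q₂ = C c⁻¹ * ∑ n ∈ range (dd + 1), (1 - C c⁻¹ * Q) ^ n := ⟨_, rfl⟩
      have hU : aeval x Q₂ = C c⁻¹ * ∑ n ∈ range (dd + 1), (1 - C c⁻¹ * aeval x Q) ^ n := by
        rw [hQ₂, map_mul, aeval_C, map_sum, algebraMap_eq]
        congr 1
        refine Finset.sum_congr rfl fun n _ => ?_
        rw [map_pow, map_sub, map_one, map_mul, aeval_C, algebraMap_eq]
      have hinv : ∀ u v, u + v ≤ dd → bc u v (V * aeval x Q₂) =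
          bc u v (1 : MvPolynomial (Y ⊕ Z) K) := by
        rw [hU, hcdef]
        exact Gat_inv D3.pr_BcMul V (aeval x Q) dd (fun u v _ => by rw [hV]) hc
      have heul := fun u v h => Gat_bc_eul dd V u v h
      refine ⟨fun u v => bc u v (Gat_eul dd V * aeval x Q₂), ⟨?_, fun u v => isBi_bc u v _, ?_⟩, ?_⟩
      · change bc 0 0 (Gat_eul dd V * aeval x Q₂) = 0
        rw [D3.pr_BcMul Y Z K _ _ 0 0]
        refine Finset.sum_eq_zero fun p hp => Finset.sum_eq_zero fun q hq => ?_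
        rw [HasAntidiagonal.mem_antidiagonal] at hp hq
        have hp1 : p.1 = 0 := by omega
        have hq1 : q.1 = 0 := by omega
        rw [hp1, hq1, heul 0 0 (Nat.zero_le _), Nat.add_zero, Nat.cast_zero, map_zero, zero_mul,
          zero_mul]
      · intro u v h
        have h1 := D3.pr_BcMul Y Z K (Gat_eul dd V * aeval x Q₂) V u v
        have h2 : Gat_eul dd V * aeval x Q₂ * V = Gat_eul dd V * (V * aeval x Q₂) := by ring
        rw [h2, Gat_congr D3.pr_BcMul (Gat_eul dd V) (Gat_eul dd V) _ _ dd (fun _ _ _ => rfl) hinv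
          u v h, mul_one, heul u v h, map_natCast] at h1
        exact h1
      · intro u v _ h
        change BB al be (bc u v (Gat_eul dd V * aeval x Q₂)) _
        refine BB.mono (Loc_mul D3.pr_BcMul (al := al) (be := be) (Gat_eul dd V) (aeval x Q₂) u v
          dd h (M ^ 2 * Real.exp (-(κ * ((u + v : ℕ) : ℝ)))) (by positivity) ?_)
          (le_of_eq (by ring))
        intro a b a' b' ha hb
        have h1 : BB al be (bc a b (Gat_eul dd V))
            (M * Real.exp (-(κ * ((a + b : ℕ) : ℝ)))) := by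
          rw [heul a b (by omega)]
          refine CD.pr_BBsmul Y Z K al be _ _ _ ?_
          rw [hV]
          exact hloc Q a b (by omega)
        have h2 := hloc Q₂ a' b' (by omega)
        refine BB.mono (mainBBmul Y Z K al be _ _ _ _ h1 h2) (le_of_eq ?_)
        have h3 : (-(κ * ((u + v : ℕ) : ℝ))) =
            -(κ * ((a + b : ℕ) : ℝ)) + -(κ * ((a' + b' : ℕ) : ℝ)) := by
          have h4 : u + v = (a + b) + (a' + b') := by omega
          rw [h4, Nat.cast_add]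
          ring
        rw [h3, Real.exp_add]
        ring

/-- Components of a polynomial in polynomials in `Y` and polynomials in `Z` without constant
terms. -/
theorem Rc_box {be : ℝ} (hbe : Real.log (3 / 2) ≤ be) (r dd : ℕ) (f : Fin r → MvPolynomial Y K)
    (g : Fin r → MvPolynomial Z K)
    (hf : ∀ a, bc 0 0 (rename Sum.inl (f a) : MvPolynomial (Y ⊕ Z) K) = 0)
    (hg : ∀ a, bc 0 0 (rename Sum.inr (g a) : MvPolynomial (Y ⊕ Z) K) = 0)
    (T : MvPolynomial (Fin r ⊕ Fin r) K) (u v : ℕ) (h : u + v ≤ dd) :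
    BB (Real.log (3 / 2)) be (bc u v (aeval (Sum.elim
      (fun a => (rename Sum.inl (f a) : MvPolynomial (Y ⊕ Z) K)) (fun a => rename Sum.inr (g a))) T))
      (((dd : ℝ) + 1) ^ (2 * r) *
        Real.exp (-(Real.log (3 / 2) / 4 * ((u + v : ℕ) : ℝ)))) := by
  classical
  have hal : 0 < Real.log (3 / 2 : ℝ) := Real.log_pos (by norm_num)
  rw [pr_Box D3.pr_BcMul Y Z K (Fin r ⊕ Fin r) _ T dd u v (by rintro (a | a); exacts [hf a, hg a])
    h]
  refine BB.mono (Loc_sum _ _ (Real.exp (-(Real.log (3 / 2) / 4 * ((u + v : ℕ) : ℝ))))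
    fun m _ => ?_) (le_of_eq ?_)
  · refine CD.pr_BBsmul _ _ _ _ _ _ _ _ ?_
    have e1 : ∏ a : Fin r ⊕ Fin r, (Sum.elim
        (fun a => (rename Sum.inl (f a) : MvPolynomial (Y ⊕ Z) K))
        (fun a => rename Sum.inr (g a))) a ^ m a =
        rename Sum.inl (∏ a, f a ^ m (Sum.inl a)) * rename Sum.inr (∏ a, g a ^ m (Sum.inr a)) := by
      rw [Fintype.prod_sum_type, map_prod, map_prod]
      simp only [Sum.elim_inl, Sum.elim_inr, map_pow]
    rw [e1, Rc_prod D3.pr_BcMul]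
    refine BB.mono (BB.term (isBi_bc u 0 _) (isBi_bc 0 v _)) ?_
    rw [Real.exp_le_exp]
    push_cast
    have h1 : (0 : ℝ) ≤ u := Nat.cast_nonneg u
    have h2 : (0 : ℝ) ≤ v := Nat.cast_nonneg v
    nlinarith
  · congr 1
    rw [Fintype.card_piFinset, Finset.prod_const, Finset.card_range, Finset.card_univ,
      Fintype.card_sum, Fintype.card_fin]
    push_cast
    congr 1
    omega

/-- Free inputs of sums and of products. -/
def Rc_two (B : MvPolynomial (Y ⊕ Z) K) : Prop :=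
  ∃ (f : MvPolynomial Y K) (g : MvPolynomial Z K),
    B = rename Sum.inl f + rename Sum.inr g ∨ B = rename Sum.inl f * rename Sum.inr g

/-- Gates of level zero. -/
theorem Rc_lev0 {be : ℝ} (hbe : Real.log (3 / 2) ≤ be) (r dd : ℕ)
    (B : Fin r → MvPolynomial (Y ⊕ Z) K) (hB : ∀ a, Rc_two (B a)) (Q : MvPolynomial (Fin r) K)
    (W : MvPolynomial (Y ⊕ Z) K) (hW : W = aeval B Q) (hW0 : W = 0 ∨ constantCoeff W ≠ 0) :
    Rt (Real.log (3 / 2)) be dd (((dd : ℝ) + 1) ^ (4 * r + 2)) (Real.log (3 / 2) / 4) W ∧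
      Lr (Real.log (3 / 2)) be dd (((dd : ℝ) + 1) ^ (4 * r + 2)) (Real.log (3 / 2) / 4) W := by
  choose f g hfg using hB
  have hD1 : (1 : ℝ) ≤ (dd : ℝ) + 1 := by
    have : (0 : ℝ) ≤ (dd : ℝ) := Nat.cast_nonneg dd
    linarith
  have hf0 : ∀ a, bc 0 0 (rename Sum.inl (f a - C (constantCoeff (f a))) :
      MvPolynomial (Y ⊕ Z) K) = 0 := by
    intro a
    rw [Gat_bc00, constantCoeff_rename, map_sub, constantCoeff_C, sub_self, map_zero]
  have hg0 : ∀ a, bc 0 0 (rename Sum.inr (g a - C (constantCoeff (g a))) :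
      MvPolynomial (Y ⊕ Z) K) = 0 := by
    intro a
    rw [Gat_bc00, constantCoeff_rename, map_sub, constantCoeff_C, sub_self, map_zero]
  have hB : ∀ a, ∃ T : MvPolynomial (Fin r ⊕ Fin r) K, B a = aeval (Sum.elim
      (fun a => (rename Sum.inl (f a - C (constantCoeff (f a))) : MvPolynomial (Y ⊕ Z) K))
      (fun a => rename Sum.inr (g a - C (constantCoeff (g a))))) T := by
    intro a
    have e1 : rename Sum.inl (f a) = aeval (Sum.elim
      (fun a => (rename Sum.inl (f a - C (constantCoeff (f a))) : MvPolynomial (Y ⊕ Z) K))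
      (fun a => rename Sum.inr (g a - C (constantCoeff (g a)))))
        (X (Sum.inl a) + C (constantCoeff (f a))) := by
      rw [map_add, aeval_X, aeval_C, algebraMap_eq, Sum.elim_inl, map_sub, rename_C,
        sub_add_cancel]
    have e2 : rename Sum.inr (g a) = aeval (Sum.elim
      (fun a => (rename Sum.inl (f a - C (constantCoeff (f a))) : MvPolynomial (Y ⊕ Z) K))
      (fun a => rename Sum.inr (g a - C (constantCoeff (g a)))))
        (X (Sum.inr a) + C (constantCoeff (g a))) := by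
      rw [map_add, aeval_X, aeval_C, algebraMap_eq, Sum.elim_inr, map_sub, rename_C,
        sub_add_cancel]
    rcases hfg a with h | h
    · exact ⟨_, by rw [h, e1, e2, ← map_add]⟩
    · exact ⟨_, by rw [h, e1, e2, ← map_mul]⟩
  choose T hT using hB
  have hW' : W = aeval (Sum.elim
      (fun a => (rename Sum.inl (f a - C (constantCoeff (f a))) : MvPolynomial (Y ⊕ Z) K))
      (fun a => rename Sum.inr (g a - C (constantCoeff (g a))))) (aeval T Q) := by
    rw [hW, comp_aeval_apply]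
    congr 2
    funext a
    exact hT a
  obtain ⟨h1, h2⟩ := Rc_gat (al := Real.log (3 / 2)) (be := be) (κ := Real.log (3 / 2) / 4)
    (M := ((dd : ℝ) + 1) ^ (2 * r)) dd _
    (fun Q' u v h => Rc_box hbe r dd _ _ hf0 hg0 Q' u v h) _ W hW' hW0
  refine ⟨?_, ?_⟩
  · intro u v h3 h4
    refine BB.mono (h1 u v h3 h4) ?_
    exact mul_le_mul_of_nonneg_right (pow_le_pow_right₀ hD1 (by omega)) (Real.exp_pos _).le
  · obtain ⟨w, hw, hb⟩ := h2
    refine ⟨w, hw, fun u v h3 h4 => BB.mono (hb u v h3 h4) (le_of_eq ?_)⟩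
    congr 1
    rw [← pow_mul, ← pow_add]
    congr 1
    omega

end

/-- A polynomial of degree at most `e` plus a polynomial in `Y` plus a polynomial in `Z` plus a
linear combination of the gates in `J`, or a product of a polynomial in `Y`, a polynomial in `Z` and
powers of the gates in `J`. -/
def BasicB {K Y Z : Type} [Field K] {s : ℕ} (e : ℕ) (F : Fin s → MvPolynomial (Y ⊕ Z) K)
    (J : Finset (Fin s)) (B : MvPolynomial (Y ⊕ Z) K) : Prop :=
  (∃ (l : MvPolynomial (Y ⊕ Z) K) (f : MvPolynomial Y K) (g : MvPolynomial Z K) (c : Fin s → K),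
    l.totalDegree ≤ e ∧ (∀ j, c j ≠ 0 → j ∈ J) ∧
    B = l + (rename Sum.inl f + rename Sum.inr g) + ∑ j, C (c j) * F j) ∨
  ∃ (f : MvPolynomial Y K) (g : MvPolynomial Z K) (k : Fin s → ℕ),
    (rename Sum.inl f * rename Sum.inr g = (0 : MvPolynomial (Y ⊕ Z) K) ∨
      constantCoeff (rename Sum.inl f * rename Sum.inr g : MvPolynomial (Y ⊕ Z) K) ≠ 0) ∧
    (∀ j, k j ≠ 0 → j ∈ J) ∧ B = rename Sum.inl f * rename Sum.inr g * ∏ j, F j ^ k j

/-- Circuits after the projection: a gate is a polynomial in `Y` times a polynomial in `Z` times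
a polynomial in `r` basic polynomials of earlier gates of smaller level; at level zero these are
polynomials in `Y` plus or times polynomials in `Z`. -/
def CktB {K Y Z : Type} [Field K] {s : ℕ} (r e : ℕ) (F : Fin s → MvPolynomial (Y ⊕ Z) K)
    (d : Fin s → ℕ) : Prop :=
  ∀ i, ∃ (f : MvPolynomial Y K) (g : MvPolynomial Z K) (B : Fin r → MvPolynomial (Y ⊕ Z) K)
      (Q : MvPolynomial (Fin r) K), F i = rename Sum.inl f * rename Sum.inr g * aeval B Q ∧
    ((∀ a, Rc_two (B a)) ∨ (1 ≤ d i ∧ ∀ a, BasicB e F (Low d i) (B a)))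

/-- Basic polynomials are functions of one polynomial without large components. -/
theorem Rc_bas (Y Z : Type) [Fintype Y] [Fintype Z] (K : Type) [Field K] [CharZero K]
    (be P ρ : ℝ) (s e t dd : ℕ) (F : Fin s → MvPolynomial (Y ⊕ Z) K) (J : Finset (Fin s))
    (B : MvPolynomial (Y ⊕ Z) K) (hbe : Real.log (3 / 2) ≤ be) (hρ : 0 < ρ)
    (hρ' : ρ ≤ Real.log (3 / 2) / 4) (hP6 : ((dd : ℝ) + 1) ^ 6 ≤ P) (het : e < t) (ht : 1 ≤ t)
    (hsP : ((s + 1 : ℕ) : ℝ) * P ≤ Real.exp (ρ / 2 * t))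
    (hJ : ∀ j ∈ J, Rt (Real.log (3 / 2)) be dd P ρ (F j) ∧ Lr (Real.log (3 / 2)) be dd P ρ (F j))
    (hB : BasicB e F J B) :
    ∃ (x : MvPolynomial (Y ⊕ Z) K) (T : Polynomial K), bc 0 0 x = 0 ∧
      (∀ u v : ℕ, t ≤ u + v → u + v ≤ dd →
        BB (Real.log (3 / 2)) be (bc u v x) (Real.exp (-(ρ / 2 * ((u + v : ℕ) : ℝ))))) ∧
      ∀ u v, u + v ≤ dd → bc u v B = bc u v (Polynomial.aeval x T) := by
  classical
  have hP : 0 ≤ P := le_trans (by positivity) hP6
  -- one more gate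
  have key : ∀ U : MvPolynomial (Y ⊕ Z) K, (∃ (A : MvPolynomial (Y ⊕ Z) K)
      (Q : MvPolynomial (Fin 1) K), Rc_two A ∧ U = aeval (fun _ => A) Q) →
      (U = 0 ∨ constantCoeff U ≠ 0) →
      Basic e (Fin.cons U F : Fin (s + 1) → MvPolynomial (Y ⊕ Z) K)
        (insert 0 (J.map (Fin.succEmb s))) B →
      ∃ (x : MvPolynomial (Y ⊕ Z) K) (T : Polynomial K), bc 0 0 x = 0 ∧
        (∀ u v : ℕ, t ≤ u + v → u + v ≤ dd →
          BB (Real.log (3 / 2)) be (bc u v x) (Real.exp (-(ρ / 2 * ((u + v : ℕ) : ℝ))))) ∧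
        ∀ u v, u + v ≤ dd → bc u v B = bc u v (Polynomial.aeval x T) := by
    rintro U ⟨A, Q, hA, hU⟩ hU0 hBU
    refine mainBas Y Z K (Real.log (3 / 2)) be P ρ (s + 1) e t dd _ _ B hρ hP het ht hsP ?_ hBU
    intro j hj
    rw [Finset.mem_insert, Finset.mem_map] at hj
    rcases hj with rfl | ⟨j, hj, rfl⟩
    · rw [Fin.cons_zero]
      obtain ⟨h1, h2⟩ := Rc_lev0 hbe 1 dd (fun _ => A) (fun _ => hA) Q U hU hU0
      exact ⟨Ind_Rt (by positivity) hP6 hρ' h1, Ind_Lr (by positivity) hP6 hρ' h2⟩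
    · show Rt _ _ _ _ _ ((Fin.cons U F : Fin (s + 1) → MvPolynomial (Y ⊕ Z) K) (Fin.succ j)) ∧
        Lr _ _ _ _ _ ((Fin.cons U F : Fin (s + 1) → MvPolynomial (Y ⊕ Z) K) (Fin.succ j))
      rw [Fin.cons_succ]
      exact hJ j hj
  rcases hB with ⟨l, f, g, c, hl, hc, hBe⟩ | ⟨f, g, k, h0, hk, hBe⟩
  · obtain ⟨a, ha⟩ : ∃ a : K, a = 1 - constantCoeff
      (rename Sum.inl f + rename Sum.inr g : MvPolynomial (Y ⊕ Z) K) := ⟨_, rfl⟩
    refine key (rename Sum.inl f + rename Sum.inr g + C a)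
      ⟨rename Sum.inl f + rename Sum.inr g, X 0 + C a, ⟨f, g, Or.inl rfl⟩, ?_⟩ ?_ ?_
    · rw [map_add, aeval_X, aeval_C, algebraMap_eq]
    · right
      rw [map_add, constantCoeff_C, ha, add_sub_cancel]
      exact one_ne_zero
    · left
      refine ⟨l - C a, Fin.cons 1 c, ?_, ?_, ?_⟩
      · refine (totalDegree_sub _ _).trans ?_
        rw [totalDegree_C]
        exact max_le hl (Nat.zero_le _)
      · intro j hj
        rw [Finset.mem_insert, Finset.mem_map]
        rcases Fin.eq_zero_or_eq_succ j with rfl | ⟨j, rfl⟩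
        · exact Or.inl rfl
        · rw [Fin.cons_succ] at hj
          exact Or.inr ⟨j, hc j hj, rfl⟩
      · rw [Fin.sum_univ_succ]
        simp only [Fin.cons_zero, Fin.cons_succ]
        rw [hBe, C_1]
        ring
  · refine key (rename Sum.inl f * rename Sum.inr g)
      ⟨rename Sum.inl f * rename Sum.inr g, X 0, ⟨f, g, Or.inr rfl⟩, ?_⟩ h0 ?_
    · rw [aeval_X]
    · right
      refine ⟨Fin.cons 1 k, ?_, ?_⟩
      · intro j hj
        rw [Finset.mem_insert, Finset.mem_map]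
        rcases Fin.eq_zero_or_eq_succ j with rfl | ⟨j, rfl⟩
        · exact Or.inl rfl
        · rw [Fin.cons_succ] at hj
          exact Or.inr ⟨j, hk j hj, rfl⟩
      · rw [Fin.prod_univ_succ]
        simp only [Fin.cons_zero, Fin.cons_succ]
        rw [hBe, pow_one]

/-- All gates have small rates. -/
theorem Rc_ind (Y Z : Type) [Fintype Y] [Fintype Z] (K : Type) [Field K] [CharZero K] (be P : ℝ)
    (s r e h dd : ℕ) (ρ : ℕ → ℝ) (t : ℕ → ℕ) (F : Fin s → MvPolynomial (Y ⊕ Z) K)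
    (d : Fin s → ℕ) (hbe : Real.log (3 / 2) ≤ be)
    (hp : Pars (Real.log (3 / 2)) be (s + 1) e dd h P ρ t)
    (hP1 : 3 * ((dd : ℝ) + 1) ^ 2 * ((dd : ℝ) + 1) ^ (6 * r + 10) ≤ P)
    (hC : CktB r e F d) (hd : ∀ i, d i ≤ h) (hF : ∀ i, F i = 0 ∨ constantCoeff (F i) ≠ 0) :
    ∀ i, Rt (Real.log (3 / 2)) be dd P (ρ (d i)) (F i) ∧
      Lr (Real.log (3 / 2)) be dd P (ρ (d i)) (F i) := by
  have hD1 : (1 : ℝ) ≤ (dd : ℝ) + 1 := by linarith [Nat.cast_nonneg (α := ℝ) dd]
  have h122 : (0 : ℝ) ≤ 3 * ((dd : ℝ) + 1) ^ 2 * ((dd : ℝ) + 1) ^ (6 * r + 10) := by positivity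
  have hP0 : 3 * ((dd : ℝ) + 1) ^ 2 * ((dd : ℝ) + 1) ^ (4 * r + 2) ≤ P := by
    refine le_trans ?_ hP1
    exact mul_le_mul_of_nonneg_left (pow_le_pow_right₀ hD1 (by omega)) (by positivity)
  have h121 : (0 : ℝ) ≤ 3 * ((dd : ℝ) + 1) ^ 2 * ((dd : ℝ) + 1) ^ (4 * r + 2) := by positivity
  have hP6 : ((dd : ℝ) + 1) ^ 6 ≤ P := by
    refine le_trans ?_ hP1
    have h1 : ((dd : ℝ) + 1) ^ 6 ≤ ((dd : ℝ) + 1) ^ (6 * r + 10) :=
      pow_le_pow_right₀ hD1 (by omega)
    have h2 : (1 : ℝ) ≤ ((dd : ℝ) + 1) ^ 2 := one_le_pow₀ hD1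
    refine h1.trans (le_mul_of_one_le_left (by positivity) ?_)
    linarith
  have hP : 0 ≤ P := by linarith
  have key : ∀ n : ℕ, ∀ i : Fin s, (i : ℕ) < n →
      Rt (Real.log (3 / 2)) be dd P (ρ (d i)) (F i) ∧
      Lr (Real.log (3 / 2)) be dd P (ρ (d i)) (F i) := by
    intro n
    induction n with
    | zero => intro i hi; exact absurd hi (Nat.not_lt_zero _)
    | succ n ih =>
      intro i hi
      have h3 : ρ (d i) ≤ Real.log (3 / 2) / 4 := by
        rw [← hp.zero]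
        exact Ind_rho hp 0 (d i) (Nat.zero_le _) (hd i)
      obtain ⟨f, g, B, Q, hFi, hBc⟩ := hC i
      obtain ⟨W, hW⟩ : ∃ W, W = aeval B Q := ⟨_, rfl⟩
      rw [← hW] at hFi
      rcases hBc with hB | ⟨hdi, hB⟩
      · obtain ⟨h1, h2⟩ := Rc_mul Y Z K be (((dd : ℝ) + 1) ^ (4 * r + 2)) (Real.log (3 / 2) / 4)
          dd f g W (F i) hbe (one_le_pow₀ hD1) le_rfl
          (fun hW0 => Rc_lev0 hbe r dd B hB Q W hW (Or.inr hW0)) hFi (hF i)
        exact ⟨Ind_Rt h121 hP0 h3 h1, Ind_Lr h121 hP0 h3 h2⟩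
      · obtain ⟨j, hj⟩ : ∃ j, d i = j + 1 := ⟨d i - 1, by omega⟩
        have hjh : j < h := by have := hd i; omega
        have hlow : ∀ j' ∈ Low d i, Rt (Real.log (3 / 2)) be dd P (ρ j) (F j') ∧
            Lr (Real.log (3 / 2)) be dd P (ρ j) (F j') := by
          intro j' hj'
          obtain ⟨h1, h2⟩ := (Finset.mem_filter.1 hj').2
          have h3 : (j' : ℕ) < n := by
            have : (j' : ℕ) < (i : ℕ) := h1
            omega
          obtain ⟨h4, h5⟩ := ih j' h3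
          have h6 : ρ j ≤ ρ (d j') := Ind_rho hp (d j') j (by omega) (by omega)
          exact ⟨Ind_Rt hP le_rfl h6 h4, Ind_Lr hP le_rfl h6 h5⟩
        have het := hp.et j hjh
        have hρj : ρ j ≤ Real.log (3 / 2) / 4 := by
          rw [← hp.zero]
          exact Ind_rho hp 0 j (Nat.zero_le _) (by omega)
        have hb := fun a => Rc_bas Y Z K be P (ρ j) s e (t (j + 1)) dd F
          (Low d i) (B a) hbe (hp.pos j (by omega)) hρj hP6 het (by omega) (hp.thr j hjh) hlow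
          (hB a)
        choose x T hx0 hxB hxT using hb
        obtain ⟨Q', hQ'⟩ := pr_Comp mainTrunc Y Z K r dd B x T Q hxT
        rw [hj] at h3 ⊢
        obtain ⟨h1, h2⟩ := Rc_mul Y Z K be (((dd : ℝ) + 1) ^ (6 * r + 10)) (ρ (j + 1)) dd f g W
          (F i) hbe (one_le_pow₀ hD1) h3
          (fun hW0 => mainGat Y Z K (Real.log (3 / 2)) be (ρ (j + 1)) (ρ j / 4) r (t (j + 1))
            dd x Q' W (hp.pos (j + 1) (by omega)) (hp.dec j hjh) hx0 (hp.sm j hjh)
            (fun a u v h3 h4 => by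
              have h5 := hxB a u v h3 h4
              have h6 : 2 * (ρ j / 4) = ρ j / 2 := by ring
              rw [h6]
              exact h5)
            (hp.ser j hjh) (fun u v huv => by rw [hW]; exact hQ' u v huv) (Or.inr hW0))
          hFi (hF i)
        exact ⟨Ind_Rt h122 hP1 le_rfl h1, Ind_Lr h122 hP1 le_rfl h2⟩
  exact fun i => key (i + 1) i (Nat.lt_succ_self _)

/-- A polynomial in the variables of one kind. -/
def Rc_kind {R Y Z : Type} [CommRing R] (b : Bool) (p : MvPolynomial (Y ⊕ Z) R) : Prop :=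
  if b = true then ∃ q : MvPolynomial Y R, p = rename Sum.inl q
  else ∃ q : MvPolynomial Z R, p = rename Sum.inr q

theorem Rc_kind_C {R Y Z : Type} [CommRing R] (b : Bool) (a : R) :
    Rc_kind b (C a : MvPolynomial (Y ⊕ Z) R) := by
  unfold Rc_kind
  split_ifs
  · exact ⟨C a, by rw [rename_C]⟩
  · exact ⟨C a, by rw [rename_C]⟩

/-- The matrix of the projection: every row and every column has one kind. -/
theorem Rc_GM {R : Type} [CommRing R] (n k : ℕ) (r : GR n k) (c : GC n k)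
    (x : MvPolynomial (VV n k) R)
    (hx : x = GM (fun i j => X (Sum.inl (i, j))) (fun i j => X (Sum.inr (i, j))) r c) :
    Rc_kind (Sum.elim (fun _ => true) (fun _ => false) r) x ∧
      Rc_kind (Sum.elim (fun _ => true) (fun _ => false) c) x ∧
      (x = 0 ∨ x = 1 ∨ x = -1 ∨ ∃ w, x = X w) := by
  have h0 : ∀ b b' : Bool, Rc_kind b (0 : MvPolynomial (VV n k) R) ∧
      Rc_kind b' (0 : MvPolynomial (VV n k) R) ∧ ((0 : MvPolynomial (VV n k) R) = 0 ∨
      (0 : MvPolynomial (VV n k) R) = 1 ∨ (0 : MvPolynomial (VV n k) R) = -1 ∨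
      ∃ w, (0 : MvPolynomial (VV n k) R) = X w) := by
    intro b b'
    have h := Rc_kind_C (Y := CY n k × CY n k) (Z := CZ n × CZ n) b (0 : R)
    have h' := Rc_kind_C (Y := CY n k × CY n k) (Z := CZ n × CZ n) b' (0 : R)
    rw [C_0] at h h'
    exact ⟨h, h', Or.inl rfl⟩
  have h1 : ∀ b b' : Bool, Rc_kind b (1 : MvPolynomial (VV n k) R) ∧
      Rc_kind b' (1 : MvPolynomial (VV n k) R) ∧ ((1 : MvPolynomial (VV n k) R) = 0 ∨
      (1 : MvPolynomial (VV n k) R) = 1 ∨ (1 : MvPolynomial (VV n k) R) = -1 ∨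
      ∃ w, (1 : MvPolynomial (VV n k) R) = X w) := by
    intro b b'
    have h := Rc_kind_C (Y := CY n k × CY n k) (Z := CZ n × CZ n) b (1 : R)
    have h' := Rc_kind_C (Y := CY n k × CY n k) (Z := CZ n × CZ n) b' (1 : R)
    rw [C_1] at h h'
    exact ⟨h, h', Or.inr (Or.inl rfl)⟩
  have h2 : ∀ b b' : Bool, Rc_kind b (-1 : MvPolynomial (VV n k) R) ∧
      Rc_kind b' (-1 : MvPolynomial (VV n k) R) ∧ ((-1 : MvPolynomial (VV n k) R) = 0 ∨
      (-1 : MvPolynomial (VV n k) R) = 1 ∨ (-1 : MvPolynomial (VV n k) R) = -1 ∨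
      ∃ w, (-1 : MvPolynomial (VV n k) R) = X w) := by
    intro b b'
    have h := Rc_kind_C (Y := CY n k × CY n k) (Z := CZ n × CZ n) b (-1 : R)
    have h' := Rc_kind_C (Y := CY n k × CY n k) (Z := CZ n × CZ n) b' (-1 : R)
    rw [C_neg, C_1] at h h'
    exact ⟨h, h', Or.inr (Or.inr (Or.inl rfl))⟩
  rw [hx]
  rcases r with r | r | ⟨a, e⟩ | u <;> rcases c with ⟨j, b⟩ | ⟨j, b⟩ <;> simp only [GM]
  · by_cases h : sd r = b
    · rw [if_pos h]
      have h3 : (X (Sum.inl (r, j)) : MvPolynomial (VV n k) R) = rename Sum.inl (X (r, j)) := by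
        rw [rename_X]
      refine ⟨?_, ?_, Or.inr (Or.inr (Or.inr ⟨_, rfl⟩))⟩
      · exact ⟨_, h3⟩
      · exact ⟨_, h3⟩
    · rw [if_neg h]
      exact h0 _ _
  · exact ⟨(h0 _ true).1, (h0 _ true).1, Or.inl trivial⟩
  · exact ⟨(h0 _ true).1, (h0 _ true).1, Or.inl trivial⟩
  · by_cases h : r.1 = b
    · rw [if_pos h]
      have h3 : (X (Sum.inr (r, j)) : MvPolynomial (VV n k) R) = rename Sum.inr (X (r, j)) := by
        rw [rename_X]
      refine ⟨?_, ?_, Or.inr (Or.inr (Or.inr ⟨_, rfl⟩))⟩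
      · exact ⟨_, h3⟩
      · exact ⟨_, h3⟩
    · rw [if_neg h]
      exact h0 _ _
  · split_ifs
    · exact h2 _ _
    · exact h1 _ _
    · exact h0 _ _
  · split_ifs
    · exact h2 _ _
    · exact h1 _ _
    · exact h0 _ _
  · split_ifs
    · exact h1 _ _
    · exact h0 _ _
  · exact ⟨(h0 _ true).1, (h0 _ true).1, Or.inl trivial⟩

/-- The hard polynomial is a projection of the permanent; every row and every column has one
kind. -/
theorem Rc_scal (k : Type) [Field k] [CharZero k] (N n kk : ℕ) (hN : 4 * (2 * n + kk) ≤ N) :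
    ∃ (θ : Fin N × Fin N → MvPolynomial (VV n kk) k⟦X⟧) (κr κc : Fin N → Bool),
      (∀ v, θ v = 0 ∨ θ v = 1 ∨ θ v = -1 ∨ ∃ w, θ v = X w) ∧
      (∀ v, Rc_kind (κr v.1) (θ v)) ∧ (∀ v, Rc_kind (κc v.2) (θ v)) ∧
      ∃ c₀ : k, c₀ ≠ 0 ∧
        aeval θ (gperm k⟦X⟧ N) = C (PowerSeries.C c₀) * PC k⟦X⟧ n kk := by
  have hR : Fintype.card (GR n kk ⊕ Fin (N - 4 * (2 * n + kk))) = N := by
    simp only [Fintype.card_sum, Fintype.card_prod, Fintype.card_bool, Fintype.card_fin]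
    omega
  have hC : Fintype.card (GC n kk ⊕ Fin (N - 4 * (2 * n + kk))) = N := by
    simp only [Fintype.card_sum, Fintype.card_prod, Fintype.card_bool, Fintype.card_fin]
    omega
  let er := Fintype.equivFinOfCardEq hR
  let ec := Fintype.equivFinOfCardEq hC
  let M : GR n kk ⊕ Fin (N - 4 * (2 * n + kk)) → GC n kk ⊕ Fin (N - 4 * (2 * n + kk)) →
      MvPolynomial (VV n kk) k⟦X⟧ :=
    Proj_M (N - 4 * (2 * n + kk)) (GM (fun i j => X (Sum.inl (i, j))) (fun i j => X (Sum.inr (i, j))))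
  let kr : GR n kk ⊕ Fin (N - 4 * (2 * n + kk)) → Bool :=
    Sum.elim (Sum.elim (fun _ => true) (fun _ => false)) (fun _ => true)
  let kc : GC n kk ⊕ Fin (N - 4 * (2 * n + kk)) → Bool :=
    Sum.elim (Sum.elim (fun _ => true) (fun _ => false)) (fun _ => true)
  have hM : ∀ r c, Rc_kind (kr r) (M r c) ∧ Rc_kind (kc c) (M r c) ∧
      (M r c = 0 ∨ M r c = 1 ∨ M r c = -1 ∨ ∃ w, M r c = X w) := by
    have h0 : ∀ b b' : Bool, Rc_kind b (0 : MvPolynomial (VV n kk) k⟦X⟧) ∧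
        Rc_kind b' (0 : MvPolynomial (VV n kk) k⟦X⟧) := by
      intro b b'
      have h := Rc_kind_C (Y := CY n kk × CY n kk) (Z := CZ n × CZ n) b (0 : k⟦X⟧)
      have h' := Rc_kind_C (Y := CY n kk × CY n kk) (Z := CZ n × CZ n) b' (0 : k⟦X⟧)
      rw [C_0] at h h'
      exact ⟨h, h'⟩
    have h1 : ∀ b b' : Bool, Rc_kind b (1 : MvPolynomial (VV n kk) k⟦X⟧) ∧
        Rc_kind b' (1 : MvPolynomial (VV n kk) k⟦X⟧) := by
      intro b b'
      have h := Rc_kind_C (Y := CY n kk × CY n kk) (Z := CZ n × CZ n) b (1 : k⟦X⟧)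
      have h' := Rc_kind_C (Y := CY n kk × CY n kk) (Z := CZ n × CZ n) b' (1 : k⟦X⟧)
      rw [C_1] at h h'
      exact ⟨h, h'⟩
    rintro (r | i) (c | j)
    · exact Rc_GM n kk r c _ rfl
    · exact ⟨(h0 _ true).1, (h0 _ true).1, Or.inl rfl⟩
    · exact ⟨(h0 _ true).1, (h0 _ true).1, Or.inl rfl⟩
    · simp only [M, Proj_M]
      split_ifs
      · exact ⟨(h1 _ true).1, (h1 _ true).1, Or.inr (Or.inl rfl)⟩
      · exact ⟨(h0 _ true).1, (h0 _ true).1, Or.inl rfl⟩
  refine ⟨fun v => M (er.symm v.2) (ec.symm v.1), fun a => kc (ec.symm a), fun b => kr (er.symm b),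
    fun v => (hM _ _).2.2, fun v => (hM _ _).2.1, fun v => (hM _ _).1, (-1) ^ n * 4 ^ n, ?_, ?_⟩
  · exact mul_ne_zero (pow_ne_zero _ (by norm_num)) (pow_ne_zero _ (by norm_num))
  · classical
    have hFt : Fintype (GR n kk ⊕ Fin (N - 4 * (2 * n + kk)) ≃
        GC n kk ⊕ Fin (N - 4 * (2 * n + kk))) := Equiv.instFintype
    have hA : (Matrix.of fun i j : Fin N => M (er.symm j) (ec.symm i)).permanent =
        (-1) ^ n * 4 ^ n * PC k⟦X⟧ n kk := by
      rw [Proj_perm N er ec, Proj_block, D3.pr_GadCancel _ n kk, D3.pr_GadBij _ n kk, PC_prod]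
    have h2 : aeval (fun v : Fin N × Fin N => M (er.symm v.2) (ec.symm v.1)) (gperm k⟦X⟧ N) =
        (Matrix.of fun i j : Fin N => M (er.symm j) (ec.symm i)).permanent := by
      unfold gperm
      have := map_permanent' (aeval (fun v : Fin N × Fin N => M (er.symm v.2) (ec.symm v.1)) :
        MvPolynomial (Fin N × Fin N) k⟦X⟧ →ₐ[k⟦X⟧] MvPolynomial _ k⟦X⟧).toRingHom
        (Matrix.of fun i j => (X (i, j) : MvPolynomial (Fin N × Fin N) k⟦X⟧))
      simp only [AlgHom.toRingHom_eq_coe, RingHom.coe_coe, Matrix.of_apply, aeval_X] at this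
      rw [this]
    rw [h2, hA]
    congr 1
    simp only [map_mul, map_pow, map_neg, map_one]
    congr 2

end Pool.Agent.Work.MP_499dc6_lc.Fib
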