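import Pool.Agent.Work.MP_499dc6_lc.Fib.RcB

/-!
# Row and column functions in circuits of bounded depth: the upper bound
-/

namespace Pool.Agent.Work.MP_499dc6_lc.Fib

open MvPolynomial Finset
open Pool.Agent.Work.MP_499dc6_lc.CD
open Pool.Agent.Work.MP_499dc6_lc.D3

open scoped PowerSeries

/-- A product of polynomials of single rows and single columns. -/
def IsRCprod {K : Type} [Field K] {N : ℕ} (U : MvPolynomial (Fin N × Fin N) K) : Prop :=
  ∃ f g : Fin N → MvPolynomial (Fin N) K,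
    U = (∏ a, rename (fun b => (a, b)) (f a)) * ∏ b, rename (fun a => (a, b)) (g b)

/-- A sum of polynomials of single rows and single columns. -/
def IsRCsum {K : Type} [Field K] {N : ℕ} (U : MvPolynomial (Fin N × Fin N) K) : Prop :=
  ∃ f g : Fin N → MvPolynomial (Fin N) K,
    U = (∑ a, rename (fun b => (a, b)) (f a)) + ∑ b, rename (fun a => (a, b)) (g b)

/-- Sums and products of free inputs and of the gates in `J`. -/
def BasicR {K : Type} [Field K] {N s : ℕ} (e : ℕ) (F : Fin s → MvPolynomial (Fin N × Fin N) K)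
    (J : Finset (Fin s)) (B : MvPolynomial (Fin N × Fin N) K) : Prop :=
  (∃ (l U : MvPolynomial (Fin N × Fin N) K) (c : Fin s → K), l.totalDegree ≤ e ∧ IsRCsum U ∧
    (∀ j, c j ≠ 0 → j ∈ J) ∧ B = l + U + ∑ j, C (c j) * F j) ∨
  ∃ (U : MvPolynomial (Fin N × Fin N) K) (k : Fin s → ℕ), IsRCprod U ∧
    (∀ j, k j ≠ 0 → j ∈ J) ∧ B = U * ∏ j, F j ^ k j

/-- Circuits with row and column functions as free inputs. -/
def CktR {K : Type} [Field K] {N s : ℕ} (r e : ℕ) (F : Fin s → MvPolynomial (Fin N × Fin N) K)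
    (d : Fin s → ℕ) : Prop :=
  ∀ i, ∃ (U : MvPolynomial (Fin N × Fin N) K) (B : Fin r → MvPolynomial (Fin N × Fin N) K)
    (Q : MvPolynomial (Fin r) K), IsRCprod U ∧ F i = U * aeval B Q ∧
    ((∀ a, IsRCsum (B a) ∨ IsRCprod (B a)) ∨ (1 ≤ d i ∧ ∀ a, BasicR e F (Low d i) (B a)))

theorem Rc_kind_aeval {σ K Y Z : Type} [Field K] (b : Bool) (η : σ → MvPolynomial (Y ⊕ Z) K)
    (h : ∀ v, Rc_kind b (η v)) (p : MvPolynomial σ K) : Rc_kind b (aeval η p) := by
  unfold Rc_kind at h ⊢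
  split_ifs with hb
  · simp only [if_pos hb] at h
    choose q hq using h
    refine ⟨aeval q p, ?_⟩
    rw [comp_aeval_apply]
    congr 2
    funext v
    exact hq v
  · simp only [if_neg hb] at h
    choose q hq using h
    refine ⟨aeval q p, ?_⟩
    rw [comp_aeval_apply]
    congr 2
    funext v
    exact hq v

theorem Rc_split {K Y Z : Type} [Field K] (b : Bool) (p : MvPolynomial (Y ⊕ Z) K)
    (h : Rc_kind b p) : ∃ (f : MvPolynomial Y K) (g : MvPolynomial Z K),
      p = rename Sum.inl f * rename Sum.inr g := by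
  unfold Rc_kind at h
  split_ifs at h with hb
  · obtain ⟨q, hq⟩ := h
    exact ⟨q, 1, by rw [hq, map_one, mul_one]⟩
  · obtain ⟨q, hq⟩ := h
    exact ⟨1, q, by rw [hq, map_one, one_mul]⟩

theorem Rc_split_prod {K Y Z : Type} [Field K] {N : ℕ} (b : Fin N → Bool)
    (p : Fin N → MvPolynomial (Y ⊕ Z) K) (h : ∀ a, Rc_kind (b a) (p a)) :
    ∃ (f : MvPolynomial Y K) (g : MvPolynomial Z K),
      ∏ a, p a = rename Sum.inl f * rename Sum.inr g := by
  choose f g hfg using fun a => Rc_split (b a) (p a) (h a)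
  refine ⟨∏ a, f a, ∏ a, g a, ?_⟩
  rw [map_prod, map_prod, ← Finset.prod_mul_distrib]
  exact Finset.prod_congr rfl fun a _ => hfg a

theorem Rc_splitS {K Y Z : Type} [Field K] (b : Bool) (p : MvPolynomial (Y ⊕ Z) K)
    (h : Rc_kind b p) : ∃ (f : MvPolynomial Y K) (g : MvPolynomial Z K),
      p = rename Sum.inl f + rename Sum.inr g := by
  unfold Rc_kind at h
  split_ifs at h with hb
  · obtain ⟨q, hq⟩ := h
    exact ⟨q, 0, by rw [hq, map_zero, add_zero]⟩
  · obtain ⟨q, hq⟩ := h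
    exact ⟨0, q, by rw [hq, map_zero, zero_add]⟩

theorem Rc_split_sum {K Y Z : Type} [Field K] {N : ℕ} (b : Fin N → Bool)
    (p : Fin N → MvPolynomial (Y ⊕ Z) K) (h : ∀ a, Rc_kind (b a) (p a)) :
    ∃ (f : MvPolynomial Y K) (g : MvPolynomial Z K),
      ∑ a, p a = rename Sum.inl f + rename Sum.inr g := by
  choose f g hfg using fun a => Rc_splitS (b a) (p a) (h a)
  refine ⟨∑ a, f a, ∑ a, g a, ?_⟩
  rw [map_sum, map_sum, ← Finset.sum_add_distrib]
  exact Finset.sum_congr rfl fun a _ => hfg a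

theorem Rc_subprod {K Y Z : Type} [Field K] {N : ℕ}
    (η : Fin N × Fin N → MvPolynomial (Y ⊕ Z) K) (κr κc : Fin N → Bool)
    (hr : ∀ v, Rc_kind (κr v.1) (η v)) (hc : ∀ v, Rc_kind (κc v.2) (η v))
    (U : MvPolynomial (Fin N × Fin N) K) (hU : IsRCprod U) :
    ∃ (f : MvPolynomial Y K) (g : MvPolynomial Z K),
      aeval η U = rename Sum.inl f * rename Sum.inr g := by
  obtain ⟨f, g, hU⟩ := hU
  obtain ⟨f1, g1, e1⟩ := Rc_split_prod κr
    (fun a => aeval η (rename (fun b => (a, b)) (f a) : MvPolynomial (Fin N × Fin N) K)) (by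
      intro a
      rw [aeval_rename]
      exact Rc_kind_aeval (κr a) _ (fun b => hr (a, b)) (f a))
  obtain ⟨f2, g2, e2⟩ := Rc_split_prod κc
    (fun b => aeval η (rename (fun a => (a, b)) (g b) : MvPolynomial (Fin N × Fin N) K)) (by
      intro b
      rw [aeval_rename]
      exact Rc_kind_aeval (κc b) _ (fun a => hc (a, b)) (g b))
  refine ⟨f1 * f2, g1 * g2, ?_⟩
  rw [hU, map_mul, map_prod, map_prod, e1, e2, map_mul, map_mul]
  ring

theorem Rc_subsum {K Y Z : Type} [Field K] {N : ℕ}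
    (η : Fin N × Fin N → MvPolynomial (Y ⊕ Z) K) (κr κc : Fin N → Bool)
    (hr : ∀ v, Rc_kind (κr v.1) (η v)) (hc : ∀ v, Rc_kind (κc v.2) (η v))
    (U : MvPolynomial (Fin N × Fin N) K) (hU : IsRCsum U) :
    ∃ (f : MvPolynomial Y K) (g : MvPolynomial Z K),
      aeval η U = rename Sum.inl f + rename Sum.inr g := by
  obtain ⟨f, g, hU⟩ := hU
  obtain ⟨f1, g1, e1⟩ := Rc_split_sum κr
    (fun a => aeval η (rename (fun b => (a, b)) (f a) : MvPolynomial (Fin N × Fin N) K)) (by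
      intro a
      rw [aeval_rename]
      exact Rc_kind_aeval (κr a) _ (fun b => hr (a, b)) (f a))
  obtain ⟨f2, g2, e2⟩ := Rc_split_sum κc
    (fun b => aeval η (rename (fun a => (a, b)) (g b) : MvPolynomial (Fin N × Fin N) K)) (by
      intro b
      rw [aeval_rename]
      exact Rc_kind_aeval (κc b) _ (fun a => hc (a, b)) (g b))
  refine ⟨f1 + f2, g1 + g2, ?_⟩
  rw [hU, map_add, map_sum, map_sum, e1, e2, map_add, map_add]
  ring

/-- Substituting affine forms with kinds into a circuit. The products of row and column functions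
in `L` contain those which occur in the product basic polynomials. -/
theorem Rc_sub {K Y Z : Type} [Field K] {N s : ℕ} (r e : ℕ)
    (F : Fin s → MvPolynomial (Fin N × Fin N) K) (d : Fin s → ℕ) (hF : CktR r e F d) :
    ∃ L : Fin s → Fin r → MvPolynomial (Fin N × Fin N) K,
      ∀ (η : Fin N × Fin N → MvPolynomial (Y ⊕ Z) K) (κr κc : Fin N → Bool),
      (∀ v, (η v).totalDegree ≤ 1) → (∀ v, Rc_kind (κr v.1) (η v)) →
      (∀ v, Rc_kind (κc v.2) (η v)) →
      (∀ i a, aeval η (L i a) = 0 ∨ constantCoeff (aeval η (L i a)) ≠ 0) →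
      CktB r e (fun i => aeval η (F i)) d := by
  classical
  choose U B Q hU hFi hB using hF
  have hL : ∀ i a, ∃ L : MvPolynomial (Fin N × Fin N) K, BasicR e F (Low d i) (B i a) →
      ∀ (η : Fin N × Fin N → MvPolynomial (Y ⊕ Z) K) (κr κc : Fin N → Bool),
      (∀ v, (η v).totalDegree ≤ 1) → (∀ v, Rc_kind (κr v.1) (η v)) →
      (∀ v, Rc_kind (κc v.2) (η v)) →
      (aeval η L = 0 ∨ constantCoeff (aeval η L) ≠ 0) →
      BasicB e (fun i => aeval η (F i)) (Low d i) (aeval η (B i a)) := by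
    intro i a
    by_cases h : BasicR e F (Low d i) (B i a)
    · rcases h with ⟨l, V, c, hl, hV, hc, hBe⟩ | ⟨V, k, hV, hk, hBe⟩
      · refine ⟨0, fun _ η κr κc h1 h2 h3 _ => Or.inl ?_⟩
        obtain ⟨f, g, hfg⟩ := Rc_subsum η κr κc h2 h3 V hV
        refine ⟨aeval η l, f, g, c, Sub_deg e η h1 l hl, hc, ?_⟩
        rw [hBe, map_add, map_add, hfg, map_sum]
        congr 1
        refine Finset.sum_congr rfl fun j _ => ?_
        rw [map_mul, aeval_C]
        rfl
      · refine ⟨V, fun _ η κr κc h1 h2 h3 h4 => Or.inr ?_⟩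
        obtain ⟨f, g, hfg⟩ := Rc_subprod η κr κc h2 h3 V hV
        refine ⟨f, g, k, ?_, hk, ?_⟩
        · rw [← hfg]
          exact h4
        · rw [hBe, map_mul, hfg, map_prod]
          congr 1
          exact Finset.prod_congr rfl fun j _ => map_pow _ _ _
    · exact ⟨0, fun h' => absurd h' h⟩
  choose L hL using hL
  refine ⟨L, fun η κr κc h1 h2 h3 h4 i => ?_⟩
  obtain ⟨f, g, hfg⟩ := Rc_subprod η κr κc h2 h3 (U i) (hU i)
  refine ⟨f, g, fun a => aeval η (B i a), Q i, ?_, ?_⟩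
  · show aeval η (F i) = _
    rw [hFi i, map_mul, hfg, comp_aeval_apply]
  · rcases hB i with hB | ⟨hd, hB⟩
    · left
      intro a
      rcases hB a with h | h
      · obtain ⟨f', g', h'⟩ := Rc_subsum η κr κc h2 h3 (B i a) h
        exact ⟨f', g', Or.inl h'⟩
      · obtain ⟨f', g', h'⟩ := Rc_subprod η κr κc h2 h3 (B i a) h
        exact ⟨f', g', Or.inr h'⟩
    · exact Or.inr ⟨hd, fun a => hL i a (hB a) η κr κc h1 h2 h3 (h4 i a)⟩

theorem Rc_kind_tr {K Y Z : Type} [Field K] [DecidableEq (Y ⊕ Z)] (A : Finset (Y ⊕ Z))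
    (x : Y ⊕ Z → K) (b : Bool) (p : MvPolynomial (Y ⊕ Z) K) (h : Rc_kind b p) :
    Rc_kind b (aeval (fun w => if w ∈ A then X w + C (x w) else (0 : MvPolynomial (Y ⊕ Z) K))
      p) := by
  unfold Rc_kind at h
  split_ifs at h with hb
  · obtain ⟨q, rfl⟩ := h
    rw [aeval_rename]
    refine Rc_kind_aeval b _ (fun y => ?_) q
    unfold Rc_kind
    rw [if_pos hb]
    refine ⟨if Sum.inl y ∈ A then X y + C (x (Sum.inl y)) else 0, ?_⟩
    simp only [Function.comp]
    split_ifs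
    · rw [map_add, rename_X, rename_C]
    · rw [map_zero]
  · obtain ⟨q, rfl⟩ := h
    rw [aeval_rename]
    refine Rc_kind_aeval b _ (fun y => ?_) q
    unfold Rc_kind
    rw [if_neg hb]
    refine ⟨if Sum.inr y ∈ A then X y + C (x (Sum.inr y)) else 0, ?_⟩
    simp only [Function.comp]
    split_ifs
    · rw [map_add, rename_X, rename_C]
    · rw [map_zero]

theorem Rc_kind_map {R S Y Z : Type} [CommRing R] [CommRing S] (φ : R →+* S) (b : Bool)
    (p : MvPolynomial (Y ⊕ Z) R) (h : Rc_kind b p) : Rc_kind b (MvPolynomial.map φ p) := by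
  unfold Rc_kind at h ⊢
  split_ifs at h ⊢ with hb
  · obtain ⟨q, rfl⟩ := h
    exact ⟨MvPolynomial.map φ q, by rw [map_rename]⟩
  · obtain ⟨q, rfl⟩ := h
    exact ⟨MvPolynomial.map φ q, by rw [map_rename]⟩

/-- The upper bound. -/
theorem Rc_upper (k : Type) [Field k] [CharZero k] (N s h r e : ℕ)
    (F : Fin s → MvPolynomial (Fin N × Fin N) (LaurentSeries k)) (d : Fin s → ℕ)
    (c : Fin s → LaurentSeries k) (R : MvPolynomial (Fin N × Fin N) k⟦X⟧)
    (n kk : ℕ) (P : ℝ) (ρ : ℕ → ℝ) (t : ℕ → ℕ) (hC : CktR r e F d) (hd : ∀ i, d i ≤ h)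
    (l0 U0 : MvPolynomial (Fin N × Fin N) (LaurentSeries k)) (hU0 : IsRCsum U0)
    (hsum : l0 + U0 + ∑ i, C (c i) * F i =
      MvPolynomial.map (algebraMap k⟦X⟧ (LaurentSeries k)) (gperm k⟦X⟧ N + C PowerSeries.X * R))
    (hkk : 1 ≤ kk) (h3 : 3 * kk ≤ n) (h4 : 4 * (2 * n + kk) ≤ N)
    (hl0 : l0.totalDegree < 2 * (n + kk) + 2 * n)
    (hPars : Pars (Real.log (3 / 2)) (Real.log (3 / 2) * (n + kk) / n) (s + 1) e
      (2 * (n + kk) + 2 * n) h P ρ t)
    (hP2 : 3 * (((2 * (n + kk) + 2 * n : ℕ) : ℝ) + 1) ^ 2 *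
      (((2 * (n + kk) + 2 * n : ℕ) : ℝ) + 1) ^ (6 * r + 10) ≤ P) (A : Finset (VV n kk)) :
    ∃ R' : MvPolynomial (VV n kk) k⟦X⟧,
      BB (Real.log (3 / 2)) (Real.log (3 / 2) * (n + kk) / n)
        (MvPolynomial.map (algebraMap k⟦X⟧ (LaurentSeries k))
          (PA k⟦X⟧ n kk A + C PowerSeries.X * R'))
        (s * P * Real.exp (-(ρ h * ((2 * (n + kk) + 2 * n : ℕ) : ℝ)))) := by
  have := charZero_laurent k
  obtain ⟨θ, κr, κc, hθ, hkr, hkc, c₀, hc₀, hperm⟩ := Rc_scal k N n kk h4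
  obtain ⟨φ, hφ⟩ : ∃ φ : k⟦X⟧ →+* LaurentSeries k, φ = algebraMap k⟦X⟧ (LaurentSeries k) :=
    ⟨_, rfl⟩
  rw [← hφ] at hsum
  let θK : Fin N × Fin N → MvPolynomial (VV n kk) (LaurentSeries k) :=
    fun v => MvPolynomial.map φ (θ v)
  have hθK : ∀ v, θK v = 0 ∨ θK v = 1 ∨ θK v = -1 ∨ ∃ w, θK v = X w := by
    intro v
    rcases hθ v with h | h | h | ⟨w, h⟩
    · left; simp [θK, h]
    · right; left; simp [θK, h]
    · right; right; left; simp [θK, h]
    · right; right; right; exact ⟨w, by simp [θK, h]⟩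
  obtain ⟨a, ha⟩ : ∃ a, a = 2 * (n + kk) := ⟨_, rfl⟩
  obtain ⟨b, hb⟩ : ∃ b, b = 2 * n := ⟨_, rfl⟩
  have hn0 : 0 < n := by omega
  obtain ⟨be, hbe⟩ : ∃ be : ℝ, be = Real.log (3 / 2) * (n + kk) / n := ⟨_, rfl⟩
  rw [← ha, ← hb, ← hbe] at hPars
  rw [← ha, ← hb] at hP2 hl0
  rw [← hφ, ← ha, ← hb, ← hbe]
  have hbe1 : Real.log (3 / 2) ≤ be := by
    have hn : (0 : ℝ) < n := by exact_mod_cast hn0
    have hl : 0 ≤ Real.log (3 / 2 : ℝ) := Real.log_nonneg (by norm_num)
    rw [hbe, le_div_iff₀ hn]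
    have : (0 : ℝ) ≤ kk := Nat.cast_nonneg _
    nlinarith
  obtain ⟨L, hL⟩ := Rc_sub (Y := CY n kk × CY n kk) (Z := CZ n × CZ n) r e F d hC
  let G : Fin s → MvPolynomial (VV n kk) (LaurentSeries k) := fun i =>
    aeval (fun w => if w ∈ A then (X w : MvPolynomial (VV n kk) (LaurentSeries k)) else 0)
      (aeval θK (F i))
  let G2 : Fin s ⊕ (Fin s × Fin r) → MvPolynomial (VV n kk) (LaurentSeries k) := Sum.elim G
    fun p => aeval (fun w => if w ∈ A then (X w : MvPolynomial (VV n kk) (LaurentSeries k)) else 0)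
      (aeval θK (L p.1 p.2))
  obtain ⟨x, hx'⟩ := CD.pr_Transl (VV n kk) k (Fintype.card (Fin s ⊕ (Fin s × Fin r)))
    (fun a => G2 ((Fintype.equivFin _).symm a))
  rw [← hφ] at hx'
  have hx2 : ∀ p, G2 p ≠ 0 → constantCoeff (aeval (fun j =>
      (X j + C (φ (PowerSeries.C (x j))) : MvPolynomial (VV n kk) (LaurentSeries k)))
      (G2 p)) ≠ 0 := by
    intro p hp
    have h5 := hx' (Fintype.equivFin _ p)
    simp only [Equiv.symm_apply_apply] at h5
    exact h5 hp
  have hx : ∀ i, G i ≠ 0 → constantCoeff (aeval (fun j =>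
      (X j + C (φ (PowerSeries.C (x j))) : MvPolynomial (VV n kk) (LaurentSeries k)))
      (G i)) ≠ 0 := fun i => hx2 (Sum.inl i)
  let F' : Fin s → MvPolynomial (VV n kk) (LaurentSeries k) := fun i =>
    aeval (fun w => if w ∈ A then X w + C (φ (PowerSeries.C (x w))) else
      (0 : MvPolynomial (VV n kk) (LaurentSeries k))) (aeval θK (F i))
  have hF' : ∀ i, F' i = aeval (fun j => (X j + C (φ (PowerSeries.C (x j))) :
      MvPolynomial (VV n kk) (LaurentSeries k))) (G i) := fun i =>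
    (Up_comp A (fun w => φ (PowerSeries.C (x w))) (aeval θK (F i))).symm
  have hnz : ∀ i, F' i = 0 ∨ constantCoeff (F' i) ≠ 0 := by
    intro i
    by_cases hG : G i = 0
    · left
      rw [hF', hG, map_zero]
    · right
      rw [hF']
      exact hx i hG
  let η : Fin N × Fin N → MvPolynomial (VV n kk) (LaurentSeries k) := fun v =>
    aeval (fun w => if w ∈ A then X w + C (φ (PowerSeries.C (x w))) else
      (0 : MvPolynomial (VV n kk) (LaurentSeries k))) (θK v)
  have hη : ∀ v, (η v).totalDegree ≤ 1 := by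
    intro v
    have hψ : ∀ w : VV n kk, (if w ∈ A then X w + C (φ (PowerSeries.C (x w))) else
        (0 : MvPolynomial (VV n kk) (LaurentSeries k))).totalDegree ≤ 1 := by
      intro w
      split_ifs with h
      · refine (totalDegree_add _ _).trans (max_le ?_ ?_)
        · rw [totalDegree_X]
        · rw [totalDegree_C]; exact Nat.zero_le _
      · rw [totalDegree_zero]; exact Nat.zero_le _
    simp only [η]
    rcases hθK v with h | h | h | ⟨w, h⟩
    · rw [h, map_zero, totalDegree_zero]; exact Nat.zero_le _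
    · rw [h, map_one, totalDegree_one]; exact Nat.zero_le _
    · rw [h, map_neg, map_one, totalDegree_neg, totalDegree_one]; exact Nat.zero_le _
    · rw [h, aeval_X]; exact hψ w
  have hF'η : F' = fun i => aeval η (F i) := by
    funext i
    simp only [F', η]
    rw [comp_aeval_apply]
  have hkr' : ∀ v, Rc_kind (κr v.1) (η v) := fun v =>
    Rc_kind_tr A _ _ _ (Rc_kind_map φ _ _ (hkr v))
  have hkc' : ∀ v, Rc_kind (κc v.2) (η v) := fun v =>
    Rc_kind_tr A _ _ _ (Rc_kind_map φ _ _ (hkc v))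
  have hCkt : CktB r e F' d := by
    rw [hF'η]
    refine hL η κr κc hη hkr' hkc' fun i a => ?_
    have e1 : aeval η (L i a) = aeval (fun j => (X j + C (φ (PowerSeries.C (x j))) :
        MvPolynomial (VV n kk) (LaurentSeries k))) (G2 (Sum.inr (i, a))) := by
      simp only [G2, Sum.elim_inr, η]
      rw [Up_comp A (fun w => φ (PowerSeries.C (x w))) (aeval θK (L i a)), comp_aeval_apply]
    rw [e1]
    by_cases h5 : G2 (Sum.inr (i, a)) = 0
    · left
      rw [h5, map_zero]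
    · exact Or.inr (hx2 _ h5)
  have hInd' := Rc_ind (CY n kk × CY n kk) (CZ n × CZ n) (LaurentSeries k) be P s r e h
    (a + b) ρ t F' d hbe1 hPars hP2 hCkt hd hnz
  have hP0 : 0 ≤ P := le_trans (by positivity) hP2
  have hBB : ∀ i, BB (Real.log (3 / 2)) be (bc a b (F' i))
      (P * Real.exp (-(ρ h * ((a + b : ℕ) : ℝ)))) := by
    intro i
    refine BB.mono ((hInd' i).1 a b (by omega) le_rfl) ?_
    have h5 := Up_rho hPars (d i) (hd i)
    gcongr
  -- the sum of the gates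
  let ρP : VV n kk → MvPolynomial (VV n kk) k⟦X⟧ := fun w =>
    if w ∈ A then (X w : MvPolynomial (VV n kk) k⟦X⟧) else 0
  let trP : VV n kk → MvPolynomial (VV n kk) k⟦X⟧ := fun j => X j + C (PowerSeries.C (x j))
  let R2 : MvPolynomial (VV n kk) k⟦X⟧ := aeval ρP (aeval θ R)
  have hρ : (fun w => if w ∈ A then (X w : MvPolynomial (VV n kk) (LaurentSeries k)) else 0) =
      fun w => MvPolynomial.map φ (ρP w) := by
    funext w
    simp only [ρP]
    split_ifs
    · rw [map_X]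
    · rw [map_zero]
  have htr : (fun j => (X j + C (φ (PowerSeries.C (x j))) :
      MvPolynomial (VV n kk) (LaurentSeries k))) = fun j => MvPolynomial.map φ (trP j) := by
    funext j
    simp [trP]
  have hsumF : aeval η (l0 + U0) + ∑ i, C (c i) * F' i = MvPolynomial.map φ (aeval trP
      (C (PowerSeries.C c₀) * PA k⟦X⟧ n kk A + C PowerSeries.X * R2)) := by
    have e1 : aeval η (l0 + U0) + ∑ i, C (c i) * F' i = aeval (fun j => MvPolynomial.map φ (trP j))
        (aeval (fun w => MvPolynomial.map φ (ρP w)) (aeval (fun v => MvPolynomial.map φ (θ v))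
          (l0 + U0 + ∑ i, C (c i) * F i))) := by
      rw [map_add (aeval fun v => MvPolynomial.map φ (θ v)) (l0 + U0),
        map_add (aeval fun w => MvPolynomial.map φ (ρP w)),
        map_add (aeval fun j => MvPolynomial.map φ (trP j)), map_sum, map_sum, map_sum]
      congr 1
      · rw [← hρ, ← htr, Up_comp A (fun w => φ (PowerSeries.C (x w)))]
        simp only [η]
        rw [comp_aeval_apply]
      refine Finset.sum_congr rfl fun i _ => ?_
      rw [hF', htr]
      simp only [G]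
      rw [hρ, map_mul, map_mul, map_mul, Up_aeval_C, Up_aeval_C, Up_aeval_C]
    have e2 : aeval ρP (aeval θ (gperm k⟦X⟧ N + C PowerSeries.X * R)) =
        C (PowerSeries.C c₀) * PA k⟦X⟧ n kk A + C PowerSeries.X * R2 := by
      rw [aeval_lin, hperm, aeval_lin, map_mul, Up_aeval_C, (pr_PA n kk A).1]
    rw [e1, hsum, aeval_map_map, aeval_map_map, aeval_map_map, e2]
  have hfree : bc a b (aeval η (l0 + U0)) = 0 := by
    obtain ⟨f, g, hfg⟩ := Rc_subsum η κr κc hkr' hkc' U0 hU0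
    rw [map_add, bc_add, Bas_low l0.totalDegree a b _ (Sub_deg _ η hη l0 le_rfl) hl0, hfg, bc_add,
      Rc_inl f a b (by omega), Rc_inr g a b (by omega), add_zero, add_zero]
  refine ⟨bc a b (aeval trP (C (PowerSeries.C c₀⁻¹) * R2)), ?_⟩
  have hkey : MvPolynomial.map φ (PA k⟦X⟧ n kk A + C PowerSeries.X *
      bc a b (aeval trP (C (PowerSeries.C c₀⁻¹) * R2))) =
      ∑ i, C (φ (PowerSeries.C c₀⁻¹)) * (C (c i) * bc a b (F' i)) := by
    have h5 := bc_gen CD.pr_TransTop CD.pr_BiHom (fun j => (PowerSeries.C (x j) : k⟦X⟧))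
      (PA k⟦X⟧ n kk A) (C (PowerSeries.C c₀⁻¹) * R2) PowerSeries.X a b
      (by rw [ha, hb]; exact (pr_PA n kk A).2.1 _)
    have h6 : PA k⟦X⟧ n kk A + C PowerSeries.X * (C (PowerSeries.C c₀⁻¹) * R2) =
        C (PowerSeries.C c₀⁻¹) * (C (PowerSeries.C c₀) * PA k⟦X⟧ n kk A +
          C PowerSeries.X * R2) := by
      have h10 : (C (PowerSeries.C c₀⁻¹) : MvPolynomial (VV n kk) k⟦X⟧) *
          C (PowerSeries.C c₀) = 1 := by
        rw [← C_mul, ← map_mul, inv_mul_cancel₀ hc₀, map_one, C_1]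
      linear_combination (-(PA k⟦X⟧ n kk A)) * h10
    have h7 : aeval trP (C (PowerSeries.C c₀⁻¹) * (C (PowerSeries.C c₀) * PA k⟦X⟧ n kk A +
          C PowerSeries.X * R2)) = C (PowerSeries.C c₀⁻¹) * aeval trP
          (C (PowerSeries.C c₀) * PA k⟦X⟧ n kk A + C PowerSeries.X * R2) := by
      rw [map_mul, Up_aeval_C]
    have h8 : (fun j => (X j + C ((PowerSeries.C (x j) : k⟦X⟧)) :
        MvPolynomial (VV n kk) k⟦X⟧)) = trP := rfl
    rw [h8] at h5
    rw [← h5, h6, h7, ← bc_map, map_mul, map_C, ← hsumF, bc_C_mul, bc_add, hfree, zero_add,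
      bc_sum, Finset.mul_sum]
    refine Finset.sum_congr rfl fun i _ => ?_
    rw [bc_C_mul]
  rw [hkey]
  have h9 := BB_fin_sum (fun i => C (φ (PowerSeries.C c₀⁻¹)) * (C (c i) * bc a b (F' i)))
    fun i => CD.pr_BBsmul _ _ _ _ _ _ _ (φ (PowerSeries.C c₀⁻¹))
      (CD.pr_BBsmul _ _ _ _ _ _ _ (c i) (hBB i))
  refine BB.mono h9 (le_of_eq ?_)
  ring

end Pool.Agent.Work.MP_499dc6_lc.Fib
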