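import Pool.Agent.Work.MP_499dc6_lc.Fib.RcD

/-!
# Circuits of bounded depth, the whole trade-off: continued fractions with variable thresholds
-/

namespace Pool.Agent.Work.MP_499dc6_lc.Fib

open Finset

/-- Denominators: `q_1 = 1`, `q_2 = Λ_1`, `q_(j+3) = Λ_(j+2) q_(j+1) q_(j+2) + q_(j+1)`. -/
def qv (Λ : ℕ → ℕ) : ℕ → ℕ
  | 0 => 0
  | 1 => 1
  | 2 => Λ 1
  | (j + 3) => Λ (j + 2) * qv Λ (j + 1) * qv Λ (j + 2) + qv Λ (j + 1)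

/-- Numerators, the same recursion with the same partial quotients. -/
def pv (Λ : ℕ → ℕ) : ℕ → ℕ
  | 0 => 1
  | 1 => 1
  | 2 => Λ 1 + 1
  | (j + 3) => Λ (j + 2) * qv Λ (j + 1) * pv Λ (j + 2) + pv Λ (j + 1)

theorem Qv_rec (Λ : ℕ → ℕ) (j : ℕ) :
    qv Λ (j + 3) = Λ (j + 2) * qv Λ (j + 1) * qv Λ (j + 2) + qv Λ (j + 1) := rfl

theorem Qv_recp (Λ : ℕ → ℕ) (j : ℕ) :
    pv Λ (j + 3) = Λ (j + 2) * qv Λ (j + 1) * pv Λ (j + 2) + pv Λ (j + 1) := rfl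

theorem Qv_pos (Λ : ℕ → ℕ) (hΛ : ∀ i, 4 ≤ Λ i) : ∀ j, 1 ≤ qv Λ (j + 1)
  | 0 => le_rfl
  | 1 => by
    have : qv Λ (1 + 1) = Λ 1 := rfl
    have := hΛ 1
    omega
  | (j + 2) => by
    have h1 := Qv_pos Λ hΛ j
    rw [show j + 2 + 1 = j + 3 from rfl, Qv_rec]
    omega

theorem Qv_mono (Λ : ℕ → ℕ) (hΛ : ∀ i, 4 ≤ Λ i) (j : ℕ) : qv Λ j ≤ qv Λ (j + 1) := by
  match j with
  | 0 => exact Nat.zero_le _
  | 1 =>
    have h1 : qv Λ 1 = 1 := rfl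
    have h2 : qv Λ (1 + 1) = Λ 1 := rfl
    have := hΛ 1
    omega
  | (j + 2) =>
    rw [show j + 2 + 1 = j + 3 from rfl, Qv_rec]
    have h1 := Qv_pos Λ hΛ j
    have h2 : 1 ≤ Λ (j + 2) * qv Λ (j + 1) := Nat.mul_pos (by have := hΛ (j + 2); omega) h1
    have h3 : 1 * qv Λ (j + 2) ≤ Λ (j + 2) * qv Λ (j + 1) * qv Λ (j + 2) :=
      Nat.mul_le_mul_right _ h2
    omega

theorem Qv_four (Λ : ℕ → ℕ) (hΛ : ∀ i, 4 ≤ Λ i) (j : ℕ) : 4 * qv Λ j ≤ qv Λ (j + 2) := by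
  match j with
  | 0 => exact Nat.zero_le _
  | (j + 1) =>
    rw [show j + 1 + 2 = j + 3 from rfl, Qv_rec]
    have h1 : 1 ≤ qv Λ (j + 2) := Qv_pos Λ hΛ (j + 1)
    have h2 : 4 * qv Λ (j + 1) ≤ Λ (j + 2) * qv Λ (j + 1) := Nat.mul_le_mul_right _ (hΛ _)
    have h3 : Λ (j + 2) * qv Λ (j + 1) * 1 ≤ Λ (j + 2) * qv Λ (j + 1) * qv Λ (j + 2) :=
      Nat.mul_le_mul_left _ h1
    omega

theorem Qv_le (Λ : ℕ → ℕ) (hΛ : ∀ i, 4 ≤ Λ i) : ∀ j, qv Λ (j + 1) ≤ pv Λ (j + 1)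
  | 0 => le_rfl
  | 1 => by
    have h1 : qv Λ (1 + 1) = Λ 1 := rfl
    have h2 : pv Λ (1 + 1) = Λ 1 + 1 := rfl
    have := hΛ 1
    omega
  | (j + 2) => by
    have h1 := Qv_le Λ hΛ j
    have h2 := Qv_le Λ hΛ (j + 1)
    rw [show j + 2 + 1 = j + 3 from rfl, Qv_rec, Qv_recp]
    exact Nat.add_le_add (Nat.mul_le_mul_left _ h2) h1

theorem Qv_lt (Λ : ℕ → ℕ) (hΛ : ∀ i, 4 ≤ Λ i) : ∀ j, qv Λ (j + 2) < pv Λ (j + 2)
  | 0 => by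
    have h1 : qv Λ (0 + 2) = Λ 1 := rfl
    have h2 : pv Λ (0 + 2) = Λ 1 + 1 := rfl
    omega
  | (j + 1) => by
    have h1 := Qv_lt Λ hΛ j
    have h2 := Qv_le Λ hΛ j
    have h3 := Qv_pos Λ hΛ j
    rw [show j + 1 + 2 = j + 3 from rfl, Qv_rec, Qv_recp]
    have h4 : Λ (j + 2) * qv Λ (j + 1) * qv Λ (j + 2) < Λ (j + 2) * qv Λ (j + 1) * pv Λ (j + 2) :=
      Nat.mul_lt_mul_of_pos_left h1 (Nat.mul_pos (by have := hΛ (j + 2); omega) h3)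
    omega

theorem Qv_three (Λ : ℕ → ℕ) (hΛ : ∀ i, 4 ≤ Λ i) : ∀ j, 3 * pv Λ (j + 1) ≤ 4 * qv Λ (j + 1)
  | 0 => by
    have h1 : qv Λ (0 + 1) = 1 := rfl
    have h2 : pv Λ (0 + 1) = 1 := rfl
    omega
  | 1 => by
    have h1 : qv Λ (1 + 1) = Λ 1 := rfl
    have h2 : pv Λ (1 + 1) = Λ 1 + 1 := rfl
    have := hΛ 1
    omega
  | (j + 2) => by
    have h1 := Qv_three Λ hΛ j
    have h2 := Qv_three Λ hΛ (j + 1)
    rw [show j + 2 + 1 = j + 3 from rfl, Qv_rec, Qv_recp]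
    have h3 : Λ (j + 2) * qv Λ (j + 1) * (3 * pv Λ (j + 2)) ≤
        Λ (j + 2) * qv Λ (j + 1) * (4 * qv Λ (j + 2)) :=
      Nat.mul_le_mul_left _ h2
    have h4 : Λ (j + 2) * qv Λ (j + 1) * (3 * pv Λ (j + 2)) =
        3 * (Λ (j + 2) * qv Λ (j + 1) * pv Λ (j + 2)) := by ring
    have h5 : Λ (j + 2) * qv Λ (j + 1) * (4 * qv Λ (j + 2)) =
        4 * (Λ (j + 2) * qv Λ (j + 1) * qv Λ (j + 2)) := by ring
    omega

theorem Qv_det (Λ : ℕ → ℕ) : ∀ j,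
    (pv Λ (j + 1) : ℤ) * qv Λ j - pv Λ j * qv Λ (j + 1) = (-1) ^ (j + 1)
  | 0 => by
    have h1 : qv Λ (0 + 1) = 1 := rfl
    have h2 : pv Λ (0 + 1) = 1 := rfl
    have h3 : qv Λ 0 = 0 := rfl
    have h4 : pv Λ 0 = 1 := rfl
    rw [h1, h2, h3, h4]
    norm_num
  | 1 => by
    have h1 : qv Λ (1 + 1) = Λ 1 := rfl
    have h2 : pv Λ (1 + 1) = Λ 1 + 1 := rfl
    have h3 : qv Λ 1 = 1 := rfl
    have h4 : pv Λ 1 = 1 := rfl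
    rw [h1, h2, h3, h4]
    push_cast
    ring
  | (j + 2) => by
    have h1 := Qv_det Λ (j + 1)
    rw [show j + 1 + 1 = j + 2 from rfl] at h1
    rw [show j + 2 + 1 = j + 3 from rfl, Qv_rec, Qv_recp]
    have h2 : ((-1 : ℤ)) ^ (j + 3) = -(-1) ^ (j + 2) := by rw [pow_succ]; ring
    rw [h2, ← h1]
    push_cast
    ring

/-- Products of powers with Fibonacci exponents. -/
theorem Qv_fibprod (X : ℕ → ℝ) (j : ℕ) :
    ∏ i ∈ Icc 1 (j + 2), X i ^ Nat.fib (j + 3 - i) =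
      X (j + 2) * (∏ i ∈ Icc 1 j, X i ^ Nat.fib (j + 1 - i)) *
        ∏ i ∈ Icc 1 (j + 1), X i ^ Nat.fib (j + 2 - i) := by
  have e0 : ∏ i ∈ Icc 1 (j + 2), X i ^ Nat.fib (j + 3 - i) =
      (∏ i ∈ Icc 1 j, X i ^ Nat.fib (j + 3 - i)) * X (j + 1) * X (j + 2) := by
    rw [Finset.prod_Icc_succ_top (by omega : 1 ≤ j + 1 + 1),
      Finset.prod_Icc_succ_top (by omega : 1 ≤ j + 1)]
    have e1 : j + 3 - (j + 1 + 1) = 1 := by omega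
    have e2 : j + 3 - (j + 1) = 2 := by omega
    rw [e1, e2, Nat.fib_one, Nat.fib_two, pow_one, pow_one]
  have e3 : ∏ i ∈ Icc 1 (j + 1), X i ^ Nat.fib (j + 2 - i) =
      (∏ i ∈ Icc 1 j, X i ^ Nat.fib (j + 2 - i)) * X (j + 1) := by
    rw [Finset.prod_Icc_succ_top (by omega : 1 ≤ j + 1)]
    have e1 : j + 2 - (j + 1) = 1 := by omega
    rw [e1, Nat.fib_one, pow_one]
  rw [e0, e3]
  have e4 : ∏ i ∈ Icc 1 j, X i ^ Nat.fib (j + 3 - i) =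
      (∏ i ∈ Icc 1 j, X i ^ Nat.fib (j + 1 - i)) * ∏ i ∈ Icc 1 j, X i ^ Nat.fib (j + 2 - i) := by
    rw [← Finset.prod_mul_distrib]
    refine Finset.prod_congr rfl fun i hi => ?_
    rw [mem_Icc] at hi
    rw [← pow_add]
    congr 1
    have h1 : j + 3 - i = (j + 1 - i) + 2 := by omega
    have h2 : j + 2 - i = (j + 1 - i) + 1 := by omega
    rw [h1, h2, Nat.fib_add_two]
  rw [e4]
  ring

theorem Qv_grow (Λ : ℕ → ℕ) (hΛ : ∀ i, 4 ≤ Λ i) (X : ℕ → ℝ)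
    (hX : ∀ i, (Λ i : ℝ) + 1 ≤ X i) : ∀ j,
    (qv Λ (j + 1) : ℝ) ≤ ∏ i ∈ Icc 1 j, X i ^ Nat.fib (j + 1 - i)
  | 0 => by
    have h1 : qv Λ (0 + 1) = 1 := rfl
    rw [h1]
    simp
  | 1 => by
    have h1 : qv Λ (1 + 1) = Λ 1 := rfl
    rw [h1, Icc_self, Finset.prod_singleton]
    have := hX 1
    simp
    linarith
  | (j + 2) => by
    have h1 := Qv_grow Λ hΛ X hX j
    have h2 := Qv_grow Λ hΛ X hX (j + 1)
    have h3 : (1 : ℝ) ≤ qv Λ (j + 2) := by exact_mod_cast Qv_pos Λ hΛ (j + 1)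
    rw [show j + 2 + 1 = j + 3 from rfl, Qv_fibprod]
    have h4 : (qv Λ (j + 3) : ℝ) = Λ (j + 2) * qv Λ (j + 1) * qv Λ (j + 2) + qv Λ (j + 1) := by
      rw [Qv_rec]
      push_cast
      ring
    have h5 : (0 : ℝ) ≤ qv Λ (j + 1) := Nat.cast_nonneg _
    have h6 : (qv Λ (j + 1) : ℝ) ≤ qv Λ (j + 1) * qv Λ (j + 2) := le_mul_of_one_le_right h5 h3
    have h7 := hX (j + 2)
    have h8 : (0 : ℝ) ≤ (Λ (j + 2) : ℝ) := Nat.cast_nonneg _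
    calc (qv Λ (j + 3) : ℝ) ≤ (Λ (j + 2) + 1) * (qv Λ (j + 1) * qv Λ (j + 2)) := by
          rw [h4]
          linarith
      _ ≤ X (j + 2) * (qv Λ (j + 1) * qv Λ (j + 2)) :=
          mul_le_mul_of_nonneg_right h7 (by positivity)
      _ = X (j + 2) * qv Λ (j + 1) * qv Λ (j + 2) := by ring
      _ ≤ _ := by
          refine mul_le_mul (mul_le_mul_of_nonneg_left h1 (by linarith)) h2 (by positivity) ?_
          exact mul_nonneg (by linarith) (h5.trans h1)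

/-- The signed determinant with the last pair. -/
def CV_E (Λ : ℕ → ℕ) (h i : ℕ) : ℤ :=
  (-1) ^ (i + 1) * ((pv Λ (h + 1) : ℤ) * qv Λ i - (qv Λ (h + 1) : ℤ) * pv Λ i)

theorem CV_rec (Λ : ℕ → ℕ) (h i : ℕ) : CV_E Λ h (i + 1) =
    CV_E Λ h (i + 3) + Λ (i + 2) * qv Λ (i + 1) * CV_E Λ h (i + 2) := by
  unfold CV_E
  have h1 : (qv Λ (i + 3) : ℤ) = Λ (i + 2) * qv Λ (i + 1) * qv Λ (i + 2) + qv Λ (i + 1) := by
    rw [qv]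
    push_cast
    ring
  have h2 : (pv Λ (i + 3) : ℤ) = Λ (i + 2) * qv Λ (i + 1) * pv Λ (i + 2) + pv Λ (i + 1) := by
    rw [pv]
    push_cast
    ring
  rw [h1, h2]
  ring

theorem CV_pos (Λ : ℕ → ℕ) (h : ℕ) (hΛ : ∀ i, 4 ≤ Λ i) : ∀ k i, i + 1 + k = h →
    0 ≤ CV_E Λ h (i + 2) ∧ CV_E Λ h (i + 2) ≤ CV_E Λ h (i + 1) ∧ 1 ≤ CV_E Λ h (i + 1) := by
  intro k
  induction k with
  | zero =>
    intro i hi
    rw [add_zero] at hi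
    subst hi
    have h0 : CV_E Λ (i + 1) (i + 2) = 0 := by
      unfold CV_E
      ring
    have h1 : CV_E Λ (i + 1) (i + 1) = 1 := by
      unfold CV_E
      have h2 := Qv_det Λ (i + 1)
      have h3 : (pv Λ (i + 1 + 1) : ℤ) * qv Λ (i + 1) - (qv Λ (i + 1 + 1) : ℤ) * pv Λ (i + 1) =
          (-1) ^ (i + 1 + 1) := by
        rw [← h2]
        ring
      rw [h3, ← mul_pow]
      norm_num
    rw [h0, h1]
    norm_num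
  | succ k ih =>
    intro i hi
    obtain ⟨a1, a2, a3⟩ := ih (i + 1) (by omega)
    have b1 : CV_E Λ h (i + 1 + 1) = CV_E Λ h (i + 2) := rfl
    have b2 : CV_E Λ h (i + 1 + 2) = CV_E Λ h (i + 3) := rfl
    rw [b1, b2] at a2
    rw [b2] at a1
    rw [b1] at a3
    have h1 := CV_rec Λ h i
    have hq : (1 : ℤ) ≤ qv Λ (i + 1) := by exact_mod_cast Qv_pos Λ hΛ i
    have hΛ1 : (1 : ℤ) ≤ Λ (i + 2) := by
      have : 1 ≤ Λ (i + 2) := by have := hΛ (i + 2); omega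
      exact_mod_cast this
    have hA : (1 : ℤ) ≤ Λ (i + 2) * qv Λ (i + 1) := by nlinarith
    have h2 : CV_E Λ h (i + 2) ≤ Λ (i + 2) * qv Λ (i + 1) * CV_E Λ h (i + 2) := by nlinarith
    exact ⟨by linarith, by linarith, by linarith⟩

/-- Distance to the slope. -/
theorem CV_main (Λ : ℕ → ℕ) (h j u v : ℕ) (hΛ : ∀ i, 4 ≤ Λ i) (hj1 : 1 ≤ j) (hjh : j ≤ h)
    (hb : 2 * (u + v) ≤ qv Λ (j + 1)) :
    (((u + v : ℕ) : ℝ)) * qv Λ (h + 1) ≤ 8 * (qv Λ j : ℝ) * qv Λ (j + 1) *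
      |(u : ℝ) * qv Λ (h + 1) - v * pv Λ (h + 1)| := by
  obtain ⟨i, rfl⟩ : ∃ i, j = i + 1 := ⟨j - 1, by omega⟩
  obtain ⟨e0, e1, e2⟩ := CV_pos Λ h hΛ (h - (i + 1)) i (by omega)
  -- the numbers
  have ha1 : (1 : ℤ) ≤ qv Λ (i + 1) := by exact_mod_cast Qv_pos Λ hΛ i
  have hb1 : (1 : ℤ) ≤ qv Λ (i + 2) := by exact_mod_cast Qv_pos Λ hΛ (i + 1)
  have hQ1 : (1 : ℤ) ≤ qv Λ (h + 1) := by exact_mod_cast Qv_pos Λ hΛ h
  have hPQ : (pv Λ (h + 1) : ℤ) ≤ 2 * qv Λ (h + 1) := by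
    have c2 := Qv_three Λ hΛ h
    have : pv Λ (h + 1) ≤ 2 * qv Λ (h + 1) := by omega
    exact_mod_cast this
  have hsum : CV_E Λ h (i + 1) * qv Λ (i + 2) + CV_E Λ h (i + 2) * qv Λ (i + 1) =
      qv Λ (h + 1) := by
    have h2 : (pv Λ (i + 2) : ℤ) * qv Λ (i + 1) - pv Λ (i + 1) * qv Λ (i + 2) =
        (-1) ^ (i + 2) := Qv_det Λ (i + 1)
    have h3 : CV_E Λ h (i + 1) * qv Λ (i + 2) + CV_E Λ h (i + 2) * qv Λ (i + 1) =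
        (-1) ^ (i + 2) * (qv Λ (h + 1) *
          ((pv Λ (i + 2) : ℤ) * qv Λ (i + 1) - pv Λ (i + 1) * qv Λ (i + 2))) := by
      unfold CV_E
      ring
    rw [h3, h2]
    have h4 : ((-1 : ℤ)) ^ (i + 2) * (qv Λ (h + 1) * (-1) ^ (i + 2)) =
        qv Λ (h + 1) * ((-1) ^ (i + 2) * (-1) ^ (i + 2)) := by ring
    rw [h4, ← mul_pow]
    norm_num
  have hmon : (qv Λ (i + 1) : ℤ) ≤ qv Λ (i + 2) := by
    exact_mod_cast Qv_mono Λ hΛ (i + 1)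
  obtain ⟨a, ha⟩ : ∃ a : ℤ, a = qv Λ (i + 1) := ⟨_, rfl⟩
  obtain ⟨b, hbd⟩ : ∃ b : ℤ, b = qv Λ (i + 2) := ⟨_, rfl⟩
  obtain ⟨Q, hQ⟩ : ∃ Q : ℤ, Q = qv Λ (h + 1) := ⟨_, rfl⟩
  obtain ⟨P, hP⟩ : ∃ P : ℤ, P = pv Λ (h + 1) := ⟨_, rfl⟩
  obtain ⟨E, hE⟩ : ∃ E : ℤ, E = CV_E Λ h (i + 1) := ⟨_, rfl⟩
  obtain ⟨E', hE'⟩ : ∃ E' : ℤ, E' = CV_E Λ h (i + 2) := ⟨_, rfl⟩
  have hDabs : |P * a - Q * pv Λ (i + 1)| = E := by
    have h1 : E = (-1) ^ (i + 2) * (P * a - Q * pv Λ (i + 1)) := by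
      rw [hE, CV_E, hP, ha, hQ]
    have h2 : |E| = |P * a - Q * pv Λ (i + 1)| := by
      rw [h1, abs_mul, abs_pow, abs_neg, abs_one, one_pow, one_mul]
    rw [← h2, abs_of_nonneg (by rw [hE]; linarith)]
  rw [← hE] at e1 e2
  rw [← hE'] at e0 e1
  rw [← hE, ← hE', ← ha, ← hbd, ← hQ] at hsum
  rw [← ha, ← hbd] at hmon
  rw [← ha] at ha1
  rw [← hbd] at hb1
  rw [← hQ] at hQ1
  rw [← hP, ← hQ] at hPQ
  have hEb : E * b ≤ Q := by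
    have : 0 ≤ E' * a := mul_nonneg e0 (by linarith)
    linarith
  have hEb2 : Q ≤ 2 * (E * b) := by
    have : E' * a ≤ E * b := mul_le_mul e1 hmon (by linarith) (by linarith)
    linarith
  have hub : 2 * ((u : ℤ) + v) ≤ b := by
    rw [hbd]
    exact_mod_cast hb
  have hu0 : (0 : ℤ) ≤ u := Int.natCast_nonneg u
  have hv0 : (0 : ℤ) ≤ v := Int.natCast_nonneg v
  have key := CF_key a b Q P E (pv Λ (i + 1)) u v ha1 hb1 hQ1 hDabs hEb hEb2 hub hu0 hv0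
  have fin := CF_fin a b Q P u v ha1 hb1 hQ1 hPQ hu0 hv0 key
  have fin2 : (((u : ℤ) + v) * Q : ℤ) ≤ 8 * a * b * |(u : ℤ) * Q - v * P| := fin
  rw [ha, hbd, hQ, hP] at fin2
  have fin3 : ((((u : ℤ) + v) * (qv Λ (h + 1) : ℤ) : ℤ) : ℝ) ≤
      ((8 * (qv Λ (i + 1) : ℤ) * (qv Λ (i + 2) : ℤ) *
        |(u : ℤ) * (qv Λ (h + 1) : ℤ) - v * (pv Λ (h + 1) : ℤ)| : ℤ) : ℝ) := by
    exact_mod_cast fin2
  push_cast at fin3
  push_cast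
  exact fin3

end Pool.Agent.Work.MP_499dc6_lc.Fib
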