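import Pool.Agent.Work.MP_499dc6_lc.Fib.RdA

/-!
# Circuits of bounded depth, the whole trade-off: rates and thresholds
-/

namespace Pool.Agent.Work.MP_499dc6_lc.Fib

open Finset

/-- The numerical conditions on the rates `ρ` and the thresholds `t`, with fan-ins `f`, degrees of
the free polynomials `e` and prefactors `P` which depend on the level. -/
structure ParsV (al be : ℝ) (f e : ℕ → ℕ) (dd h : ℕ) (P ρ : ℕ → ℝ) (t : ℕ → ℕ) : Prop where
  zero : ρ 0 = al / 4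
  pos : ∀ j ≤ h, 0 < ρ j
  dec : ∀ j < h, ρ (j + 1) ≤ ρ j / 4
  thr : ∀ j < h, ((f (j + 1) + 1 : ℕ) : ℝ) * P j ≤ Real.exp (ρ j / 2 * t (j + 1))
  et : ∀ j < h, e (j + 1) < t (j + 1)
  sm : ∀ j < h, ∀ u v : ℕ, 1 ≤ u + v → u + v < t (j + 1) →
    2 * ρ (j + 1) * ((u + v : ℕ) : ℝ) ≤ |(u : ℝ) * al - v * be|
  ser : ∀ j < h, ∑ n ∈ Icc (t (j + 1)) dd, ((n : ℝ) + 1) * Real.exp (-(ρ j / 4 * n)) ≤ 1

/-- the rates -/
noncomputable def Pav_rho (Λ : ℕ → ℕ) (j : ℕ) : ℝ :=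
  if j = 0 then Real.log (3 / 2) / 4 else Real.log (3 / 2) / (16 * qv Λ j * qv Λ (j + 1))

theorem Pav_rho_zero (Λ : ℕ → ℕ) : Pav_rho Λ 0 = Real.log (3 / 2) / 4 := if_pos rfl

theorem Pav_rho_pos' (Λ : ℕ → ℕ) (j : ℕ) (hj : 1 ≤ j) :
    Pav_rho Λ j = Real.log (3 / 2) / (16 * qv Λ j * qv Λ (j + 1)) :=
  if_neg (by omega)

/-- The rates and the thresholds. -/
theorem Pav_main (lam P : ℕ → ℝ) (f e : ℕ → ℕ) (dd h g n k : ℕ) (Λ : ℕ → ℕ)
    (hlam : ∀ i, 1 ≤ lam i) (hg : 1 ≤ g) (hΛ : ∀ i, Λ i = ⌈330 * lam i⌉₊)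
    (hn : n = g * qv Λ (h + 1)) (hnk : n + k = g * pv Λ (h + 1))
    (he : ∀ j < h, (e (j + 1) : ℝ) ≤ lam (j + 1))
    (hsP : ∀ j < h, ((f (j + 1) + 1 : ℕ) : ℝ) * P j ≤ Real.exp (lam (j + 1)))
    (hdd : ∀ j < h, 2 * Real.log ((dd : ℝ) + 1) ≤ lam (j + 1)) :
    ∃ (t : ℕ → ℕ), ParsV (Real.log (3 / 2)) (Real.log (3 / 2) * (n + k) / n) f e dd h P
      (Pav_rho Λ) t := by
  have ha1 := Par_log_ge
  have ha2 := Par_log_le
  set a : ℝ := Real.log (3 / 2) with ha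
  have ha0 : 0 < a := by linarith
  have hΛR : ∀ i, 330 * lam i ≤ (Λ i : ℝ) := by
    intro i
    rw [hΛ]
    exact Nat.le_ceil _
  have hΛ4 : ∀ i, 4 ≤ Λ i := by
    intro i
    have : (4 : ℝ) ≤ (Λ i : ℝ) := by linarith [hΛR i, hlam i]
    exact_mod_cast this
  have hQ1 : ∀ j, 1 ≤ j → 1 ≤ qv Λ j := by
    intro j hj
    obtain ⟨i, rfl⟩ := Nat.exists_eq_add_of_le' hj
    exact Qv_pos Λ hΛ4 i
  have hQ4 := Qv_four Λ hΛ4
  have hq1 : ∀ j, 1 ≤ j → (1 : ℝ) ≤ (qv Λ j : ℝ) := fun j hj => by exact_mod_cast hQ1 j hj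
  have hden : ∀ j, 1 ≤ j → (1 : ℝ) ≤ (qv Λ j : ℝ) * qv Λ (j + 1) := fun j hj =>
    one_le_mul_of_one_le_of_one_le (hq1 j hj) (hq1 (j + 1) (by omega))
  have hrp : ∀ j, 0 < Pav_rho Λ j := by
    intro j
    rcases Nat.eq_zero_or_pos j with rfl | hj
    · rw [Pav_rho_zero]
      exact div_pos ha0 (by norm_num)
    · rw [Pav_rho_pos' Λ j hj]
      have := hden j hj
      exact div_pos ha0 (by nlinarith)
  have hr16 : ∀ j, 1 ≤ j → Pav_rho Λ j ≤ a / 16 := by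
    intro j hj
    rw [Pav_rho_pos' Λ j hj]
    have := hden j hj
    exact div_le_div_of_nonneg_left ha0.le (by norm_num) (by nlinarith)
  have hr4 : ∀ j, Pav_rho Λ j ≤ a / 4 := by
    intro j
    rcases Nat.eq_zero_or_pos j with rfl | hj
    · rw [Pav_rho_zero]
    · have := hr16 j hj
      linarith
  have hceil : ∀ j, 4 * lam (j + 1) / Pav_rho Λ j ≤
      ((⌈4 * lam (j + 1) / Pav_rho Λ j⌉₊ : ℕ) : ℝ) := fun j => Nat.le_ceil _
  have hrt : ∀ j, 4 * lam (j + 1) ≤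
      Pav_rho Λ j * ((⌈4 * lam (j + 1) / Pav_rho Λ j⌉₊ : ℕ) : ℝ) := by
    intro j
    have h1 := hceil j
    rw [div_le_iff₀ (hrp j)] at h1
    linarith
  refine ⟨fun j => ⌈4 * lam j / Pav_rho Λ (j - 1)⌉₊, ?_⟩
  refine ⟨Pav_rho_zero Λ, fun j _ => hrp j, ?_, ?_, ?_, ?_, ?_⟩
  · intro j _
    rcases Nat.eq_zero_or_pos j with rfl | hj
    · rw [Pav_rho_zero]
      have := hr16 1 le_rfl
      show Pav_rho Λ 1 ≤ a / 4 / 4
      linarith
    · rw [Pav_rho_pos' Λ j hj, Pav_rho_pos' Λ (j + 1) (by omega)]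
      have h1 : (4 : ℝ) * qv Λ j ≤ qv Λ (j + 2) := by exact_mod_cast hQ4 j
      have h2 := hq1 j hj
      have h3 := hq1 (j + 1) (by omega)
      rw [div_div]
      refine div_le_div_of_nonneg_left ha0.le (by positivity) ?_
      show 16 * (qv Λ j : ℝ) * qv Λ (j + 1) * 4 ≤ 16 * qv Λ (j + 1) * qv Λ (j + 2)
      nlinarith [mul_le_mul_of_nonneg_left h1 (show (0 : ℝ) ≤ 16 * qv Λ (j + 1) by positivity)]
  · intro j hj
    refine (hsP j hj).trans (Real.exp_le_exp.2 ?_)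
    have h1 := hrt j
    have hl1 := hlam (j + 1)
    show lam (j + 1) ≤ Pav_rho Λ j / 2 * ((⌈4 * lam (j + 1) / Pav_rho Λ (j + 1 - 1)⌉₊ : ℕ) : ℝ)
    rw [Nat.add_sub_cancel]
    linarith
  · intro j hj
    have h1 := hrt j
    have h2 := hr4 j
    have he' := he j hj
    have hl1 := hlam (j + 1)
    have h3 : (e (j + 1) : ℝ) < ((⌈4 * lam (j + 1) / Pav_rho Λ (j + 1 - 1)⌉₊ : ℕ) : ℝ) := by
      rw [Nat.add_sub_cancel]
      have h4 : (0 : ℝ) ≤ ((⌈4 * lam (j + 1) / Pav_rho Λ j⌉₊ : ℕ) : ℝ) := Nat.cast_nonneg _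
      have h5 : Pav_rho Λ j ≤ 1 := by linarith
      have h6 : Pav_rho Λ j * ((⌈4 * lam (j + 1) / Pav_rho Λ j⌉₊ : ℕ) : ℝ) ≤
          1 * ((⌈4 * lam (j + 1) / Pav_rho Λ j⌉₊ : ℕ) : ℝ) := mul_le_mul_of_nonneg_right h5 h4
      linarith
    exact_mod_cast h3
  · intro j hj u v huv hut
    have hut' : u + v < ⌈4 * lam (j + 1) / Pav_rho Λ j⌉₊ := by
      have := hut
      rwa [Nat.add_sub_cancel] at this
    rw [Nat.lt_ceil] at hut'
    have h2 : 2 * (u + v) ≤ qv Λ (j + 1 + 1) := by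
      have h3 : (2 : ℝ) * ((u + v : ℕ) : ℝ) ≤ (qv Λ (j + 2) : ℝ) := by
        rcases Nat.eq_zero_or_pos j with rfl | hj1
        · rw [Pav_rho_zero, lt_div_iff₀ (by positivity)] at hut'
          show (2 : ℝ) * ((u + v : ℕ) : ℝ) ≤ (Λ 1 : ℝ)
          have hR1 := hΛR 1
          have hl1 := hlam 1
          have hut' : ((u + v : ℕ) : ℝ) * (a / 4) < 4 * lam 1 := hut'
          have h5 : ((u + v : ℕ) : ℝ) * (2 / 5 / 4) ≤ ((u + v : ℕ) : ℝ) * (a / 4) :=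
            mul_le_mul_of_nonneg_left (by linarith) (Nat.cast_nonneg _)
          linarith
        · obtain ⟨i, rfl⟩ : ∃ i, j = i + 1 := ⟨j - 1, by omega⟩
          rw [Pav_rho_pos' Λ (i + 1) (by omega), lt_div_iff₀ (by
            have := hden (i + 1) (by omega)
            exact div_pos ha0 (by nlinarith))] at hut'
          have hD : (1 : ℝ) ≤ (qv Λ (i + 1) : ℝ) * qv Λ (i + 2) := hden (i + 1) (by omega)
          have hrec : (qv Λ (i + 1 + 2) : ℝ) =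
              Λ (i + 2) * qv Λ (i + 1) * qv Λ (i + 2) + qv Λ (i + 1) := by
            have : qv Λ (i + 1 + 2) = Λ (i + 2) * qv Λ (i + 1) * qv Λ (i + 2) + qv Λ (i + 1) := rfl
            rw [this]
            push_cast
            ring
          rw [hrec]
          set D : ℝ := (qv Λ (i + 1) : ℝ) * qv Λ (i + 2) with hDd
          have h6 : ((u + v : ℕ) : ℝ) * (a / (16 * D)) < 4 * lam (i + 2) := by
            have : (16 : ℝ) * qv Λ (i + 1) * qv Λ (i + 1 + 1) = 16 * D := by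
              rw [hDd]
              ring
            rw [this] at hut'
            exact hut'
          have h7 : ((u + v : ℕ) : ℝ) * a < 4 * lam (i + 2) * (16 * D) := by
            rw [← mul_div_assoc, div_lt_iff₀ (by positivity)] at h6
            exact h6
          have h8 : ((u + v : ℕ) : ℝ) * (2 / 5) ≤ ((u + v : ℕ) : ℝ) * a :=
            mul_le_mul_of_nonneg_left ha1 (Nat.cast_nonneg _)
          have h9 : 330 * lam (i + 2) * D ≤ Λ (i + 2) * D :=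
            mul_le_mul_of_nonneg_right (hΛR (i + 2)) (by linarith)
          have h10 : (Λ (i + 2) : ℝ) * qv Λ (i + 1) * qv Λ (i + 2) = Λ (i + 2) * D := by
            rw [hDd]
            ring
          rw [h10]
          have h11 := hq1 (i + 1) (by omega)
          have h12 : 0 ≤ lam (i + 2) * D := mul_nonneg (by linarith [hlam (i + 2)]) (by linarith)
          nlinarith
      exact_mod_cast h3
    have h3 := CV_main Λ h (j + 1) u v hΛ4 (by omega) (by omega) h2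
    have hQ0 : (0 : ℝ) < (qv Λ (h + 1) : ℝ) := by
      have := hq1 (h + 1) (by omega)
      linarith
    have hgR : (0 : ℝ) < (g : ℝ) := by exact_mod_cast hg
    have hbe : (u : ℝ) * a - v * (a * (n + k) / n) =
        a * ((u : ℝ) * qv Λ (h + 1) - v * pv Λ (h + 1)) / qv Λ (h + 1) := by
      have e1 : (n : ℝ) = g * qv Λ (h + 1) := by exact_mod_cast hn
      have e2 : (n : ℝ) + k = g * pv Λ (h + 1) := by exact_mod_cast hnk
      rw [e2, e1]
      field_simp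
    rw [hbe, abs_div, abs_mul, abs_of_pos ha0, abs_of_pos hQ0, le_div_iff₀ hQ0,
      Pav_rho_pos' Λ (j + 1) (by omega)]
    have hD0 : (0 : ℝ) < 16 * qv Λ (j + 1) * qv Λ (j + 1 + 1) := by
      have := hden (j + 1) (by omega)
      nlinarith
    rw [show 2 * (a / (16 * (qv Λ (j + 1) : ℝ) * qv Λ (j + 1 + 1))) * ((u + v : ℕ) : ℝ) *
      qv Λ (h + 1) = (2 * a * (((u + v : ℕ) : ℝ) * qv Λ (h + 1))) /
        (16 * (qv Λ (j + 1) : ℝ) * qv Λ (j + 1 + 1)) by ring, div_le_iff₀ hD0]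
    have h4 := mul_le_mul_of_nonneg_left h3 (show 0 ≤ 2 * a by positivity)
    calc 2 * a * (((u + v : ℕ) : ℝ) * qv Λ (h + 1)) ≤ _ := h4
      _ = _ := by ring
  · intro j hj
    show ∑ n ∈ Icc ⌈4 * lam (j + 1) / Pav_rho Λ (j + 1 - 1)⌉₊ dd,
      ((n : ℝ) + 1) * Real.exp (-(Pav_rho Λ j / 4 * n)) ≤ 1
    rw [Nat.add_sub_cancel]
    have h1 : ∀ n ∈ Icc ⌈4 * lam (j + 1) / Pav_rho Λ j⌉₊ dd,
        ((n : ℝ) + 1) * Real.exp (-(Pav_rho Λ j / 4 * n)) ≤ ((dd : ℝ) + 1) * Real.exp (-lam (j + 1)) := by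
      intro n hn
      rw [mem_Icc] at hn
      have h2 : (n : ℝ) ≤ dd := by exact_mod_cast hn.2
      have h3 : ((⌈4 * lam (j + 1) / Pav_rho Λ j⌉₊ : ℕ) : ℝ) ≤ (n : ℝ) := by exact_mod_cast hn.1
      have h4 := mul_le_mul_of_nonneg_left h3 (hrp j).le
      have h5 := hrt j
      refine mul_le_mul (by linarith) (Real.exp_le_exp.2 (by linarith)) (Real.exp_pos _).le
        (by positivity)
    refine (sum_le_card_nsmul _ _ _ h1).trans ?_
    rw [nsmul_eq_mul, Nat.card_Icc]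
    have h2 : ((dd + 1 - ⌈4 * lam (j + 1) / Pav_rho Λ j⌉₊ : ℕ) : ℝ) ≤ (dd : ℝ) + 1 := by
      have : dd + 1 - ⌈4 * lam (j + 1) / Pav_rho Λ j⌉₊ ≤ dd + 1 := Nat.sub_le _ _
      exact_mod_cast this
    have h3 : ((dd : ℝ) + 1) * ((dd : ℝ) + 1) ≤ Real.exp (lam (j + 1)) := by
      have h4 : ((dd : ℝ) + 1) * ((dd : ℝ) + 1) = Real.exp (2 * Real.log ((dd : ℝ) + 1)) := by
        rw [two_mul, Real.exp_add, Real.exp_log (by positivity)]
      rw [h4]
      exact Real.exp_le_exp.2 (hdd j hj)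
    calc ((dd + 1 - ⌈4 * lam (j + 1) / Pav_rho Λ j⌉₊ : ℕ) : ℝ) * (((dd : ℝ) + 1) * Real.exp (-lam (j + 1))) ≤
        ((dd : ℝ) + 1) * (((dd : ℝ) + 1) * Real.exp (-lam (j + 1))) :=
          mul_le_mul_of_nonneg_right h2 (by positivity)
      _ = ((dd : ℝ) + 1) * ((dd : ℝ) + 1) * Real.exp (-lam (j + 1)) := by ring
      _ ≤ Real.exp (lam (j + 1)) * Real.exp (-lam (j + 1)) := mul_le_mul_of_nonneg_right h3 (Real.exp_pos _).le
      _ = 1 := by rw [← Real.exp_add, add_neg_cancel, Real.exp_zero]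

end Pool.Agent.Work.MP_499dc6_lc.Fib
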