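import Pool.Agent.Work.MP_499dc6_lc.Fib.RdB

/-!
# Circuits of bounded depth, the whole trade-off: all gates
-/

namespace Pool.Agent.Work.MP_499dc6_lc.Fib

open MvPolynomial Finset
open Pool.Agent.Work.MP_499dc6_lc.CD
open Pool.Agent.Work.MP_499dc6_lc.D3

open scoped PowerSeries

/-- Sums and products of free inputs and of the gates in `J` (after the projection). -/
def BasicV {K Y Z : Type} [Field K] {s : ℕ} (e : ℕ) (F : Fin s → MvPolynomial (Y ⊕ Z) K)
    (J : Finset (Fin s)) (B : MvPolynomial (Y ⊕ Z) K) : Prop :=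
  (∃ (l : MvPolynomial (Y ⊕ Z) K) (f : MvPolynomial Y K) (g : MvPolynomial Z K) (c : Fin s → K),
    l.totalDegree ≤ e ∧ B = l + (rename Sum.inl f + rename Sum.inr g) + ∑ j ∈ J, C (c j) * F j) ∨
  ∃ (f : MvPolynomial Y K) (g : MvPolynomial Z K) (k : Fin s → ℕ),
    (rename Sum.inl f * rename Sum.inr g = (0 : MvPolynomial (Y ⊕ Z) K) ∨
      constantCoeff (rename Sum.inl f * rename Sum.inr g : MvPolynomial (Y ⊕ Z) K) ≠ 0) ∧
    B = rename Sum.inl f * rename Sum.inr g * ∏ j ∈ J, F j ^ k j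

/-- Circuits after the projection, with parameters depending on the level. -/
def CktV {K Y Z : Type} [Field K] {s : ℕ} (r e f : ℕ → ℕ) (F : Fin s → MvPolynomial (Y ⊕ Z) K)
    (d : Fin s → ℕ) : Prop :=
  ∀ i, ∃ (f' : MvPolynomial Y K) (g' : MvPolynomial Z K)
      (B : Fin (r (d i)) → MvPolynomial (Y ⊕ Z) K) (Q : MvPolynomial (Fin (r (d i))) K),
    F i = rename Sum.inl f' * rename Sum.inr g' * aeval B Q ∧
    ((∀ a, Rc_two (B a)) ∨ (1 ≤ d i ∧ ∀ a, ∃ J : Finset (Fin s), J ⊆ Low d i ∧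
      J.card ≤ f (d i) ∧ BasicV (e (d i)) F J (B a)))

theorem Rd_sum {ι M : Type} [AddCommMonoid M] (J : Finset ι) (f : ι → M) :
    ∑ a : Fin J.card, f (J.equivFin.symm a) = ∑ j ∈ J, f j := by
  rw [← Finset.sum_coe_sort J f]
  exact Equiv.sum_comp J.equivFin.symm (fun x : J => f x)

theorem Rd_prod {ι M : Type} [CommMonoid M] (J : Finset ι) (f : ι → M) :
    ∏ a : Fin J.card, f (J.equivFin.symm a) = ∏ j ∈ J, f j := by
  rw [← Finset.prod_coe_sort J f]
  exact Equiv.prod_comp J.equivFin.symm (fun x : J => f x)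

/-- Basic polynomials are functions of one polynomial without large components. -/
theorem Rd_bas (Y Z : Type) [Fintype Y] [Fintype Z] (K : Type) [Field K] [CharZero K]
    (be P ρ : ℝ) (s f e t dd : ℕ) (F : Fin s → MvPolynomial (Y ⊕ Z) K) (J : Finset (Fin s))
    (B : MvPolynomial (Y ⊕ Z) K) (hbe : Real.log (3 / 2) ≤ be) (hρ : 0 < ρ)
    (hρ' : ρ ≤ Real.log (3 / 2) / 4) (hP6 : ((dd : ℝ) + 1) ^ 6 ≤ P) (het : e < t) (ht : 1 ≤ t)
    (hJf : J.card ≤ f) (hsP : ((f + 1 : ℕ) : ℝ) * P ≤ Real.exp (ρ / 2 * t))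
    (hJ : ∀ j ∈ J, Rt (Real.log (3 / 2)) be dd P ρ (F j) ∧ Lr (Real.log (3 / 2)) be dd P ρ (F j))
    (hB : BasicV e F J B) :
    ∃ (x : MvPolynomial (Y ⊕ Z) K) (T : Polynomial K), bc 0 0 x = 0 ∧
      (∀ u v : ℕ, t ≤ u + v → u + v ≤ dd →
        BB (Real.log (3 / 2)) be (bc u v x) (Real.exp (-(ρ / 2 * ((u + v : ℕ) : ℝ))))) ∧
      ∀ u v, u + v ≤ dd → bc u v B = bc u v (Polynomial.aeval x T) := by
  classical
  have hP : 0 ≤ P := le_trans (by positivity) hP6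
  refine Rc_bas Y Z K be P ρ J.card e t dd (fun a => F (J.equivFin.symm a)) univ B hbe hρ hρ' hP6
    het ht (le_trans (mul_le_mul_of_nonneg_right ?_ hP) hsP)
    (fun a _ => hJ _ (J.equivFin.symm a).2) ?_
  · exact_mod_cast Nat.succ_le_succ hJf
  · rcases hB with ⟨l, f', g', c, hl, hB⟩ | ⟨f', g', k, h0, hB⟩
    · refine Or.inl ⟨l, f', g', fun a => c (J.equivFin.symm a), hl, fun _ _ => mem_univ _, ?_⟩
      rw [hB, Rd_sum J fun j => C (c j) * F j]
    · refine Or.inr ⟨f', g', fun a => k (J.equivFin.symm a), h0, fun _ _ => mem_univ _, ?_⟩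
      rw [hB, Rd_prod J fun j => F j ^ k j]

theorem Rd_rho {al be : ℝ} {f e : ℕ → ℕ} {dd h : ℕ} {P ρ : ℕ → ℝ} {t : ℕ → ℕ}
    (hp : ParsV al be f e dd h P ρ t) : ∀ j j', j ≤ j' → j' ≤ h → ρ j' ≤ ρ j := by
  intro j j' hjj
  induction j', hjj using Nat.le_induction with
  | base => intro _; exact le_rfl
  | succ m hm ih =>
    intro hmh
    have h1 := ih (by omega)
    have h2 := hp.dec m (by omega)
    have h3 := hp.pos m (by omega)
    linarith

/-- All gates have small rates. -/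
theorem Rd_ind (Y Z : Type) [Fintype Y] [Fintype Z] (K : Type) [Field K] [CharZero K] (be : ℝ)
    (s h dd : ℕ) (r e f : ℕ → ℕ) (P ρ : ℕ → ℝ) (t : ℕ → ℕ) (F : Fin s → MvPolynomial (Y ⊕ Z) K)
    (d : Fin s → ℕ) (hbe : Real.log (3 / 2) ≤ be)
    (hp : ParsV (Real.log (3 / 2)) be f e dd h P ρ t) (hPm : Monotone P)
    (hP1 : ∀ j, 3 * ((dd : ℝ) + 1) ^ 2 * ((dd : ℝ) + 1) ^ (6 * r j + 10) ≤ P j)
    (hC : CktV r e f F d) (hd : ∀ i, d i ≤ h) (hF : ∀ i, F i = 0 ∨ constantCoeff (F i) ≠ 0) :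
    ∀ i, Rt (Real.log (3 / 2)) be dd (P (d i)) (ρ (d i)) (F i) ∧
      Lr (Real.log (3 / 2)) be dd (P (d i)) (ρ (d i)) (F i) := by
  have hD1 : (1 : ℝ) ≤ (dd : ℝ) + 1 := by linarith [Nat.cast_nonneg (α := ℝ) dd]
  have h122 : ∀ j, (0 : ℝ) ≤ 3 * ((dd : ℝ) + 1) ^ 2 * ((dd : ℝ) + 1) ^ (6 * r j + 10) :=
    fun j => by positivity
  have hP0 : ∀ j, 3 * ((dd : ℝ) + 1) ^ 2 * ((dd : ℝ) + 1) ^ (4 * r j + 2) ≤ P j := by
    intro j
    refine le_trans ?_ (hP1 j)
    exact mul_le_mul_of_nonneg_left (pow_le_pow_right₀ hD1 (by omega)) (by positivity)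
  have h121 : ∀ j, (0 : ℝ) ≤ 3 * ((dd : ℝ) + 1) ^ 2 * ((dd : ℝ) + 1) ^ (4 * r j + 2) :=
    fun j => by positivity
  have hP6 : ∀ j, ((dd : ℝ) + 1) ^ 6 ≤ P j := by
    intro j
    refine le_trans ?_ (hP1 j)
    have h1 : ((dd : ℝ) + 1) ^ 6 ≤ ((dd : ℝ) + 1) ^ (6 * r j + 10) :=
      pow_le_pow_right₀ hD1 (by omega)
    have h2 : (1 : ℝ) ≤ ((dd : ℝ) + 1) ^ 2 := one_le_pow₀ hD1
    refine h1.trans (le_mul_of_one_le_left (by positivity) ?_)
    linarith
  have hP : ∀ j, 0 ≤ P j := fun j => (h122 j).trans (hP1 j)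
  have key : ∀ n : ℕ, ∀ i : Fin s, (i : ℕ) < n →
      Rt (Real.log (3 / 2)) be dd (P (d i)) (ρ (d i)) (F i) ∧
      Lr (Real.log (3 / 2)) be dd (P (d i)) (ρ (d i)) (F i) := by
    intro n
    induction n with
    | zero => intro i hi; exact absurd hi (Nat.not_lt_zero _)
    | succ n ih =>
      intro i hi
      have h3 : ρ (d i) ≤ Real.log (3 / 2) / 4 := by
        rw [← hp.zero]
        exact Rd_rho hp 0 (d i) (Nat.zero_le _) (hd i)
      obtain ⟨f', g', B, Q, hFi, hBc⟩ := hC i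
      obtain ⟨W, hW⟩ : ∃ W, W = aeval B Q := ⟨_, rfl⟩
      rw [← hW] at hFi
      rcases hBc with hB | ⟨hdi, hB⟩
      · obtain ⟨h1, h2⟩ := Rc_mul Y Z K be (((dd : ℝ) + 1) ^ (4 * r (d i) + 2))
          (Real.log (3 / 2) / 4) dd f' g' W (F i) hbe (one_le_pow₀ hD1) le_rfl
          (fun hW0 => Rc_lev0 hbe (r (d i)) dd B hB Q W hW (Or.inr hW0)) hFi (hF i)
        exact ⟨Ind_Rt (h121 _) (hP0 _) h3 h1, Ind_Lr (h121 _) (hP0 _) h3 h2⟩
      · obtain ⟨j, hj⟩ : ∃ j, d i = j + 1 := ⟨d i - 1, by omega⟩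
        have hjh : j < h := by have := hd i; omega
        have hlow : ∀ j' ∈ Low d i, Rt (Real.log (3 / 2)) be dd (P j) (ρ j) (F j') ∧
            Lr (Real.log (3 / 2)) be dd (P j) (ρ j) (F j') := by
          intro j' hj'
          obtain ⟨h1, h2⟩ := (Finset.mem_filter.1 hj').2
          have h3 : (j' : ℕ) < n := by
            have : (j' : ℕ) < (i : ℕ) := h1
            omega
          obtain ⟨h4, h5⟩ := ih j' h3
          have h6 : ρ j ≤ ρ (d j') := Rd_rho hp (d j') j (by omega) (by omega)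
          have h7 : P (d j') ≤ P j := hPm (by omega)
          exact ⟨Ind_Rt (hP _) h7 h6 h4, Ind_Lr (hP _) h7 h6 h5⟩
        have het := hp.et j hjh
        have hρj : ρ j ≤ Real.log (3 / 2) / 4 := by
          rw [← hp.zero]
          exact Rd_rho hp 0 j (Nat.zero_le _) (by omega)
        have hb : ∀ a, ∃ (x : MvPolynomial (Y ⊕ Z) K) (T : Polynomial K), bc 0 0 x = 0 ∧
            (∀ u v : ℕ, t (j + 1) ≤ u + v → u + v ≤ dd →
              BB (Real.log (3 / 2)) be (bc u v x)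
                (Real.exp (-(ρ j / 2 * ((u + v : ℕ) : ℝ))))) ∧
            ∀ u v, u + v ≤ dd → bc u v (B a) = bc u v (Polynomial.aeval x T) := by
          intro a
          obtain ⟨J, hJL, hJf, hBa⟩ := hB a
          have hthr := hp.thr j hjh
          rw [hj] at hJf hBa
          exact Rd_bas Y Z K be (P j) (ρ j) s (f (j + 1)) (e (j + 1)) (t (j + 1)) dd F J (B a)
            hbe (hp.pos j (by omega)) hρj (hP6 j) het (by omega) hJf hthr
            (fun j' hj' => hlow j' (hJL hj')) hBa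
        choose x T hx0 hxB hxT using hb
        obtain ⟨Q', hQ'⟩ := pr_Comp mainTrunc Y Z K (r (d i)) dd B x T Q hxT
        obtain ⟨h1, h2⟩ := Rc_mul Y Z K be (((dd : ℝ) + 1) ^ (6 * r (d i) + 10)) (ρ (j + 1)) dd
          f' g' W (F i) hbe (one_le_pow₀ hD1) (by rw [← hj]; exact h3)
          (fun hW0 => mainGat Y Z K (Real.log (3 / 2)) be (ρ (j + 1)) (ρ j / 4) (r (d i))
            (t (j + 1)) dd x Q' W (hp.pos (j + 1) (by omega)) (hp.dec j hjh) hx0 (hp.sm j hjh)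
            (fun a u v h3 h4 => by
              have h5 := hxB a u v h3 h4
              have h6 : 2 * (ρ j / 4) = ρ j / 2 := by ring
              rw [h6]
              exact h5)
            (hp.ser j hjh) (fun u v huv => by rw [hW]; exact hQ' u v huv) (Or.inr hW0))
          hFi (hF i)
        have h5 : ρ (d i) ≤ ρ (j + 1) := by rw [hj]
        exact ⟨Ind_Rt (h122 _) (hP1 _) h5 h1, Ind_Lr (h122 _) (hP1 _) h5 h2⟩
  exact fun i => key (i + 1) i (Nat.lt_succ_self _)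

end Pool.Agent.Work.MP_499dc6_lc.Fib
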