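import Pool.Agent.Work.MP_499dc6_lc.Fib.RdC

/-!
# Circuits of bounded depth, the whole trade-off: the upper bound
-/

namespace Pool.Agent.Work.MP_499dc6_lc.Fib

open MvPolynomial Finset
open Pool.Agent.Work.MP_499dc6_lc.CD
open Pool.Agent.Work.MP_499dc6_lc.D3

open scoped PowerSeries

/-- Sums and products of free inputs and of the gates in `J`. -/
def BasicW {K : Type} [Field K] {N s : ℕ} (e : ℕ) (F : Fin s → MvPolynomial (Fin N × Fin N) K)
    (J : Finset (Fin s)) (B : MvPolynomial (Fin N × Fin N) K) : Prop :=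
  (∃ (l U : MvPolynomial (Fin N × Fin N) K) (c : Fin s → K), l.totalDegree ≤ e ∧ IsRCsum U ∧
    B = l + U + ∑ j ∈ J, C (c j) * F j) ∨
  ∃ (U : MvPolynomial (Fin N × Fin N) K) (k : Fin s → ℕ), IsRCprod U ∧
    B = U * ∏ j ∈ J, F j ^ k j

/-- Circuits with row and column functions as free inputs, with parameters depending on the
level. -/
def CktW {K : Type} [Field K] {N s : ℕ} (r e f : ℕ → ℕ)
    (F : Fin s → MvPolynomial (Fin N × Fin N) K) (d : Fin s → ℕ) : Prop :=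
  ∀ i, ∃ (U : MvPolynomial (Fin N × Fin N) K)
    (B : Fin (r (d i)) → MvPolynomial (Fin N × Fin N) K) (Q : MvPolynomial (Fin (r (d i))) K),
    IsRCprod U ∧ F i = U * aeval B Q ∧
    ((∀ a, IsRCsum (B a) ∨ IsRCprod (B a)) ∨ (1 ≤ d i ∧ ∀ a, ∃ J : Finset (Fin s),
      J ⊆ Low d i ∧ J.card ≤ f (d i) ∧ BasicW (e (d i)) F J (B a)))

/-- Substituting affine forms with kinds into a circuit. The products of row and column functions
in `L` contain those which occur in the product basic polynomials. -/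
theorem Rd_sub {K Y Z : Type} [Field K] {N s : ℕ} (r e f : ℕ → ℕ)
    (F : Fin s → MvPolynomial (Fin N × Fin N) K) (d : Fin s → ℕ) (hF : CktW r e f F d) :
    ∃ L : (Σ i : Fin s, Fin (r (d i))) → MvPolynomial (Fin N × Fin N) K,
      ∀ (η : Fin N × Fin N → MvPolynomial (Y ⊕ Z) K) (κr κc : Fin N → Bool),
      (∀ v, (η v).totalDegree ≤ 1) → (∀ v, Rc_kind (κr v.1) (η v)) →
      (∀ v, Rc_kind (κc v.2) (η v)) →
      (∀ p, aeval η (L p) = 0 ∨ constantCoeff (aeval η (L p)) ≠ 0) →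
      CktV r e f (fun i => aeval η (F i)) d := by
  classical
  choose U B Q hU hFi hB using hF
  have hL : ∀ p : (Σ i : Fin s, Fin (r (d i))), ∃ L : MvPolynomial (Fin N × Fin N) K,
      (∃ J' : Finset (Fin s), J' ⊆ Low d p.1 ∧ J'.card ≤ f (d p.1) ∧
        BasicW (e (d p.1)) F J' (B p.1 p.2)) →
      ∀ (η : Fin N × Fin N → MvPolynomial (Y ⊕ Z) K) (κr κc : Fin N → Bool),
      (∀ v, (η v).totalDegree ≤ 1) → (∀ v, Rc_kind (κr v.1) (η v)) →
      (∀ v, Rc_kind (κc v.2) (η v)) →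
      (aeval η L = 0 ∨ constantCoeff (aeval η L) ≠ 0) →
      ∃ J' : Finset (Fin s), J' ⊆ Low d p.1 ∧ J'.card ≤ f (d p.1) ∧
        BasicV (e (d p.1)) (fun i => aeval η (F i)) J' (aeval η (B p.1 p.2)) := by
    intro p
    by_cases h : ∃ J' : Finset (Fin s), J' ⊆ Low d p.1 ∧ J'.card ≤ f (d p.1) ∧
        BasicW (e (d p.1)) F J' (B p.1 p.2)
    · obtain ⟨J', hJ1, hJ2, hBW⟩ := h
      rcases hBW with ⟨l, V, c, hl, hV, hBe⟩ | ⟨V, k, hV, hBe⟩
      · refine ⟨0, fun _ η κr κc h1 h2 h3 _ => ⟨J', hJ1, hJ2, Or.inl ?_⟩⟩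
        obtain ⟨f', g', hfg⟩ := Rc_subsum η κr κc h2 h3 V hV
        refine ⟨aeval η l, f', g', c, Sub_deg _ η h1 l hl, ?_⟩
        rw [hBe, map_add, map_add, hfg, map_sum]
        congr 1
        refine Finset.sum_congr rfl fun j _ => ?_
        rw [map_mul, aeval_C]
        rfl
      · refine ⟨V, fun _ η κr κc h1 h2 h3 h4 => ⟨J', hJ1, hJ2, Or.inr ?_⟩⟩
        obtain ⟨f', g', hfg⟩ := Rc_subprod η κr κc h2 h3 V hV
        refine ⟨f', g', k, ?_, ?_⟩
        · rw [← hfg]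
          exact h4
        · rw [hBe, map_mul, hfg, map_prod]
          congr 1
          exact Finset.prod_congr rfl fun j _ => map_pow _ _ _
    · exact ⟨0, fun h' => absurd h' h⟩
  choose L hL using hL
  refine ⟨L, fun η κr κc h1 h2 h3 h4 i => ?_⟩
  obtain ⟨f', g', hfg⟩ := Rc_subprod η κr κc h2 h3 (U i) (hU i)
  refine ⟨f', g', fun a => aeval η (B i a), Q i, ?_, ?_⟩
  · show aeval η (F i) = _
    rw [hFi i, map_mul, hfg, comp_aeval_apply]
  · rcases hB i with hB | ⟨hd, hB⟩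
    · left
      intro a
      rcases hB a with h | h
      · obtain ⟨f', g', h'⟩ := Rc_subsum η κr κc h2 h3 (B i a) h
        exact ⟨f', g', Or.inl h'⟩
      · obtain ⟨f', g', h'⟩ := Rc_subprod η κr κc h2 h3 (B i a) h
        exact ⟨f', g', Or.inr h'⟩
    · refine Or.inr ⟨hd, fun a => ?_⟩
      obtain ⟨J, hJ1, hJ2, hJ3⟩ := hB a
      exact hL ⟨i, a⟩ ⟨J, hJ1, hJ2, hJ3⟩ η κr κc h1 h2 h3 (h4 ⟨i, a⟩)

/-- The upper bound. -/
theorem Rd_upper (k : Type) [Field k] [CharZero k] (N s h : ℕ) (r e f : ℕ → ℕ)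
    (F : Fin s → MvPolynomial (Fin N × Fin N) (LaurentSeries k)) (d : Fin s → ℕ)
    (c : Fin s → LaurentSeries k) (R : MvPolynomial (Fin N × Fin N) k⟦X⟧)
    (n kk : ℕ) (P ρ : ℕ → ℝ) (t : ℕ → ℕ) (hC : CktW r e f F d) (hd : ∀ i, d i ≤ h)
    (l0 U0 : MvPolynomial (Fin N × Fin N) (LaurentSeries k)) (hU0 : IsRCsum U0)
    (J0 : Finset (Fin s)) (hsum : l0 + U0 + ∑ i ∈ J0, C (c i) * F i =
      MvPolynomial.map (algebraMap k⟦X⟧ (LaurentSeries k)) (gperm k⟦X⟧ N + C PowerSeries.X * R))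
    (hkk : 1 ≤ kk) (h3 : 3 * kk ≤ n) (h4 : 4 * (2 * n + kk) ≤ N)
    (hl0 : l0.totalDegree < 2 * (n + kk) + 2 * n)
    (hPars : ParsV (Real.log (3 / 2)) (Real.log (3 / 2) * (n + kk) / n) f e
      (2 * (n + kk) + 2 * n) h P ρ t) (hPm : Monotone P)
    (hP2 : ∀ j, 3 * (((2 * (n + kk) + 2 * n : ℕ) : ℝ) + 1) ^ 2 *
      (((2 * (n + kk) + 2 * n : ℕ) : ℝ) + 1) ^ (6 * r j + 10) ≤ P j) (A : Finset (VV n kk)) :
    ∃ R' : MvPolynomial (VV n kk) k⟦X⟧,
      BB (Real.log (3 / 2)) (Real.log (3 / 2) * (n + kk) / n)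
        (MvPolynomial.map (algebraMap k⟦X⟧ (LaurentSeries k))
          (PA k⟦X⟧ n kk A + C PowerSeries.X * R'))
        (J0.card * P h * Real.exp (-(ρ h * ((2 * (n + kk) + 2 * n : ℕ) : ℝ)))) := by
  have := charZero_laurent k
  obtain ⟨θ, κr, κc, hθ, hkr, hkc, c₀, hc₀, hperm⟩ := Rc_scal k N n kk h4
  obtain ⟨φ, hφ⟩ : ∃ φ : k⟦X⟧ →+* LaurentSeries k, φ = algebraMap k⟦X⟧ (LaurentSeries k) :=
    ⟨_, rfl⟩
  rw [← hφ] at hsum
  let θK : Fin N × Fin N → MvPolynomial (VV n kk) (LaurentSeries k) :=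
    fun v => MvPolynomial.map φ (θ v)
  have hθK : ∀ v, θK v = 0 ∨ θK v = 1 ∨ θK v = -1 ∨ ∃ w, θK v = X w := by
    intro v
    rcases hθ v with h | h | h | ⟨w, h⟩
    · left; simp [θK, h]
    · right; left; simp [θK, h]
    · right; right; left; simp [θK, h]
    · right; right; right; exact ⟨w, by simp [θK, h]⟩
  obtain ⟨a, ha⟩ : ∃ a, a = 2 * (n + kk) := ⟨_, rfl⟩
  obtain ⟨b, hb⟩ : ∃ b, b = 2 * n := ⟨_, rfl⟩
  have hn0 : 0 < n := by omega
  obtain ⟨be, hbe⟩ : ∃ be : ℝ, be = Real.log (3 / 2) * (n + kk) / n := ⟨_, rfl⟩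
  rw [← ha, ← hb, ← hbe] at hPars
  rw [← ha, ← hb] at hP2 hl0
  rw [← hφ, ← ha, ← hb, ← hbe]
  have hbe1 : Real.log (3 / 2) ≤ be := by
    have hn : (0 : ℝ) < n := by exact_mod_cast hn0
    have hl : 0 ≤ Real.log (3 / 2 : ℝ) := Real.log_nonneg (by norm_num)
    rw [hbe, le_div_iff₀ hn]
    have : (0 : ℝ) ≤ kk := Nat.cast_nonneg _
    nlinarith
  obtain ⟨L, hL⟩ := Rd_sub (Y := CY n kk × CY n kk) (Z := CZ n × CZ n) r e f F d hC
  let G : Fin s → MvPolynomial (VV n kk) (LaurentSeries k) := fun i =>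
    aeval (fun w => if w ∈ A then (X w : MvPolynomial (VV n kk) (LaurentSeries k)) else 0)
      (aeval θK (F i))
  let G2 : Fin s ⊕ (Σ i : Fin s, Fin (r (d i))) → MvPolynomial (VV n kk) (LaurentSeries k) := Sum.elim G
    fun p => aeval (fun w => if w ∈ A then (X w : MvPolynomial (VV n kk) (LaurentSeries k)) else 0)
      (aeval θK (L p))
  obtain ⟨x, hx'⟩ := CD.pr_Transl (VV n kk) k (Fintype.card (Fin s ⊕ (Σ i : Fin s, Fin (r (d i)))))
    (fun a => G2 ((Fintype.equivFin _).symm a))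
  rw [← hφ] at hx'
  have hx2 : ∀ p, G2 p ≠ 0 → constantCoeff (aeval (fun j =>
      (X j + C (φ (PowerSeries.C (x j))) : MvPolynomial (VV n kk) (LaurentSeries k)))
      (G2 p)) ≠ 0 := by
    intro p hp
    have h5 := hx' (Fintype.equivFin _ p)
    simp only [Equiv.symm_apply_apply] at h5
    exact h5 hp
  have hx : ∀ i, G i ≠ 0 → constantCoeff (aeval (fun j =>
      (X j + C (φ (PowerSeries.C (x j))) : MvPolynomial (VV n kk) (LaurentSeries k)))
      (G i)) ≠ 0 := fun i => hx2 (Sum.inl i)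
  let F' : Fin s → MvPolynomial (VV n kk) (LaurentSeries k) := fun i =>
    aeval (fun w => if w ∈ A then X w + C (φ (PowerSeries.C (x w))) else
      (0 : MvPolynomial (VV n kk) (LaurentSeries k))) (aeval θK (F i))
  have hF' : ∀ i, F' i = aeval (fun j => (X j + C (φ (PowerSeries.C (x j))) :
      MvPolynomial (VV n kk) (LaurentSeries k))) (G i) := fun i =>
    (Up_comp A (fun w => φ (PowerSeries.C (x w))) (aeval θK (F i))).symm
  have hnz : ∀ i, F' i = 0 ∨ constantCoeff (F' i) ≠ 0 := by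
    intro i
    by_cases hG : G i = 0
    · left
      rw [hF', hG, map_zero]
    · right
      rw [hF']
      exact hx i hG
  let η : Fin N × Fin N → MvPolynomial (VV n kk) (LaurentSeries k) := fun v =>
    aeval (fun w => if w ∈ A then X w + C (φ (PowerSeries.C (x w))) else
      (0 : MvPolynomial (VV n kk) (LaurentSeries k))) (θK v)
  have hη : ∀ v, (η v).totalDegree ≤ 1 := by
    intro v
    have hψ : ∀ w : VV n kk, (if w ∈ A then X w + C (φ (PowerSeries.C (x w))) else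
        (0 : MvPolynomial (VV n kk) (LaurentSeries k))).totalDegree ≤ 1 := by
      intro w
      split_ifs with h
      · refine (totalDegree_add _ _).trans (max_le ?_ ?_)
        · rw [totalDegree_X]
        · rw [totalDegree_C]; exact Nat.zero_le _
      · rw [totalDegree_zero]; exact Nat.zero_le _
    simp only [η]
    rcases hθK v with h | h | h | ⟨w, h⟩
    · rw [h, map_zero, totalDegree_zero]; exact Nat.zero_le _
    · rw [h, map_one, totalDegree_one]; exact Nat.zero_le _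
    · rw [h, map_neg, map_one, totalDegree_neg, totalDegree_one]; exact Nat.zero_le _
    · rw [h, aeval_X]; exact hψ w
  have hF'η : F' = fun i => aeval η (F i) := by
    funext i
    simp only [F', η]
    rw [comp_aeval_apply]
  have hkr' : ∀ v, Rc_kind (κr v.1) (η v) := fun v =>
    Rc_kind_tr A _ _ _ (Rc_kind_map φ _ _ (hkr v))
  have hkc' : ∀ v, Rc_kind (κc v.2) (η v) := fun v =>
    Rc_kind_tr A _ _ _ (Rc_kind_map φ _ _ (hkc v))
  have hCkt : CktV r e f F' d := by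
    rw [hF'η]
    refine hL η κr κc hη hkr' hkc' fun p => ?_
    have e1 : aeval η (L p) = aeval (fun j => (X j + C (φ (PowerSeries.C (x j))) :
        MvPolynomial (VV n kk) (LaurentSeries k))) (G2 (Sum.inr p)) := by
      simp only [G2, Sum.elim_inr, η]
      rw [Up_comp A (fun w => φ (PowerSeries.C (x w))) (aeval θK (L p)), comp_aeval_apply]
    rw [e1]
    by_cases h5 : G2 (Sum.inr p) = 0
    · left
      rw [h5, map_zero]
    · exact Or.inr (hx2 _ h5)
  have hInd' := Rd_ind (CY n kk × CY n kk) (CZ n × CZ n) (LaurentSeries k) be s h (a + b) r e f P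
    ρ t F' d hbe1 hPars hPm hP2 hCkt hd hnz
  have hP0 : ∀ j, 0 ≤ P j := fun j => le_trans (by positivity) (hP2 j)
  have hBB : ∀ i, BB (Real.log (3 / 2)) be (bc a b (F' i))
      (P h * Real.exp (-(ρ h * ((a + b : ℕ) : ℝ)))) := by
    intro i
    refine BB.mono ((hInd' i).1 a b (by omega) le_rfl) ?_
    have h5 := Rd_rho hPars (d i) h (hd i) le_rfl
    have h6 : P (d i) ≤ P h := hPm (hd i)
    have h7 := hP0 h
    gcongr
  -- the sum of the gates
  let ρP : VV n kk → MvPolynomial (VV n kk) k⟦X⟧ := fun w =>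
    if w ∈ A then (X w : MvPolynomial (VV n kk) k⟦X⟧) else 0
  let trP : VV n kk → MvPolynomial (VV n kk) k⟦X⟧ := fun j => X j + C (PowerSeries.C (x j))
  let R2 : MvPolynomial (VV n kk) k⟦X⟧ := aeval ρP (aeval θ R)
  have hρ : (fun w => if w ∈ A then (X w : MvPolynomial (VV n kk) (LaurentSeries k)) else 0) =
      fun w => MvPolynomial.map φ (ρP w) := by
    funext w
    simp only [ρP]
    split_ifs
    · rw [map_X]
    · rw [map_zero]
  have htr : (fun j => (X j + C (φ (PowerSeries.C (x j))) :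
      MvPolynomial (VV n kk) (LaurentSeries k))) = fun j => MvPolynomial.map φ (trP j) := by
    funext j
    simp [trP]
  have hsumF : aeval η (l0 + U0) + ∑ i ∈ J0, C (c i) * F' i = MvPolynomial.map φ (aeval trP
      (C (PowerSeries.C c₀) * PA k⟦X⟧ n kk A + C PowerSeries.X * R2)) := by
    have e1 : aeval η (l0 + U0) + ∑ i ∈ J0, C (c i) * F' i = aeval (fun j => MvPolynomial.map φ (trP j))
        (aeval (fun w => MvPolynomial.map φ (ρP w)) (aeval (fun v => MvPolynomial.map φ (θ v))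
          (l0 + U0 + ∑ i ∈ J0, C (c i) * F i))) := by
      rw [map_add (aeval fun v => MvPolynomial.map φ (θ v)) (l0 + U0),
        map_add (aeval fun w => MvPolynomial.map φ (ρP w)),
        map_add (aeval fun j => MvPolynomial.map φ (trP j)), map_sum, map_sum, map_sum]
      congr 1
      · rw [← hρ, ← htr, Up_comp A (fun w => φ (PowerSeries.C (x w)))]
        simp only [η]
        rw [comp_aeval_apply]
      refine Finset.sum_congr rfl fun i _ => ?_
      rw [hF', htr]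
      simp only [G]
      rw [hρ, map_mul, map_mul, map_mul, Up_aeval_C, Up_aeval_C, Up_aeval_C]
    have e2 : aeval ρP (aeval θ (gperm k⟦X⟧ N + C PowerSeries.X * R)) =
        C (PowerSeries.C c₀) * PA k⟦X⟧ n kk A + C PowerSeries.X * R2 := by
      rw [aeval_lin, hperm, aeval_lin, map_mul, Up_aeval_C, (pr_PA n kk A).1]
    rw [e1, hsum, aeval_map_map, aeval_map_map, aeval_map_map, e2]
  have hfree : bc a b (aeval η (l0 + U0)) = 0 := by
    obtain ⟨f, g, hfg⟩ := Rc_subsum η κr κc hkr' hkc' U0 hU0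
    rw [map_add, bc_add, Bas_low l0.totalDegree a b _ (Sub_deg _ η hη l0 le_rfl) hl0, hfg, bc_add,
      Rc_inl f a b (by omega), Rc_inr g a b (by omega), add_zero, add_zero]
  refine ⟨bc a b (aeval trP (C (PowerSeries.C c₀⁻¹) * R2)), ?_⟩
  have hkey : MvPolynomial.map φ (PA k⟦X⟧ n kk A + C PowerSeries.X *
      bc a b (aeval trP (C (PowerSeries.C c₀⁻¹) * R2))) =
      ∑ i ∈ J0, C (φ (PowerSeries.C c₀⁻¹)) * (C (c i) * bc a b (F' i)) := by
    have h5 := bc_gen CD.pr_TransTop CD.pr_BiHom (fun j => (PowerSeries.C (x j) : k⟦X⟧))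
      (PA k⟦X⟧ n kk A) (C (PowerSeries.C c₀⁻¹) * R2) PowerSeries.X a b
      (by rw [ha, hb]; exact (pr_PA n kk A).2.1 _)
    have h6 : PA k⟦X⟧ n kk A + C PowerSeries.X * (C (PowerSeries.C c₀⁻¹) * R2) =
        C (PowerSeries.C c₀⁻¹) * (C (PowerSeries.C c₀) * PA k⟦X⟧ n kk A +
          C PowerSeries.X * R2) := by
      have h10 : (C (PowerSeries.C c₀⁻¹) : MvPolynomial (VV n kk) k⟦X⟧) *
          C (PowerSeries.C c₀) = 1 := by
        rw [← C_mul, ← map_mul, inv_mul_cancel₀ hc₀, map_one, C_1]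
      linear_combination (-(PA k⟦X⟧ n kk A)) * h10
    have h7 : aeval trP (C (PowerSeries.C c₀⁻¹) * (C (PowerSeries.C c₀) * PA k⟦X⟧ n kk A +
          C PowerSeries.X * R2)) = C (PowerSeries.C c₀⁻¹) * aeval trP
          (C (PowerSeries.C c₀) * PA k⟦X⟧ n kk A + C PowerSeries.X * R2) := by
      rw [map_mul, Up_aeval_C]
    have h8 : (fun j => (X j + C ((PowerSeries.C (x j) : k⟦X⟧)) :
        MvPolynomial (VV n kk) k⟦X⟧)) = trP := rfl
    rw [h8] at h5
    rw [← h5, h6, h7, ← bc_map, map_mul, map_C, ← hsumF, bc_C_mul, bc_add, hfree, zero_add,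
      bc_sum, Finset.mul_sum]
    refine Finset.sum_congr rfl fun i _ => ?_
    rw [bc_C_mul]
  rw [hkey]
  have h9 := Loc_sum J0 (fun i => C (φ (PowerSeries.C c₀⁻¹)) * (C (c i) * bc a b (F' i)))
    (P h * Real.exp (-(ρ h * ((a + b : ℕ) : ℝ)))) fun i _ =>
      CD.pr_BBsmul _ _ _ _ _ _ _ (φ (PowerSeries.C c₀⁻¹))
        (CD.pr_BBsmul _ _ _ _ _ _ _ (c i) (hBB i))
  refine BB.mono h9 (le_of_eq ?_)
  ring

end Pool.Agent.Work.MP_499dc6_lc.Fib
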