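import Pool.Agent.Work.MP_499dc6_lc.Fib.RdD

/-!
# Circuits of bounded depth, the whole trade-off: the theorem
-/

namespace Pool.Agent.Work.MP_499dc6_lc.Fib

open MvPolynomial Finset
open Pool.Agent.Work.MP_499dc6_lc.CD
open Pool.Agent.Work.MP_499dc6_lc.D3

open scoped PowerSeries

/-- The main inequality for given parameters. -/
theorem Rd_ineq (k : Type) [Field k] [CharZero k] (N s h : ℕ) (r e f : ℕ → ℕ)
    (F : Fin s → MvPolynomial (Fin N × Fin N) (LaurentSeries k)) (d : Fin s → ℕ)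
    (c : Fin s → LaurentSeries k) (R : MvPolynomial (Fin N × Fin N) k⟦X⟧)
    (n kk : ℕ) (P ρ : ℕ → ℝ) (t : ℕ → ℕ) (hC : CktW r e f F d) (hd : ∀ i, d i ≤ h)
    (l0 U0 : MvPolynomial (Fin N × Fin N) (LaurentSeries k)) (hU0 : IsRCsum U0)
    (J0 : Finset (Fin s)) (hsum : l0 + U0 + ∑ i ∈ J0, C (c i) * F i =
      MvPolynomial.map (algebraMap k⟦X⟧ (LaurentSeries k)) (gperm k⟦X⟧ N + C PowerSeries.X * R))
    (hk : 1 ≤ kk) (hn : 3 * kk ≤ n) (hN : 4 * (2 * n + kk) ≤ N)
    (hl0 : l0.totalDegree < 2 * (n + kk) + 2 * n)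
    (hPars : ParsV (Real.log (3 / 2)) (Real.log (3 / 2) * (n + kk) / n) f e
      (2 * (n + kk) + 2 * n) h P ρ t) (hPm : Monotone P)
    (hP2 : ∀ j, 3 * (((2 * (n + kk) + 2 * n : ℕ) : ℝ) + 1) ^ 2 *
      (((2 * (n + kk) + 2 * n : ℕ) : ℝ) + 1) ^ (6 * r j + 10) ≤ P j) :
    1 ≤ J0.card ∧ ρ h * ((2 * (n + kk) + 2 * n : ℕ) : ℝ) ≤
      Real.log (1000 * ((2 * (n + kk) + 1 : ℕ) : ℝ) ^ 8) + Real.log J0.card +
        Real.log (P h) := by
  classical
  have hal : 0 < Real.log (3 / 2 : ℝ) := Real.log_pos (by norm_num)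
  have hn1 : 3 ≤ n := by omega
  obtain ⟨m, hm⟩ : ∃ m, m = n + kk := ⟨_, rfl⟩
  have hm1 : 4 ≤ m := by omega
  obtain ⟨L, hL⟩ : ∃ L, L + 2 * m = 2 * ((2 * m) ^ 2 - 1) := by
    refine ⟨2 * ((2 * m) ^ 2 - 1) - 2 * m, Nat.sub_add_cancel ?_⟩
    have : 2 * m + 1 ≤ (2 * m) ^ 2 := by nlinarith
    omega
  obtain ⟨be, hbe⟩ : ∃ be : ℝ, be = Real.log (3 / 2) * (n + kk) / n := ⟨_, rfl⟩
  have hnR : (0 : ℝ) < n := by exact_mod_cast (by omega : 0 < n)
  have hbe0 : 0 < be := by rw [hbe]; positivity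
  obtain ⟨q, hq1, hq2⟩ := ell ((2 * n) ^ 2) be (by nlinarith) hbe0
  rw [hbe] at hq1 hq2
  obtain ⟨A, -, hlow⟩ := Ineq_set mainRankA n kk L q 0 0 (fun i => i.elim0) hn hk
    (by rw [← hm]; exact hL) (by push_cast at hq1 ⊢; exact hq1) (by norm_num)
  obtain ⟨R', hBB⟩ := Rd_upper k N s h r e f F d c R n kk P ρ t hC hd l0 U0 hU0 J0 hsum hk hn
    hN hl0 hPars hPm hP2 A
  have hlow2 := @D3.pr_RankK D3.pr_Minor (CY n kk × CY n kk) (CZ n × CZ n) _ _ _ _ k _ _
    (PA ℤ n kk A) R' (L + 2 * (n + kk)) q L (q + 2 * n)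
  rw [(pr_PA n kk A).2.2, (pr_PA n kk A).2.2] at hlow2
  have : Nonempty (CY n kk × CY n kk) :=
    ⟨(Sum.inl (true, ⟨0, by omega⟩), Sum.inl (true, ⟨0, by omega⟩))⟩
  have : Nonempty (CZ n × CZ n) :=
    ⟨((true, ⟨0, by omega⟩), (true, ⟨0, by omega⟩))⟩
  have hcY : Fintype.card (CY n kk × CY n kk) = (2 * (n + kk)) ^ 2 := by
    rw [Fintype.card_prod, card_CY, sq]
  have hcZ : Fintype.card (CZ n × CZ n) = (2 * n) ^ 2 := by
    rw [Fintype.card_prod, card_CZ, sq]
  obtain ⟨E, hE⟩ : ∃ E : ℝ, E = Real.exp (-(ρ h * ((2 * (n + kk) + 2 * n : ℕ) : ℝ))) := ⟨_, rfl⟩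
  rw [← hE] at hBB
  have hupp := mainBBrank _ _ (LaurentSeries k) _ _ _ _ L q (2 * (n + kk)) (2 * n) (by omega)
    (by
      rw [hcY, ← hm, Real.exp_log (by norm_num)]
      have h5 : ((L : ℝ) + ((2 * m : ℕ) : ℝ)) = 2 * (((2 * m : ℕ) : ℝ) ^ 2 - 1) := by
        have h6 : ((L + 2 * m : ℕ) : ℝ) = ((2 * ((2 * m) ^ 2 - 1) : ℕ) : ℝ) := by rw [hL]
        rw [Nat.cast_add, Nat.cast_mul 2 ((2 * m) ^ 2 - 1), Nat.cast_sub (Nat.one_le_pow _ _
          (by omega)), Nat.cast_pow] at h6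
        push_cast at h6 ⊢
        exact h6
      rw [h5]
      have h7 : (8 : ℝ) ≤ ((2 * m : ℕ) : ℝ) := by exact_mod_cast (by omega : 8 ≤ 2 * m)
      have h8 : (1 : ℝ) < ((2 * m : ℕ) : ℝ) ^ 2 := by nlinarith
      rw [le_div_iff₀ (by linarith)]
      push_cast
      linarith)
    (by rw [hcZ]; exact hq2) hBB
  rw [hcY, hcZ] at hupp
  have hexp0 : Real.exp (-(((2 * (n + kk) : ℕ) : ℝ) * Real.log (3 / 2) -
      ((2 * n : ℕ) : ℝ) * (Real.log (3 / 2) * (n + kk) / n)) / 2) = 1 := by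
    rw [Real.exp_eq_one_iff]
    have hw0 : (n : ℝ) ≠ 0 := hnR.ne'
    push_cast
    field_simp
    ring
  rw [hexp0, mul_one] at hupp
  obtain ⟨W, hW⟩ : ∃ W : ℝ, W = (TT ((2 * (n + kk)) ^ 2) (L + 2 * (n + kk)) : ℝ) *
    TT ((2 * n) ^ 2) q := ⟨_, rfl⟩
  have hWpos : 0 < W := by
    rw [hW]
    apply mul_pos
    · exact_mod_cast D3.TT_pos (Nat.one_le_pow _ _ (by omega))
    · exact_mod_cast D3.TT_pos (Nat.one_le_pow _ _ (by omega))
  obtain ⟨X, hX⟩ : ∃ X : ℝ, X = 1000 * ((2 * (n + kk) + 1 : ℕ) : ℝ) ^ 8 := ⟨_, rfl⟩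
  have hXpos : 0 < X := by rw [hX]; positivity
  rw [← hW, ← hX] at hlow
  rw [← hW] at hupp
  have hEpos : 0 < E := by rw [hE]; exact Real.exp_pos _
  have hPpos : 0 < P h := lt_of_lt_of_le (by positivity) (hP2 h)
  have h9 : W ≤ W * (J0.card * P h * E) * X := by
    refine hlow.trans ?_
    apply mul_le_mul_of_nonneg_right _ hXpos.le
    exact (Nat.cast_le.mpr hlow2).trans hupp
  have h10 : 1 ≤ (J0.card * P h * E) * X := by
    rw [mul_assoc] at h9
    exact le_of_mul_le_mul_left (by linarith) hWpos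
  have hS : 1 ≤ J0.card := by
    by_contra hcon
    have : J0.card = 0 := by omega
    rw [this] at h10
    norm_num at h10
  have hSpos : (0 : ℝ) < J0.card := by exact_mod_cast (by omega : 0 < J0.card)
  have h11 := Real.log_le_log one_pos h10
  rw [Real.log_one, Real.log_mul (by positivity) (by positivity), Real.log_mul (by positivity)
    (by positivity), Real.log_mul (by positivity) (by positivity), hE,
    Real.log_exp, hX] at h11
  exact ⟨hS, by linarith⟩

/-- The polynomial factor of the rank bound. -/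
theorem Rd_top (N m : ℕ) (hN : 2 ≤ N) (hm : (m : ℝ) ≤ N) :
    Real.log (1000 * (m : ℝ) ^ 8) ≤ 18 * Real.log N := by
  have hN' : (2 : ℝ) ≤ N := by exact_mod_cast hN
  have lN : Real.log 2 ≤ Real.log N := Real.log_le_log (by norm_num) hN'
  have l1 := Real.log_two_gt_d9
  rcases Nat.eq_zero_or_pos m with h0 | h0
  · rw [h0]
    simp
    linarith
  have hm0 : (0 : ℝ) < m := by exact_mod_cast h0
  rw [Real.log_mul (by positivity) (by positivity), Real.log_pow]
  have h2 : Real.log 1000 ≤ 10 * Real.log 2 := by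
    have : (10 : ℝ) * Real.log 2 = Real.log (2 ^ 10) := by
      rw [Real.log_pow]
      norm_num
    rw [this]
    exact Real.log_le_log (by norm_num) (by norm_num)
  have lm : Real.log (m : ℝ) ≤ Real.log N := Real.log_le_log hm0 hm
  push_cast
  linarith

/-- Logarithm of the prefactor. -/
theorem Rd_lam (r N dd : ℕ) (P : ℝ) (hN : 2 ≤ N) (hdd : dd + 1 ≤ N)
    (hP : P = 3 * ((dd : ℝ) + 1) ^ 2 * ((dd : ℝ) + 1) ^ (6 * r + 10)) :
    0 < P ∧ Real.log P ≤ 6 * ((r : ℝ) * Real.log N) + 13.6 * Real.log N ∧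
      2 * Real.log ((dd : ℝ) + 1) ≤ 2 * Real.log N ∧ 0.69 ≤ Real.log N ∧
      0 ≤ (r : ℝ) * Real.log N := by
  have hN' : (2 : ℝ) ≤ N := by exact_mod_cast hN
  have hdd' : (dd : ℝ) + 1 ≤ N := by exact_mod_cast hdd
  have hdd0 : (0 : ℝ) < (dd : ℝ) + 1 := by positivity
  have l1 := Real.log_two_gt_d9
  have lN : Real.log 2 ≤ Real.log N := Real.log_le_log (by norm_num) hN'
  have hr0 : (0 : ℝ) ≤ r := Nat.cast_nonneg r
  have hrL : 0 ≤ (r : ℝ) * Real.log N := mul_nonneg hr0 (by linarith)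
  have ldd : Real.log ((dd : ℝ) + 1) ≤ Real.log N := Real.log_le_log hdd0 hdd'
  have ldd0 : 0 ≤ Real.log ((dd : ℝ) + 1) := Real.log_nonneg (by
    have : (0 : ℝ) ≤ dd := Nat.cast_nonneg dd
    linarith)
  have hP0 : 0 < P := by
    rw [hP]
    positivity
  have l3 : Real.log 3 ≤ 1.6 * Real.log 2 := by
    have h1 : (5 : ℝ) * Real.log 3 = Real.log (3 ^ 5) := by
      rw [Real.log_pow]
      norm_num
    have h2 : (8 : ℝ) * Real.log 2 = Real.log (2 ^ 8) := by
      rw [Real.log_pow]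
      norm_num
    have h3 : Real.log (3 ^ 5) ≤ Real.log ((2 : ℝ) ^ 8) :=
      Real.log_le_log (by norm_num) (by norm_num)
    linarith
  refine ⟨hP0, ?_, by linarith, by linarith, hrL⟩
  rw [hP, Real.log_mul (by positivity) (by positivity), Real.log_mul (by positivity)
    (by positivity), Real.log_pow, Real.log_pow]
  push_cast
  have h1 : (6 * (r : ℝ) + 10) * Real.log ((dd : ℝ) + 1) ≤
      (6 * (r : ℝ) + 10) * Real.log N := mul_le_mul_of_nonneg_left ldd (by positivity)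
  have h6 : (6 * (r : ℝ) + 10) * Real.log N = 6 * ((r : ℝ) * Real.log N) + 10 * Real.log N := by
    ring
  linarith

theorem Rd_logs (f : ℕ) : 0 ≤ Real.log f ∧
    ((f + 1 : ℕ) : ℝ) ≤ Real.exp (Real.log f + Real.log 2) := by
  rcases Nat.eq_zero_or_pos f with h0 | h0
  · subst h0
    refine ⟨by simp, ?_⟩
    rw [Real.exp_add, Real.exp_log (by norm_num : (0 : ℝ) < 2)]
    simp
  · have h1 : (1 : ℝ) ≤ f := by exact_mod_cast h0
    refine ⟨Real.log_nonneg h1, ?_⟩
    rw [Real.exp_add, Real.exp_log (by linarith), Real.exp_log (by norm_num : (0 : ℝ) < 2)]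
    push_cast
    linarith

theorem Rd_card (k : ℕ) (m : ℕ) (h : 1 ≤ k) (hk : k ≤ m) : Real.log k ≤ Real.log m :=
  Real.log_le_log (by exact_mod_cast h) (by exact_mod_cast hk)

/-- **The theorem.** `h + 2` is the depth. -/
theorem Rd_fin (k : Type) [Field k] [CharZero k] (N s h : ℕ) (r e f : ℕ → ℕ) (hr : Monotone r)
    (F : Fin s → MvPolynomial (Fin N × Fin N) (LaurentSeries k)) (d : Fin s → ℕ)
    (c : Fin s → LaurentSeries k) (R : MvPolynomial (Fin N × Fin N) k⟦X⟧) (hN : 2 ≤ N)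
    (hF : CktW r e f F d) (hd : ∀ i, d i ≤ h)
    (l0 U0 : MvPolynomial (Fin N × Fin N) (LaurentSeries k)) (hl0 : l0.totalDegree ≤ e (h + 1))
    (hU0 : IsRCsum U0) (J0 : Finset (Fin s)) (hJ0 : J0.card ≤ f (h + 1))
    (hsum : l0 + U0 + ∑ i ∈ J0, C (c i) * F i =
      MvPolynomial.map (algebraMap k⟦X⟧ (LaurentSeries k)) (gperm k⟦X⟧ N + C PowerSeries.X * R)) :
    (N : ℝ) ≤ ∏ i ∈ Icc 1 (h + 1), (11000 * (Real.log (f i) +
      (r (i - 1) + 1) * Real.log N + e i)) ^ Nat.fib (h + 2 - i) := by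
  classical
  obtain ⟨lam, hlam⟩ : ∃ lam : ℕ → ℝ, ∀ i, lam i = 32 * (Real.log (f i) +
    (r (i - 1) + 1) * Real.log N + e i) := ⟨_, fun _ => rfl⟩
  have hlN : Real.log 2 ≤ Real.log N := Real.log_le_log (by norm_num) (by exact_mod_cast hN)
  have hl2 := Real.log_two_gt_d9
  have hrN : ∀ i, 0 ≤ (r i : ℝ) * Real.log N := fun i => mul_nonneg (Nat.cast_nonneg _) (by linarith)
  have he0 : ∀ i, (0 : ℝ) ≤ e i := fun i => Nat.cast_nonneg _
  have hlf : ∀ i, 0 ≤ Real.log (f i) := fun i => (Rd_logs (f i)).1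
  have hlam' : ∀ i, lam i = 32 * Real.log (f i) + 32 * ((r (i - 1) : ℝ) * Real.log N) +
      32 * Real.log N + 32 * e i := by
    intro i
    rw [hlam]
    ring
  have h1lam : ∀ i, 1 ≤ lam i := by
    intro i
    rw [hlam' i]
    linarith [hrN (i - 1), he0 i, hlf i]
  have helam : ∀ i, (e i : ℝ) ≤ lam i := by
    intro i
    rw [hlam' i]
    linarith [hrN (i - 1), he0 i, hlf i]
  -- the bound by the numbers `lam`
  obtain ⟨X, hX⟩ : ∃ X : ℕ → ℝ, ∀ i, X i = 332 * lam i := ⟨_, fun _ => rfl⟩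
  have hX1 : ∀ i, 1 ≤ X i := by
    intro i
    rw [hX]
    linarith [h1lam i]
  have hgoal : (N : ℝ) ≤ ∏ i ∈ Icc 1 (h + 1), X i ^ Nat.fib (h + 2 - i) := by
    rcases Nat.eq_zero_or_pos h with hh | hh
    · -- depth two
      subst hh
      have hfib : Nat.fib (0 + 2 - 1) = 1 := by decide
      rw [zero_add, Icc_self, Finset.prod_singleton]
      change (N : ℝ) ≤ X 1 ^ Nat.fib (0 + 2 - 1)
      rw [hfib, pow_one]
      obtain ⟨g, hg⟩ : ∃ g, g = N / 28 := ⟨_, rfl⟩
      have hg1 : 28 * g ≤ N := by rw [hg]; exact Nat.mul_div_le N 28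
      have hg2 : N < 28 * (g + 1) := by rw [hg]; omega
      have hg2R : (N : ℝ) < 28 * (g + 1) := by exact_mod_cast hg2
      have hgl : (g : ℝ) ≤ lam 1 := by
        rcases Nat.eq_zero_or_pos g with h0 | h0
        · rw [h0]
          push_cast
          linarith [h1lam 1]
        by_cases hle : l0.totalDegree < 2 * (3 * g + g) + 2 * (3 * g)
        swap
        · have h5 : g ≤ e 1 := by
            have h6 : l0.totalDegree ≤ e 1 := hl0
            omega
          have h6 : (g : ℝ) ≤ e 1 := by exact_mod_cast h5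
          linarith [helam 1]
        obtain ⟨dd, hdd⟩ : ∃ dd, dd = 2 * (3 * g + g) + 2 * (3 * g) := ⟨_, rfl⟩
        obtain ⟨P, hP⟩ : ∃ P : ℕ → ℝ, ∀ j, P j = 3 * ((dd : ℝ) + 1) ^ 2 *
          ((dd : ℝ) + 1) ^ (6 * r j + 10) := ⟨_, fun _ => rfl⟩
        have hPm : Monotone P := by
          intro i j hij
          rw [hP, hP]
          have h5 := hr hij
          refine mul_le_mul_of_nonneg_left (pow_le_pow_right₀ ?_ (by omega)) (by positivity)
          linarith [Nat.cast_nonneg (α := ℝ) dd]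
        have hal : 0 < Real.log (3 / 2 : ℝ) := Real.log_pos (by norm_num)
        have hpars : ParsV (Real.log (3 / 2)) (Real.log (3 / 2) * (((3 * g : ℕ) : ℝ) + (g : ℕ)) /
            ((3 * g : ℕ) : ℝ)) f e dd 0 P (fun _ => Real.log (3 / 2) / 4) (fun _ => 0) :=
          ⟨rfl, fun _ _ => by positivity, fun j hj => absurd hj (Nat.not_lt_zero _),
            fun j hj => absurd hj (Nat.not_lt_zero _), fun j hj => absurd hj (Nat.not_lt_zero _),
            fun j hj => absurd hj (Nat.not_lt_zero _), fun j hj => absurd hj (Nat.not_lt_zero _)⟩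
        have hP2 : ∀ j, 3 * ((dd : ℝ) + 1) ^ 2 * ((dd : ℝ) + 1) ^ (6 * r j + 10) ≤ P j :=
          fun j => (hP j).ge
        obtain ⟨p1, p2, p3, p4, p5⟩ := Rd_lam (r 0) N dd (P 0) hN (by omega) (hP 0)
        rw [hdd] at hpars hP2
        obtain ⟨hs, hI⟩ := Rd_ineq k N s 0 r e f F d c R (3 * g) g P
          (fun _ => Real.log (3 / 2) / 4) (fun _ => 0) hF hd l0 U0 hU0 J0 hsum h0 le_rfl
          (by omega) hle hpars hPm hP2
        have hm : ((2 * (3 * g + g) + 1 : ℕ) : ℝ) ≤ N := by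
          exact_mod_cast (by omega : 2 * (3 * g + g) + 1 ≤ N)
        have h5 := hI.trans (add_le_add_left (add_le_add_left (Rd_top N _ hN hm)
          (Real.log J0.card)) (Real.log (P 0)))
        have h6 : (14 : ℝ) * g ≤ ((2 * (3 * g + g) + 2 * (3 * g) : ℕ) : ℝ) := by
          push_cast
          linarith
        have hc := Rd_card J0.card (f 1) hs hJ0
        have ha := Par_log_ge
        have hg0 : (0 : ℝ) ≤ g := Nat.cast_nonneg g
        have h7 : (1 / 10 : ℝ) * (14 * g) ≤ Real.log (3 / 2) / 4 *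
            ((2 * (3 * g + g) + 2 * (3 * g) : ℕ) : ℝ) :=
          mul_le_mul (by linarith) h6 (by positivity) (by positivity)
        have h8 := hlam' 1
        have h9 : ((r (1 - 1) : ℕ) : ℝ) = r 0 := rfl
        rw [h9] at h8
        have h10 := he0 1
        have h11 := hlf 1
        linarith
      rw [hX]
      linarith [h1lam 1]
    · obtain ⟨Λ, hΛ⟩ : ∃ Λ : ℕ → ℕ, ∀ i, Λ i = ⌈330 * lam i⌉₊ := ⟨_, fun _ => rfl⟩
      have hΛ1 : ∀ i, 330 * lam i ≤ (Λ i : ℝ) := by
        intro i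
        rw [hΛ]
        exact Nat.le_ceil _
      have hΛ2 : ∀ i, (Λ i : ℝ) + 1 ≤ X i := by
        intro i
        have h1 : (Λ i : ℝ) < 330 * lam i + 1 := by
          rw [hΛ]
          exact Nat.ceil_lt_add_one (by linarith [h1lam i])
        rw [hX]
        linarith [h1lam i]
      have hΛ4 : ∀ i, 4 ≤ Λ i := by
        intro i
        have h1 : (4 : ℝ) ≤ Λ i := by linarith [hΛ1 i, h1lam i]
        exact_mod_cast h1
      have key : ∀ g : ℕ, 1 ≤ g → 10 * g * qv Λ (h + 1) ≤ N →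
          Real.log (3 / 2) / (16 * qv Λ h * qv Λ (h + 1)) * (4 * g * qv Λ (h + 1)) ≤
            lam (h + 1) := by
        intro g hg hgN
        have hq : 1 ≤ qv Λ (h + 1) := Qv_pos Λ hΛ4 h
        have hqh : 1 ≤ qv Λ h := by
          obtain ⟨i, rfl⟩ := Nat.exists_eq_add_of_le' hh
          exact Qv_pos Λ hΛ4 i
        have hqp : qv Λ (h + 1) < pv Λ (h + 1) := by
          obtain ⟨i, rfl⟩ := Nat.exists_eq_add_of_le' hh
          exact Qv_lt Λ hΛ4 i
        have h3q := Qv_three Λ hΛ4 h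
        obtain ⟨b, hb⟩ := Nat.exists_eq_add_of_lt hqp
        obtain ⟨Q, hQ⟩ : ∃ Q : ℕ, Q = qv Λ (h + 1) := ⟨_, rfl⟩
        rw [← hQ] at hq hqp h3q hb hgN ⊢
        have h3q' : 3 * (b + 1) ≤ Q := by omega
        obtain ⟨n, hn⟩ : ∃ n : ℕ, n = g * Q := ⟨_, rfl⟩
        obtain ⟨kk, hkk⟩ : ∃ kk : ℕ, kk = g * (b + 1) := ⟨_, rfl⟩
        have hn1 : 1 ≤ n := by rw [hn]; exact Nat.mul_pos hg hq
        have hkk1 : 1 ≤ kk := by rw [hkk]; exact Nat.mul_pos hg (Nat.succ_pos b)
        have h3k : 3 * kk ≤ n := by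
          rw [hkk, hn]
          calc 3 * (g * (b + 1)) = g * (3 * (b + 1)) := by ring
            _ ≤ g * Q := Nat.mul_le_mul_left g h3q'
        have hnk : n + kk = g * pv Λ (h + 1) := by
          rw [hb, hn, hkk]
          ring
        have h10 : 10 * n ≤ N := by
          rw [hn]
          calc 10 * (g * Q) = 10 * g * Q := by ring
            _ ≤ N := hgN
        have hN4 : 4 * (2 * n + kk) ≤ N := by omega
        have hle4 : 4 * g * Q ≤ 2 * (n + kk) + 2 * n := by
          calc 4 * g * Q = 4 * n := by rw [hn]; ring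
            _ ≤ _ := by omega
        by_cases hle : l0.totalDegree < 2 * (n + kk) + 2 * n
        swap
        · -- the free input has large degree
          have h5 : 4 * g * Q ≤ e (h + 1) := by omega
          have h6 : (4 * g * Q : ℝ) ≤ e (h + 1) := by exact_mod_cast h5
          have h7 : Real.log (3 / 2) / (16 * qv Λ h * Q) ≤ 1 := by
            have hqhR : (1 : ℝ) ≤ qv Λ h := by exact_mod_cast hqh
            have hQR : (1 : ℝ) ≤ Q := by exact_mod_cast hq
            have hl1 : Real.log (3 / 2) ≤ 1 := by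
              have := Real.log_le_sub_one_of_pos (show (0 : ℝ) < 3 / 2 by norm_num)
              linarith
            rw [div_le_one (by positivity)]
            have : (1 : ℝ) ≤ qv Λ h * Q := one_le_mul_of_one_le_of_one_le hqhR hQR
            linarith
          have h8 : (0 : ℝ) ≤ 4 * g * Q := by positivity
          calc Real.log (3 / 2) / (16 * qv Λ h * Q) * (4 * g * Q) ≤ 1 * (4 * g * Q) :=
                mul_le_mul_of_nonneg_right h7 h8
            _ ≤ lam (h + 1) := by linarith [helam (h + 1)]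
        obtain ⟨dd, hdd⟩ : ∃ dd, dd = 2 * (n + kk) + 2 * n := ⟨_, rfl⟩
        have hddN : dd + 1 ≤ N := by omega
        obtain ⟨P, hP⟩ : ∃ P : ℕ → ℝ, ∀ j, P j = 3 * ((dd : ℝ) + 1) ^ 2 *
          ((dd : ℝ) + 1) ^ (6 * r j + 10) := ⟨_, fun _ => rfl⟩
        have hPm : Monotone P := by
          intro i j hij
          rw [hP, hP]
          have h5 := hr hij
          refine mul_le_mul_of_nonneg_left (pow_le_pow_right₀ ?_ (by omega)) (by positivity)
          linarith [Nat.cast_nonneg (α := ℝ) dd]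
        have hP2 : ∀ j, 3 * ((dd : ℝ) + 1) ^ 2 * ((dd : ℝ) + 1) ^ (6 * r j + 10) ≤ P j :=
          fun j => (hP j).ge
        obtain ⟨t, hpars⟩ := Pav_main lam P f e dd h g n kk Λ h1lam hg hΛ (by rw [hn, hQ]) hnk
          (fun j _ => helam (j + 1))
          (fun j _ => by
            obtain ⟨p1, p2, p3, p4, p5⟩ := Rd_lam (r j) N dd (P j) hN hddN (hP j)
            have h5 := (Rd_logs (f (j + 1))).2
            have h6 : ((f (j + 1) + 1 : ℕ) : ℝ) * P j ≤
                Real.exp (Real.log (f (j + 1)) + Real.log 2 + Real.log (P j)) := by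
              rw [Real.exp_add (Real.log (f (j + 1)) + Real.log 2), Real.exp_log p1]
              exact mul_le_mul_of_nonneg_right h5 p1.le
            refine h6.trans (Real.exp_le_exp.mpr ?_)
            have h8 := hlam' (j + 1)
            rw [Nat.add_sub_cancel] at h8
            have h10 := he0 (j + 1)
            have h11 := hlf (j + 1)
            linarith)
          (fun j _ => by
            obtain ⟨p1, p2, p3, p4, p5⟩ := Rd_lam (r j) N dd (P j) hN hddN (hP j)
            have h8 := hlam' (j + 1)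
            rw [Nat.add_sub_cancel] at h8
            have h10 := he0 (j + 1)
            have h11 := hlf (j + 1)
            linarith)
        obtain ⟨p1, p2, p3, p4, p5⟩ := Rd_lam (r h) N dd (P h) hN hddN (hP h)
        rw [hdd] at hpars hP2
        obtain ⟨hs, hI⟩ := Rd_ineq k N s h r e f F d c R n kk P (Pav_rho Λ) t hF hd l0 U0 hU0 J0
          hsum hkk1 h3k hN4 hle hpars hPm hP2
        have hm : ((2 * (n + kk) + 1 : ℕ) : ℝ) ≤ N := by
          exact_mod_cast (by omega : 2 * (n + kk) + 1 ≤ N)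
        have h5 := hI.trans (add_le_add_left (add_le_add_left (Rd_top N _ hN hm)
          (Real.log J0.card)) (Real.log (P h)))
        have hρ0 : 0 ≤ Pav_rho Λ h := (hpars.pos h le_rfl).le
        have hρ := Pav_rho_pos' Λ h hh
        rw [← hQ] at hρ
        rw [← hρ]
        have hle' : (4 * g * Q : ℝ) ≤ ((2 * (n + kk) + 2 * n : ℕ) : ℝ) := by exact_mod_cast hle4
        have hc := Rd_card J0.card (f (h + 1)) hs hJ0
        have h8 := hlam' (h + 1)
        rw [Nat.add_sub_cancel] at h8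
        have h10 := he0 (h + 1)
        have h11 := hlf (h + 1)
        refine (mul_le_mul_of_nonneg_left hle' hρ0).trans (h5.trans ?_)
        linarith
      -- the count
      obtain ⟨h', rfl⟩ := Nat.exists_eq_add_of_le' hh
      have hfib := Qv_fibprod X h'
      have e1 : h' + 1 + 1 = h' + 2 := rfl
      have e2 : h' + 1 + 2 = h' + 3 := rfl
      rw [e1, e2, hfib]
      have hqg := Qv_grow Λ hΛ4 X hΛ2 (h' + 1)
      have hqg' := Qv_grow Λ hΛ4 X hΛ2 h'
      have e3 : h' + 1 + 1 = h' + 2 := rfl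
      rw [e3] at hqg
      rw [e1] at key
      obtain ⟨q, hq⟩ : ∃ q : ℕ, q = qv Λ (h' + 2) := ⟨_, rfl⟩
      obtain ⟨q', hq'⟩ : ∃ q' : ℕ, q' = qv Λ (h' + 1) := ⟨_, rfl⟩
      rw [← hq, ← hq'] at key
      rw [← hq] at hqg
      rw [← hq'] at hqg'
      have hq1 : 1 ≤ q := by rw [hq]; exact Qv_pos Λ hΛ4 (h' + 1)
      have hq1' : 1 ≤ q' := by rw [hq']; exact Qv_pos Λ hΛ4 h'
      have hqr : (1 : ℝ) ≤ q := by exact_mod_cast hq1
      have hqr' : (1 : ℝ) ≤ q' := by exact_mod_cast hq1'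
      obtain ⟨G, hG⟩ : ∃ G : ℝ, G = ∏ i ∈ Icc 1 (h' + 1), X i ^ Nat.fib (h' + 2 - i) := ⟨_, rfl⟩
      obtain ⟨G', hG'⟩ : ∃ G' : ℝ, G' = ∏ i ∈ Icc 1 h', X i ^ Nat.fib (h' + 1 - i) := ⟨_, rfl⟩
      have e4 : h' + 1 + 1 = h' + 2 := rfl
      rw [e4, ← hG] at hqg
      rw [← hG'] at hqg'
      rw [← hG, ← hG']
      have hG1' : 1 ≤ G' := hqr'.trans hqg'
      have hG1 : 1 ≤ G := hqr.trans hqg
      have hX2 := hX1 (h' + 2)
      have hXe := hX (h' + 2)
      have hL := h1lam (h' + 2)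
      have hlt : N < 10 * q * (N / (10 * q) + 1) := by
        have h1 := Nat.lt_mul_div_succ N (show 0 < 10 * q by omega)
        exact h1
      have hltr : (N : ℝ) ≤ 10 * q * ((N / (10 * q) : ℕ) + 1) := by
        exact_mod_cast hlt.le
      by_cases h0 : N / (10 * q) = 0
      · rw [h0] at hltr
        calc (N : ℝ) ≤ 10 * q := by
              push_cast at hltr
              linarith
          _ ≤ X (h' + 2) * G' * G := by
              refine mul_le_mul ?_ hqg (by linarith) (by positivity)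
              nlinarith
      · have hg1 : 1 ≤ N / (10 * q) := Nat.pos_of_ne_zero h0
        have hg2 : 10 * (N / (10 * q)) * q ≤ N := by
          have h1 := Nat.mul_div_le N (10 * q)
          calc 10 * (N / (10 * q)) * q = 10 * q * (N / (10 * q)) := by ring
            _ ≤ N := h1
        have h3 := key _ hg1 hg2
        obtain ⟨g, hgdef⟩ : ∃ g : ℝ, g = ((N / (10 * q) : ℕ) : ℝ) := ⟨_, rfl⟩
        rw [← hgdef] at h3 hltr
        have hg0 : 0 ≤ g := by rw [hgdef]; positivity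
        have h4 : Real.log (3 / 2) * g ≤ 4 * lam (h' + 2) * q' := by
          have e1 : Real.log (3 / 2) / (16 * q' * q) * (4 * g * q) =
              Real.log (3 / 2) * g / (4 * q') := by
            field_simp
            ring
          rw [e1, div_le_iff₀ (by positivity)] at h3
          linarith
        have h5 : g ≤ 10 * lam (h' + 2) * q' := by
          have h6 : 2 / 5 * g ≤ Real.log (3 / 2) * g := mul_le_mul_of_nonneg_right Num_log hg0
          linarith
        have h6 : 1 ≤ lam (h' + 2) * q' := one_le_mul_of_one_le_of_one_le hL hqr'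
        calc (N : ℝ) ≤ 10 * q * (g + 1) := hltr
          _ ≤ 10 * q * (11 * (lam (h' + 2) * q')) := by
              refine mul_le_mul_of_nonneg_left ?_ (by positivity)
              linarith
          _ = (110 * lam (h' + 2)) * q' * q := by ring
          _ ≤ X (h' + 2) * G' * G := by
              refine mul_le_mul (mul_le_mul ?_ hqg' (by positivity) (by linarith)) hqg
                (by positivity) (by positivity)
              rw [hXe]
              linarith
  refine hgoal.trans (Finset.prod_le_prod (fun i _ => by have := hX1 i; positivity) fun i _ => ?_)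
  refine pow_le_pow_left₀ (by linarith [hX1 i]) ?_ _
  rw [hX, hlam]
  have h5 : 0 ≤ Real.log (f i) + (r (i - 1) + 1) * Real.log N + e i := by
    have h6 : ((r (i - 1) : ℝ) + 1) * Real.log N = (r (i - 1) : ℝ) * Real.log N + Real.log N := by
      ring
    rw [h6]
    linarith [hrN (i - 1), he0 i, hlf i]
  linarith

end Pool.Agent.Work.MP_499dc6_lc.Fib
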