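import Pool.Agent.Work.MP_499dc6_lc.Fib.DefsA

/-!
# Circuits of bounded depth, Fibonacci exponents: statements, part A (the hard polynomial)

Every docstring is the complete proof. `m = n + k`. Models are the files of block D3 with the same
names (`D3/I_GSum.lean`, `D3/I_Struct.lean`, ...; all landed).
-/

namespace Pool.Agent.Work.MP_499dc6_lc.Fib

open MvPolynomial Equiv Finset
open Pool.Agent.Work.MP_499dc6_lc.CD
open Pool.Agent.Work.MP_499dc6_lc.D3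

open scoped Nat

/-- [Wt] EASY. Random sets. `wt A > 0`. For `T ⊆ V`: the sum over `A ⊇ T` is
`(9/10)^|T| * ∏ over the elements outside T of (9/10 + 1/10)`: `Finset.prod_add` for the functions
`9/10` and `if v ∈ T then 0 else 1/10` (a term of the expansion vanishes if `T ⊄ A`). -/
def S_Wt : Prop :=
  ∀ (V : Type) [Fintype V] [DecidableEq V], (∀ A : Finset V, 0 < wt A) ∧
    ∀ T : Finset V, (∑ A : Finset V, if T ⊆ A then wt A else 0) = (9 / 10 : ℝ) ^ T.card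

/-- [Ey] EASY-MEDIUM. Elementary symmetric polynomials. `m = |X|`, `η = y / m` (for `m = 0` all is
`1 ≤ 1`). By `Finset.prod_add` the product on the right is
`∑ A ⊆ X, η^|A| (1-η)^(m-|A|) ∏ x ∈ A, g x ≥ η^y (1-η)^(m-y) * (left side)`. And
`b_j = C(m,j) η^j (1-η)^(m-j)`, `j ≤ m`, sum to `1` and are maximal at `j = y`
(`b_(j+1) / b_j = (m-j) y / ((j+1) (m-y))` is `≥ 1` for `j + 1 ≤ y` and `≤ 1` for `j ≥ y`), so
`b_y ≥ 1/(m+1)`. -/
def S_Ey : Prop :=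
  ∀ (γ : Type) [DecidableEq γ] (X : Finset γ) (g : γ → ℝ) (y : ℕ), (∀ x, 0 ≤ g x) →
    y ≤ X.card →
    (∑ A ∈ X.powersetCard y, ∏ x ∈ A, g x) ≤ ((X.card : ℝ) + 1) * (X.card.choose y) *
      ∏ x ∈ X, (1 - (y : ℝ) / X.card + (y : ℝ) / X.card * g x)

/-- [Pt] EASY. With `ξ = z / n`, `a = log (3/2)` the logarithm of the left side is
`(1-ξ) (k log(1+η/2) + n log(1-η/6)) + ξ (k log(1+η/2) - a k)`. First bracket:
`≤ k η/2 - n η/6 ≤ 0` (`log(1+x) ≤ x`, `3 k ≤ n`); second: `1 + η/2 ≤ 3/2`. -/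
def S_Pt : Prop :=
  ∀ (n k z : ℕ) (η : ℝ), 3 * k ≤ n → 1 ≤ k → z ≤ n → 0 ≤ η → η ≤ 1 →
    (1 + η / 2) ^ k * (1 - η / 6) ^ (n - z) * Real.exp (-(Real.log (3 / 2) * k / n) * z) ≤ 1

/-- [IntA] EASY-MEDIUM (model `D3/I_Int.lean`). The integrand. Both sides are products over the
columns; compare column by column (`c = 3/2`, `t = 9/10`). Columns in `β`: in `AY`: `2 c t = 2 t c`;
in `BY`: `2 c (3/5) = 2 t`; else `c ≤ 2 t`. Columns in `α` (right side `2 t^2` times ...):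
`AY, AZ`: `2 c t (t q) = 2 t^2 (c q)`; `BY, BZ`: `2 c (3/5) t = 2 t^2`; `AY, BZ`:
`c t t ≤ 2 t^2 (5/6)`; `AY` only: `c t = 2 t^2 (5/6)`; `BY, AZ`: `c (3/5) (t q) ≤ 2 t^2 (c q)`; `AZ`
only: `c (t q) ≤ 2 t^2 (c q)`; `BY` only: `c (3/5) ≤ 2 t^2`; `BZ` only: `c t ≤ 2 t^2`; none:
`c ≤ 2 t^2`. -/
def S_IntA : Prop :=
  ∀ (α β : Type) [Fintype α] [Fintype β] [DecidableEq α] [DecidableEq β]
    (AY BY : Finset (α ⊕ β)) (AZ BZ : Finset α) (q : ℝ), 0 < q → Disjoint AY BY →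
    Disjoint AZ BZ →
    (2 : ℝ) ^ (In BY BZ).card * 2 ^ (In AY AZ).card * (3 / 2) ^ (Fintype.card α + Fintype.card β) *
      (3 / 5) ^ BY.card * (9 / 10) ^ BZ.card * (9 / 10) ^ AY.card * (9 / 10 * q) ^ AZ.card ≤
    2 ^ (Fintype.card α + Fintype.card β) *
      (9 / 10) ^ (Fintype.card α + Fintype.card β + Fintype.card α) *
      ((3 / 2) ^ (Ur AY).card * (q * (3 / 2)) ^ AZ.card * (5 / 6) ^ (Out AY AZ).card)

/-- [ASumA] MEDIUM (hEy : S_Ey) (hPt : S_Pt) (hMass : D3.S_Mass). Fix `AZ`, let `z_b = ns s' AZ b`,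
`g x = 3/2` for `x` in the right summand, `1` for `x = inl a` with `a ∈ AZ`, `5/6` for `x = inl a`
with `a ∉ AZ`; then `(3/2)^|Ur AY| (5/6)^|Out AY AZ| = ∏ x ∈ AY, g x`. Group the sets `AY` by
`y_b = ns s AY b ≤ m`: a set is the disjoint union of its two sides, so the sum over the `AY` with
given `y` is `∏ b, y_b! (m-y_b)! e_(y_b)(g on the side b)`, which by `S_Ey` is at most
`∏ b, m! (m+1) (1+η_b/2)^k (1-η_b/6)^(n-z_b)`, `η_b = y_b/m` (`y! (m-y)! C(m,y) = m!`; the side `b`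
has `k` elements in the right summand and `n - z_b` elements with `g = 5/6`). With the factor
`(q 3/2)^|AZ| = ∏ b, exp(-(log(3/2) k/n) z_b)` and `S_Pt` this is `≤ (m! (m+1))^2`; there are
`(m+1)^2` pairs `y`. The sum of `fc s' n AZ` over `AZ` is `((n+1) n!)^2` (`S_Mass`). -/
def S_ASumA : Prop :=
  ∀ (n k : ℕ) (s : CY n k → Bool) (q : ℝ), 3 * k ≤ n → 1 ≤ k → 0 < q →
    q * (3 / 2) = Real.exp (-(Real.log (3 / 2) * k / n)) →
    (∀ b, (univ.filter fun a : CZ n => s (Sum.inl a) = b).card = n) →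
    (∀ b, (univ.filter fun u : Bool × Fin k => s (Sum.inr u) = b).card = k) →
    (∑ AY : Finset (CY n k), ∑ AZ : Finset (CZ n),
      ((3 / 2 : ℝ) ^ (Ur AY).card * (q * (3 / 2)) ^ AZ.card * (5 / 6) ^ (Out AY AZ).card) *
        (fc s (n + k) AY * fc (fun a => s (Sum.inl a)) n AZ)) ≤
      (((n + k : ℕ) : ℝ) + 1) ^ 4 * ((n + k)! : ℝ) ^ 2 * (((n : ℝ) + 1) * (n ! : ℝ)) ^ 2

/-- [GSumA] MEDIUM (hCnt : D3.S_Cnt) (hInt : S_IntA) (hB : D3.S_BSum) (hA : S_ASumA). Copy of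
`D3/I_GSum.lean` (`GSum_fiber`, `GSum_le`, `GSum_main` with `m = n + k`): group the pairs by their
supports (`S_Cnt`), apply `S_IntA`, and sum over `BY` and over `BZ` with `S_BSum` (factor `8` each,
and `ns! (m - ns)!` is `fc`), then `S_ASumA`. -/
def S_GSumA : Prop :=
  ∀ (n k : ℕ) (s : CY n k → Bool) (q : ℝ), 3 * k ≤ n → 1 ≤ k → 0 < q →
    q * (3 / 2) = Real.exp (-(Real.log (3 / 2) * k / n)) →
    (∀ b, (univ.filter fun a : CZ n => s (Sum.inl a) = b).card = n) →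
    (∀ b, (univ.filter fun u : Bool × Fin k => s (Sum.inr u) = b).card = k) →
    (3 / 2 : ℝ) ^ (2 * (n + k)) * (∑ g : Good s, ∑ h : Good s,
      if Disjoint g.1.1.support h.1.1.support ∧ Disjoint g.1.2.support h.1.2.support then
        (3 / 5 : ℝ) ^ g.1.1.support.card * (9 / 10) ^ g.1.2.support.card *
          (9 / 10) ^ h.1.1.support.card * (9 / 10 * q) ^ h.1.2.support.card
      else 0) ≤
    2 ^ (2 * (n + k)) * (9 / 10) ^ (2 * (n + k) + 2 * n) * 64 *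
      ((((n + k : ℕ) : ℝ) + 1) ^ 4 * ((n + k)! : ℝ) ^ 2 * (((n : ℝ) + 1) * (n ! : ℝ)) ^ 2)

/-- [StructA] EASY (model `D3/I_Struct.lean`: `Struct_key`, `Struct_sum` for an arbitrary value `V`;
`d₂` is determined by the others, and in every row `c₂` or `d₁` agrees with `c₁`). -/
def S_StructA : Prop :=
  ∀ (n k : ℕ) (c₁ : Code n k) (p1 p2 p3 p4 : ℝ), 0 ≤ p1 → 0 ≤ p2 → 0 ≤ p3 → 0 ≤ p4 →
    (∑ c₂ : Code n k, ∑ d₁ : Code n k, ∑ d₂ : Code n k,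
      if gr c₁.1.1 + gr d₂.1.1 = gr c₂.1.1 + gr d₁.1.1 ∧
          gr c₁.1.2 + gr d₂.1.2 = gr c₂.1.2 + gr d₁.1.2 then
        p1 ^ (univ.filter fun i => c₂.1.1 i ≠ c₁.1.1 i).card *
          p2 ^ (univ.filter fun j => c₂.1.2 j ≠ c₁.1.2 j).card *
          p3 ^ (univ.filter fun i => d₁.1.1 i ≠ c₁.1.1 i).card *
          p4 ^ (univ.filter fun j => d₁.1.2 j ≠ c₁.1.2 j).card
      else 0) ≤
    ∑ c₂ : Code n k, ∑ d₁ : Code n k,
      if (∀ i, c₂.1.1 i = c₁.1.1 i ∨ d₁.1.1 i = c₁.1.1 i) ∧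
          (∀ j, c₂.1.2 j = c₁.1.2 j ∨ d₁.1.2 j = c₁.1.2 j) then
        p1 ^ (univ.filter fun i => c₂.1.1 i ≠ c₁.1.1 i).card *
          p2 ^ (univ.filter fun j => c₂.1.2 j ≠ c₁.1.2 j).card *
          p3 ^ (univ.filter fun i => d₁.1.1 i ≠ c₁.1.1 i).card *
          p4 ^ (univ.filter fun j => d₁.1.2 j ≠ c₁.1.2 j).card
      else 0

/-- [ShiftA] EASY (copy of `D3/I_Shift.lean` with two more weights). `c₂ ↦ (c₂.1 * c₁.1⁻¹,
c₂.2 * c₁.2⁻¹)` is a bijection from `Code n k` to `Good s`. -/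
def S_ShiftA : Prop :=
  ∀ (n k : ℕ) (c₁ : Code n k) (p1 p2 p3 p4 : ℝ) (s : CY n k → Bool),
    (∀ x, s x = sd (c₁.1.1.symm x)) →
    (∑ c₂ : Code n k, ∑ d₁ : Code n k,
      if (∀ i, c₂.1.1 i = c₁.1.1 i ∨ d₁.1.1 i = c₁.1.1 i) ∧
          (∀ j, c₂.1.2 j = c₁.1.2 j ∨ d₁.1.2 j = c₁.1.2 j) then
        p1 ^ (univ.filter fun i => c₂.1.1 i ≠ c₁.1.1 i).card *
          p2 ^ (univ.filter fun j => c₂.1.2 j ≠ c₁.1.2 j).card *
          p3 ^ (univ.filter fun i => d₁.1.1 i ≠ c₁.1.1 i).card *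
          p4 ^ (univ.filter fun j => d₁.1.2 j ≠ c₁.1.2 j).card
      else 0) =
    ∑ g : Good s, ∑ h : Good s,
      if Disjoint g.1.1.support h.1.1.support ∧ Disjoint g.1.2.support h.1.2.support then
        p1 ^ g.1.1.support.card * p2 ^ g.1.2.support.card * p3 ^ h.1.1.support.card *
          p4 ^ h.1.2.support.card
      else 0

/-- [Uni] EASY. The number of variables of a codeword is `2 (n+k) + 2 n`. If in every row `c₂` or `d₁`
agrees with `c₁`, the union of the variables of the three has `2 (n+k) + 2 n` plus the number of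
the rows (of both matrices) where `c₂` or `d₁` differ from `c₁` elements (the variables of a row:
`(i, c i)`). Third part: the same for the union of two codewords. -/
def S_Uni : Prop :=
  ∀ (n k : ℕ) (c₁ c₂ d₁ : Code n k), (cells c₁).card = 2 * (n + k) + 2 * n ∧
    ((∀ i, c₂.1.1 i = c₁.1.1 i ∨ d₁.1.1 i = c₁.1.1 i) →
      (∀ j, c₂.1.2 j = c₁.1.2 j ∨ d₁.1.2 j = c₁.1.2 j) →
      (cells c₁ ∪ cells c₂ ∪ cells d₁).card = 2 * (n + k) + 2 * n +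
        (univ.filter fun i => c₂.1.1 i ≠ c₁.1.1 i).card +
        (univ.filter fun j => c₂.1.2 j ≠ c₁.1.2 j).card +
        (univ.filter fun i => d₁.1.1 i ≠ c₁.1.1 i).card +
        (univ.filter fun j => d₁.1.2 j ≠ c₁.1.2 j).card) ∧
    (cells c₁ ∪ cells c₂).card = 2 * (n + k) + 2 * n +
        (univ.filter fun i => c₂.1.1 i ≠ c₁.1.1 i).card +
        (univ.filter fun j => c₂.1.2 j ≠ c₁.1.2 j).card

/-- [EZ] MEDIUM (hWt : S_Wt) (hSt : S_StructA) (hSh : S_ShiftA) (hPat : D3.S_Pattern) (hG : S_GSumA)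
(hU : S_Uni). Expected number of rectangles. Write the sum over the subtypes as a sum over
`Code n k` with the condition that the four sets of cells are in `A`, exchange the sums; for fixed
codewords the sum over `A` of `wt A` is at most the one over `A ⊇ cells c₁ ∪ cells c₂ ∪ cells d₁`, which
is `(9/10)^(2(n+k)+2n) (9/10)^(number of changed rows)` (`S_Wt`, `S_Uni`; the condition of `S_Uni` holds
for rectangles, `Struct_a` in `D3/I_Struct.lean`). The exponents are numbers of changed rows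
(`Struct_c`). So the left side is at most `(9/10)^(2(n+k)+2n)` times the sum over `c₁` of the left
side of `S_StructA` for `p1 = 3/5`, `p2 = p3 = 9/10`, `p4 = 9/10 q`; then `S_StructA`, `S_ShiftA`
(`s x = sd (c₁.1.1.symm x)`), `S_Pattern`, `S_GSumA` (divide by `(3/2)^(2(n+k))`). -/
def S_EZ : Prop :=
  ∀ (n k : ℕ) (q : ℝ), 3 * k ≤ n → 1 ≤ k → 0 < q →
    q * (3 / 2) = Real.exp (-(Real.log (3 / 2) * k / n)) →
    (∑ A : Finset (VV n k), wt A * ∑ c₁ : {c : Code n k // cells c ⊆ A},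
      ∑ c₂ : {c : Code n k // cells c ⊆ A}, ∑ d₁ : {c : Code n k // cells c ⊆ A},
      ∑ d₂ : {c : Code n k // cells c ⊆ A},
        if gr c₁.1.1.1 + gr d₂.1.1.1 = gr c₂.1.1.1 + gr d₁.1.1.1 ∧
            gr c₁.1.1.2 + gr d₂.1.1.2 = gr c₂.1.1.2 + gr d₁.1.1.2 then
          (2 / 3 : ℝ) ^ (∑ i, (gr c₂.1.1.1 i - gr c₁.1.1.1 i)) *
            q ^ (∑ j, (gr d₁.1.1.2 j - gr c₁.1.1.2 j)) else 0) ≤
    Fintype.card (Code n k) * (9 / 10) ^ (2 * (2 * (n + k) + 2 * n)) * (4 / 3) ^ (2 * (n + k)) *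
      (64 * ((((n + k : ℕ) : ℝ) + 1) ^ 4 * ((n + k)! : ℝ) ^ 2 * (((n : ℝ) + 1) * (n ! : ℝ)) ^ 2))

/-- [Sec] MEDIUM (hWt : S_Wt) (hU : S_Uni) (hCnt : D3.S_Cnt) (hB : D3.S_BSum) (hPat : D3.S_Pattern)
(hCC : D3.S_CodeCard). First and second moment of the number of codewords in `A`. The first is
`S_Wt` and `S_Uni` after exchanging the sums. The second is `∑ c₁ c₂, (9/10)^|cells c₁ ∪ cells c₂|`;
for fixed `c₁` the bijection `c₂ ↦ g : Good s` (`D3/I_Shift.lean`, `s x = sd (c₁.1.1.symm x)`) gives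
`(9/10)^(2(n+k)+2n) ∑ g, (9/10)^(|supp g.1| + |supp g.2|)`. By `S_Cnt` (`GSum_le` in
`D3/I_GSum.lean`) this sum is at most
`∑ A B, 2^|In A B| ∏ ns(A)! ∏ ns(B)! (9/10)^(|A|+|B|)`, and
`2^|In A B| (9/10)^(|A|+|B|) ≤ 2^(2(n+k)) (9/10)^(2(n+k)+2n)`: column by column, `β`: `2 t` for `A`,
`1 ≤ 2 t` else; `α`: `2 t^2` for `A, B`, `t ≤ 2 t^2` for one of them, `1 ≤ 2 t^2` for none
(`t = 9/10`). `S_BSum` with `A = ∅` gives `∑ A ∏ ns(A)! ≤ 8 (n+k)!^2` and `∑ B ∏ ns(B)! ≤ 8 n!^2`.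
So the sum is at most `64 * 4^(n+k) (n+k)!^2 n!^2 (9/10)^(2(n+k)+2n)`, and `S_CodeCard`. -/
def S_Sec : Prop :=
  ∀ (n k : ℕ), 1 ≤ n → 1 ≤ k →
    (∑ A : Finset (VV n k), wt A * (Fintype.card {c : Code n k // cells c ⊆ A} : ℝ)) =
      Fintype.card (Code n k) * (9 / 10 : ℝ) ^ (2 * (n + k) + 2 * n) ∧
    (∑ A : Finset (VV n k), wt A * (Fintype.card {c : Code n k // cells c ⊆ A} : ℝ) ^ 2) ≤
      64 * ((2 * n + 1) * (2 * k + 1)) *
        (Fintype.card (Code n k) * (9 / 10 : ℝ) ^ (2 * (n + k) + 2 * n)) ^ 2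

/-- [Avg] EASY-MEDIUM. Averaging. `M = ∑ w X > 0`, `E = ∑ w Z`. By Cauchy-Schwarz
`∑ over bad of w X ≤ √(∑ w X²) √δ ≤ √(K δ) M ≤ M/2`, so `∑ over not bad of w X ≥ M/2 > 0`. Assume the
contrary: `4 E X(ω)² < M² Z(ω)` for all not bad `ω` with `X(ω) > 0`. There is such an `ω` with
`w ω > 0`; it has `Z ω > 0`, so `E > 0`. Hence `X ω ≤ M √(Z ω) / (2 √E)` for all not bad `ω`, strictly
for one with `w ω > 0`, and `∑ over not bad of w X < M/(2 √E) ∑ w √Z ≤ M/(2 √E) √E = M/2`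
(Cauchy-Schwarz, `∑ w = 1`), a contradiction. -/
def S_Avg : Prop :=
  ∀ (Ω : Type) [Fintype Ω] (w X Z : Ω → ℝ) (bad : Ω → Prop) [DecidablePred bad] (K δ : ℝ),
    (∀ ω, 0 ≤ w ω) → ∑ ω, w ω = 1 → (∀ ω, 0 ≤ X ω) → (∀ ω, 0 ≤ Z ω) → 0 < ∑ ω, w ω * X ω →
    0 ≤ K → 0 ≤ δ → (∑ ω, w ω * X ω ^ 2) ≤ K * (∑ ω, w ω * X ω) ^ 2 →
    (∑ ω, if bad ω then w ω else 0) ≤ δ → 4 * K * δ ≤ 1 →
    ∃ ω, ¬ bad ω ∧ 0 < X ω ∧
      (∑ ω, w ω * X ω) ^ 2 * Z ω ≤ 4 * (∑ ω, w ω * Z ω) * X ω ^ 2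

/-- [RankA] MEDIUM (hWt : S_Wt) (hAvg : S_Avg) (hSec : S_Sec) (hEZ : S_EZ) (hTr : D3.S_Trace)
(hRE : D3.S_RectE) (hRe : D3.S_Rect) (hCC : D3.S_CodeCard) (hGr : D3.S_Grow3). Model
`D3/I_RankR.lean`. `q = exp(-(log(3/2) (n+k)/n))`, so `q * (3/2) = exp(-(log(3/2) k/n))`. `X A` = number of
codewords in `A`, `Z A` = the fourfold sum in `S_EZ`. `bad A`: some `T i ⊆ A`, probability
`≤ S (9/10)^r` (`S_Wt`). `S_Avg` with `K = 64 (2n+1) (2k+1)`, `δ = S (9/10)^r` gives `A`, not bad,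
`X > 0`, `M² Z ≤ 4 E X²`, `M = |Code| (9/10)^(2(n+k)+2n)`. For `ι` the codewords in `A`: by `S_Trace`,
`S_RectE`, `S_Rect` (in `S_Rect` the bases are `≤ 2/3` and `≤ q` as in `D3/I_RankR.lean`):
`(X TT(L) TT(l))² ≤ rank * TT(L) TT(l) Z`, so `X² TT(L) TT(l) ≤ rank * Z`, hence
`M² TT(L) TT(l) ≤ 4 E rank`, i.e. with `S_EZ`
`|Code| TT(L) TT(l) ≤ 256 (4/3)^(2m) (m+1)^4 (n+1)^2 m!^2 n!^2 rank`, `m = n + k`; with `S_CodeCard`
`(3/2)^(2m) TT(L) TT(l) ≤ 256 (m+1)^4 (n+1)^2 (2n+1) (2k+1) rank` and `S_Grow3`. -/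
def S_RankA : Prop :=
  ∀ (n k L l S r : ℕ) (T : Fin S → Finset (VV n k)), 3 * k ≤ n → 1 ≤ k →
    L + 2 * (n + k) = 2 * ((2 * (n + k)) ^ 2 - 1) →
    (l : ℝ) / ((2 * n : ℕ) ^ 2 + l - 1) ≤ Real.exp (-(Real.log (3 / 2) * (n + k) / n)) →
    (∀ i, r ≤ (T i).card) →
    256 * (S : ℝ) * ((2 * (n + k) + 1 : ℕ) : ℝ) ^ 2 * (9 / 10) ^ r ≤ 1 →
    ∃ A : Finset (VV n k), (∀ i, ¬ T i ⊆ A) ∧
      (TT ((2 * (n + k)) ^ 2) (L + 2 * (n + k)) : ℝ) * TT ((2 * n) ^ 2) l ≤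
        ((mat (PA ℝ n k A) (L + 2 * (n + k)) l L (l + 2 * n)).rank : ℝ) *
          (1000 * ((2 * (n + k) + 1 : ℕ) : ℝ) ^ 8)

/-- [PA] EASY. The restricted polynomial: substitution of zero for the variables outside `A` in the
hard polynomial `D3.PC` (the monomial of `c` is the product of the variables in `cells c`), its
bidegree and its coefficients (models `PC_isBi`, `PC_map` in `D3/Final.lean`). -/
def S_PA : Prop :=
  ∀ (n k : ℕ) (A : Finset (VV n k)),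
    (∀ (R : Type) [CommRing R],
      aeval (fun v => if v ∈ A then (X v : MvPolynomial (VV n k) R) else 0) (PC R n k) =
        PA R n k A) ∧
    (∀ (R : Type) [CommRing R], IsBi (PA R n k A) (2 * (n + k)) (2 * n)) ∧
    ∀ (R S : Type) [CommRing R] [CommRing S] (f : R →+* S),
      MvPolynomial.map f (PA R n k A) = PA S n k A

end Pool.Agent.Work.MP_499dc6_lc.Fib
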