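import Pool.Agent.Work.MP_499dc6_lc.Fib.DefsB

/-!
# Circuits of bounded depth, Fibonacci exponents: statements, part B (upper bound)

Every docstring is the complete proof. Facts about `bc` are in `D3/Bc.lean`; `D3.pr_BcMul`,
`D3.pr_BiBB`, `D3.pr_FacBB`, `D3.pr_LogBi`, `CD.pr_BBmul`, `CD.pr_BBsmul`, `CD.pr_BBone`,
`CD.pr_BBnn` are landed (folders D3, CD, Bd). `BB al be 0 c` holds for `0 ≤ c`.
-/

namespace Pool.Agent.Work.MP_499dc6_lc.Fib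

open MvPolynomial Finset
open Pool.Agent.Work.MP_499dc6_lc.CD
open Pool.Agent.Work.MP_499dc6_lc.D3

/-- [Trunc] EASY (hBM : D3.S_BcMul). The polynomials all of whose components of degree `≤ dd` vanish
are an ideal `I` (`S_BcMul`: a component of a product is a sum of products of components of smaller
degrees). `x a - x' a ∈ I`, so the two values of `Q` are congruent modulo `I` (induction on `Q`, or
`Ideal.Quotient`). -/
def S_Trunc : Prop :=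
  ∀ (Y Z : Type) [Fintype Y] [Fintype Z] (K : Type) [Field K] (dd : ℕ) (ι : Type)
    (x x' : ι → MvPolynomial (Y ⊕ Z) K) (Q : MvPolynomial ι K),
    (∀ a u v, u + v ≤ dd → bc u v (x a) = bc u v (x' a)) →
    ∀ u v, u + v ≤ dd → bc u v (aeval x Q) = bc u v (aeval x' Q)

/-- [Box] EASY-MEDIUM (hBM : D3.S_BcMul). `aeval x Q` is the sum over the exponents `m` of `Q` of
`coeff m Q * ∏ a, x a ^ m a`. If some `m a > dd`, the component of degree `≤ dd` of the product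
vanishes: every factor `x a` has no component of degree `0`, so a product of `j` factors has no
component of degree `< j` (induction on the number of factors with `S_BcMul`). The remaining
exponents are in the box; those of the box outside the support of `Q` have coefficient `0`. -/
def S_Box : Prop :=
  ∀ (Y Z : Type) [Fintype Y] [Fintype Z] (K : Type) [Field K] (ι : Type) [Fintype ι]
    [DecidableEq ι] (x : ι → MvPolynomial (Y ⊕ Z) K) (Q : MvPolynomial ι K) (dd u v : ℕ),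
    (∀ a, bc 0 0 (x a) = 0) → u + v ≤ dd →
    bc u v (aeval x Q) = ∑ m ∈ Fintype.piFinset (fun _ : ι => range (dd + 1)),
      C (coeff (Finsupp.equivFunOnFinite.symm m) Q) * bc u v (∏ a, x a ^ m a)

/-- [Cone] EASY (hBM : D3.S_BcMul). Induction over the factors with `S_BcMul`: a nonzero component of
a product has a nonzero product of components. -/
def S_Cone : Prop :=
  ∀ (Y Z : Type) [Fintype Y] [Fintype Z] (K : Type) [Field K] (ι : Type) [Fintype ι]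
    (x : ι → MvPolynomial (Y ⊕ Z) K) (m : ι → ℕ) (Cn : ℕ → ℕ → Prop), Cn 0 0 →
    (∀ u v u' v', Cn u v → Cn u' v' → Cn (u + u') (v + v')) →
    (∀ a u v, bc u v (x a) ≠ 0 → Cn u v) →
    ∀ u v, bc u v (∏ a, x a ^ m a) ≠ 0 → Cn u v

/-- [Lrg] EASY-MEDIUM (hBM : D3.S_BcMul) (hMul : CD.S_BBmul). Induction over the factors, statement
`BB(component (u,v) of the partial product) ≤ exp(-μ(u+v))` for `u + v ≤ dd`. For `1` it is clear
(`BBone`, `BB.zero`). Step: the component of `x a * G` is the sum over `σ ≤ τ = (u,v)` of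
`(x a)_σ G_(τ-σ)`, zero for `|σ| < t`, and
`∑ σ, exp(-2μ|σ|) exp(-μ|τ-σ|) = exp(-μ|τ|) ∑ σ, exp(-μ|σ|)` over `σ ≤ τ` with `|σ| ≥ t`, at most
`∑ n ∈ [t, dd], (n+1) exp(-μ n) ≤ 1` (there are `n + 1` pairs `σ` of size `n`). -/
def S_Lrg : Prop :=
  ∀ (Y Z : Type) [Fintype Y] [Fintype Z] (K : Type) [Field K] (al be μ : ℝ) (t dd : ℕ)
    (ι : Type) [Fintype ι] (x : ι → MvPolynomial (Y ⊕ Z) K) (m : ι → ℕ),
    (∀ a u v, u + v < t → bc u v (x a) = 0) →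
    (∀ a u v, t ≤ u + v → u + v ≤ dd →
      BB al be (bc u v (x a)) (Real.exp (-(2 * μ * ((u + v : ℕ) : ℝ))))) →
    (∑ n ∈ Icc t dd, ((n : ℝ) + 1) * Real.exp (-(μ * n))) ≤ 1 →
    ∀ u v, u + v ≤ dd →
      BB al be (bc u v (∏ a, x a ^ m a)) (Real.exp (-(μ * ((u + v : ℕ) : ℝ))))

/-- [Loc] MEDIUM (hBM : D3.S_BcMul) (hMul : CD.S_BBmul) (hSm : CD.S_BBsmul) (hTr : S_Trunc)
(hBox : S_Box) (hCone : S_Cone) (hLrg : S_Lrg). Let `exc σ = u al - v be`. Put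
`xp a = ∑ bc σ (x a)` over the `σ` with `1 ≤ |σ| < t`, `|σ| ≤ dd`, `exc σ ≥ 0`; `xn a` the same with
`exc σ < 0`; `xl a` over `t ≤ |σ| ≤ dd` (if `t = 0`: `1 ≤ |σ|`; use `max t 1`). By `S_Trunc` `x a` may be
replaced by `xp a + xn a + xl a`, so `aeval x Q` by `aeval (xp, xn, xl) Q₃`, `Q₃` in `3 r` variables.
`S_Box`: `(dd+1)^(3r)` terms, each a scalar times the component `τ` of `∏ xp^i * ∏ xn^j * ∏ xl^l`,
which by `S_BcMul` is a sum of at most `(dd+1)^4` products `g * h * f` of components `α, β, γ`,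
`α + β + γ = τ`. By `S_Cone` (cone `exc α ≥ 2 κ |α|`) `g = 0` or `exc α ≥ 2 κ |α|`, and `h = 0` or
`-exc β ≥ 2 κ |β|`; so by `BB.term` `BB(g * h) ≤ exp((exc β - exc α)/2) ≤ exp(-κ(|α|+|β|))`, by `S_Lrg`
`BB(f) ≤ exp(-μ|γ|) ≤ exp(-κ|γ|)`; product `≤ exp(-κ|τ|)` (`S_BBmul`, `S_BBsmul`, `BB.add`). -/
def S_Loc : Prop :=
  ∀ (Y Z : Type) [Fintype Y] [Fintype Z] (K : Type) [Field K] (al be κ μ : ℝ) (r t dd : ℕ)
    (x : Fin r → MvPolynomial (Y ⊕ Z) K) (Q : MvPolynomial (Fin r) K), 0 < κ → κ ≤ μ →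
    (∀ a, bc 0 0 (x a) = 0) →
    (∀ u v : ℕ, 1 ≤ u + v → u + v < t → 2 * κ * ((u + v : ℕ) : ℝ) ≤ |(u : ℝ) * al - v * be|) →
    (∀ a u v, t ≤ u + v → u + v ≤ dd →
      BB al be (bc u v (x a)) (Real.exp (-(2 * μ * ((u + v : ℕ) : ℝ))))) →
    (∑ n ∈ Icc t dd, ((n : ℝ) + 1) * Real.exp (-(μ * n))) ≤ 1 →
    ∀ u v, u + v ≤ dd → BB al be (bc u v (aeval x Q))
      (((dd : ℝ) + 1) ^ (3 * r + 4) * Real.exp (-(κ * ((u + v : ℕ) : ℝ))))

/-- [Gat] MEDIUM (hBM : D3.S_BcMul) (hMul : CD.S_BBmul) (hSm : CD.S_BBsmul) (hTr : S_Trunc)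
(hLoc : S_Loc). `Rt` is `S_Loc` for `Q`. `Lr`: if `V = 0` take `w = 0`. Let `c = constantCoeff V ≠ 0`,
`Q₂ = C c⁻¹ * ∑ n ≤ dd, (1 - C c⁻¹ * Q)^n`, `U = aeval x Q₂`. `(1 - c⁻¹ V')` with `V' = aeval x Q` has
no component of degree `0`, so `V' U = 1 - (1 - c⁻¹ V')^(dd+1)` has the same components of degree
`≤ dd` as `1`, and `V U` too (`S_Trunc` or `S_BcMul`). Put
`w τ = ∑ σ ≤ τ, |σ| V_σ U_(τ-σ)` (component `τ` of `(Euler V) U`). Then `w 0 0 = 0`, `w τ` is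
bihomogeneous, and `(w * V)_τ = ((Euler V) U V)_τ = |τ| V_τ` for `|τ| ≤ dd`. `BB(w τ) ≤
∑ over the σ ≠ 0, BB(V_σ) BB(U_(τ-σ)) ≤ (dd+1)^2 (dd+1)^(3r+4) (dd+1)^(3r+4) exp(-κ|τ|)`. -/
def S_Gat : Prop :=
  ∀ (Y Z : Type) [Fintype Y] [Fintype Z] (K : Type) [Field K] [CharZero K] (al be κ μ : ℝ)
    (r t dd : ℕ) (x : Fin r → MvPolynomial (Y ⊕ Z) K) (Q : MvPolynomial (Fin r) K)
    (V : MvPolynomial (Y ⊕ Z) K), 0 < κ → κ ≤ μ →
    (∀ a, bc 0 0 (x a) = 0) →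
    (∀ u v : ℕ, 1 ≤ u + v → u + v < t → 2 * κ * ((u + v : ℕ) : ℝ) ≤ |(u : ℝ) * al - v * be|) →
    (∀ a u v, t ≤ u + v → u + v ≤ dd →
      BB al be (bc u v (x a)) (Real.exp (-(2 * μ * ((u + v : ℕ) : ℝ))))) →
    (∑ n ∈ Icc t dd, ((n : ℝ) + 1) * Real.exp (-(μ * n))) ≤ 1 →
    (∀ u v, u + v ≤ dd → bc u v V = bc u v (aeval x Q)) → (V = 0 ∨ constantCoeff V ≠ 0) →
    Rt al be dd (((dd : ℝ) + 1) ^ (6 * r + 10)) κ V ∧
      Lr al be dd (((dd : ℝ) + 1) ^ (6 * r + 10)) κ V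

/-- [ProdW] EASY-MEDIUM (hBM : D3.S_BcMul). The logarithmic derivative is additive. For two factors:
`|τ| (F G)_τ = ∑ α + β = τ, (|α| + |β|) F_α G_β = ((w_F * F) * G)_τ + (F * (w_G * G))_τ =
((w_F + w_G) * (F G))_τ` for `|τ| ≤ dd` (only smaller degrees occur); `1` has `w = 0`; induction over
the factors. (Or with the double series of `D3/I_LogBi.lean`, truncated.) -/
def S_ProdW : Prop :=
  ∀ (Y Z : Type) [Fintype Y] [Fintype Z] (K : Type) [Field K] (dd s : ℕ)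
    (F : Fin s → MvPolynomial (Y ⊕ Z) K) (k : Fin s → ℕ)
    (w : Fin s → ℕ → ℕ → MvPolynomial (Y ⊕ Z) K), (∀ j, k j ≠ 0 → LD dd (F j) (w j)) →
    LD dd (∏ j, F j ^ k j)
      (fun u v => ∑ j, if k j ≠ 0 then C ((k j : K)) * w j u v else 0)

/-- [ExpT] MEDIUM (hBM : D3.S_BcMul). Let `x = ∑ over 1 ≤ u+v ≤ dd of C (1/(u+v)) * w u v` and
`T = ∑ n ≤ dd, C (V₀/n!) X^n`, `V₀ = constantCoeff V`, `E = aeval x T`. The Euler operator
`(Euler f)_τ = |τ| f_τ` is a derivation (`S_BcMul`), so `Euler (x^(n+1)/(n+1)!) = x^n/n! * Euler x`, and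
`(Euler x)_τ = w τ` for `|τ| ≤ dd`; `x^(dd+1)` has no component of degree `≤ dd`. Hence
`|τ| E_τ = ∑ σ ≤ τ, w σ E_(τ-σ)` for `|τ| ≤ dd`, the same recursion as for `V`, with the same value at
`τ = 0` (`V₀`; `bc 0 0 V = C V₀`). As `w 0 0 = 0` and the characteristic is `0`, strong induction on
`|τ|` gives `V_τ = E_τ`. -/
def S_ExpT : Prop :=
  ∀ (Y Z : Type) [Fintype Y] [Fintype Z] (K : Type) [Field K] [CharZero K] (dd : ℕ)
    (V : MvPolynomial (Y ⊕ Z) K) (w : ℕ → ℕ → MvPolynomial (Y ⊕ Z) K), LD dd V w →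
    ∃ (x : MvPolynomial (Y ⊕ Z) K) (T : Polynomial K), bc 0 0 x = 0 ∧
      (∀ u v : ℕ, 1 ≤ u + v → u + v ≤ dd → bc u v x = C ((((u + v : ℕ) : K))⁻¹) * w u v) ∧
      ∀ u v, u + v ≤ dd → bc u v V = bc u v (Polynomial.aeval x T)

/-- [Bas] EASY-MEDIUM (hSm : CD.S_BBsmul) (hPW : S_ProdW) (hExp : S_ExpT). Sum type: `x = B - C B₀`,
`B₀ = constantCoeff B`, `T = X + C B₀`; for `|τ| ≥ t > e` the component of `l` vanishes (degree
`≤ e`), so `BB ≤ ∑ over J of P exp(-ρ|τ|) ≤ s P exp(-ρ|τ|) ≤ exp(-ρ|τ|/2)` because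
`s P ≤ exp(ρ t/2) ≤ exp(ρ|τ|/2)`. Product type: `w_j` from `Lr` for `k j ≠ 0` (else `0`), `S_ProdW`,
`S_ExpT` for `V = B`; the component of `x` is a scalar times `∑ over k j ≠ 0 of k_j w_j`, the same
bound. -/
def S_Bas : Prop :=
  ∀ (Y Z : Type) [Fintype Y] [Fintype Z] (K : Type) [Field K] [CharZero K] (al be P ρ : ℝ)
    (s e t dd : ℕ) (F : Fin s → MvPolynomial (Y ⊕ Z) K) (J : Finset (Fin s))
    (B : MvPolynomial (Y ⊕ Z) K), 0 < ρ → 0 ≤ P → e < t → 1 ≤ t →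
    (s : ℝ) * P ≤ Real.exp (ρ / 2 * t) →
    (∀ j ∈ J, Rt al be dd P ρ (F j) ∧ Lr al be dd P ρ (F j)) → Basic e F J B →
    ∃ (x : MvPolynomial (Y ⊕ Z) K) (T : Polynomial K), bc 0 0 x = 0 ∧
      (∀ u v : ℕ, t ≤ u + v → u + v ≤ dd →
        BB al be (bc u v x) (Real.exp (-(ρ / 2 * ((u + v : ℕ) : ℝ))))) ∧
      ∀ u v, u + v ≤ dd → bc u v B = bc u v (Polynomial.aeval x T)

/-- [Comp] EASY (hTr : S_Trunc). `Q' = aeval (fun a => Polynomial.aeval (X a) (T a)) Q`: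
`aeval x Q' = aeval (fun a => Polynomial.aeval (x a) (T a)) Q`, then `S_Trunc`. -/
def S_Comp : Prop :=
  ∀ (Y Z : Type) [Fintype Y] [Fintype Z] (K : Type) [Field K] (r dd : ℕ)
    (B x : Fin r → MvPolynomial (Y ⊕ Z) K) (T : Fin r → Polynomial K)
    (Q : MvPolynomial (Fin r) K),
    (∀ a u v, u + v ≤ dd → bc u v (B a) = bc u v (Polynomial.aeval (x a) (T a))) →
    ∃ Q' : MvPolynomial (Fin r) K, ∀ u v, u + v ≤ dd →
      bc u v (aeval B Q) = bc u v (aeval x Q')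

/-- [TTb] EASY. `C(r+u-1, u) x^u ≤ (1-x)^(-r)` for `0 < x < 1` (a term of the binomial series, or
induction on `r`: `∑ j ≤ u, TT(r,j) x^j` for `r + 1` is at most the one for `r` times `1/(1-x)`), with
`x = exp(-log(3/2)/4) ≤ 10/11` (`(3/2)^(1/4) ≥ 11/10`, as `1.1^4 = 1.4641`). `r = 0`: `TT 0 u ≤ 1`. -/
def S_TTb : Prop :=
  ∀ r u : ℕ, (TT r u : ℝ) ≤ 11 ^ r * Real.exp (Real.log (3 / 2) / 4 * u)

/-- [Lev0] MEDIUM (hTT : S_TTb) (hAf : D3.S_Affine) (hBA : D3.S_BcAeval) (hFB : D3.S_FacBB)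
(hLB : D3.S_LogBi). Affine forms are `C c + (y + z)` (`S_Affine`), so `V = aeval (Sum.elim y z) G'` with
`G' = aeval (fun a => C (c a) + (X (inl a) + X (inr a))) G` (see `term_multi` in
`D3/FinalMulti.lean`). `bc u v V = aeval (Sum.elim y z) (bc u v G')` (`S_BcAeval`), so by `S_FacBB`
`BB ≤ TT r0 u * TT r0 v * exp(-(u al + v be)/2) ≤ 11^(2 r0) exp(al (u+v)/4) exp(-al (u+v)/2)`
(`al = log (3/2) ≤ be`). `Lr`: `V = 0`: `w = 0`. Else `constantCoeff G' = constantCoeff V ≠ 0`; `S_LogBi` with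
`D = 1` for `C c⁻¹ * G'` gives `w u v = aeval (Sum.elim y z) (g u v)` with `IsBi (g u v) u v`; the
relation does not change if `V` is multiplied by a constant; `S_FacBB` again. -/
def S_Lev0 : Prop :=
  ∀ (Y Z : Type) [Fintype Y] [Fintype Z] (K : Type) [Field K] (be : ℝ) (r0 dd : ℕ)
    (l : Fin r0 → MvPolynomial (Y ⊕ Z) K) (G : MvPolynomial (Fin r0) K)
    (V : MvPolynomial (Y ⊕ Z) K), Real.log (3 / 2) ≤ be → (∀ a, (l a).totalDegree ≤ 1) →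
    V = aeval l G → (V = 0 ∨ constantCoeff V ≠ 0) →
    Rt (Real.log (3 / 2)) be dd (121 ^ r0) (Real.log (3 / 2) / 4) V ∧
      Lr (Real.log (3 / 2)) be dd (121 ^ r0) (Real.log (3 / 2) / 4) V

/-- [Ind] MEDIUM (hL0 : S_Lev0) (hGat : S_Gat) (hBas : S_Bas) (hComp : S_Comp). Strong induction on `i`.
`ρ` is decreasing on `[0, h]` (`Pars.dec`, `pos`), and `Rt`, `Lr` are monotone in `P` and in `ρ`
(`BB.mono`). A gate which is a polynomial in affine forms: `S_Lev0` and `ρ (d i) ≤ ρ 0 = al/4`. Else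
let `j + 1 = d i`, `t = t (j+1)`, `ρ' = ρ j`: the gates in `Low d i` have level `≤ j`, so they satisfy
`Rt`, `Lr` with `P`, `ρ'` (induction). `S_Bas` (`thr`, `et`) gives `x a`, `T a` for every `B a`, `S_Comp`
gives `Q'`, and `S_Gat` with `μ = ρ'/4`, `κ = ρ (j+1)` (`dec`, `sm`, `ser`) gives the claim as
`(dd+1)^(6r+10) ≤ P`. -/
def S_Ind : Prop :=
  ∀ (Y Z : Type) [Fintype Y] [Fintype Z] (K : Type) [Field K] [CharZero K] (be P : ℝ)
    (s r0 r e h dd : ℕ) (ρ : ℕ → ℝ) (t : ℕ → ℕ) (F : Fin s → MvPolynomial (Y ⊕ Z) K)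
    (d : Fin s → ℕ), Real.log (3 / 2) ≤ be → Pars (Real.log (3 / 2)) be s e dd h P ρ t →
    (121 : ℝ) ^ r0 ≤ P → ((dd : ℝ) + 1) ^ (6 * r + 10) ≤ P → Ckt r0 r e F d →
    (∀ i, d i ≤ h) → (∀ i, F i = 0 ∨ constantCoeff (F i) ≠ 0) →
    ∀ i, Rt (Real.log (3 / 2)) be dd P (ρ (d i)) (F i) ∧
      Lr (Real.log (3 / 2)) be dd P (ρ (d i)) (F i)

end Pool.Agent.Work.MP_499dc6_lc.Fib
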