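import Pool.Agent.Work.MP_499dc6_lc.Fib.DefsB

/-!
# Circuits of bounded depth, Fibonacci exponents: part C (numbers)

The slope `ps (h+1) / qs (h+1)` has continued fraction denominators adapted to the thresholds.
Every docstring is the complete proof.
-/

namespace Pool.Agent.Work.MP_499dc6_lc.Fib

open Finset

/-- Denominators: `q_1 = 1`, `q_2 = Λ`, `q_(j+3) = Λ q_(j+1) q_(j+2) + q_(j+1)`. -/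
def qs (Λ : ℕ) : ℕ → ℕ
  | 0 => 0
  | 1 => 1
  | 2 => Λ
  | (j + 3) => Λ * qs Λ (j + 1) * qs Λ (j + 2) + qs Λ (j + 1)

/-- Numerators, the same recursion with the same partial quotients. -/
def ps (Λ : ℕ) : ℕ → ℕ
  | 0 => 1
  | 1 => 1
  | 2 => Λ + 1
  | (j + 3) => Λ * qs Λ (j + 1) * ps Λ (j + 2) + ps Λ (j + 1)

/-- [Qs] EASY-MEDIUM. Elementary properties, by (strong) induction on `j`. (a) positivity; (b)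
monotone; (c) `4 q_j ≤ q_(j+2)` (`j = 0`: `0`; `j = 1`: `4 ≤ Λ^2 + 1`; else the recursion); (d) for
`j ≥ 2`: `q_j < p_j`; (e) `3 (p_j - q_j) ≤ q_j` for `j ≥ 1`: `r_j = p_j - q_j` satisfies the same
recursion, `r_1 = 0`, `r_2 = 1` (`j = 3`: `3 Λ ≤ Λ^2 + 1`); (f) the determinant changes its sign with
every step: `p_(j+2) q_(j+1) - p_(j+1) q_(j+2) = -(p_(j+1) q_j - p_j q_(j+1))`, value `-1` at `j = 0`;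
(g) growth: `q_(j+3) ≤ (Λ+1) q_(j+1) q_(j+2)` and `fib(j+4) - 1 = 1 + (fib(j+2) - 1) + (fib(j+3) - 1)`. -/
def S_Qs : Prop :=
  ∀ Λ : ℕ, 4 ≤ Λ →
    (∀ j, 1 ≤ j → 1 ≤ qs Λ j) ∧ (∀ j, qs Λ j ≤ qs Λ (j + 1)) ∧
    (∀ j, 4 * qs Λ j ≤ qs Λ (j + 2)) ∧ (∀ j, 2 ≤ j → qs Λ j < ps Λ j) ∧
    (∀ j, 1 ≤ j → qs Λ j ≤ ps Λ j ∧ 3 * (ps Λ j - qs Λ j) ≤ qs Λ j) ∧
    (∀ j, (ps Λ (j + 1) : ℤ) * qs Λ j - ps Λ j * qs Λ (j + 1) = (-1) ^ (j + 1)) ∧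
    (∀ j, 1 ≤ j → qs Λ j ≤ (Λ + 1) ^ (Nat.fib (j + 1) - 1))

/-- [CF] MEDIUM (hQs : S_Qs). `P = p_(h+1)`, `Q = q_(h+1)`. Let `D_i = P q_i - Q p_i` (integers). By
(f) of `S_Qs` `D_i q_(i+1) - D_(i+1) q_i = ± Q`; `D_(h+1) = 0`, `D_h = ±1`, and
`D_i = D_(i+2) - A_(i+1) D_(i+1)` with the positive partial quotients `A_(i+1)`, so by downward
induction the signs alternate and `|D_(i+1)| ≤ |D_i|`; hence `|D_i| q_(i+1) + |D_(i+1)| q_i = Q`, so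
`Q / 2 ≤ |D_i| q_(i+1) ≤ Q` for `1 ≤ i ≤ h`. [Or: `P/Q - p_i/q_i` is the alternating sum of the
`1/(q_j q_(j+1))`, `j ≥ i`, which decrease by a factor `≤ 1/2`.] Let `u + v ≥ 1`, `2 (u+v) ≤ q_(j+1)`.
`v = 0`: `|u Q| ≥ (u+v) Q / 8`. `v ≥ 1`: `m = u q_j - v p_j`. If `m ≠ 0`:
`|u/v - p_j/q_j| ≥ 1/(v q_j)`, `|p_j/q_j - P/Q| ≤ 1/(q_j q_(j+1)) ≤ 1/(2 v q_j)` (`2 v ≤ q_(j+1)`), so
`|u/v - P/Q| ≥ 1/(2 v q_j) ≥ 1/(q_j q_(j+1))`. If `m = 0`: `|u/v - P/Q| = |D_j|/(q_j Q) ≥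
1/(2 q_j q_(j+1))`. So `|u Q - v P| ≥ v Q / (2 q_j q_(j+1))`; for `u ≤ 3 v` this is the claim. For
`u > 3 v`: `u Q - v P ≥ u Q - 2 v Q ≥ u Q / 3 ≥ (u+v) Q / 4` (`P ≤ 2 Q`). -/
def S_CF : Prop :=
  ∀ Λ h j u v : ℕ, 4 ≤ Λ → 1 ≤ j → j ≤ h → 1 ≤ u + v → 2 * (u + v) ≤ qs Λ (j + 1) →
    (((u + v : ℕ) : ℝ)) * qs Λ (h + 1) ≤ 8 * (qs Λ j : ℝ) * qs Λ (j + 1) *
      |(u : ℝ) * qs Λ (h + 1) - v * ps Λ (h + 1)|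

/-- [Par] MEDIUM (hQs : S_Qs) (hCF : S_CF). `a = log (3/2)`, `2/5 ≤ a ≤ 1`. `ρ 0 = a/4`,
`ρ j = a / (16 q_j q_(j+1))` for `j ≥ 1`, `t (j+1) = ⌈4 lam / ρ j⌉₊` (`t 0 = 0`). `dec`: `ρ 1 ≤ a/16`,
`ρ (j+1)/ρ j = q_j/q_(j+2) ≤ 1/4`. `thr`: `ρ j/2 * t ≥ 2 lam`. `et`: `t ≥ 4 lam/ρ j > lam ≥ e`. `ser`:
`∑ n ∈ [t, dd], (n+1) exp(-ρ j n/4) ≤ (dd+1)^2 exp(-ρ j t/4) ≤ (dd+1)^2 exp(-lam) ≤ 1`. `sm`: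
`u + v ≤ t - 1 < 4 lam/ρ j`, so `2 (u+v) ≤ q_(j+2)`: for `j = 0` `8 lam * 4/a ≤ 80 lam ≤ Λ`; for `j ≥ 1`
`8 lam * 16 q_j q_(j+1)/a ≤ 320 lam q_j q_(j+1) ≤ Λ q_j q_(j+1) ≤ q_(j+2)` (`Λ ≥ 330 lam`); then `S_CF`
with `j + 1`: `|u a - v a (n+k)/n| = a |u Q - v P|/Q ≥ a (u+v)/(8 q_(j+1) q_(j+2)) = 2 ρ (j+1) (u+v)`, because
`(n+k)/n = P/Q`. -/
def S_Par : Prop :=
  ∀ (lam P : ℝ) (s e dd h g n k Λ : ℕ), 1 ≤ lam → 0 ≤ P → 1 ≤ h → 1 ≤ g → Λ = ⌈330 * lam⌉₊ →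
    n = g * qs Λ (h + 1) → n + k = g * ps Λ (h + 1) → (e : ℝ) ≤ lam →
    (s : ℝ) * P ≤ Real.exp lam → 2 * Real.log ((dd : ℝ) + 1) ≤ lam →
    ∃ (ρ : ℕ → ℝ) (t : ℕ → ℕ),
      Pars (Real.log (3 / 2)) (Real.log (3 / 2) * (n + k) / n) s e dd h P ρ t ∧
      ρ h = Real.log (3 / 2) / (16 * qs Λ h * qs Λ (h + 1))

/-- [Num] EASY-MEDIUM (hQs : S_Qs). `Λ ≥ 330`, `Λ + 1 ≤ 330 lam + 2 ≤ 332 lam`. Let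
`g = N / (10 q_(h+1))`. If `g = 0` then `N < 10 q_(h+1) ≤ 10 (Λ+1)^(fib(h+2)-1)`, at most the right side.
Else the hypothesis for `g` gives `a g / (4 q_h) ≤ lam` (`a = log (3/2) ≥ 2/5`), `g ≤ 10 lam q_h`,
`N < 10 q_(h+1) (g+1) ≤ 110 lam q_h q_(h+1) ≤ (332 lam)^(1 + (fib(h+1)-1) + (fib(h+2)-1))`, and the exponent
is `fib(h+3) - 1`. -/
def S_Num : Prop :=
  ∀ (lam : ℝ) (h N Λ : ℕ), 1 ≤ lam → 1 ≤ h → Λ = ⌈330 * lam⌉₊ →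
    (∀ g : ℕ, 1 ≤ g → 10 * g * qs Λ (h + 1) ≤ N →
      Real.log (3 / 2) / (16 * qs Λ h * qs Λ (h + 1)) * (4 * g * qs Λ (h + 1)) ≤ lam) →
    (N : ℝ) ≤ (332 * lam) ^ (Nat.fib (h + 3) - 1)

/-- [Lam] EASY-MEDIUM. `r1 = ⌈10 log(256 s N^2)⌉₊ + 1`. `log(10/9) ≥ 1/10`, so
`(9/10)^r1 ≤ 1/(256 s N^2)`. `log N ≥ log 2 ≥ 0.69`, `log 121 ≤ 4.8`, `log 256 ≤ 5.6`, `log 1000 ≤ 7`. So
`r1 ≤ 10 log s + 20 log N + 58 ≤ 10 log s + 105 log N`, with `lm = log N`: `log P ≤ (6r+10) lm +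
4.8 (r + r1) ≤ 48 log s + (13 r + 514) lm`, and `log(1000 (m+1)^8) ≤ 7 + 8 lm ≤ 19 lm`; the sum is at most
`49 log s + (13 r + 533) lm ≤ lam`. The rest follows (`lam ≥ 600 lm ≥ 1`, `2 lm ≤ lam`, `e ≤ lam`). -/
def S_Lam : Prop :=
  ∀ (s r e N : ℕ), 1 ≤ s → 2 ≤ N → ∃ r1 : ℕ, 1 ≤ r1 ∧ ∀ (dd m : ℕ) (lam P : ℝ), dd + 1 ≤ N →
    m + 1 ≤ N → lam = 600 * (Real.log s + (r + 1) * Real.log N + e) →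
    P = ((dd : ℝ) + 1) ^ (6 * r + 10) * 121 ^ (r + r1) →
    256 * (s : ℝ) * ((m + 1 : ℕ) : ℝ) ^ 2 * (9 / 10) ^ r1 ≤ 1 ∧ 1 ≤ lam ∧ (e : ℝ) ≤ lam ∧
      (s : ℝ) * P ≤ Real.exp lam ∧ 2 * Real.log ((dd : ℝ) + 1) ≤ lam ∧
      Real.log (1000 * ((m + 1 : ℕ) : ℝ) ^ 8) + Real.log s + Real.log P ≤ lam

end Pool.Agent.Work.MP_499dc6_lc.Fib
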