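import Pool.Agent.Work.MP_499dc6_lc.Fib.StmtsA
import Pool.Agent.Work.MP_499dc6_lc.Fib.StmtsB
import Pool.Agent.Work.MP_499dc6_lc.Fib.StmtsC

/-!
# Circuits of bounded depth, Fibonacci exponents: part D (assembly)

Every docstring is the complete proof. Models: `CD/Final2.lean`, `D3/FinalMulti.lean`, `Bd/B10.lean`.
-/

namespace Pool.Agent.Work.MP_499dc6_lc.Fib

open MvPolynomial Finset
open Pool.Agent.Work.MP_499dc6_lc.CD
open Pool.Agent.Work.MP_499dc6_lc.D3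

open scoped PowerSeries

/-- Circuits. Every gate is a monomial times a polynomial in `r` affine forms, or, at a level
`≥ 1`, a polynomial in `r` basic polynomials, each of which is a polynomial of degree at most `e` plus
a linear combination of any number of earlier gates of smaller level, or a product of powers of
any number of earlier gates of smaller level. -/
def CktM {K σ : Type} [Field K] {s : ℕ} (r e : ℕ) (F : Fin s → MvPolynomial σ K)
    (d : Fin s → ℕ) : Prop :=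
  ∀ i, (∃ (m : σ →₀ ℕ) (l : Fin r → MvPolynomial σ K) (G : MvPolynomial (Fin r) K),
      (∀ a, (l a).totalDegree ≤ 1) ∧ F i = monomial m 1 * aeval l G) ∨
    (1 ≤ d i ∧ ∃ (B : Fin r → MvPolynomial σ K) (Q : MvPolynomial (Fin r) K),
      (∀ a, Basic e F (Low d i) (B a)) ∧ F i = aeval B Q)

/-- The generic permanent. -/
noncomputable def gperm (R : Type) [CommRing R] (N : ℕ) : MvPolynomial (Fin N × Fin N) R :=
  (Matrix.of fun i j => (X (i, j) : MvPolynomial (Fin N × Fin N) R)).permanent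

/-- [Sub] MEDIUM. Let `T i = {w | θ v = X w for some v in the support of m}` if gate `i` is of the first
kind with monomial `m`, else `∅` (choice). Put `ψ w = if w ∈ A then X w + C (x w) else 0` and
`θ' v = aeval ψ (θ v)`, which is `0`, `1`, `-1` or `ψ w`; `aeval ψ (aeval θ F) = aeval θ' F`. Gates of the
second kind: `aeval B Q ↦ aeval (fun a => aeval θ' (B a)) Q`; a basic polynomial goes to a basic
polynomial (degree `≤ e` is preserved because `θ' v` has degree `≤ 1`; same coefficients and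
exponents). Gates of the first kind: `(∏ v ∈ supp m, θ' v ^ m v) * aeval l' G` with `l' a = aeval θ' (l a)`
of degree `≤ 1`. If `T i` is not contained in `A` some factor is `0 ^ (m v) = 0`: the gate is
`aeval 0 0`. Otherwise `|T i| < r1` by hypothesis, and the product is a polynomial in the
`ψ w`, `w ∈ T i`; choose an injection of `T i` into `Fin r1` and use the family
`Fin (r + r1) → ...` (`Fin.append` or `Fin.addCases`) made of the `l' a` and the `ψ w` (zero elsewhere);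
the gate is the value of the product of the two polynomials (`rename (Fin.castAdd r1)`,
`rename (Fin.natAdd r)`). -/
def S_Sub : Prop :=
  ∀ (σ τ : Type) [Fintype τ] [DecidableEq τ] (K : Type) [Field K] (s r e r1 : ℕ)
    (F : Fin s → MvPolynomial σ K) (d : Fin s → ℕ) (θ : σ → MvPolynomial τ K), 1 ≤ r1 →
    CktM r e F d → (∀ v, θ v = 0 ∨ θ v = 1 ∨ θ v = -1 ∨ ∃ w, θ v = X w) →
    ∃ T : Fin s → Finset τ, ∀ (A : Finset τ) (x : τ → K),
      (∀ i, r1 ≤ (T i).card → ¬ T i ⊆ A) →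
      Ckt (r + r1) r e
        (fun i => aeval (fun w => if w ∈ A then X w + C (x w) else (0 : MvPolynomial τ K))
          (aeval θ (F i))) d

/-- [Scal] EASY-MEDIUM (hProj : D3.S_Proj). `S_Proj` for the ring of polynomials over `k⟦X⟧` and the
variables as `y`, `z`; `PC_prod` (`Bd/B10.lean`). Copy the corresponding steps of `upper_multi` in
`D3/FinalMulti.lean`. `c₀ = (-1)^n 4^n`. -/
def S_Scal : Prop :=
  ∀ (k : Type) [Field k] [CharZero k] (N n kk : ℕ), 4 * (2 * n + kk) ≤ N →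
    ∃ θ : Fin N × Fin N → MvPolynomial (VV n kk) k⟦X⟧,
      (∀ v, θ v = 0 ∨ θ v = 1 ∨ θ v = -1 ∨ ∃ w, θ v = X w) ∧
      ∃ c₀ : k, c₀ ≠ 0 ∧
        aeval θ (gperm k⟦X⟧ N) = C (PowerSeries.C c₀) * PC k⟦X⟧ n kk

/-- [Up] MEDIUM-HARD (hSub : S_Sub) (hScal : S_Scal) (hInd : S_Ind) (hPA : S_PA)
(hTr : CD.S_Transl) (hTT : CD.S_TransTop) (hBH : CD.S_BiHom) (hSm : CD.S_BBsmul). Model `upper_multi` in
`D3/FinalMulti.lean`. `φ = algebraMap k⟦X⟧ (LaurentSeries k)`, `K` the Laurent series field. `θ` from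
`S_Scal`, `T` from `S_Sub` for `map φ ∘ θ`. Given `A`: `ρA w = if w ∈ A then X w else 0`,
`G i = aeval ρA (aeval (map φ ∘ θ) (F i))`; `S_Transl` for `G` gives `x : VV → k` such that with
`tr w = X w + C (φ (C (x w)))` every `aeval tr (G i)` is `0` or has nonzero constant coefficient (if
`G i = 0` it is `0`). `aeval tr ∘ aeval ρA = aeval (if w ∈ A then X w + C .. else 0)`, so
`F' i = aeval tr (G i)` is a circuit `Ckt (r + r1) r e F' d` (`S_Sub`), and `S_Ind` gives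
`BB(bc a b (F' i)) ≤ P exp(-ρ (d i) (a+b)) ≤ P exp(-ρ h (a+b))`, `a = 2 (n+kk)`, `b = 2 n`, `dd = a + b`
(`ρ` is decreasing; the two bounds of `P` are hypotheses). Hence
`BB(bc a b (∑ C (c i) F' i)) ≤ s P exp(-ρ h dd)`. And `∑ C (c i) F' i =
map φ (aeval trP (aeval ρA (C c₀ * PC + C X * R₁)))`, `R₁ = aeval θ R`, `trP w = X w + C (C (x w))`, which by
`S_PA` is `map φ (aeval trP (C c₀ * PA + C X * R₂))`; `bc_gen` (`Bd/B10.lean`) for the bihomogeneous
`PA` gives the component `map φ (C c₀ * PA + C X * R₃)`; multiply by `C c₀⁻¹` (`S_BBsmul`). -/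
def S_Up : Prop :=
  ∀ (k : Type) [Field k] [CharZero k] (N s h r e : ℕ)
    (F : Fin s → MvPolynomial (Fin N × Fin N) (LaurentSeries k)) (d : Fin s → ℕ)
    (c : Fin s → LaurentSeries k) (R : MvPolynomial (Fin N × Fin N) k⟦X⟧)
    (n kk r1 : ℕ) (P : ℝ) (ρ : ℕ → ℝ) (t : ℕ → ℕ), CktM r e F d → (∀ i, d i ≤ h) →
    ∑ i, C (c i) * F i =
      MvPolynomial.map (algebraMap k⟦X⟧ (LaurentSeries k)) (gperm k⟦X⟧ N + C PowerSeries.X * R) →
    1 ≤ r1 → 1 ≤ kk → 3 * kk ≤ n → 4 * (2 * n + kk) ≤ N →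
    Pars (Real.log (3 / 2)) (Real.log (3 / 2) * (n + kk) / n) s e (2 * (n + kk) + 2 * n) h P ρ t →
    (121 : ℝ) ^ (r + r1) ≤ P → (((2 * (n + kk) + 2 * n : ℕ) : ℝ) + 1) ^ (6 * r + 10) ≤ P →
    ∃ T : Fin s → Finset (VV n kk), ∀ A : Finset (VV n kk),
      (∀ i, r1 ≤ (T i).card → ¬ T i ⊆ A) →
      ∃ R' : MvPolynomial (VV n kk) k⟦X⟧,
        BB (Real.log (3 / 2)) (Real.log (3 / 2) * (n + kk) / n)
          (MvPolynomial.map (algebraMap k⟦X⟧ (LaurentSeries k))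
            (PA k⟦X⟧ n kk A + C PowerSeries.X * R'))
          (s * P * Real.exp (-(ρ h * ((2 * (n + kk) + 2 * n : ℕ) : ℝ))))

/-- [Ineq] MEDIUM (hUp : S_Up) (hRA : S_RankA) (hPA : S_PA) (hRK : D3.S_RankK)
(hBr : CD.S_BBrank). Model `ineq_multi` in `D3/FinalMulti.lean`. `T` from `S_Up`. `L` with
`L + 2(n+kk) = 2((2(n+kk))^2 - 1)`, `l` from `ell` (`Bd/B10.lean`) for `(2n)^2` and
`be = log(3/2) (n+kk)/n`. `S_RankA` for the family of the sets `T i` with `r1 ≤ |T i|` (at most `s` of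
them, reindexed by `Fin S`, `S ≤ s`) gives `A`. `S_Up` for this `A`, `S_RankK` for `PA ℤ n kk A` (with
`S_PA`: `map` of `PA`), `S_BBrank` (its exponential factor is `1` since `a al = b be`). So with `Full` the product of
the two `TT`: `Full ≤ rank * Y ≤ Full * s P exp(-ρ h dd) * Y`, `Y = 1000 (2(n+kk)+1)^8`, and `Full > 0`:
`1 ≤ s P Y exp(-ρ h dd)`; so `s ≥ 1`, `P > 0`; take logarithms. -/
def S_Ineq : Prop :=
  ∀ (k : Type) [Field k] [CharZero k] (N s h r e : ℕ)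
    (F : Fin s → MvPolynomial (Fin N × Fin N) (LaurentSeries k)) (d : Fin s → ℕ)
    (c : Fin s → LaurentSeries k) (R : MvPolynomial (Fin N × Fin N) k⟦X⟧)
    (n kk r1 : ℕ) (P : ℝ) (ρ : ℕ → ℝ) (t : ℕ → ℕ), CktM r e F d → (∀ i, d i ≤ h) →
    ∑ i, C (c i) * F i =
      MvPolynomial.map (algebraMap k⟦X⟧ (LaurentSeries k)) (gperm k⟦X⟧ N + C PowerSeries.X * R) →
    1 ≤ r1 → 1 ≤ kk → 3 * kk ≤ n → 4 * (2 * n + kk) ≤ N →
    256 * (s : ℝ) * ((2 * (n + kk) + 1 : ℕ) : ℝ) ^ 2 * (9 / 10) ^ r1 ≤ 1 →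
    Pars (Real.log (3 / 2)) (Real.log (3 / 2) * (n + kk) / n) s e (2 * (n + kk) + 2 * n) h P ρ t →
    (121 : ℝ) ^ (r + r1) ≤ P → (((2 * (n + kk) + 2 * n : ℕ) : ℝ) + 1) ^ (6 * r + 10) ≤ P →
    ρ h * ((2 * (n + kk) + 2 * n : ℕ) : ℝ) ≤
      Real.log (1000 * ((2 * (n + kk) + 1 : ℕ) : ℝ) ^ 8) + Real.log s + Real.log P

/-- [Fin] MEDIUM (hIneq : S_Ineq) (hQs : S_Qs) (hPar : S_Par) (hNum : S_Num) (hLam : S_Lam). `s ≥ 1`:
otherwise `0 = map (perm + C X * R)`, impossible (a coefficient of the permanent is `1`, the one of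
`perm + X R` has constant term `1`). `lam = 600 (log s + (r+1) log N + e) ≥ 1`, `Λ = ⌈330 lam⌉₊`, `r1` from
`S_Lam`. By `S_Num` (`332 * 600 ≤ 2 * 10^5`) it suffices to prove its hypothesis: let `g ≥ 1`,
`10 g q_(h+1) ≤ N`, `n = g q_(h+1)`, `kk = g (p_(h+1) - q_(h+1)) ≥ 1`, `3 kk ≤ n` (`S_Qs`), so
`4 (2 n + kk) ≤ 10 n ≤ N`, `dd = 2 (n+kk) + 2 n`, `m = 2 (n+kk)`: `dd + 1 ≤ N`, `m + 1 ≤ N`.
`P = (dd+1)^(6r+10) 121^(r+r1)`. `S_Lam`, `S_Par`, `S_Ineq`: `ρ h dd ≤ lam`, and `dd ≥ 4 n = 4 g q_(h+1)`. -/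
def S_Fin : Prop :=
  ∀ (k : Type) [Field k] [CharZero k] (N s h r e : ℕ)
    (F : Fin s → MvPolynomial (Fin N × Fin N) (LaurentSeries k)) (d : Fin s → ℕ)
    (c : Fin s → LaurentSeries k) (R : MvPolynomial (Fin N × Fin N) k⟦X⟧), 2 ≤ N → 1 ≤ h →
    CktM r e F d → (∀ i, d i ≤ h) →
    ∑ i, C (c i) * F i =
      MvPolynomial.map (algebraMap k⟦X⟧ (LaurentSeries k)) (gperm k⟦X⟧ N + C PowerSeries.X * R) →
    (N : ℝ) ≤ (2 * 10 ^ 5 * (Real.log s + (r + 1) * Real.log N + e)) ^ (Nat.fib (h + 3) - 1)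

end Pool.Agent.Work.MP_499dc6_lc.Fib
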