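import Pool.Agent.Work.MP_499dc6_lc.Fib.I_Box
import Pool.Agent.Work.MP_499dc6_lc.Fib.I_Loc

/-!
# Depth three, the whole trade-off curve: polynomials in few series with few exponents
-/

namespace Pool.Agent.Work.MP_499dc6_lc.Fib

open MvPolynomial Finset
open Pool.Agent.Work.MP_499dc6_lc.CD
open Pool.Agent.Work.MP_499dc6_lc.D3

/-- The exponents of total degree at most `dd`. -/
def Tr_set (ι : Type) [Fintype ι] [DecidableEq ι] (dd : ℕ) : Finset (ι → ℕ) :=
  (Fintype.piFinset (fun _ : ι => range (dd + 1))).filter fun m => ∑ a, m a ≤ dd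

/-- The number of exponents of total degree at most `dd`. -/
theorem Tr_card (ι : Type) [Fintype ι] [DecidableEq ι] (dd : ℕ) (y : ℝ) (hy0 : 0 < y)
    (hy1 : y < 1) :
    ((Tr_set ι dd).card : ℝ) * y ^ dd ≤ (1 / (1 - y)) ^ Fintype.card ι := by
  have h1 : ((Tr_set ι dd).card : ℝ) * y ^ dd ≤ ∑ m ∈ Tr_set ι dd, ∏ a, y ^ m a := by
    rw [← nsmul_eq_mul]
    refine Finset.card_nsmul_le_sum _ _ _ fun m hm => ?_
    rw [Finset.prod_pow_eq_pow_sum]
    unfold Tr_set at hm
    exact pow_le_pow_of_le_one hy0.le hy1.le (mem_filter.1 hm).2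
  refine h1.trans ?_
  have h2 : ∑ m ∈ Tr_set ι dd, ∏ a, y ^ m a ≤
      ∑ m ∈ Fintype.piFinset (fun _ : ι => range (dd + 1)), ∏ a, y ^ m a := by
    unfold Tr_set
    refine sum_le_sum_of_subset_of_nonneg (filter_subset _ _) fun m _ _ => ?_
    positivity
  refine h2.trans ?_
  rw [← Finset.prod_univ_sum (fun _ : ι => range (dd + 1)) (fun _ k => y ^ k), Finset.prod_const]
  refine pow_le_pow_left₀ (Finset.sum_nonneg fun _ _ => by positivity) ?_ _
  rw [le_div_iff₀ (by linarith), geom_sum_mul_neg]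
  have : 0 ≤ y ^ (dd + 1) := by positivity
  linarith

theorem Tr_box (hBM : D3.S_BcMul) {Y Z : Type} [Fintype Y] [Fintype Z] {K : Type} [Field K]
    {ι : Type} [Fintype ι] [DecidableEq ι] (x : ι → MvPolynomial (Y ⊕ Z) K)
    (Q : MvPolynomial ι K) (dd u v : ℕ) (hx : ∀ a, bc 0 0 (x a) = 0) (huv : u + v ≤ dd) :
    bc u v (aeval x Q) = ∑ m ∈ Tr_set ι dd,
      C (coeff (Finsupp.equivFunOnFinite.symm m) Q) * bc u v (∏ a, x a ^ m a) := by
  classical
  have hx1 : ∀ a, Box_low 1 (x a) := by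
    intro a u v h
    have h1 : u = 0 := by omega
    have h2 : v = 0 := by omega
    rw [h1, h2]
    exact hx a
  set F : (ι →₀ ℕ) → MvPolynomial (Y ⊕ Z) K := fun d =>
    C (coeff d Q) * bc u v (∏ a, x a ^ d a) with hF
  set T : Finset (ι →₀ ℕ) := (Tr_set ι dd).map
    Finsupp.equivFunOnFinite.symm.toEmbedding with hT
  have h1 : bc u v (aeval x Q) = ∑ d ∈ Q.support, F d := by
    rw [aeval_def, eval₂_eq', bc_sum]
    refine sum_congr rfl fun d _ => ?_
    rw [MvPolynomial.algebraMap_eq, bc_C_mul]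
  have h2 : ∑ m ∈ Tr_set ι dd,
      C (coeff (Finsupp.equivFunOnFinite.symm m) Q) * bc u v (∏ a, x a ^ m a) = ∑ d ∈ T, F d := by
    rw [hT, sum_map]
    refine sum_congr rfl fun m _ => ?_
    rfl
  rw [h1, h2]
  have h3 : ∀ d ∈ Q.support, d ∉ T → F d = 0 := by
    intro d _ hd
    have h5 : dd < ∑ a, d a := by
      by_contra h
      push Not at h
      apply hd
      rw [hT, mem_map_equiv]
      unfold Tr_set
      rw [mem_filter, Fintype.mem_piFinset]
      refine ⟨fun a => ?_, h⟩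
      rw [mem_range]
      have : d a ≤ ∑ a, d a := single_le_sum (f := fun a => d a) (fun _ _ => Nat.zero_le _) (mem_univ a)
      show d a < dd + 1
      omega
    rw [hF]
    show C (coeff d Q) * bc u v (∏ a, x a ^ d a) = 0
    rw [Box_low_prod hBM univ x hx1 d u v (by omega), mul_zero]
  have h4 : ∀ d ∈ T, d ∉ Q.support → F d = 0 := by
    intro d _ hd
    rw [notMem_support_iff] at hd
    show C (coeff d Q) * bc u v (∏ a, x a ^ d a) = 0
    rw [hd, C_0, zero_mul]
  calc ∑ d ∈ Q.support, F d = ∑ d ∈ Q.support ∩ T, F d := by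
        symm
        refine sum_subset inter_subset_left fun d hd hd' => ?_
        exact h3 d hd fun h => hd' (mem_inter.2 ⟨hd, h⟩)
    _ = ∑ d ∈ T, F d := by
        refine sum_subset inter_subset_right fun d hd hd' => ?_
        exact h4 d hd fun h => hd' (mem_inter.2 ⟨h, hd⟩)

theorem Tr_loc (hBM : D3.S_BcMul) (hMul : CD.S_BBmul) (hSm : CD.S_BBsmul) (hTr : S_Trunc)
    (hCone : S_Cone) (hLrg : S_Lrg) (Y Z : Type) [Fintype Y] [Fintype Z] (K : Type) [Field K]
    (al be κ μ : ℝ) (r t dd : ℕ)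
    (x : Fin r → MvPolynomial (Y ⊕ Z) K) (Q : MvPolynomial (Fin r) K) (_ : 0 < κ) (hκμ : κ ≤ μ)
    (hx0 : ∀ a, bc 0 0 (x a) = 0)
    (hcone : ∀ u v : ℕ, 1 ≤ u + v → u + v < t →
      2 * κ * ((u + v : ℕ) : ℝ) ≤ |(u : ℝ) * al - v * be|)
    (hlarge : ∀ a u v, t ≤ u + v → u + v ≤ dd →
      BB al be (bc u v (x a)) (Real.exp (-(2 * μ * ((u + v : ℕ) : ℝ)))))
    (hser : (∑ n ∈ Icc t dd, ((n : ℝ) + 1) * Real.exp (-(μ * n))) ≤ 1) (u v : ℕ)
    (huv : u + v ≤ dd) :
    BB al be (bc u v (aeval x Q)) (((Tr_set (Fin 3 × Fin r) dd).card : ℝ) *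
      (((dd : ℝ) + 1) ^ 4 * Real.exp (-(κ * ((u + v : ℕ) : ℝ))))) := by
  classical
  set t' : ℕ := max t 1 with ht'
  have htt' : t ≤ t' := le_max_left _ _
  have h1t' : 1 ≤ t' := le_max_right _ _
  -- the three parts
  set Pp : ℕ → ℕ → Prop := fun u v => 1 ≤ u + v ∧ u + v < t' ∧ 0 ≤ (u : ℝ) * al - v * be with hPp
  set Pn : ℕ → ℕ → Prop := fun u v => 1 ≤ u + v ∧ u + v < t' ∧ (u : ℝ) * al - v * be < 0 with hPn
  set Pl : ℕ → ℕ → Prop := fun u v => t' ≤ u + v ∧ u + v ≤ dd with hPl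
  set P3 : Fin 3 → ℕ → ℕ → Prop := ![Pp, Pn, Pl] with hP3
  set X3 : Fin 3 × Fin r → MvPolynomial (Y ⊕ Z) K := fun q => Loc_part dd (P3 q.1) (x q.2) with hX3
  have hnn : ∀ (c : Fin 3) (u v : ℕ), P3 c u v → 1 ≤ u + v := by
    intro c u v h
    fin_cases c
    · exact h.1
    · exact h.1
    · exact h1t'.trans h.1
  have hX0 : ∀ q, bc 0 0 (X3 q) = 0 := by
    intro q
    by_contra h
    have := hnn _ _ _ (Loc_part_out dd _ _ 0 0 h)
    omega
  have hsmall : ∀ u v : ℕ, 1 ≤ u + v → u + v < t' →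
      2 * κ * ((u + v : ℕ) : ℝ) ≤ |(u : ℝ) * al - v * be| := by
    intro u v h1 h2
    refine hcone u v h1 ?_
    rcases le_total t 1 with h | h
    · rw [ht', max_eq_right h] at h2
      omega
    · rwa [ht', max_eq_left h] at h2
  -- truncation
  have e1 : ∀ a u v, u + v ≤ dd →
      bc u v (x a) = bc u v (X3 (0, a) + X3 (1, a) + X3 (2, a)) := by
    intro a u v h
    rw [bc_add, bc_add]
    have q0 : Pp u v → bc u v (X3 (0, a)) = bc u v (x a) := Loc_pos dd Pp (x a) u v h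
    have q0' : ¬ Pp u v → bc u v (X3 (0, a)) = 0 := Loc_neg dd Pp (x a) u v h
    have q1 : Pn u v → bc u v (X3 (1, a)) = bc u v (x a) := Loc_pos dd Pn (x a) u v h
    have q1' : ¬ Pn u v → bc u v (X3 (1, a)) = 0 := Loc_neg dd Pn (x a) u v h
    have q2 : Pl u v → bc u v (X3 (2, a)) = bc u v (x a) := Loc_pos dd Pl (x a) u v h
    have q2' : ¬ Pl u v → bc u v (X3 (2, a)) = 0 := Loc_neg dd Pl (x a) u v h
    by_cases h0 : u + v = 0
    · have hu : u = 0 := by omega
      have hv : v = 0 := by omega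
      subst hu hv
      rw [hx0 a, hX0, hX0, hX0, add_zero, add_zero]
    · by_cases h1 : u + v < t'
      · have n2 : ¬ Pl u v := fun hc => by have := hc.1; omega
        by_cases h2 : 0 ≤ (u : ℝ) * al - v * be
        · have n1 : ¬ Pn u v := fun hc => absurd hc.2.2 (not_lt.2 h2)
          rw [q0 ⟨by omega, h1, h2⟩, q1' n1, q2' n2, add_zero, add_zero]
        · have n0 : ¬ Pp u v := fun hc => h2 hc.2.2
          rw [q0' n0, q1 ⟨by omega, h1, not_le.1 h2⟩, q2' n2, add_zero, zero_add]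
      · have n0 : ¬ Pp u v := fun hc => h1 hc.2.1
        have n1 : ¬ Pn u v := fun hc => h1 hc.2.1
        rw [q0' n0, q1' n1, q2 ⟨not_lt.1 h1, h⟩, add_zero, zero_add]
  set Q3 : MvPolynomial (Fin 3 × Fin r) K := aeval (fun a : Fin r =>
    (X (0, a) + X (1, a) + X (2, a) : MvPolynomial (Fin 3 × Fin r) K)) Q with hQ3
  have e2 : aeval X3 Q3 = aeval (fun a => X3 (0, a) + X3 (1, a) + X3 (2, a)) Q := by
    rw [hQ3, ← AlgHom.comp_apply]
    congr 1
    refine MvPolynomial.algHom_ext fun a => ?_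
    simp
  have e3 : bc u v (aeval x Q) = bc u v (aeval X3 Q3) := by
    rw [e2]
    exact hTr Y Z K dd (Fin r) x _ Q e1 u v huv
  rw [e3, Tr_box hBM X3 Q3 dd u v hX0 huv]
  -- the bound of one term
  set E : ℝ := Real.exp (-(κ * ((u + v : ℕ) : ℝ))) with hE
  have hE0 : 0 ≤ E := (Real.exp_pos _).le
  have hserl : (∑ n ∈ Icc t' dd, ((n : ℝ) + 1) * Real.exp (-(μ * n))) ≤ 1 := by
    refine le_trans (sum_le_sum_of_subset_of_nonneg ?_ fun n _ _ => ?_) hser
    · exact Icc_subset_Icc htt' le_rfl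
    · positivity
  have hterm : ∀ m : Fin 3 × Fin r → ℕ,
      BB al be (bc u v (∏ q, X3 q ^ m q)) (((dd : ℝ) + 1) ^ 4 * E) := by
    intro m
    have hprod : ∏ q, X3 q ^ m q = (∏ a, X3 (0, a) ^ m (0, a)) *
        ((∏ a, X3 (1, a) ^ m (1, a)) * ∏ a, X3 (2, a) ^ m (2, a)) := by
      rw [Fintype.prod_prod_type, Fin.prod_univ_three, mul_assoc]
    rw [hprod]
    set G := ∏ a, X3 (0, a) ^ m (0, a) with hG
    set H := ∏ a, X3 (1, a) ^ m (1, a) with hH
    set F := ∏ a, X3 (2, a) ^ m (2, a) with hF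
    have cG : ∀ a b : ℕ, bc a b G ≠ 0 → 2 * κ * ((a + b : ℕ) : ℝ) ≤ (a : ℝ) * al - b * be := by
      refine hCone Y Z K (Fin r) (fun a => X3 (0, a)) (fun a => m (0, a))
        (fun a b => 2 * κ * ((a + b : ℕ) : ℝ) ≤ (a : ℝ) * al - b * be) ?_ ?_ ?_
      · simp
      · intro a b a' b' h1 h2
        push_cast at h1 h2 ⊢
        linarith
      · intro i a b h
        have hP : Pp a b := Loc_part_out dd Pp (x i) a b h
        have h2 := hsmall a b hP.1 hP.2.1
        rwa [abs_of_nonneg hP.2.2] at h2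
    have cH : ∀ a b : ℕ, bc a b H ≠ 0 → 2 * κ * ((a + b : ℕ) : ℝ) ≤ -((a : ℝ) * al - b * be) := by
      refine hCone Y Z K (Fin r) (fun a => X3 (1, a)) (fun a => m (1, a))
        (fun a b => 2 * κ * ((a + b : ℕ) : ℝ) ≤ -((a : ℝ) * al - b * be)) ?_ ?_ ?_
      · simp
      · intro a b a' b' h1 h2
        push_cast at h1 h2 ⊢
        linarith
      · intro i a b h
        have hP : Pn a b := Loc_part_out dd Pn (x i) a b h
        have h2 := hsmall a b hP.1 hP.2.1
        rwa [abs_of_neg hP.2.2] at h2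
    have bF : ∀ a b : ℕ, a + b ≤ dd →
        BB al be (bc a b F) (Real.exp (-(κ * ((a + b : ℕ) : ℝ)))) := by
      intro a b hab
      refine BB.mono (hLrg Y Z K al be μ t' dd (Fin r) (fun a => X3 (2, a)) (fun a => m (2, a))
        ?_ ?_ hserl a b hab) ?_
      · intro i a b h
        by_contra h0
        have hP : Pl a b := Loc_part_out dd Pl (x i) a b h0
        have := hP.1
        omega
      · intro i a b h1 h2
        have q2 : bc a b (X3 (2, i)) = bc a b (x i) := Loc_pos dd Pl (x i) a b h2 ⟨h1, h2⟩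
        show BB al be (bc a b (X3 (2, i))) _
        rw [q2]
        exact hlarge i a b (htt'.trans h1) h2
      · rw [Real.exp_le_exp]
        have h0 : (0 : ℝ) ≤ ((a + b : ℕ) : ℝ) := Nat.cast_nonneg _
        have := mul_le_mul_of_nonneg_right hκμ h0
        linarith
    have bGH : ∀ a b a' b' : ℕ, BB al be (bc a b G * bc a' b' H)
        (Real.exp (-(κ * ((a + b + (a' + b') : ℕ) : ℝ)))) := by
      intro a b a' b'
      by_cases hg : bc a b G = 0
      · rw [hg, zero_mul]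
        exact BB.mono BB.zero (Real.exp_pos _).le
      · by_cases hh : bc a' b' H = 0
        · rw [hh, mul_zero]
          exact BB.mono BB.zero (Real.exp_pos _).le
        · refine BB.mono (BB.term (isBi_bc a b G) (isBi_bc a' b' H)) ?_
          rw [Real.exp_le_exp]
          have h1 := cG a b hg
          have h2 := cH a' b' hh
          push_cast at h1 h2 ⊢
          linarith
    have key := Loc_mul hBM (al := al) (be := be) G (H * F) u v dd huv (((dd : ℝ) + 1) ^ 2 * E)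
      (by positivity) (fun a b a' b' ha hb => by
        rw [hBM Y Z K H F a' b', ← sum_product', mul_sum]
        refine BB.mono (Loc_sum _ _ E fun p hp => ?_)
          (mul_le_mul_of_nonneg_right (Loc_card a' b' dd (by omega)) hE0)
        rw [mem_product] at hp
        have h1 := mem_antidiagonal.1 hp.1
        have h2 := mem_antidiagonal.1 hp.2
        rw [← mul_assoc]
        refine BB.mono (hMul Y Z K al be _ _ _ _ (bGH a b p.1.1 p.2.1)
          (bF p.1.2 p.2.2 (by omega))) (le_of_eq ?_)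
        rw [hE, ← Real.exp_add]
        congr 1
        have h3 : ((u + v : ℕ) : ℝ) = ((a + b + (p.1.1 + p.2.1) : ℕ) : ℝ) +
            ((p.1.2 + p.2.2 : ℕ) : ℝ) := by
          rw [← Nat.cast_add]
          congr 1
          omega
        rw [h3]
        ring)
    refine BB.mono key (le_of_eq ?_)
    ring
  exact Loc_sum (al := al) (be := be)
    (Tr_set (Fin 3 × Fin r) dd)
    (fun m => C (coeff (Finsupp.equivFunOnFinite.symm m) Q3) * bc u v (∏ q, X3 q ^ m q))
    (((dd : ℝ) + 1) ^ 4 * E) (fun m _ => hSm Y Z K al be _ _ _ (hterm m))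

/-- The number of exponents, closed form. -/
theorem Tr_count (p dd : ℕ) (hp : 1 ≤ p) (hd : 1 ≤ dd) :
    ((Tr_set (Fin 3 × Fin p) dd).card : ℝ) ≤
      Real.exp (3 * p * (1 + Real.log (1 + dd / (3 * p)))) := by
  have hp0 : (0 : ℝ) < p := by exact_mod_cast hp
  have hd0 : (0 : ℝ) < dd := by exact_mod_cast hd
  have h := Tr_card (Fin 3 × Fin p) dd (dd / (dd + 3 * p)) (by positivity) (by
    rw [div_lt_one (by positivity)]
    linarith)
  have e1 : 1 / (1 - (dd : ℝ) / (dd + 3 * p)) = 1 + dd / (3 * p) := by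
    field_simp
    ring
  have e2 : Fintype.card (Fin 3 × Fin p) = 3 * p := by simp
  rw [e1, e2] at h
  have e3 : (1 + (dd : ℝ) / (3 * p)) ^ (3 * p) = Real.exp (3 * p * Real.log (1 + dd / (3 * p))) := by
    have : (3 : ℝ) * p * Real.log (1 + dd / (3 * p)) =
        ((3 * p : ℕ) : ℝ) * Real.log (1 + dd / (3 * p)) := by push_cast; ring
    rw [this, Real.exp_nat_mul, Real.exp_log (by positivity)]
  have e4 : Real.exp (-(3 * (p : ℝ))) ≤ ((dd : ℝ) / (dd + 3 * p)) ^ dd := by
    have h1 : 1 + 3 * (p : ℝ) / dd ≤ Real.exp (3 * p / dd) := by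
      have := Real.add_one_le_exp (3 * (p : ℝ) / dd)
      linarith
    have h2 : (1 + 3 * (p : ℝ) / dd) ^ dd ≤ Real.exp (3 * p) := by
      calc (1 + 3 * (p : ℝ) / dd) ^ dd ≤ Real.exp (3 * p / dd) ^ dd :=
            pow_le_pow_left₀ (by positivity) h1 _
        _ = Real.exp (3 * p) := by
            rw [← Real.exp_nat_mul]
            congr 1
            field_simp
    have h3 : (dd : ℝ) / (dd + 3 * p) = (1 + 3 * (p : ℝ) / dd)⁻¹ := by
      field_simp
    rw [h3, inv_pow, Real.exp_neg]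
    exact inv_anti₀ (by positivity) h2
  have e5 : ((Tr_set (Fin 3 × Fin p) dd).card : ℝ) * Real.exp (-(3 * (p : ℝ))) ≤
      Real.exp (3 * p * Real.log (1 + dd / (3 * p))) := by
    rw [← e3]
    exact (mul_le_mul_of_nonneg_left e4 (Nat.cast_nonneg _)).trans h
  rw [Real.exp_neg, ← div_eq_mul_inv, div_le_iff₀ (Real.exp_pos _), ← Real.exp_add] at e5
  refine e5.trans (le_of_eq ?_)
  congr 1
  ring

end Pool.Agent.Work.MP_499dc6_lc.Fib
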