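import Pool.Agent.Work.MP_499dc6_lc.Fib.TrA
import Pool.Agent.Work.MP_499dc6_lc.Fib.Main

/-!
# Depth three, the whole trade-off curve: upper bound for a term
-/

namespace Pool.Agent.Work.MP_499dc6_lc.Fib

open MvPolynomial Finset
open Pool.Agent.Work.MP_499dc6_lc.CD
open Pool.Agent.Work.MP_499dc6_lc.D3

open scoped PowerSeries

/-- A polynomial in `p` products of `D` polynomials in `r` affine forms. -/
theorem Tr_term (Y Z : Type) [Fintype Y] [Fintype Z] (K : Type) [Field K] [CharZero K]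
    (be κ : ℝ) (p D r t dd : ℕ) (Q : MvPolynomial (Fin p) K)
    (F : Fin p → Fin D → MvPolynomial (Fin r) K)
    (l : Fin p → Fin D → Fin r → MvPolynomial (Y ⊕ Z) K) (hbe : Real.log (3 / 2) ≤ be)
    (ht : 1 ≤ t) (hκ : 0 < κ) (hκμ : κ ≤ Real.log (3 / 2) / 16)
    (hl : ∀ i j a, (l i j a).totalDegree ≤ 1)
    (hc : ∀ i j, aeval (l i j) (F i j) = 0 ∨ constantCoeff (aeval (l i j) (F i j)) ≠ 0)
    (hthr : (D : ℝ) * 121 ^ r ≤ Real.exp (Real.log (3 / 2) / 4 / 2 * t))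
    (hcone : ∀ u v : ℕ, 1 ≤ u + v → u + v < t →
      2 * κ * ((u + v : ℕ) : ℝ) ≤ |(u : ℝ) * Real.log (3 / 2) - v * be|)
    (hser : (∑ n ∈ Icc t dd, ((n : ℝ) + 1) * Real.exp (-(Real.log (3 / 2) / 16 * n))) ≤ 1)
    (u v : ℕ) (huv : u + v ≤ dd) :
    BB (Real.log (3 / 2)) be (bc u v (aeval (fun i => ∏ j, aeval (l i j) (F i j)) Q))
      (((Tr_set (Fin 3 × Fin p) dd).card : ℝ) *
        (((dd : ℝ) + 1) ^ 4 * Real.exp (-(κ * ((u + v : ℕ) : ℝ))))) := by
  have hal : 0 < Real.log (3 / 2 : ℝ) := Real.log_pos (by norm_num)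
  have hB : ∀ i, ∃ (x : MvPolynomial (Y ⊕ Z) K) (T : Polynomial K), bc 0 0 x = 0 ∧
      (∀ u v : ℕ, t ≤ u + v → u + v ≤ dd →
        BB (Real.log (3 / 2)) be (bc u v x)
          (Real.exp (-(Real.log (3 / 2) / 4 / 2 * ((u + v : ℕ) : ℝ))))) ∧
      ∀ u v, u + v ≤ dd → bc u v (∏ j, aeval (l i j) (F i j)) =
        bc u v (Polynomial.aeval x T) := by
    intro i
    refine mainBas Y Z K (Real.log (3 / 2)) be (121 ^ r) (Real.log (3 / 2) / 4) D 0 t dd
      (fun j => aeval (l i j) (F i j)) univ _ (by positivity) (by positivity) (by omega) ht hthr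
      ?_ ?_
    · intro j _
      exact mainLev0 Y Z K be r dd (l i j) (F i j) _ hbe (hl i j) rfl (hc i j)
    · refine Or.inr ⟨fun _ => 1, fun j _ => mem_univ j, ?_⟩
      exact Finset.prod_congr rfl fun j _ => (pow_one _).symm
  choose x T hx0 hxl hxT using hB
  obtain ⟨Q', hQ'⟩ := pr_Comp mainTrunc Y Z K p dd (fun i => ∏ j, aeval (l i j) (F i j)) x T Q
    hxT
  rw [hQ' u v huv]
  refine Tr_loc D3.pr_BcMul mainBBmul CD.pr_BBsmul mainTrunc (pr_Cone D3.pr_BcMul)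
    (pr_Lrg D3.pr_BcMul mainBBmul) Y Z K (Real.log (3 / 2)) be κ (Real.log (3 / 2) / 16) p t dd x
    Q' hκ hκμ hx0 hcone ?_ hser u v huv
  intro a u v h1 h2
  refine BB.mono (hxl a u v h1 h2) (le_of_eq ?_)
  congr 1
  ring

/-- Upper bound for the functional of the restricted hard polynomial. -/
theorem Tr_upper (k : Type) [Field k] [CharZero k] (N S p D r t n kk : ℕ) (κ : ℝ)
    (Q : Fin S → MvPolynomial (Fin p) (LaurentSeries k))
    (F : Fin S → Fin p → Fin D → MvPolynomial (Fin r) (LaurentSeries k))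
    (l : Fin S → Fin p → Fin D → Fin r → MvPolynomial (Fin N × Fin N) (LaurentSeries k))
    (hl : ∀ i b j a, (l i b j a).totalDegree ≤ 1)
    (R : MvPolynomial (Fin N × Fin N) k⟦X⟧)
    (h : ∑ i, aeval (fun b => ∏ j, aeval (l i b j) (F i b j)) (Q i) =
      MvPolynomial.map (algebraMap k⟦X⟧ (LaurentSeries k))
        (gperm k⟦X⟧ N + C PowerSeries.X * R))
    (hkk : 1 ≤ kk) (hn3 : 3 * kk ≤ n) (hN : 4 * (2 * n + kk) ≤ N) (ht : 1 ≤ t) (hκ : 0 < κ)
    (hκμ : κ ≤ Real.log (3 / 2) / 16)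
    (hthr : (D : ℝ) * 121 ^ r ≤ Real.exp (Real.log (3 / 2) / 4 / 2 * t))
    (hcone : ∀ u v : ℕ, 1 ≤ u + v → u + v < t → 2 * κ * ((u + v : ℕ) : ℝ) ≤
      |(u : ℝ) * Real.log (3 / 2) - v * (Real.log (3 / 2) * (n + kk) / n)|)
    (hser : (∑ m ∈ Icc t (2 * (n + kk) + 2 * n),
      ((m : ℝ) + 1) * Real.exp (-(Real.log (3 / 2) / 16 * m))) ≤ 1)
    (A : Finset (VV n kk)) :
    ∃ R' : MvPolynomial (VV n kk) k⟦X⟧,
      BB (Real.log (3 / 2)) (Real.log (3 / 2) * (n + kk) / n)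
        (MvPolynomial.map (algebraMap k⟦X⟧ (LaurentSeries k))
          (PA k⟦X⟧ n kk A + C PowerSeries.X * R'))
        (S * (((Tr_set (Fin 3 × Fin p) (2 * (n + kk) + 2 * n)).card : ℝ) *
        ((((2 * (n + kk) + 2 * n : ℕ) : ℝ) + 1) ^ 4 *
          Real.exp (-(κ * ((2 * (n + kk) + 2 * n : ℕ) : ℝ)))))) := by
  have := charZero_laurent k
  obtain ⟨θ, hθ, c₀, hc₀, hperm⟩ := pr_Scal (D3.pr_Proj D3.pr_GadCancel D3.pr_GadBij) k N n kk hN
  obtain ⟨φ, hφ⟩ : ∃ φ : k⟦X⟧ →+* LaurentSeries k, φ = algebraMap k⟦X⟧ (LaurentSeries k) :=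
    ⟨_, rfl⟩
  rw [← hφ] at h ⊢
  let ρP : VV n kk → MvPolynomial (VV n kk) k⟦X⟧ := fun w =>
    if w ∈ A then (X w : MvPolynomial (VV n kk) k⟦X⟧) else 0
  let g1 : Fin N × Fin N → MvPolynomial (VV n kk) k⟦X⟧ := fun v => aeval ρP (θ v)
  let θ1 : Fin N × Fin N → MvPolynomial (VV n kk) (LaurentSeries k) :=
    fun v => MvPolynomial.map φ (g1 v)
  have hθ1 : ∀ v, (θ1 v).totalDegree ≤ 1 := by
    intro v
    rcases hθ v with h | h | h | ⟨w, h⟩
    · have : θ1 v = 0 := by simp [θ1, g1, h]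
      rw [this]; simp
    · have : θ1 v = 1 := by simp [θ1, g1, h]
      rw [this]; simp
    · have : θ1 v = C (-1) := by simp [θ1, g1, h]
      rw [this, totalDegree_C]; exact Nat.zero_le _
    · by_cases hw : w ∈ A
      · have : θ1 v = X w := by simp [θ1, g1, h, ρP, hw]
        rw [this, totalDegree_X]
      · have : θ1 v = 0 := by simp [θ1, g1, h, ρP, hw]
        rw [this]; simp
  have h2 : aeval g1 (gperm k⟦X⟧ N) = C (PowerSeries.C c₀) * PA k⟦X⟧ n kk A := by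
    have e1 : aeval g1 (gperm k⟦X⟧ N) = aeval ρP (aeval θ (gperm k⟦X⟧ N)) :=
      (comp_aeval_apply θ (aeval ρP : MvPolynomial (VV n kk) k⟦X⟧ →ₐ[k⟦X⟧] _) _).symm
    rw [e1, hperm, map_mul, Up_aeval_C, (pr_PA n kk A).1]
  -- translation
  let L' : Fin S → Fin p → Fin D → Fin r → MvPolynomial (VV n kk) (LaurentSeries k) :=
    fun i b j a => aeval θ1 (l i b j a)
  let V : Fin S → Fin p → Fin D → MvPolynomial (VV n kk) (LaurentSeries k) :=
    fun i b j => aeval (L' i b j) (F i b j)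
  let en : (Fin S × Fin p × Fin D) ≃ Fin (Fintype.card (Fin S × Fin p × Fin D)) :=
    Fintype.equivFin _
  obtain ⟨x, hx⟩ := CD.pr_Transl (VV n kk) k (Fintype.card (Fin S × Fin p × Fin D))
    (fun q => V (en.symm q).1 (en.symm q).2.1 (en.symm q).2.2)
  rw [← hφ] at hx
  let trP : VV n kk → MvPolynomial (VV n kk) k⟦X⟧ := fun j => X j + C (PowerSeries.C (x j))
  let tr : VV n kk → MvPolynomial (VV n kk) (LaurentSeries k) :=
    fun j => X j + C (φ (PowerSeries.C (x j)))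
  have htr : tr = fun j => MvPolynomial.map φ (trP j) := by
    funext j
    simp [tr, trP]
  have hx' : ∀ i b j, V i b j ≠ 0 → constantCoeff (aeval tr (V i b j)) ≠ 0 := by
    intro i b j hij
    have h3 := hx (en (i, b, j))
    rw [Equiv.symm_apply_apply] at h3
    exact h3 hij
  have hcomp : ∀ i b j, aeval θ1 (aeval (l i b j) (F i b j)) = V i b j := fun i b j =>
    comp_aeval_apply (l i b j) (aeval θ1 : MvPolynomial (Fin N × Fin N) (LaurentSeries k)
        →ₐ[LaurentSeries k] _) (F i b j)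
  have hcomp2 : ∀ i b j, aeval tr (V i b j) =
      aeval (fun a => aeval tr (L' i b j a)) (F i b j) := fun i b j =>
    comp_aeval_apply (L' i b j) (aeval tr : MvPolynomial _ (LaurentSeries k)
        →ₐ[LaurentSeries k] _) (F i b j)
  have hV : ∑ i, aeval (fun b => ∏ j, V i b j) (Q i) =
      MvPolynomial.map φ (C (PowerSeries.C c₀) *
      PA k⟦X⟧ n kk A + C PowerSeries.X * aeval g1 R) := by
    have h3 : aeval θ1 (∑ i, aeval (fun b => ∏ j, aeval (l i b j) (F i b j)) (Q i)) =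
        ∑ i, aeval (fun b => ∏ j, V i b j) (Q i) := by
      rw [map_sum]
      refine Finset.sum_congr rfl fun i _ => ?_
      rw [comp_aeval_apply]
      congr 2
      funext b
      rw [map_prod]
      exact Finset.prod_congr rfl fun j _ => hcomp i b j
    rw [← h3, h, show θ1 = fun p => MvPolynomial.map φ (g1 p) from rfl, aeval_map_map,
      aeval_lin, h2]
  obtain ⟨a, ha⟩ : ∃ a, a = 2 * (n + kk) := ⟨_, rfl⟩
  obtain ⟨b, hb⟩ : ∃ b, b = 2 * n := ⟨_, rfl⟩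
  refine ⟨bc a b (aeval trP (C (PowerSeries.C c₀⁻¹) * aeval g1 R)), ?_⟩
  have hsumF : ∑ i, aeval tr (aeval (fun b => ∏ j, V i b j) (Q i)) =
      MvPolynomial.map φ (aeval trP
        (C (PowerSeries.C c₀) * PA k⟦X⟧ n kk A + C PowerSeries.X * aeval g1 R)) := by
    rw [← map_sum, hV, htr, aeval_map_map]
  have hkey : MvPolynomial.map φ (PA k⟦X⟧ n kk A + C PowerSeries.X *
      bc a b (aeval trP (C (PowerSeries.C c₀⁻¹) * aeval g1 R))) =
      ∑ i, C (φ (PowerSeries.C c₀⁻¹)) * bc a b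
        (aeval tr (aeval (fun b => ∏ j, V i b j) (Q i))) := by
    have h5 := bc_gen CD.pr_TransTop CD.pr_BiHom (fun j => (PowerSeries.C (x j) : k⟦X⟧))
      (PA k⟦X⟧ n kk A) (C (PowerSeries.C c₀⁻¹) * aeval g1 R) PowerSeries.X a b
      (by rw [ha, hb]; exact (pr_PA n kk A).2.1 _)
    have h6 : PA k⟦X⟧ n kk A + C PowerSeries.X * (C (PowerSeries.C c₀⁻¹) * aeval g1 R) =
        C (PowerSeries.C c₀⁻¹) * (C (PowerSeries.C c₀) * PA k⟦X⟧ n kk A +
          C PowerSeries.X * aeval g1 R) := by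
      have h10 : (C (PowerSeries.C c₀⁻¹) : MvPolynomial (VV n kk) k⟦X⟧) *
          C (PowerSeries.C c₀) = 1 := by
        rw [← C_mul, ← map_mul, inv_mul_cancel₀ hc₀, map_one, C_1]
      linear_combination (-(PA k⟦X⟧ n kk A)) * h10
    have h7 : aeval trP (C (PowerSeries.C c₀⁻¹) * (C (PowerSeries.C c₀) * PA k⟦X⟧ n kk A +
          C PowerSeries.X * aeval g1 R)) = C (PowerSeries.C c₀⁻¹) * aeval trP
          (C (PowerSeries.C c₀) * PA k⟦X⟧ n kk A + C PowerSeries.X * aeval g1 R) := by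
      rw [map_mul, Up_aeval_C]
    have h8 : (fun j => (X j + C ((PowerSeries.C (x j) : k⟦X⟧)) :
        MvPolynomial (VV n kk) k⟦X⟧)) = trP := rfl
    rw [h8] at h5
    rw [← h5, h6, h7, ← bc_map, map_mul, map_C, ← hsumF, bc_C_mul, bc_sum, Finset.mul_sum]
  rw [hkey]
  refine BB_fin_sum _ fun i => CD.pr_BBsmul _ _ _ _ _ _ _ _ ?_
  have h7 : aeval tr (aeval (fun b => ∏ j, V i b j) (Q i)) =
      aeval (fun b => ∏ j, aeval (fun a => aeval tr (L' i b j a)) (F i b j)) (Q i) := by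
    rw [comp_aeval_apply]
    congr 2
    funext b
    rw [map_prod]
    exact Finset.prod_congr rfl fun j _ => hcomp2 i b j
  have hn0 : (0 : ℝ) < n := by exact_mod_cast (by omega : 0 < n)
  have hbe1 : Real.log (3 / 2) ≤ Real.log (3 / 2) * (n + kk) / n := by
    have hl : 0 ≤ Real.log (3 / 2 : ℝ) := Real.log_nonneg (by norm_num)
    rw [le_div_iff₀ hn0]
    have : (0 : ℝ) ≤ kk := Nat.cast_nonneg _
    nlinarith
  rw [h7]
  have hfin := Tr_term (CY n kk × CY n kk) (CZ n × CZ n) (LaurentSeries k)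
    (Real.log (3 / 2) * (n + kk) / n) κ p D r t (2 * (n + kk) + 2 * n) (Q i) (F i)
    (fun b j a => aeval tr (L' i b j a)) hbe1 ht hκ hκμ ?_ ?_ hthr hcone hser a b
    (by rw [ha, hb])
  · refine BB.mono hfin (le_of_eq ?_)
    rw [ha, hb]
  · intro b j a
    refine CircSubst_deg 1 tr (fun p => totalDegree_trans_X _ _) _ ?_
    exact CircSubst_deg 1 θ1 hθ1 _ (hl i b j a)
  · intro b j
    rw [← hcomp2]
    by_cases h8 : V i b j = 0
    · left
      rw [h8, map_zero]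
    · right
      exact hx' i b j h8

end Pool.Agent.Work.MP_499dc6_lc.Fib
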