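import Pool.Agent.Work.MP_499dc6_lc.Fib.TrB

/-!
# Depth three, the whole trade-off curve: the inequality
-/

namespace Pool.Agent.Work.MP_499dc6_lc.Fib

open MvPolynomial Finset
open Pool.Agent.Work.MP_499dc6_lc.CD
open Pool.Agent.Work.MP_499dc6_lc.D3

open scoped PowerSeries

/-- The main inequality for given parameters. -/
theorem Tr_ineq (k : Type) [Field k] [CharZero k] (N S p D r t n kk : ℕ) (κ : ℝ)
    (Q : Fin S → MvPolynomial (Fin p) (LaurentSeries k))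
    (F : Fin S → Fin p → Fin D → MvPolynomial (Fin r) (LaurentSeries k))
    (l : Fin S → Fin p → Fin D → Fin r → MvPolynomial (Fin N × Fin N) (LaurentSeries k))
    (hl : ∀ i b j a, (l i b j a).totalDegree ≤ 1)
    (R : MvPolynomial (Fin N × Fin N) k⟦X⟧)
    (h : ∑ i, aeval (fun b => ∏ j, aeval (l i b j) (F i b j)) (Q i) =
      MvPolynomial.map (algebraMap k⟦X⟧ (LaurentSeries k))
        (gperm k⟦X⟧ N + C PowerSeries.X * R))
    (hp : 1 ≤ p)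
    (hkk : 1 ≤ kk) (hn3 : 3 * kk ≤ n) (hN : 4 * (2 * n + kk) ≤ N) (ht : 1 ≤ t) (hκ : 0 < κ)
    (hκμ : κ ≤ Real.log (3 / 2) / 16)
    (hthr : (D : ℝ) * 121 ^ r ≤ Real.exp (Real.log (3 / 2) / 4 / 2 * t))
    (hcone : ∀ u v : ℕ, 1 ≤ u + v → u + v < t → 2 * κ * ((u + v : ℕ) : ℝ) ≤
      |(u : ℝ) * Real.log (3 / 2) - v * (Real.log (3 / 2) * (n + kk) / n)|)
    (hser : (∑ m ∈ Icc t (2 * (n + kk) + 2 * n),
      ((m : ℝ) + 1) * Real.exp (-(Real.log (3 / 2) / 16 * m))) ≤ 1) :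
    1 ≤ S ∧ κ * ((2 * (n + kk) + 2 * n : ℕ) : ℝ) ≤ Real.log S +
      3 * p * (1 + Real.log (1 + ((2 * (n + kk) + 2 * n : ℕ) : ℝ) / (3 * p))) +
      4 * Real.log (((2 * (n + kk) + 2 * n : ℕ) : ℝ) + 1) +
      Real.log (1000 * ((2 * (n + kk) + 1 : ℕ) : ℝ) ^ 8) := by
  classical
  have hal : 0 < Real.log (3 / 2 : ℝ) := Real.log_pos (by norm_num)
  have hn1 : 3 ≤ n := by omega
  obtain ⟨m, hm⟩ : ∃ m, m = n + kk := ⟨_, rfl⟩
  have hm1 : 4 ≤ m := by omega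
  obtain ⟨L, hL⟩ : ∃ L, L + 2 * m = 2 * ((2 * m) ^ 2 - 1) := by
    refine ⟨2 * ((2 * m) ^ 2 - 1) - 2 * m, Nat.sub_add_cancel ?_⟩
    have : 2 * m + 1 ≤ (2 * m) ^ 2 := by nlinarith
    omega
  obtain ⟨be, hbe⟩ : ∃ be : ℝ, be = Real.log (3 / 2) * (n + kk) / n := ⟨_, rfl⟩
  have hnR : (0 : ℝ) < n := by exact_mod_cast (by omega : 0 < n)
  have hbe0 : 0 < be := by rw [hbe]; positivity
  obtain ⟨q, hq1, hq2⟩ := ell ((2 * n) ^ 2) be (by nlinarith) hbe0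
  rw [hbe] at hq1 hq2
  obtain ⟨A, -, hlow⟩ := Ineq_set mainRankA n kk L q 0 0 (fun i => i.elim0) hn3 hkk
    (by rw [← hm]; exact hL) (by push_cast at hq1 ⊢; exact hq1) (by norm_num)
  obtain ⟨R', hBB⟩ := Tr_upper k N S p D r t n kk κ Q F l hl R h hkk hn3 hN ht hκ hκμ hthr hcone
    hser A
  have hlow2 := @D3.pr_RankK D3.pr_Minor (CY n kk × CY n kk) (CZ n × CZ n) _ _ _ _ k _ _
    (PA ℤ n kk A) R' (L + 2 * (n + kk)) q L (q + 2 * n)
  rw [(pr_PA n kk A).2.2, (pr_PA n kk A).2.2] at hlow2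
  have : Nonempty (CY n kk × CY n kk) :=
    ⟨(Sum.inl (true, ⟨0, by omega⟩), Sum.inl (true, ⟨0, by omega⟩))⟩
  have : Nonempty (CZ n × CZ n) :=
    ⟨((true, ⟨0, by omega⟩), (true, ⟨0, by omega⟩))⟩
  have hcY : Fintype.card (CY n kk × CY n kk) = (2 * (n + kk)) ^ 2 := by
    rw [Fintype.card_prod, card_CY, sq]
  have hcZ : Fintype.card (CZ n × CZ n) = (2 * n) ^ 2 := by
    rw [Fintype.card_prod, card_CZ, sq]
  obtain ⟨dd, hdd⟩ : ∃ dd, dd = 2 * (n + kk) + 2 * n := ⟨_, rfl⟩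
  rw [← hdd] at hBB ⊢
  obtain ⟨E, hE⟩ : ∃ E : ℝ, E = ((Tr_set (Fin 3 × Fin p) dd).card : ℝ) *
        (((dd : ℝ) + 1) ^ 4 * Real.exp (-(κ * (dd : ℝ)))) := ⟨_, rfl⟩
  rw [← hE] at hBB
  have hupp := mainBBrank _ _ (LaurentSeries k) _ _ _ _ L q (2 * (n + kk)) (2 * n) (by omega)
    (by
      rw [hcY, ← hm, Real.exp_log (by norm_num)]
      have h5 : ((L : ℝ) + ((2 * m : ℕ) : ℝ)) = 2 * (((2 * m : ℕ) : ℝ) ^ 2 - 1) := by
        have h6 : ((L + 2 * m : ℕ) : ℝ) = ((2 * ((2 * m) ^ 2 - 1) : ℕ) : ℝ) := by rw [hL]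
        rw [Nat.cast_add, Nat.cast_mul 2 ((2 * m) ^ 2 - 1), Nat.cast_sub (Nat.one_le_pow _ _
          (by omega)), Nat.cast_pow] at h6
        push_cast at h6 ⊢
        exact h6
      rw [h5]
      have h7 : (8 : ℝ) ≤ ((2 * m : ℕ) : ℝ) := by exact_mod_cast (by omega : 8 ≤ 2 * m)
      have h8 : (1 : ℝ) < ((2 * m : ℕ) : ℝ) ^ 2 := by nlinarith
      rw [le_div_iff₀ (by linarith)]
      push_cast
      linarith)
    (by rw [hcZ]; exact hq2) hBB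
  rw [hcY, hcZ] at hupp
  have hexp0 : Real.exp (-(((2 * (n + kk) : ℕ) : ℝ) * Real.log (3 / 2) -
      ((2 * n : ℕ) : ℝ) * (Real.log (3 / 2) * (n + kk) / n)) / 2) = 1 := by
    rw [Real.exp_eq_one_iff]
    have hw0 : (n : ℝ) ≠ 0 := hnR.ne'
    push_cast
    field_simp
    ring
  rw [hexp0, mul_one] at hupp
  obtain ⟨W, hW⟩ : ∃ W : ℝ, W = (TT ((2 * (n + kk)) ^ 2) (L + 2 * (n + kk)) : ℝ) *
    TT ((2 * n) ^ 2) q := ⟨_, rfl⟩
  have hWpos : 0 < W := by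
    rw [hW]
    apply mul_pos
    · exact_mod_cast D3.TT_pos (Nat.one_le_pow _ _ (by omega))
    · exact_mod_cast D3.TT_pos (Nat.one_le_pow _ _ (by omega))
  obtain ⟨X, hX⟩ : ∃ X : ℝ, X = 1000 * ((2 * (n + kk) + 1 : ℕ) : ℝ) ^ 8 := ⟨_, rfl⟩
  have hXpos : 0 < X := by rw [hX]; positivity
  rw [← hW, ← hX] at hlow
  rw [← hW] at hupp
  rw [← hX]
  have h9 : W ≤ W * (S * E) * X := by
    refine hlow.trans ?_
    apply mul_le_mul_of_nonneg_right _ hXpos.le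
    exact (Nat.cast_le.mpr hlow2).trans hupp
  have h10 : 1 ≤ (S * E) * X := by
    rw [mul_assoc] at h9
    exact le_of_mul_le_mul_left (by linarith) hWpos
  have hS : 1 ≤ S := by
    by_contra hcon
    have : S = 0 := by omega
    rw [this] at h10
    norm_num at h10
  refine ⟨hS, ?_⟩
  have hSpos : (0 : ℝ) < S := by exact_mod_cast (by omega : 0 < S)
  have hcount := Tr_count p dd hp (by omega)
  have hE2 : E ≤ Real.exp (3 * p * (1 + Real.log (1 + dd / (3 * p)))) *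
      (((dd : ℝ) + 1) ^ 4 * Real.exp (-(κ * (dd : ℝ)))) := by
    rw [hE]
    exact mul_le_mul_of_nonneg_right hcount (by positivity)
  have h12 : 1 ≤ (S * (Real.exp (3 * p * (1 + Real.log (1 + dd / (3 * p)))) *
      (((dd : ℝ) + 1) ^ 4 * Real.exp (-(κ * (dd : ℝ)))))) * X := by
    refine h10.trans ?_
    gcongr
  have h11 := Real.log_le_log one_pos h12
  rw [Real.log_one, Real.log_mul (by positivity) (by positivity), Real.log_mul (by positivity)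
    (by positivity), Real.log_mul (by positivity) (by positivity), Real.log_mul (by positivity)
    (by positivity), Real.log_exp, Real.log_exp, Real.log_pow] at h11
  push_cast at h11
  linarith

end Pool.Agent.Work.MP_499dc6_lc.Fib
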