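import Pool.Agent.Work.MP_499dc6_lc.Fib.TrC

/-!
# Depth three, the whole trade-off curve: numbers
-/

namespace Pool.Agent.Work.MP_499dc6_lc.Fib

open Finset

theorem Tr_exp (m : ℕ) (hm : 696 ≤ m) : (m : ℝ) + 1 ≤ Real.exp (m / 80) := by
  have hmR : (696 : ℝ) ≤ m := by exact_mod_cast hm
  obtain ⟨y, hy⟩ : ∃ y : ℝ, y = 1 + (m : ℝ) / 1280 := ⟨_, rfl⟩
  have hy1 : 1.54 ≤ y := by rw [hy]; linarith
  have h1 : y ≤ Real.exp ((m : ℝ) / 1280) := by
    have := Real.add_one_le_exp ((m : ℝ) / 1280)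
    rw [hy]; linarith
  have h2 : y ^ 16 ≤ Real.exp (m / 80) := by
    calc y ^ 16 ≤ Real.exp ((m : ℝ) / 1280) ^ 16 := pow_le_pow_left₀ (by linarith) h1 _
      _ = Real.exp (m / 80) := by
          rw [← Real.exp_nat_mul]
          congr 1
          push_cast
          ring
  refine le_trans ?_ h2
  have h3 : (1.54 : ℝ) ^ 14 ≤ y ^ 14 := pow_le_pow_left₀ (by norm_num) hy1 _
  have h4 : (420 : ℝ) ≤ (1.54 : ℝ) ^ 14 := by norm_num
  have h5 : y ^ 16 = y ^ 14 * y ^ 2 := by ring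
  have h6 : 420 * y ^ 2 ≤ y ^ 16 := by
    rw [h5]
    exact mul_le_mul_of_nonneg_right (h4.trans h3) (by positivity)
  refine le_trans ?_ h6
  have h7 : (m : ℝ) = 1280 * (y - 1) := by rw [hy]; ring
  rw [h7]
  nlinarith [sq_nonneg (y - 1.524)]

theorem Tr_ser (t dd : ℕ) (ht : 696 ≤ t) :
    (∑ m ∈ Icc t dd, ((m : ℝ) + 1) * Real.exp (-(Real.log (3 / 2) / 16 * m))) ≤ 1 := by
  have ha := Par_log_ge
  have h1 : ∀ m ∈ Icc t dd, ((m : ℝ) + 1) * Real.exp (-(Real.log (3 / 2) / 16 * m)) ≤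
      Real.exp (-((m : ℝ) / 80)) := by
    intro m hm
    have h2 := Tr_exp m (ht.trans (mem_Icc.1 hm).1)
    have h3 : Real.exp (-(Real.log (3 / 2) / 16 * m)) ≤ Real.exp (-((m : ℝ) / 40)) := by
      rw [Real.exp_le_exp]
      have : (0 : ℝ) ≤ m := Nat.cast_nonneg m
      nlinarith
    calc ((m : ℝ) + 1) * Real.exp (-(Real.log (3 / 2) / 16 * m)) ≤
        Real.exp (m / 80) * Real.exp (-((m : ℝ) / 40)) :=
          mul_le_mul h2 h3 (Real.exp_pos _).le (Real.exp_pos _).le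
      _ = Real.exp (-((m : ℝ) / 80)) := by
          rw [← Real.exp_add]
          congr 1
          ring
  refine (sum_le_sum h1).trans ?_
  obtain ⟨q, hq⟩ : ∃ q : ℝ, q = Real.exp (-(1 / 80)) := ⟨_, rfl⟩
  have hq0 : 0 < q := by rw [hq]; exact Real.exp_pos _
  have hq1 : q ≤ 80 / 81 := by
    have h2 : (81 : ℝ) / 80 ≤ Real.exp (1 / 80) := by
      have := Real.add_one_le_exp (1 / 80 : ℝ)
      linarith
    rw [hq, Real.exp_neg]
    calc (Real.exp (1 / 80))⁻¹ ≤ ((81 : ℝ) / 80)⁻¹ := inv_anti₀ (by norm_num) h2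
      _ = 80 / 81 := by norm_num
  have h4 : ∑ m ∈ Icc t dd, Real.exp (-((m : ℝ) / 80)) =
      Real.exp (-((t : ℝ) / 80)) * ∑ i ∈ range (dd + 1 - t), q ^ i := by
    have : Icc t dd = Ico t (dd + 1) := by
      ext x
      simp only [mem_Icc, mem_Ico]
      omega
    rw [this, sum_Ico_eq_sum_range, mul_sum]
    refine sum_congr rfl fun i _ => ?_
    rw [hq, ← Real.exp_nat_mul, ← Real.exp_add]
    congr 1
    push_cast
    ring
  rw [h4]
  have h5 : ∑ i ∈ range (dd + 1 - t), q ^ i ≤ 81 := by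
    have h6 : (∑ i ∈ range (dd + 1 - t), q ^ i) * (1 - q) = 1 - q ^ (dd + 1 - t) :=
      geom_sum_mul_neg q _
    have h7 : 0 ≤ q ^ (dd + 1 - t) := by positivity
    have h8 : 0 ≤ ∑ i ∈ range (dd + 1 - t), q ^ i := sum_nonneg fun _ _ => by positivity
    nlinarith
  have h6 : Real.exp (-((t : ℝ) / 80)) * 81 ≤ 1 := by
    have h7 := Tr_exp t ht
    have h8 : (696 : ℝ) ≤ t := by exact_mod_cast ht
    rw [Real.exp_neg, inv_mul_le_iff₀ (Real.exp_pos _)]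
    linarith
  exact (mul_le_mul_of_nonneg_left h5 (Real.exp_pos _).le).trans h6

theorem Tr_cone (Λ g t u v : ℕ) (hg : 1 ≤ g) (ht : 1 ≤ t) (hΛ : Λ = 2 * t) (h1 : 1 ≤ u + v)
    (h2 : u + v < t) :
    2 * (Real.log (3 / 2) / (4 * Λ)) * ((u + v : ℕ) : ℝ) ≤
      |(u : ℝ) * Real.log (3 / 2) - v * (Real.log (3 / 2) * (((g * Λ : ℕ) : ℝ) + (g : ℕ)) /
        ((g * Λ : ℕ) : ℝ))| := by
  have hal : 0 < Real.log (3 / 2 : ℝ) := Real.log_pos (by norm_num)
  have hg0 : (0 : ℝ) < g := by exact_mod_cast hg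
  have hΛ0 : (0 : ℝ) < Λ := by
    have : 0 < Λ := by omega
    exact_mod_cast this
  have e1 : (u : ℝ) * Real.log (3 / 2) - v * (Real.log (3 / 2) * (((g * Λ : ℕ) : ℝ) + (g : ℕ)) /
        ((g * Λ : ℕ) : ℝ)) = Real.log (3 / 2) / Λ * ((u : ℝ) * Λ - v * (Λ + 1)) := by
    push_cast
    field_simp
  have e2 : 2 * (Real.log (3 / 2) / (4 * Λ)) * ((u + v : ℕ) : ℝ) =
      Real.log (3 / 2) / Λ * (((u : ℝ) + v) / 2) := by
    push_cast
    field_simp
    ring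
  rw [e1, e2, abs_mul, abs_of_pos (by positivity)]
  refine mul_le_mul_of_nonneg_left ?_ (by positivity)
  have hu : (0 : ℝ) ≤ u := Nat.cast_nonneg u
  have hv : (0 : ℝ) ≤ v := Nat.cast_nonneg v
  have huv : (u : ℝ) + v + 1 ≤ t := by exact_mod_cast h2
  have hΛR : (Λ : ℝ) = 2 * t := by rw [hΛ]; push_cast; ring
  have ht0 : (0 : ℝ) < t := by exact_mod_cast ht
  rcases lt_trichotomy u v with h | h | h
  · have h3 : (u : ℝ) + 1 ≤ v := by exact_mod_cast h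
    rw [abs_sub_comm]
    refine le_trans ?_ (le_abs_self _)
    nlinarith
  · subst h
    rw [abs_sub_comm]
    refine le_trans ?_ (le_abs_self _)
    nlinarith
  · have h3 : (v : ℝ) + 1 ≤ u := by exact_mod_cast h
    refine le_trans ?_ (le_abs_self _)
    nlinarith

end Pool.Agent.Work.MP_499dc6_lc.Fib
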